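import Pool.Agent.H973.CT.Stm

set_option autoImplicit false

/-! Union bounds for the random graph. -/

namespace Pool.Agent.H973.CT

open Finset Classical Pool.Agent.W166.Gnp

theorem choose_le_exp (N s : ℕ) (hs : 0 < s) :
    (N.choose s : ℝ) ≤ (Real.exp 1 * N / s) ^ s := by
  have h1 : (N.choose s : ℝ) ≤ (N : ℝ) ^ s / s.factorial := Nat.choose_le_pow_div s N
  have h2 : (s : ℝ) ^ s / s.factorial ≤ Real.exp s :=
    Real.pow_div_factorial_le_exp s (by positivity) s
  have hf : (0 : ℝ) < s.factorial := by exact_mod_cast Nat.factorial_pos s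
  have hsr : (0 : ℝ) < s := by exact_mod_cast hs
  have h3 : (1 : ℝ) / s.factorial ≤ Real.exp s / (s : ℝ) ^ s := by
    rw [div_le_div_iff₀ hf (by positivity)]
    rw [div_le_iff₀ hf] at h2
    linarith
  calc (N.choose s : ℝ) ≤ (N : ℝ) ^ s / s.factorial := h1
    _ = (N : ℝ) ^ s * (1 / s.factorial) := by ring
    _ ≤ (N : ℝ) ^ s * (Real.exp s / (s : ℝ) ^ s) := mul_le_mul_of_nonneg_left h3 (by positivity)
    _ = (Real.exp 1 * N / s) ^ s := by
        rw [div_pow, mul_pow, ← Real.exp_nat_mul, mul_one]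
        ring

/-- upper tail for the number of elements of `D` -/
theorem tail {α : Type} [DecidableEq α] {E D : Finset α} (hD : D ⊆ E) {p : ℝ} (h0 : 0 ≤ p) (h1 : p ≤ 1) (t x : ℝ) (ht : 0 ≤ t)
    (hx : Real.exp (1 + t) * D.card * p ≤ x) :
    Pr E p (fun S => x ≤ ((S ∩ D).card : ℝ)) ≤ Real.exp (-(t * x)) := by
  by_cases hx0 : x ≤ 0
  · refine (Pr_le_one h0 h1 _).trans (Real.one_le_exp ?_)
    have := mul_nonneg ht (neg_nonneg.mpr hx0)
    linarith
  push Not at hx0
  have hs : 0 < ⌈x⌉₊ := Nat.ceil_pos.mpr hx0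
  set s := ⌈x⌉₊ with hsdef
  have hsr : (0 : ℝ) < s := by exact_mod_cast hs
  have hxs : x ≤ s := Nat.le_ceil x
  calc Pr E p (fun S => x ≤ ((S ∩ D).card : ℝ)) ≤ Pr E p (fun S => s ≤ (S ∩ D).card) := by
        apply Pr_mono h0 h1
        intro S _ h
        exact Nat.ceil_le.mpr h
    _ ≤ (D.card.choose s : ℝ) * p ^ s := card_up hD h0 h1 s
    _ ≤ (Real.exp 1 * D.card / s) ^ s * p ^ s :=
        mul_le_mul_of_nonneg_right (choose_le_exp _ _ hs) (pow_nonneg h0 _)
    _ = (Real.exp 1 * D.card * p / s) ^ s := by rw [← mul_pow]; ring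
    _ ≤ (Real.exp (-t)) ^ s := by
        apply pow_le_pow_left₀ (by positivity)
        rw [div_le_iff₀ hsr]
        have e1 : Real.exp 1 = Real.exp (-t) * Real.exp (1 + t) := by
          rw [← Real.exp_add]; congr 1; ring
        calc Real.exp 1 * D.card * p = Real.exp (-t) * (Real.exp (1 + t) * D.card * p) := by
              rw [e1]; ring
          _ ≤ Real.exp (-t) * x := mul_le_mul_of_nonneg_left hx (Real.exp_pos _).le
          _ ≤ Real.exp (-t) * s := mul_le_mul_of_nonneg_left hxs (Real.exp_pos _).le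
    _ = Real.exp (-(t * s)) := by rw [← Real.exp_nat_mul]; congr 1; ring
    _ ≤ Real.exp (-(t * x)) := Real.exp_le_exp.mpr (by nlinarith)

theorem exp_two_le : Real.exp 2 ≤ 8 := by
  have h : Real.exp 2 = Real.exp 1 ^ 2 := by rw [← Real.exp_nat_mul]; norm_num
  have h2 := Real.exp_one_lt_d9
  rw [h]
  nlinarith [Real.exp_pos 1]

/-- the case `t = 1` -/
theorem tail8 {α : Type} [DecidableEq α] {E D : Finset α} (hD : D ⊆ E) {p : ℝ} (h0 : 0 ≤ p) (h1 : p ≤ 1) (x : ℝ)
    (hx : 8 * D.card * p ≤ x) :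
    Pr E p (fun S => x ≤ ((S ∩ D).card : ℝ)) ≤ Real.exp (-x) := by
  have := tail hD h0 h1 1 x zero_le_one (by
    refine le_trans ?_ hx
    have h2 : Real.exp (1 + 1) ≤ 8 := by norm_num; exact exp_two_le
    have : 0 ≤ (D.card : ℝ) * p := by positivity
    nlinarith)
  simpa using this

variable {n : ℕ}

/-- the pairs `{x, y}`, `x ∈ A`, `y ∈ B`, `x ≠ y` -/
noncomputable def prs (A B : Finset (Fin n)) : Finset (Sym2 (Fin n)) :=
  ((A ×ˢ B).filter (fun q => q.1 ≠ q.2)).image (fun q => s(q.1, q.2))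

theorem prs_sub (A B : Finset (Fin n)) : prs A B ⊆ allE n := by
  intro e he
  simp only [prs, mem_image, mem_filter, mem_product] at he
  obtain ⟨q, ⟨_, hq⟩, rfl⟩ := he
  exact mem_allE.mpr hq

theorem card_prs (A B : Finset (Fin n)) : (prs A B).card ≤ A.card * B.card := by
  refine card_image_le.trans ((card_filter_le _ _).trans ?_)
  rw [card_product]

theorem mem_prs {A B : Finset (Fin n)} {x y : Fin n} (hx : x ∈ A) (hy : y ∈ B) (h : x ≠ y) :
    s(x, y) ∈ prs A B := by
  simp only [prs, mem_image, mem_filter, mem_product]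
  exact ⟨(x, y), ⟨⟨hx, hy⟩, h⟩, rfl⟩

theorem sum_nb_le {S : Finset (Sym2 (Fin n))} (hS : S ⊆ allE n) (A B : Finset (Fin n)) :
    ∑ x ∈ A, (nb S B x).card ≤ 2 * (S ∩ prs A B).card := by
  have h1 : ∑ x ∈ A, (nb S B x).card =
      ((A ×ˢ B).filter (fun q => s(q.1, q.2) ∈ S)).card := by
    simp only [nb]
    rw [card_filter, sum_product]
    apply sum_congr rfl
    intro x _
    rw [card_filter]
  rw [h1]
  refine card_le_mul_card_image_of_maps_to (f := fun q : Fin n × Fin n => s(q.1, q.2)) ?_ 2 ?_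
  · intro q hq
    simp only [mem_filter, mem_product] at hq
    rw [mem_inter]
    refine ⟨hq.2, mem_prs hq.1.1 hq.1.2 ?_⟩
    exact mem_allE.mp (hS hq.2)
  · intro e _
    induction e with
    | _ a b =>
      refine le_trans (card_le_card (t := {(a, b), (b, a)}) ?_) card_le_two
      intro q hq
      simp only [mem_filter, Sym2.eq_iff] at hq
      simp only [mem_insert, mem_singleton, Prod.ext_iff]
      tauto

theorem sum_nb_disj {S : Finset (Sym2 (Fin n))} (A B : Finset (Fin n)) (hAB : Disjoint A B) :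
    ∑ x ∈ A, (nb S B x).card ≤ (S ∩ prs A B).card := by
  have h1 : ∑ x ∈ A, (nb S B x).card =
      ((A ×ˢ B).filter (fun q => s(q.1, q.2) ∈ S)).card := by
    simp only [nb]
    rw [card_filter, sum_product]
    apply sum_congr rfl
    intro x _
    rw [card_filter]
  rw [h1]
  refine card_le_card_of_injOn (fun q : Fin n × Fin n => s(q.1, q.2)) ?_ ?_
  · intro q hq
    have hq' := mem_filter.mp (mem_coe.mp hq)
    rw [mem_product] at hq'
    refine mem_coe.mpr (mem_inter.mpr ⟨hq'.2, mem_prs hq'.1.1 hq'.1.2 ?_⟩)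
    exact fun h => (Finset.disjoint_left.mp hAB) hq'.1.1 (h ▸ hq'.1.2)
  · intro q hq q' hq' h
    have hq1 := mem_filter.mp (mem_coe.mp hq)
    have hq2 := mem_filter.mp (mem_coe.mp hq')
    rw [mem_product] at hq1 hq2
    simp only [Sym2.eq_iff] at h
    rcases h with h | h
    · exact Prod.ext h.1 h.2
    · exact absurd (h.1 ▸ hq1.1.1) (Finset.disjoint_right.mp hAB hq2.1.2)

theorem card_finsets : (univ : Finset (Finset (Fin n))).card = 2 ^ n := by
  simp

theorem two_pow_le_exp (n : ℕ) : (2 : ℝ) ^ n ≤ Real.exp n := by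
  rw [← Real.exp_one_pow]
  apply pow_le_pow_left₀ (by norm_num)
  have := Real.add_one_le_exp (1 : ℝ)
  linarith

/-- **degrees** -/
theorem deg_bound {p : ℝ} (h0 : 0 ≤ p) (h1 : p ≤ 1) :
    Pr (allE n) p (fun S => ∃ v : Fin n, 8 * (p * n) ≤ ((nb S univ v).card : ℝ)) ≤
      n * Real.exp (-(8 * (p * n))) := by
  calc Pr (allE n) p (fun S => ∃ v : Fin n, 8 * (p * n) ≤ ((nb S univ v).card : ℝ))
      ≤ Pr (allE n) p (fun S => ∃ v ∈ (univ : Finset (Fin n)),
          8 * (p * n) ≤ ((S ∩ prs {v} univ).card : ℝ)) := by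
        apply Pr_mono h0 h1
        intro S hS ⟨v, hv⟩
        refine ⟨v, mem_univ _, hv.trans ?_⟩
        have h2 : (nb S univ v).card ≤ (S ∩ prs {v} univ).card := by
          refine card_le_card_of_injOn (fun u => s(v, u)) ?_ ?_
          · intro u hu
            have hu' := (mem_filter.mp (mem_coe.mp hu)).2
            exact mem_coe.mpr (mem_inter.mpr ⟨hu', mem_prs (mem_singleton_self v) (mem_univ u)
              (mem_allE.mp (hS hu'))⟩)
          · intro u _ u' _ h
            exact Sym2.congr_right.mp h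
        exact_mod_cast h2
    _ ≤ ∑ v ∈ (univ : Finset (Fin n)), Pr (allE n) p (fun S =>
          8 * (p * n) ≤ ((S ∩ prs {v} univ).card : ℝ)) := Pr_exists_le h0 h1 _ _
    _ ≤ ∑ _v ∈ (univ : Finset (Fin n)), Real.exp (-(8 * (p * n))) := by
        apply sum_le_sum
        intro v _
        apply tail8 (prs_sub _ _) h0 h1
        have h3 : ((prs {v} (univ : Finset (Fin n))).card : ℝ) ≤ n := by
          have := card_prs {v} (univ : Finset (Fin n))
          rw [card_singleton, one_mul, card_univ, Fintype.card_fin] at this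
          exact_mod_cast this
        nlinarith
    _ = n * Real.exp (-(8 * (p * n))) := by
        rw [sum_const, card_univ, Fintype.card_fin, nsmul_eq_mul]

/-- **upper regularity** -/
theorem upper_bound {p γ : ℝ} (h0 : 0 < p) (h1 : p ≤ 1) (hγ : 0 < γ) (hn : 0 < n) :
    Pr (allE n) p (fun S => ∃ A : Finset (Fin n), γ * n ≤ A.card ∧
      1 / (γ * p) ≤ ((univ.filter (fun w => 16 * p * A.card ≤ ((nb S A w).card : ℝ))).card : ℝ)) ≤
      Real.exp (-(5 * n)) := by
  calc Pr (allE n) p (fun S => ∃ A : Finset (Fin n), γ * n ≤ A.card ∧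
      1 / (γ * p) ≤ ((univ.filter (fun w => 16 * p * A.card ≤ ((nb S A w).card : ℝ))).card : ℝ))
      ≤ Pr (allE n) p (fun S => ∃ AQ ∈ ((univ : Finset (Finset (Fin n))) ×ˢ (univ : Finset (Finset (Fin n)))).filter
          (fun q => γ * n ≤ (q.1.card : ℝ) ∧ 1 / (γ * p) ≤ (q.2.card : ℝ)),
          8 * p * AQ.1.card * AQ.2.card ≤ ((S ∩ prs AQ.2 AQ.1).card : ℝ)) := by
        apply Pr_mono h0.le h1
        intro S hS ⟨A, hA, hQ⟩
        set Q := univ.filter (fun w => 16 * p * A.card ≤ ((nb S A w).card : ℝ)) with hQdef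
        refine ⟨(A, Q), ?_, ?_⟩
        · simp only [mem_filter, mem_product, mem_univ, true_and]
          exact ⟨hA, hQ⟩
        · dsimp only
          have h2 := sum_nb_le hS Q A
          have h3 : (Q.card : ℝ) * (16 * p * A.card) ≤ ∑ x ∈ Q, ((nb S A x).card : ℝ) := by
            rw [← nsmul_eq_mul]
            apply card_nsmul_le_sum
            intro x hx
            exact (mem_filter.mp hx).2
          have h4 : (∑ x ∈ Q, ((nb S A x).card : ℝ)) ≤ 2 * ((S ∩ prs Q A).card : ℝ) := by
            exact_mod_cast h2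
          nlinarith
    _ ≤ ∑ AQ ∈ ((univ : Finset (Finset (Fin n))) ×ˢ (univ : Finset (Finset (Fin n)))).filter
          (fun q => γ * n ≤ (q.1.card : ℝ) ∧ 1 / (γ * p) ≤ (q.2.card : ℝ)),
          Pr (allE n) p (fun S => 8 * p * AQ.1.card * AQ.2.card ≤ ((S ∩ prs AQ.2 AQ.1).card : ℝ)) :=
        Pr_exists_le h0.le h1 _ _
    _ ≤ ∑ _AQ ∈ ((univ : Finset (Finset (Fin n))) ×ˢ (univ : Finset (Finset (Fin n)))).filter
          (fun q => γ * n ≤ (q.1.card : ℝ) ∧ 1 / (γ * p) ≤ (q.2.card : ℝ)),
          Real.exp (-(8 * n)) := by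
        apply sum_le_sum
        intro AQ hAQ
        simp only [mem_filter, mem_product, mem_univ, true_and] at hAQ
        refine (tail8 (prs_sub _ _) h0.le h1 _ ?_).trans ?_
        · have h3 : ((prs AQ.2 AQ.1).card : ℝ) ≤ AQ.2.card * AQ.1.card := by
            exact_mod_cast card_prs AQ.2 AQ.1
          nlinarith
        · apply Real.exp_le_exp.mpr
          have hn' : (0 : ℝ) < n := by exact_mod_cast hn
          have h5 : n ≤ p * AQ.1.card * AQ.2.card := by
            calc (n : ℝ) = p * (γ * n) * (1 / (γ * p)) := by field_simp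
              _ ≤ p * AQ.1.card * AQ.2.card := by
                  apply mul_le_mul _ hAQ.2 (by positivity) (by positivity)
                  exact mul_le_mul_of_nonneg_left hAQ.1 h0.le
          nlinarith
    _ ≤ 4 ^ n * Real.exp (-(8 * n)) := by
        rw [sum_const, nsmul_eq_mul]
        apply mul_le_mul_of_nonneg_right _ (Real.exp_pos _).le
        have h6 : (((univ : Finset (Finset (Fin n))) ×ˢ (univ : Finset (Finset (Fin n)))).filter
          (fun q => γ * n ≤ (q.1.card : ℝ) ∧ 1 / (γ * p) ≤ (q.2.card : ℝ))).card ≤ 4 ^ n := by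
          refine (card_filter_le _ _).trans ?_
          rw [card_product, card_finsets, ← mul_pow]; norm_num
        exact_mod_cast h6
    _ ≤ Real.exp (2 * n) * Real.exp (-(8 * n)) := by
        apply mul_le_mul_of_nonneg_right _ (Real.exp_pos _).le
        calc (4 : ℝ) ^ n = (2 ^ n) ^ 2 := by rw [← pow_mul, mul_comm, pow_mul]; norm_num
          _ ≤ (Real.exp n) ^ 2 := pow_le_pow_left₀ (by positivity) (two_pow_le_exp n) 2
          _ = Real.exp (2 * n) := by rw [← Real.exp_nat_mul]; norm_num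
    _ ≤ Real.exp (-(5 * n)) := by
        rw [← Real.exp_add]
        apply Real.exp_le_exp.mpr
        have : (0 : ℝ) ≤ n := Nat.cast_nonneg _
        linarith

/-- **exceptional sets** -/
theorem exc_bound {p c L : ℝ} (h0 : 0 < p) (h1 : p ≤ 1) (hc : 0 < c) (hL : 0 < L)
    (hp : 8 * L ≤ c * (p * n)) :
    Pr (allE n) p (fun S => ∃ Y Z : Finset (Fin n), (Y.card : ℝ) ≤ 8 * n / L ∧
      (Z.card : ℝ) ≤ c / 128 * n ∧ c * (p * n) * n / L ≤ ∑ y ∈ Y, ((nb S Z y).card : ℝ)) ≤
      Real.exp (-(2 * n)) := by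
  calc Pr (allE n) p (fun S => ∃ Y Z : Finset (Fin n), (Y.card : ℝ) ≤ 8 * n / L ∧
      (Z.card : ℝ) ≤ c / 128 * n ∧ c * (p * n) * n / L ≤ ∑ y ∈ Y, ((nb S Z y).card : ℝ))
      ≤ Pr (allE n) p (fun S => ∃ AQ ∈ ((univ : Finset (Finset (Fin n))) ×ˢ (univ : Finset (Finset (Fin n)))).filter
          (fun q => (q.1.card : ℝ) ≤ 8 * n / L ∧ (q.2.card : ℝ) ≤ c / 128 * n),
          c * (p * n) * n / (2 * L) ≤ ((S ∩ prs AQ.1 AQ.2).card : ℝ)) := by
        apply Pr_mono h0.le h1
        intro S hS ⟨Y, Z, hY, hZ, h⟩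
        refine ⟨(Y, Z), ?_, ?_⟩
        · simp only [mem_filter, mem_product, mem_univ, true_and]
          exact ⟨hY, hZ⟩
        · dsimp only
          have h2 := sum_nb_le hS Y Z
          have h4 : (∑ x ∈ Y, ((nb S Z x).card : ℝ)) ≤ 2 * ((S ∩ prs Y Z).card : ℝ) := by
            exact_mod_cast h2
          have h5 : c * (p * n) * n / (2 * L) = (c * (p * n) * n / L) / 2 := by
            rw [mul_comm 2 L, div_div]
          rw [h5]
          linarith
    _ ≤ ∑ AQ ∈ ((univ : Finset (Finset (Fin n))) ×ˢ (univ : Finset (Finset (Fin n)))).filter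
          (fun q => (q.1.card : ℝ) ≤ 8 * n / L ∧ (q.2.card : ℝ) ≤ c / 128 * n),
          Pr (allE n) p (fun S => c * (p * n) * n / (2 * L) ≤ ((S ∩ prs AQ.1 AQ.2).card : ℝ)) :=
        Pr_exists_le h0.le h1 _ _
    _ ≤ ∑ _AQ ∈ ((univ : Finset (Finset (Fin n))) ×ˢ (univ : Finset (Finset (Fin n)))).filter
          (fun q => (q.1.card : ℝ) ≤ 8 * n / L ∧ (q.2.card : ℝ) ≤ c / 128 * n),
          Real.exp (-(4 * n)) := by
        apply sum_le_sum
        intro AQ hAQ
        simp only [mem_filter, mem_product, mem_univ, true_and] at hAQ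
        refine (tail8 (prs_sub _ _) h0.le h1 _ ?_).trans ?_
        · have h3 : ((prs AQ.1 AQ.2).card : ℝ) ≤ AQ.1.card * AQ.2.card := by
            exact_mod_cast card_prs AQ.1 AQ.2
          have h4 : (AQ.1.card : ℝ) * AQ.2.card ≤ (8 * n / L) * (c / 128 * n) :=
            mul_le_mul hAQ.1 hAQ.2 (by positivity) (by positivity)
          calc 8 * ((prs AQ.1 AQ.2).card : ℝ) * p ≤ 8 * ((8 * n / L) * (c / 128 * n)) * p := by
                apply mul_le_mul_of_nonneg_right _ h0.le
                linarith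
            _ = c * (p * n) * n / (2 * L) := by field_simp; ring
        · apply Real.exp_le_exp.mpr
          have : 4 * (n : ℝ) ≤ c * (p * n) * n / (2 * L) := by
            rw [le_div_iff₀ (by positivity)]
            nlinarith [Nat.cast_nonneg (α := ℝ) n]
          linarith
    _ ≤ 4 ^ n * Real.exp (-(4 * n)) := by
        rw [sum_const, nsmul_eq_mul]
        apply mul_le_mul_of_nonneg_right _ (Real.exp_pos _).le
        have h6 : (((univ : Finset (Finset (Fin n))) ×ˢ (univ : Finset (Finset (Fin n)))).filter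
          (fun q => (q.1.card : ℝ) ≤ 8 * n / L ∧ (q.2.card : ℝ) ≤ c / 128 * n)).card ≤ 4 ^ n := by
          refine (card_filter_le _ _).trans ?_
          rw [card_product, card_finsets, ← mul_pow]; norm_num
        exact_mod_cast h6
    _ ≤ Real.exp (2 * n) * Real.exp (-(4 * n)) := by
        apply mul_le_mul_of_nonneg_right _ (Real.exp_pos _).le
        calc (4 : ℝ) ^ n = (2 ^ n) ^ 2 := by rw [← pow_mul, mul_comm, pow_mul]; norm_num
          _ ≤ (Real.exp n) ^ 2 := pow_le_pow_left₀ (by positivity) (two_pow_le_exp n) 2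
          _ = Real.exp (2 * n) := by rw [← Real.exp_nat_mul]; norm_num
    _ = Real.exp (-(2 * n)) := by
        rw [← Real.exp_add]
        congr 1
        ring

/-- **local sparsity** -/
theorem sparse_bound (κ : ℕ) {p L C : ℝ} (h0 : 0 < p) (h1 : p ≤ 1) (hL : 1 ≤ L) (hC : 0 < C)
    (hκ : Real.exp 1 * C ≤ κ) (hn : 1 ≤ n) (hn2 : (n : ℝ) ^ 2 ≤ L ^ κ) :
    Pr (allE n) p (fun S => ∃ U : Finset (Fin n), U.Nonempty ∧ (U.card : ℝ) ≤ C / (p * L) ∧
      ∀ v ∈ U, 2 * κ ≤ (nb S U v).card) ≤ 2 / n := by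
  have hκ0 : (0 : ℝ) < κ := lt_of_lt_of_le (by positivity) hκ
  have hLpos : 0 < L := by linarith
  have hn' : (1 : ℝ) ≤ n := by exact_mod_cast hn
  have hquot : Real.exp 1 ≤ κ * L / C := by
    rw [le_div_iff₀ hC]
    nlinarith
  set t := Real.log (κ * L / C) - 1 with ht
  have hquot0 : 0 < κ * L / C := by positivity
  have ht0 : 0 ≤ t := by
    rw [ht, sub_nonneg, Real.le_log_iff_exp_le hquot0]
    exact hquot
  have hexp : Real.exp (1 + t) = κ * L / C := by
    rw [ht]
    have : (1 : ℝ) + (Real.log (κ * L / C) - 1) = Real.log (κ * L / C) := by ring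
    rw [this, Real.exp_log hquot0]
  have hexpt : Real.exp (-t) ≤ 1 / L := by
    have : -t = 1 - Real.log (κ * L / C) := by rw [ht]; ring
    rw [this, Real.exp_sub, Real.exp_log hquot0, div_div_eq_mul_div, div_le_div_iff₀ (by positivity) hLpos]
    nlinarith
  calc Pr (allE n) p (fun S => ∃ U : Finset (Fin n), U.Nonempty ∧ (U.card : ℝ) ≤ C / (p * L) ∧
      ∀ v ∈ U, 2 * κ ≤ (nb S U v).card)
      ≤ Pr (allE n) p (fun S => ∃ U ∈ (univ : Finset (Finset (Fin n))).filter
          (fun U => U.Nonempty ∧ (U.card : ℝ) ≤ C / (p * L)),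
          (κ : ℝ) * U.card ≤ ((S ∩ prs U U).card : ℝ)) := by
        apply Pr_mono h0.le h1
        intro S hS ⟨U, hU, hU2, h⟩
        refine ⟨U, by simp [hU, hU2], ?_⟩
        have h2 := sum_nb_le hS U U
        have h3 : U.card * (2 * κ) ≤ ∑ x ∈ U, (nb S U x).card := by
          rw [← smul_eq_mul]
          exact card_nsmul_le_sum _ _ _ h
        have h4 : U.card * (2 * κ) ≤ 2 * (S ∩ prs U U).card := h3.trans h2
        have h5 : (U.card : ℝ) * (2 * κ) ≤ 2 * (S ∩ prs U U).card := by exact_mod_cast h4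
        linarith
    _ ≤ ∑ U ∈ (univ : Finset (Finset (Fin n))).filter
          (fun U => U.Nonempty ∧ (U.card : ℝ) ≤ C / (p * L)),
          Pr (allE n) p (fun S => (κ : ℝ) * U.card ≤ ((S ∩ prs U U).card : ℝ)) :=
        Pr_exists_le h0.le h1 _ _
    _ ≤ ∑ U ∈ (univ : Finset (Finset (Fin n))).filter
          (fun U => U.Nonempty ∧ (U.card : ℝ) ≤ C / (p * L)), (1 / (n : ℝ) ^ 2) ^ U.card := by
        apply sum_le_sum
        intro U hU
        simp only [mem_filter, mem_univ, true_and] at hU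
        refine (tail (prs_sub _ _) h0.le h1 t _ ht0 ?_).trans ?_
        · rw [hexp]
          have h3 : ((prs U U).card : ℝ) ≤ U.card * U.card := by exact_mod_cast card_prs U U
          have h4 : (U.card : ℝ) * (p * L) ≤ C := by
            rw [← le_div_iff₀ (by positivity)]; exact hU.2
          calc κ * L / C * ((prs U U).card : ℝ) * p ≤ κ * L / C * (U.card * U.card) * p := by
                apply mul_le_mul_of_nonneg_right _ h0.le
                exact mul_le_mul_of_nonneg_left h3 hquot0.le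
            _ = (κ * U.card) * (U.card * (p * L) / C) := by ring
            _ ≤ (κ * U.card) * 1 := by
                apply mul_le_mul_of_nonneg_left _ (by positivity)
                rw [div_le_one hC]; exact h4
            _ = κ * U.card := mul_one _
        · calc Real.exp (-(t * (κ * U.card))) = (Real.exp (-t) ^ κ) ^ U.card := by
                rw [← pow_mul, ← Real.exp_nat_mul]
                congr 1
                push_cast; ring
            _ ≤ ((1 / L) ^ κ) ^ U.card := by
                apply pow_le_pow_left₀ (by positivity)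
                exact pow_le_pow_left₀ (Real.exp_pos _).le hexpt _
            _ ≤ (1 / (n : ℝ) ^ 2) ^ U.card := by
                apply pow_le_pow_left₀ (by positivity)
                rw [one_div_pow]
                exact one_div_le_one_div_of_le (by positivity) hn2
    _ ≤ (∑ U ∈ (univ : Finset (Finset (Fin n))), (1 / (n : ℝ) ^ 2) ^ U.card) - 1 := by
        rw [le_sub_iff_add_le]
        have h6 : (∅ : Finset (Fin n)) ∉ (univ : Finset (Finset (Fin n))).filter
          (fun U => U.Nonempty ∧ (U.card : ℝ) ≤ C / (p * L)) := by simp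
        have h7 : ∑ U ∈ (univ : Finset (Finset (Fin n))).filter
          (fun U => U.Nonempty ∧ (U.card : ℝ) ≤ C / (p * L)), (1 / (n : ℝ) ^ 2) ^ U.card + 1 =
          ∑ U ∈ insert ∅ ((univ : Finset (Finset (Fin n))).filter
          (fun U => U.Nonempty ∧ (U.card : ℝ) ≤ C / (p * L))), (1 / (n : ℝ) ^ 2) ^ U.card := by
          rw [sum_insert h6]; simp [add_comm]
        rw [h7]
        apply sum_le_sum_of_subset_of_nonneg (subset_univ _)
        intro _ _ _; positivity
    _ = (1 + 1 / (n : ℝ) ^ 2) ^ n - 1 := by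
        congr 1
        have h8 := Finset.sum_pow_mul_eq_add_pow (1 / (n : ℝ) ^ 2) 1 (univ : Finset (Fin n))
        rw [powerset_univ, card_univ, Fintype.card_fin] at h8
        simp only [one_pow, mul_one] at h8
        rw [h8, add_comm]
    _ ≤ 2 / n := by
        have h9 : (1 + 1 / (n : ℝ) ^ 2) ^ n ≤ Real.exp (1 / n) := by
          calc (1 + 1 / (n : ℝ) ^ 2) ^ n ≤ (Real.exp (1 / (n : ℝ) ^ 2)) ^ n := by
                apply pow_le_pow_left₀ (by positivity)
                have := Real.add_one_le_exp (1 / (n : ℝ) ^ 2)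
                linarith
            _ = Real.exp (1 / n) := by
                rw [← Real.exp_nat_mul]
                congr 1
                field_simp
        have h10 : Real.exp (1 / n) ≤ 1 + 2 * (1 / n) := by
          have h11 : |1 / (n : ℝ)| ≤ 1 := by
            rw [abs_of_nonneg (by positivity), div_le_one (by positivity)]; exact hn'
          have h12 := Real.abs_exp_sub_one_le h11
          have h13 := (abs_le.mp h12).2
          rw [abs_of_nonneg (by positivity)] at h13
          linarith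
        have h14 : (2 : ℝ) / n = 2 * (1 / n) := by ring
        rw [h14]
        linarith

end Pool.Agent.H973.CT
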