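import Pool.Agent.H973.CT.Stm2
import Pool.Agent.H973.CT.Tail2

set_option autoImplicit false

namespace Pool.Agent.H973.CT

open Finset Classical Pool.Agent.W166.Gnp

namespace BSevenL

variable {n : ℕ}

/-- the pairs of the relation inside `R` -/
noncomputable def Fp (R : Finset (Fin n)) (F : Fin n → Fin n → Prop) : Finset (Fin n × Fin n) :=
  (R ×ˢ R).filter (fun q => F q.1 q.2 ∧ q.2 ≠ q.1)

/-- the two members of a pair -/
noncomputable def vs (q : Fin n × Fin n) : Finset (Fin n) := {q.1, q.2}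

/-- families of pairwise disjoint pairs -/
def Mt (Q : Finset (Fin n × Fin n)) : Prop := (Q : Set (Fin n × Fin n)).PairwiseDisjoint vs

theorem card_Fp {Δ : ℝ} {R : Finset (Fin n)} {F : Fin n → Fin n → Prop}
    (h : ∀ r ∈ R, ((R.filter (fun r'' => F r r'')).card : ℝ) ≤ Δ) :
    ((Fp R F).card : ℝ) ≤ R.card * Δ := by
  have h1 : (Fp R F).card ≤ ∑ r ∈ R, (R.filter (fun r'' => F r r'')).card := by
    have h2 : (Fp R F).card ≤ ((R ×ˢ R).filter (fun q => F q.1 q.2)).card := by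
      apply card_le_card
      intro q hq
      rw [Fp, mem_filter] at hq
      exact mem_filter.mpr ⟨hq.1, hq.2.1⟩
    refine h2.trans (le_of_eq ?_)
    rw [card_filter, sum_product]
    apply sum_congr rfl
    intro r _
    rw [card_filter]
  calc ((Fp R F).card : ℝ) ≤ ((∑ r ∈ R, (R.filter (fun r'' => F r r'')).card : ℕ) : ℝ) := by
        exact_mod_cast h1
    _ = ∑ r ∈ R, ((R.filter (fun r'' => F r r'')).card : ℝ) := by push_cast; rfl
    _ ≤ ∑ _r ∈ R, Δ := sum_le_sum h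
    _ = R.card * Δ := by rw [sum_const, nsmul_eq_mul]

theorem card_vs {R : Finset (Fin n)} {F : Fin n → Fin n → Prop} {q : Fin n × Fin n}
    (h : q ∈ Fp R F) : (vs q).card = 2 := by
  rw [Fp, mem_filter] at h
  exact card_pair (Ne.symm h.2.2)

theorem card_bu {R : Finset (Fin n)} {F : Fin n → Fin n → Prop} {Q : Finset (Fin n × Fin n)}
    (hQ : Q ⊆ Fp R F) (hM : Mt Q) : (Q.biUnion vs).card = 2 * Q.card := by
  rw [card_biUnion (fun a ha b hb hab => hM ha hb hab)]
  rw [sum_congr rfl (fun q hq => card_vs (hQ hq)), sum_const, smul_eq_mul, mul_comm]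

theorem vs_sub {R : Finset (Fin n)} {F : Fin n → Fin n → Prop} {Q : Finset (Fin n × Fin n)}
    (hQ : Q ⊆ Fp R F) : Q.biUnion vs ⊆ R := by
  rw [biUnion_subset]
  intro q hq v hv
  have h := hQ hq
  rw [Fp, mem_filter, mem_product] at h
  rw [vs, mem_insert, mem_singleton] at hv
  rcases hv with rfl | rfl
  · exact h.1.1
  · exact h.1.2

/-- the probability of a large family of disjoint pairs -/
theorem pr_match {p Δ x : ℝ} {R : Finset (Fin n)} {F : Fin n → Fin n → Prop} (h0 : 0 < p)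
    (h1 : p ≤ 1) (hx : 0 < x)
    (h : ∀ r ∈ R, ((R.filter (fun r'' => F r r'')).card : ℝ) ≤ Δ)
    (hb : Real.exp 2 * (R.card * Δ) * p ^ 2 ≤ x) :
    Pr R p (fun N => ∃ Q : Finset (Fin n × Fin n), Q ⊆ Fp R F ∧ Mt Q ∧ Q.biUnion vs ⊆ N ∧
      ⌈x⌉₊ ≤ Q.card) ≤ Real.exp (-x) := by
  have hs : 0 < ⌈x⌉₊ := Nat.ceil_pos.mpr hx
  set s := ⌈x⌉₊ with hsdef
  have hsr : (0 : ℝ) < s := by exact_mod_cast hs
  have hxs : x ≤ s := Nat.le_ceil x
  calc Pr R p (fun N => ∃ Q : Finset (Fin n × Fin n), Q ⊆ Fp R F ∧ Mt Q ∧ Q.biUnion vs ⊆ N ∧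
      s ≤ Q.card)
      ≤ Pr R p (fun N => ∃ Q ∈ (powersetCard s (Fp R F)).filter (fun Q => Mt Q),
          Q.biUnion vs ⊆ N) := by
        apply Pr_mono h0.le h1
        rintro N _ ⟨Q, hQ1, hQ2, hQ3, hQ4⟩
        obtain ⟨Q', hQ5, hQ6⟩ := exists_subset_card_eq hQ4
        refine ⟨Q', ?_, (biUnion_subset_biUnion_of_subset_left _ hQ5).trans hQ3⟩
        rw [mem_filter, mem_powersetCard]
        exact ⟨⟨hQ5.trans hQ1, hQ6⟩, hQ2.subset (coe_subset.mpr hQ5)⟩
    _ ≤ ∑ Q ∈ (powersetCard s (Fp R F)).filter (fun Q => Mt Q),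
          Pr R p (fun N => Q.biUnion vs ⊆ N) := Pr_exists_le h0.le h1 _ _
    _ = ∑ _Q ∈ (powersetCard s (Fp R F)).filter (fun Q => Mt Q), p ^ (2 * s) := by
        apply sum_congr rfl
        intro Q hQ
        rw [mem_filter, mem_powersetCard] at hQ
        rw [Pr_superset (vs_sub hQ.1.1), card_bu hQ.1.1 hQ.2, hQ.1.2]
    _ ≤ ((Fp R F).card.choose s : ℝ) * p ^ (2 * s) := by
        rw [sum_const, nsmul_eq_mul]
        apply mul_le_mul_of_nonneg_right _ (by positivity)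
        have h2 := card_filter_le (powersetCard s (Fp R F)) (fun Q => Mt Q)
        rw [card_powersetCard] at h2
        exact_mod_cast h2
    _ ≤ (Real.exp 1 * (Fp R F).card / s) ^ s * p ^ (2 * s) :=
        mul_le_mul_of_nonneg_right (choose_le_exp _ _ hs) (by positivity)
    _ = (Real.exp 1 * (Fp R F).card * p ^ 2 / s) ^ s := by
        rw [pow_mul, ← mul_pow]
        ring
    _ ≤ (Real.exp (-1)) ^ s := by
        apply pow_le_pow_left₀ (by positivity)
        rw [div_le_iff₀ hsr]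
        have e1 : Real.exp 1 = Real.exp (-1) * Real.exp 2 := by
          rw [← Real.exp_add]; norm_num
        calc Real.exp 1 * ((Fp R F).card : ℝ) * p ^ 2
            ≤ Real.exp 1 * (R.card * Δ) * p ^ 2 := by
              apply mul_le_mul_of_nonneg_right _ (by positivity)
              exact mul_le_mul_of_nonneg_left (card_Fp h) (Real.exp_pos 1).le
          _ = Real.exp (-1) * (Real.exp 2 * (R.card * Δ) * p ^ 2) := by
              rw [e1]; ring
          _ ≤ Real.exp (-1) * x := mul_le_mul_of_nonneg_left hb (Real.exp_pos _).le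
          _ ≤ Real.exp (-1) * s := mul_le_mul_of_nonneg_left hxs (Real.exp_pos _).le
    _ = Real.exp (-(s : ℝ)) := by
        rw [← Real.exp_nat_mul]
        congr 1
        ring
    _ ≤ Real.exp (-x) := Real.exp_le_exp.mpr (by linarith)

/-- the probability that one of the sets is hit often -/
theorem pr_deg {κ : ℕ} {p Δ ℓ : ℝ} {R D : Finset (Fin n)} (h0 : 0 < p) (h1 : p ≤ 1) (hκ : 1 ≤ κ)
    (hℓ : 1 ≤ ℓ) (hD : D ⊆ R) (hc : (D.card : ℝ) ≤ Δ) (hb : Real.exp 1 * Δ * p * ℓ ≤ 1) :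
    Pr R p (fun N => κ ≤ (N ∩ D).card) ≤ (1 / ℓ) ^ κ := by
  have hκr : (1 : ℝ) ≤ κ := by exact_mod_cast hκ
  have hℓ0 : 0 < ℓ := by linarith
  calc Pr R p (fun N => κ ≤ (N ∩ D).card) ≤ (D.card.choose κ : ℝ) * p ^ κ := card_up hD h0.le h1 κ
    _ ≤ (Real.exp 1 * D.card / κ) ^ κ * p ^ κ :=
        mul_le_mul_of_nonneg_right (choose_le_exp _ _ (by omega)) (by positivity)
    _ = (Real.exp 1 * D.card * p / κ) ^ κ := by
        rw [← mul_pow]
        ring
    _ ≤ (1 / ℓ) ^ κ := by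
        apply pow_le_pow_left₀ (by positivity)
        rw [div_le_div_iff₀ (by linarith) hℓ0]
        have h2 : Real.exp 1 * (D.card : ℝ) * p * ℓ ≤ Real.exp 1 * Δ * p * ℓ := by
          apply mul_le_mul_of_nonneg_right _ hℓ0.le
          apply mul_le_mul_of_nonneg_right _ h0.le
          exact mul_le_mul_of_nonneg_left hc (Real.exp_pos 1).le
        linarith

/-- the deterministic part -/
theorem det {κ : ℕ} {x : ℝ} {R N : Finset (Fin n)} {F : Fin n → Fin n → Prop}
    (hx : 0 < x) (hN : N ⊆ R)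
    (h2 : ∀ r ∈ R, ¬ κ ≤ (N ∩ R.filter (fun r' => F r' r)).card)
    (h3 : ¬ ∃ Q : Finset (Fin n × Fin n), Q ⊆ Fp R F ∧ Mt Q ∧ Q.biUnion vs ⊆ N ∧
      ⌈x⌉₊ ≤ Q.card) :
    ((N.filter (fun r => ∃ r'' ∈ N, r'' ≠ r ∧ F r r'')).card : ℝ) ≤ 2 * (x + 1) * (1 + κ) := by
  -- a maximal family
  obtain ⟨M, hM, hmax⟩ := exists_max_image
    ((Fp R F).powerset.filter (fun Q => Mt Q ∧ Q.biUnion vs ⊆ N)) card
    ⟨∅, by
      rw [mem_filter, mem_powerset]
      refine ⟨empty_subset _, ?_, by simp⟩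
      unfold Mt
      simp⟩
  rw [mem_filter, mem_powerset] at hM
  obtain ⟨hM1, hM2, hM3⟩ := hM
  have hMc : (M.card : ℝ) ≤ x + 1 := by
    have h4 : M.card < ⌈x⌉₊ := by
      by_contra h
      exact h3 ⟨M, hM1, hM2, hM3, not_lt.mp h⟩
    have h5 : ((⌈x⌉₊ : ℕ) : ℝ) < x + 1 := Nat.ceil_lt_add_one hx.le
    have h6 : (M.card : ℝ) < (⌈x⌉₊ : ℕ) := by exact_mod_cast h4
    linarith
  have hsub : N.filter (fun r => ∃ r'' ∈ N, r'' ≠ r ∧ F r r'') ⊆
      M.biUnion vs ∪ (M.biUnion vs).biUnion (fun u => N ∩ R.filter (fun r' => F r' u)) := by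
    intro r hr
    rw [mem_filter] at hr
    obtain ⟨hrN, r'', hr''N, hne, hF⟩ := hr
    by_contra hcon
    rw [mem_union, not_or] at hcon
    obtain ⟨hc1, hc2⟩ := hcon
    have hc3 : r'' ∉ M.biUnion vs := by
      intro h
      apply hc2
      rw [mem_biUnion]
      exact ⟨r'', h, mem_inter.mpr ⟨hrN, mem_filter.mpr ⟨hN hrN, hF⟩⟩⟩
    have hq : (r, r'') ∉ M := by
      intro h
      exact hc1 (mem_biUnion.mpr ⟨(r, r''), h, by simp [vs]⟩)
    have h4 := hmax (insert (r, r'') M) (by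
      rw [mem_filter, mem_powerset]
      refine ⟨?_, ?_, ?_⟩
      · rw [insert_subset_iff]
        refine ⟨?_, hM1⟩
        rw [Fp, mem_filter, mem_product]
        exact ⟨⟨hN hrN, hN hr''N⟩, hF, hne⟩
      · unfold Mt
        rw [coe_insert]
        refine hM2.insert ?_
        intro q hq' _
        rw [disjoint_left]
        intro v hv hv'
        rw [vs, mem_insert, mem_singleton] at hv
        rcases hv with rfl | rfl
        · exact hc1 (mem_biUnion.mpr ⟨q, hq', hv'⟩)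
        · exact hc3 (mem_biUnion.mpr ⟨q, hq', hv'⟩)
      · rw [biUnion_insert]
        apply union_subset _ hM3
        intro v hv
        rw [vs, mem_insert, mem_singleton] at hv
        rcases hv with rfl | rfl
        · exact hrN
        · exact hr''N)
    rw [card_insert_of_notMem hq] at h4
    omega
  have h5 : (N.filter (fun r => ∃ r'' ∈ N, r'' ≠ r ∧ F r r'')).card ≤
      2 * M.card + 2 * M.card * κ := by
    refine (card_le_card hsub).trans ((card_union_le _ _).trans ?_)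
    rw [card_bu hM1 hM2]
    refine Nat.add_le_add_left ?_ _
    refine card_biUnion_le.trans ?_
    have h6 : ∀ u ∈ M.biUnion vs, (N ∩ R.filter (fun r' => F r' u)).card ≤ κ := by
      intro u hu
      have := h2 u (vs_sub hM1 hu)
      omega
    refine (sum_le_card_nsmul _ _ κ h6).trans ?_
    rw [card_bu hM1 hM2, smul_eq_mul]
  have h6 : ((N.filter (fun r => ∃ r'' ∈ N, r'' ≠ r ∧ F r r'')).card : ℝ) ≤
      2 * M.card + 2 * M.card * κ := by exact_mod_cast h5
  have hκr : (0 : ℝ) ≤ κ := Nat.cast_nonneg _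
  have h7 : 2 * (M.card : ℝ) + 2 * M.card * κ = 2 * M.card * (1 + κ) := by ring
  rw [h7] at h6
  refine h6.trans ?_
  apply mul_le_mul_of_nonneg_right _ (by linarith)
  linarith

end BSevenL

open BSevenL

theorem bseven : S_B7 := by
  intro n κ p Δ ℓ x R F h0 h1 hκ hℓ _ hx hout hin hb hb2
  calc Pr R p (fun N => 2 * (x + 1) * (1 + κ) <
    ((N.filter (fun r => ∃ r'' ∈ N, r'' ≠ r ∧ F r r'')).card : ℝ))
      ≤ Pr R p (fun N => (∃ r ∈ R, κ ≤ (N ∩ R.filter (fun r' => F r' r)).card) ∨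
          ∃ Q : Finset (Fin n × Fin n), Q ⊆ Fp R F ∧ Mt Q ∧ Q.biUnion vs ⊆ N ∧
            ⌈x⌉₊ ≤ Q.card) := by
        apply Pr_mono h0.le h1
        intro N hN h
        by_contra hcon
        rw [not_or] at hcon
        have h2 := det hx hN (fun r hr h3 => hcon.1 ⟨r, hr, h3⟩) hcon.2
        linarith
    _ ≤ Pr R p (fun N => ∃ r ∈ R, κ ≤ (N ∩ R.filter (fun r' => F r' r)).card) +
        Pr R p (fun N => ∃ Q : Finset (Fin n × Fin n), Q ⊆ Fp R F ∧ Mt Q ∧ Q.biUnion vs ⊆ N ∧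
            ⌈x⌉₊ ≤ Q.card) := Pr_or_le h0.le h1 _ _
    _ ≤ R.card * (1 / ℓ) ^ κ + Real.exp (-x) := by
        refine add_le_add ?_ (pr_match h0 h1 hx hout hb2)
        refine (Pr_exists_le h0.le h1 _ _).trans ?_
        refine (sum_le_card_nsmul _ _ ((1 / ℓ) ^ κ) ?_).trans (by rw [nsmul_eq_mul])
        intro r hr
        exact pr_deg h0 h1 hκ hℓ (filter_subset _ _) (hin r hr) hb
    _ ≤ 2 * R.card * (1 / ℓ) ^ κ + Real.exp (-x) := by
        have h2 : 0 ≤ (R.card : ℝ) * (1 / ℓ) ^ κ := by positivity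
        linarith

end Pool.Agent.H973.CT
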