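import Mathlib
import Pool.Graph.R_seed8.W166.Gnp.Tail
import Pool.Graph.R_seed8.W166.Gnp.Transfer
import Pool.Graph.R_seed8.W166.Gnp.Copies
import Pool.Graph.R_seed8.W166.Gnp.Row

set_option autoImplicit false

/-! Statements for the chromatic threshold of long odd cycles in `G(n,p)`.

The random edge set is a random subset `S` of `allE n` (library
`Pool.Graph.R_seed8.W166.Gnp.Basic`: `Ex E p f`, `Pr E p A` are expectation and probability for the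
product Bernoulli measure on the subsets of `E`). -/

namespace Pool.Agent.H973.CT

open Finset Classical Pool.Agent.W166.Gnp

variable {n : ℕ}

/-- neighbours of `v` inside `A` for the edge set `S` -/
noncomputable def nb (S : Finset (Sym2 (Fin n))) (A : Finset (Fin n)) (v : Fin n) :
    Finset (Fin n) := A.filter (fun u => s(v, u) ∈ S)

/-- `φ` is a walk with edges in `S` -/
def chain {r : ℕ} (S : Finset (Sym2 (Fin n))) (φ : Fin (r + 1) → Fin n) : Prop :=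
  ∀ i : Fin r, s(φ i.castSucc, φ i.succ) ∈ S

/-- injective walks (paths) of length `r` -/
noncomputable def paths (r : ℕ) (S : Finset (Sym2 (Fin n))) : Finset (Fin (r + 1) → Fin n) :=
  univ.filter (fun φ => chain S φ ∧ Function.Injective φ)

/-- walks of length `r` that are not injective -/
noncomputable def degWalks (r : ℕ) (S : Finset (Sym2 (Fin n))) : Finset (Fin (r + 1) → Fin n) :=
  univ.filter (fun φ => chain S φ ∧ ¬ Function.Injective φ)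

/-- pairs of paths of length `r` with the same ends -/
noncomputable def pairsW (r : ℕ) (S : Finset (Sym2 (Fin n))) :
    Finset ((Fin (r + 1) → Fin n) × (Fin (r + 1) → Fin n)) :=
  (paths r S ×ˢ paths r S).filter
    (fun q => q.1 0 = q.2 0 ∧ q.1 (Fin.last r) = q.2 (Fin.last r))

/-- number of `z ∈ A` joined to `w` by an edge of `B` -/
noncomputable def dg (B : Finset (Sym2 (Fin n))) (A : Finset (Fin n)) (w : Fin n) : ℕ :=
  (A.filter (fun z => s(z, w) ∈ B)).card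

/-- **S_SPLIT** (random splitting). Proof: choose `F : Fin n → Fin 6 × Fin M` uniformly at random
(count functions; no measure theory needed). `A j = {v | (F v).1 = j}` for `j = 0,1,3,4`,
`A j = {v | (F v).1 = j ∧ (F v).2 = 0}` for `j = 2,5`. For a set `C` of values of proportion
`q = |C| / (6 M) ≥ 1/(6M)` and `X = #{u ∈ N v | F u ∈ C}`:
`P(X < dd q / 2) ≤ 2^(dd q/2) E[2^(-X)] = 2^(dd q/2) (1 - q/2)^|N v| ≤ exp(-dd q (1 - log 2)/2)
≤ exp(-dd q/8)` (`log 2 < 0.6931471808`). `E |A j| = n/(6M)` for `j = 2,5`, Markov gives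
`P(|A j| > 8 n/(6M)) ≤ 1/8`. Union bound: the sum of the failure probabilities is
`≤ 6 n exp(-dd/(48M)) + 1/4 ≤ 3/4 < 1`. The expectation of `2^(-X)`:
`∑_F ∏_u w_u(F u) = ∏_u ∑_a w_u a` (`Finset.prod_univ_sum`/`Fintype.piFinset_univ`). -/
def S_SPLIT : Prop := ∀ (n M : ℕ) (dd : ℝ) (N : Fin n → Finset (Fin n)), 1 ≤ M → 0 ≤ dd →
  (∀ v, dd ≤ ((N v).card : ℝ)) → 12 * n * Real.exp (-(dd / (48 * M))) ≤ 1 →
  ∃ A : Fin 6 → Finset (Fin n), (∀ i j, i ≠ j → Disjoint (A i) (A j)) ∧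
    (∀ j ∈ ({0, 1, 3, 4} : Finset (Fin 6)), ∀ v, dd / 12 ≤ ((N v ∩ A j).card : ℝ)) ∧
    (∀ j ∈ ({2, 5} : Finset (Fin 6)), (∀ v, dd / (12 * M) ≤ ((N v ∩ A j).card : ℝ)) ∧
      ((A j).card : ℝ) ≤ 4 * n / (3 * M))

/-- cluster property: any two not too small subsets of `A` have many common neighbours in `W` -/
def Cluster (B : Finset (Sym2 (Fin n))) (W : Finset (Fin n)) (p c β : ℝ) (A : Finset (Fin n)) :
    Prop :=
  ∀ A₁ A₂ : Finset (Fin n), A₁ ⊆ A → A₂ ⊆ A → β * A.card ≤ A₁.card → β * A.card ≤ A₂.card →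
    c ^ 2 / 4 * p ^ 2 * A₁.card * A₂.card * W.card ≤ ∑ w ∈ W, (dg B A₁ w : ℝ) * dg B A₂ w

/-- **S_CLUSTER** (sparse partition lemma). Proof: for `A ⊆ Z` nonempty let
`e A = (∑_{w∈W} (dg A w)^2) / (p^2 |A| |W|)`, so `e A ≤ K |A|` if `γ |Z| ≤ |A|`. Let `κ = c^2/16`.
SPLIT STEP: suppose `A` (large: `γ|Z| ≤ β₂ |A|`, `β₂ = min β (c/(16 √K))`) is not a cluster, witness
`A₁, A₂`. Put `x_i(w) = dg A_i w/(p |A_i|)`, `d(w) = dg A w/(p |A|)`, norm `‖f‖² = (1/|W|)∑ f(w)²`.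
`‖d‖ ≥ c` (average of `d` is `≥ c` by the degree hypothesis). If both `‖x_i - d‖ ≤ c/4` then
`⟨x₁,x₂⟩ ≥ ‖d‖² - 2(c/4)‖d‖ - c²/16 ≥ 7c²/16 > c²/4`, contradiction; so some `A' = A_i` has
`‖x' - d‖² ≥ κ`. Put `A'' = A \ A'`. If `|A''| < β₂|A|`, enlarge `A''` to `A₊ ⊆ A` with
`β₂|A| ≤ |A₊| ≤ 2β₂|A|` (or `⌈β₂|A|⌉` elements), `dg A'' ≤ dg A₊`, so
`x' - d = (|A''|/|A|) x' - dg A''/(p|A|)` has norm `≤ β₂√K + 2β₂√K < c/4`, contradiction.
So both parts have `≥ β₂|A|` elements, and the identity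
`∑_w [u²/|A'| + v²/|A''| - (u+v)²/|A|] ≥ |A'| ∑_w (u/|A'| - (u+v)/|A|)²` (`u = dg A'`, `v = dg A''`)
gives `e A' + e A'' ≥ e A + κ |A'| ≥ e A + κ β |A|`.
RECURSION (induction on `r`): for every `A ⊆ Z` with `γ|Z| ≤ β₂^(r+1)|A|` there is a finite set
`P` of nonempty pairwise disjoint subsets with union `A`, `|P| ≤ 2^r`, all of size `≥ β₂^r |A|`, with
`∑_{B∈P} e B ≥ e A + κ β r · (total size of the non-cluster members of P)`. (If `A` is a cluster take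
`{A}`; otherwise split and apply the induction hypothesis to the two parts.)
Take `A = Z`, `r ≥ K/(κ β δ)`, `γ = β₂^(r+1)`, `T = 2^r`: the non-cluster members have total size
`≤ K|Z|/(κβ r) ≤ δ|Z|`; return the cluster members. -/
def S_CLUSTER : Prop := ∀ c K β δ : ℝ, 0 < c → 1 ≤ K → 0 < β → β ≤ 1 / 2 → 0 < δ →
  ∃ (T : ℕ) (γ : ℝ), 0 < γ ∧ γ ≤ 1 ∧
  ∀ (n : ℕ) (B : Finset (Sym2 (Fin n))) (Z W : Finset (Fin n)) (p : ℝ), 0 < p →
    Z.Nonempty → W.Nonempty →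
    (∀ z ∈ Z, c * p * W.card ≤ ((W.filter (fun w => s(z, w) ∈ B)).card : ℝ)) →
    (∀ A ⊆ Z, γ * Z.card ≤ A.card →
      ∑ w ∈ W, (dg B A w : ℝ) ^ 2 ≤ K * p ^ 2 * A.card ^ 2 * W.card) →
    ∃ P : Finset (Finset (Fin n)), P.card ≤ T ∧
      (∀ A ∈ P, A ⊆ Z ∧ γ * Z.card ≤ A.card ∧ Cluster B W p c β A) ∧
      (∀ A ∈ P, ∀ A' ∈ P, A ≠ A' → Disjoint A A') ∧
      ((Z \ P.biUnion id).card : ℝ) ≤ δ * Z.card

/-- **S_WALK** (many walks of length `2h` between two subsets of a cluster). Proof: for `A ⊆ Zc`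
let `N r z A` be the number of `φ : Fin (2r+1) → Fin n` with `φ 0 = z`, `φ last ∈ A`, `chain B φ`
(and even positions in `Zc`, odd ones in `W` if wanted). `N (r+1) z A ≥ ∑_{w∈W, zw∈B} ∑_{z'∈Zc,
z'w∈B} N r z' A` (inject `(w,z',φ) ↦ cons z (cons w φ)`). Claim: for `r ≥ 1` and `A ⊆ Zc` with
`β|Zc| ≤ |A|`, the set of `z ∈ Zc` with `N r z A < q^r` has fewer than `β|Zc|` elements.
`r = 1`: if the set `A⁻` of these `z` has `≥ β|Zc|` elements then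
`∑_w dg A⁻ w * dg A w = ∑_{z∈A⁻} N 1 z A < q |A⁻|`, contradiction. Step: the set `G` of `z` with
`N r z A ≥ q^r` has more than `(1-β)|Zc| ≥ β|Zc|` elements and `N (r+1) z A ≥ q^r N 1 z G`.
Finally sum over `z ∈ A'`, at least `β|Zc|` of which are good. -/
def S_WALK : Prop := ∀ (h n : ℕ) (B : Finset (Sym2 (Fin n))) (Zc W : Finset (Fin n)) (β q : ℝ),
  1 ≤ h → 0 < β → β ≤ 1 / 2 → 0 < q →
  (∀ A₁ A₂ : Finset (Fin n), A₁ ⊆ Zc → A₂ ⊆ Zc → β * Zc.card ≤ A₁.card → β * Zc.card ≤ A₂.card →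
    q * A₁.card ≤ ∑ w ∈ W, (dg B A₁ w : ℝ) * dg B A₂ w) →
  ∀ A A' : Finset (Fin n), A ⊆ Zc → A' ⊆ Zc → 2 * β * Zc.card ≤ A.card →
    2 * β * Zc.card ≤ A'.card →
    β * Zc.card * q ^ h ≤ (((univ : Finset (Fin (2 * h + 1) → Fin n)).filter
      (fun φ => chain B φ ∧ φ 0 ∈ A ∧ φ (Fin.last (2 * h)) ∈ A')).card : ℝ)

/-- **S_PAIRS** (expected number of pairs of paths of length `r` with the same ends).
Proof: for a pair `(φ,ψ)` of injective maps with the same ends, the set of edges of `φ` and `ψ`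
has at least `r + (j + 1 if j ≥ 1 else 0)` elements, `j` = number of `i` with `ψ i ∉ range φ`
(the edge `(ψ (i-1), ψ i)` for these `i` and the edge following the last of them; they are distinct
and not edges of `φ`). So the expectation (`Pr_superset`, `Ex_sum`) is at most the sum over `(φ,ψ)`
of `p^(...)`. Classify by the map `Fin (r+1) → Option (Fin (r+1))`, `i ↦` the `k` with
`φ k = ψ i` if there is one: each class has at most `n^(r+1) n^j` members, `j ≤ r - 1`.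
Total `≤ (r+2)^(r+1) (n^(r+1) p^r + n^(r+1) p^r · max_j n^j p^(j+1))
≤ C (n (pn)^r + (pn)^(2r))` since `pn ≥ 1`. -/
def S_PAIRS : Prop := ∀ r : ℕ, 1 ≤ r → ∃ C : ℝ, 0 < C ∧ ∀ (n : ℕ) (p : ℝ), 0 ≤ p → p ≤ 1 →
  1 ≤ p * n →
  Ex (allE n) p (fun S => ((pairsW r S).card : ℝ)) ≤ C * (n * (p * n) ^ r + (p * n) ^ (2 * r))

/-- **S_DEGEN** (expected number of non-injective walks of length `r`).
Proof: for `φ` let `c i = min {j | φ j = φ i}`; `φ` is determined by `c` and its values at the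
fixed points of `c`; for every fixed point `i > 0` the edge `(φ (i-1), φ i)` of the walk is
new, so the walk has at least `#fix - 1` distinct edges; `#fix ≤ r` if `φ` is not injective.
So the expectation is at most `∑_c n^(#fix) p^(#fix - 1) ≤ (r+1)^(r+1) n (pn)^(r-1)`. -/
def S_DEGEN : Prop := ∀ r : ℕ, 1 ≤ r → ∃ C : ℝ, 0 < C ∧ ∀ (n : ℕ) (p : ℝ), 0 ≤ p → p ≤ 1 →
  1 ≤ p * n →
  Ex (allE n) p (fun S => ((degWalks r S).card : ℝ)) ≤ C * (n * (p * n) ^ (r - 1))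

/-- the pairs `(x,y)`, `x ∈ T`, `y ∉ T`, such that `y` has another neighbour in `T` -/
noncomputable def nonpriv (S : Finset (Sym2 (Fin n))) (T : Finset (Fin n)) :
    Finset (Fin n × Fin n) :=
  univ.filter (fun q => q.1 ∈ T ∧ q.2 ∉ T ∧ s(q.1, q.2) ∈ S ∧ ∃ x' ∈ T, x' ≠ q.1 ∧ s(x', q.2) ∈ S)

/-- **S_PRIV**. Proof (first moment): let `b = β n / L`, `J = ⌈b/2⌉`. If the event holds for `T`
then there is a set `Y` of exactly `J` vertices outside `T` (if `n - |T| ≥ J`) such that at least `b`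
edges of `S` join `T` and `Y` (take `J` of the `y ∉ T` with at least two neighbours in `T`, or all of
them and some more). Number of `T`: `≤ (n+1)^(2n/(pnL))`. Number of `Y`:
`choose n J ≤ (e n/J)^J` (`Real.pow_div_factorial_le_exp`, `Nat.choose_le_pow_div`). For given
`T, Y`: with `D = {s(x,y) | x ∈ T, y ∈ Y}`, `|D| p ≤ (2/L) J`,
`Pr(b ≤ |S ∩ D|) ≤ choose |D| ⌈b⌉ p^⌈b⌉ ≤ (e |D| p/b)^⌈b⌉` (`card_up`). Total
`≤ exp(2 log(n+1)/(pL)) (2eL/β)^(b/2+1) (4e/L)^b`-like `≤ exp(-b/4)` for `L ≥ L0(β)`. -/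
def S_PRIV : Prop := ∀ β : ℝ, 0 < β → ∃ L0 : ℝ, 1 ≤ L0 ∧ ∀ (n : ℕ) (p L : ℝ), 0 < p → p ≤ 1 →
  L0 ≤ L → L ^ 4 ≤ n → L0 * Real.log (n + 1) ≤ p * n →
  Pr (allE n) p (fun S => ∃ T : Finset (Fin n), (T.card : ℝ) ≤ 2 * n / (p * n * L) ∧
    β * n / L ≤ ((nonpriv S T).card : ℝ)) ≤ Real.exp (-(β * n / (4 * L)))

/-- **S_MAIN** (abstract union bound). Proof: number of `(k, g, I, C|_I)` is at most
`exp Λ₁ (n+1)^n 2^n (exp Λ₂)^s₁`. For a fixed one put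
`D = {s(y,z) | g y = some x, x ∈ I, z ∈ C x}` (without loops), `|D| ≤ s₁ · 8pn · β z k`; the event
implies `|S ∩ D| ≥ x₀ := s₁ c z p² n / 2` (every edge is counted at most twice in
`∑_{x∈I} ∑_{y, g y = x} |nb S (C x) y|`), and
`Pr(x₀ ≤ |S ∩ D|) ≤ (e |D| p/x₀)^⌈x₀⌉ ≤ exp(-x₀)` because `e² |D| p ≤ x₀` (`128 β ≤ c`, `e² < 8`).
Use `z k ≥ γ n`, so `x₀ ≥ s₁ c γ (pn)²/2`. -/
def S_MAIN : Prop := ∀ (n : ℕ) (κ : Type) (Idx : Finset κ) (Cs : κ → Finset (Finset (Fin n)))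
  (z : κ → ℝ) (p β c γ Λ₁ Λ₂ : ℝ) (s₁ : ℕ), 0 < p → p ≤ 1 → 0 < β → 0 < c → 0 < γ →
  128 * β ≤ c → (∀ k ∈ Idx, γ * n ≤ z k) → (∀ k ∈ Idx, ∀ C ∈ Cs k, (C.card : ℝ) ≤ β * z k) →
  ((Idx.card : ℝ) ≤ Real.exp Λ₁) → (∀ k ∈ Idx, ((Cs k).card : ℝ) ≤ Real.exp Λ₂) →
  Λ₁ + n * Real.log (n + 1) + n + s₁ * Λ₂ ≤ s₁ * (c * γ * (p * n) ^ 2) / 4 →
  Pr (allE n) p (fun S => ∃ k ∈ Idx, ∃ g : Fin n → Option (Fin n), ∃ I : Finset (Fin n),
    ∃ C : Fin n → Finset (Fin n), I.card = s₁ ∧ ∀ x ∈ I, C x ∈ Cs k ∧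
      ((univ.filter (fun y => g y = some x)).card : ℝ) ≤ 8 * (p * n) ∧
      c * z k * (p * n) * p ≤ ∑ y ∈ univ.filter (fun y => g y = some x), ((nb S (C x) y).card : ℝ))
    ≤ Real.exp (-(s₁ * (c * γ * (p * n) ^ 2) / 4))

end Pool.Agent.H973.CT
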