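import Mathlib
import Pool.Agent.H973.CT.Stm

/-!
# CT: the sparse partition lemma (`S_CLUSTER`)
-/

set_option autoImplicit false

namespace Pool.Agent.H973.CT

open Finset Classical Pool.Agent.W166.Gnp

namespace ClusterL

variable {n : ℕ}

/-- the energy (not normalised) -/
noncomputable def q (B : Finset (Sym2 (Fin n))) (W A : Finset (Fin n)) : ℝ :=
  (∑ w ∈ W, (dg B A w : ℝ) ^ 2) / A.card

lemma q_nonneg (B : Finset (Sym2 (Fin n))) (W A : Finset (Fin n)) : 0 ≤ q B W A := by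
  unfold q
  positivity

lemma dg_mono {B : Finset (Sym2 (Fin n))} {A A' : Finset (Fin n)} (h : A ⊆ A') (w : Fin n) :
    dg B A w ≤ dg B A' w :=
  Finset.card_le_card (Finset.filter_subset_filter _ h)

lemma dg_split {B : Finset (Sym2 (Fin n))} {A A' : Finset (Fin n)} (h : A' ⊆ A) (w : Fin n) :
    (dg B A w : ℝ) = dg B A' w + dg B (A \ A') w := by
  unfold dg
  rw [← Nat.cast_add, ← Finset.card_union_of_disjoint]
  · congr 2
    rw [← Finset.filter_union, Finset.union_sdiff_of_subset h]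
  · exact Finset.disjoint_filter_filter Finset.disjoint_sdiff

lemma sum_dg (B : Finset (Sym2 (Fin n))) (W A : Finset (Fin n)) :
    ∑ w ∈ W, (dg B A w : ℝ) = ∑ z ∈ A, ((W.filter (fun w => s(z, w) ∈ B)).card : ℝ) := by
  unfold dg
  simp only [Finset.card_filter, Nat.cast_sum]
  exact Finset.sum_comm

lemma card_split {A A' : Finset (Fin n)} (h : A' ⊆ A) :
    (A.card : ℝ) = A'.card + (A \ A').card := by
  have := Finset.card_sdiff_add_card_eq_card h
  rw [← this]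
  push_cast
  ring

lemma ar_pt (u v a' e a b : ℝ) (ha' : 0 < a') (ha : 0 < a) (he0 : 0 ≤ e) (he : e ≤ b * a)
    (hsum : a = a' + e) :
    (u / a' - (u + v) / a) ^ 2 ≤ 2 * b ^ 2 / a' ^ 2 * u ^ 2 + 2 / a ^ 2 * v ^ 2 := by
  have e1 : u / a' - (u + v) / a = (e / a) * (u / a') - v / a := by
    have : e = a - a' := by linarith
    rw [this]
    field_simp
    ring
  rw [e1]
  have e2 : (e / a) ^ 2 ≤ b ^ 2 := by
    refine pow_le_pow_left₀ (by positivity) ?_ 2
    rw [div_le_iff₀ ha]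
    exact he
  have e3 : ((e / a) * (u / a')) ^ 2 ≤ b ^ 2 * (u / a') ^ 2 := by
    rw [mul_pow]
    exact mul_le_mul_of_nonneg_right e2 (by positivity)
  have e4 : ∀ x y : ℝ, (x - y) ^ 2 ≤ 2 * x ^ 2 + 2 * y ^ 2 := fun x y => by
    nlinarith [sq_nonneg (x + y)]
  refine (e4 _ _).trans ?_
  have e5 : 2 * b ^ 2 / a' ^ 2 * u ^ 2 = 2 * (b ^ 2 * (u / a') ^ 2) := by
    rw [div_pow]
    ring
  have e6 : 2 / a ^ 2 * v ^ 2 = 2 * (v / a) ^ 2 := by
    rw [div_pow]
    ring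
  rw [e5, e6]
  linarith

lemma ar_en (u v x y : ℝ) (hx : 0 < x) (hy : 0 < y) :
    (u + v) ^ 2 / (x + y) + x * (u / x - (u + v) / (x + y)) ^ 2 ≤ u ^ 2 / x + v ^ 2 / y := by
  have e : u ^ 2 / x + v ^ 2 / y - ((u + v) ^ 2 / (x + y) +
      x * (u / x - (u + v) / (x + y)) ^ 2) = (u * y - v * x) ^ 2 / (y * (x + y) ^ 2) := by
    field_simp
    ring
  have : 0 ≤ (u * y - v * x) ^ 2 / (y * (x + y) ^ 2) := by positivity
  linarith

lemma ar_fin (c K p w a a' b S₁ S₂ : ℝ) (hc : 0 < c) (hK : 1 ≤ K) (hp : 0 < p) (hw : 0 < w)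
    (ha : 0 < a) (ha' : 0 < a') (hb : 0 < b) (h2 : b * (16 * K) ≤ c)
    (u1 : S₁ ≤ K * p ^ 2 * a' ^ 2 * w) (u2 : S₂ ≤ K * p ^ 2 * (2 * (b * a)) ^ 2 * w)
    (h : c ^ 2 * p ^ 2 * w / 16 ≤ 2 * b ^ 2 / a' ^ 2 * S₁ + 2 / a ^ 2 * S₂) : False := by
  have t1 : 2 * b ^ 2 / a' ^ 2 * S₁ ≤ 2 * (b ^ 2 * K * (p ^ 2 * w)) := by
    have := mul_le_mul_of_nonneg_left u1 (show 0 ≤ 2 * b ^ 2 / a' ^ 2 by positivity)
    refine this.trans (le_of_eq ?_)
    field_simp
  have t2 : 2 / a ^ 2 * S₂ ≤ 8 * (b ^ 2 * K * (p ^ 2 * w)) := by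
    have := mul_le_mul_of_nonneg_left u2 (show 0 ≤ 2 / a ^ 2 by positivity)
    refine this.trans (le_of_eq ?_)
    field_simp
    ring
  have t3 : b ^ 2 * K ≤ c ^ 2 / 256 := by
    have h6 : (b * (16 * K)) ^ 2 ≤ c ^ 2 := pow_le_pow_left₀ (by positivity) h2 2
    have h7 : b ^ 2 * K ≤ b ^ 2 * K ^ 2 := by
      have : K ≤ K ^ 2 := by nlinarith
      exact mul_le_mul_of_nonneg_left this (by positivity)
    have h8 : (b * (16 * K)) ^ 2 = 256 * (b ^ 2 * K ^ 2) := by ring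
    linarith
  have hpw : 0 < p ^ 2 * w := by positivity
  have t4 : b ^ 2 * K * (p ^ 2 * w) ≤ c ^ 2 / 256 * (p ^ 2 * w) :=
    mul_le_mul_of_nonneg_right t3 hpw.le
  have t5 : c ^ 2 * p ^ 2 * w / 16 = 16 * (c ^ 2 / 256 * (p ^ 2 * w)) := by ring
  have t6 : 0 < c ^ 2 / 256 * (p ^ 2 * w) := by positivity
  linarith

lemma split_aux (B : Finset (Sym2 (Fin n))) (W A : Finset (Fin n)) (p c K β β₂ : ℝ) (hc : 0 < c)
    (hK : 1 ≤ K) (hβ₂ : 0 < β₂) (h1 : β₂ ≤ β) (h2 : β₂ * (16 * K) ≤ c)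
    (hβ1 : β ≤ 1 / 2) (hp : 0 < p) (hA : A.Nonempty) (hW : W.Nonempty)
    (hup : ∀ A₀ ⊆ A, β₂ * A.card ≤ A₀.card →
      ∑ w ∈ W, (dg B A₀ w : ℝ) ^ 2 ≤ K * p ^ 2 * A₀.card ^ 2 * W.card)
    (A' : Finset (Fin n)) (hA' : A' ⊆ A) (hb : β * A.card ≤ A'.card)
    (hvar : c ^ 2 * p ^ 2 * W.card / 16 ≤
      ∑ w ∈ W, ((dg B A' w : ℝ) / A'.card - (dg B A w : ℝ) / A.card) ^ 2) :
    β₂ * A.card ≤ (A \ A').card ∧
      q B W A + c ^ 2 / 16 * β * p ^ 2 * W.card * A.card ≤ q B W A' + q B W (A \ A') := by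
  have ha : (0 : ℝ) < A.card := by exact_mod_cast hA.card_pos
  have hw : (0 : ℝ) < W.card := by exact_mod_cast hW.card_pos
  have hβ : 0 < β := hβ₂.trans_le h1
  have ha' : (0 : ℝ) < A'.card := lt_of_lt_of_le (mul_pos hβ ha) hb
  have hcard := card_split hA'
  have hm : 0 < c ^ 2 * p ^ 2 * (W.card : ℝ) / 16 :=
    div_pos (mul_pos (mul_pos (pow_pos hc 2) (pow_pos hp 2)) hw) (by norm_num)
  have hsplit : ∀ w, (dg B A w : ℝ) = dg B A' w + dg B (A \ A') w := dg_split hA'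
  have hbig : β₂ * A.card ≤ (A \ A').card := by
    by_contra hlt
    push Not at hlt
    rcases Finset.eq_empty_or_nonempty (A \ A') with he | hne
    · have hAA : A' = A := Finset.Subset.antisymm hA' (Finset.sdiff_eq_empty_iff_subset.1 he)
      have hz : ∑ w ∈ W, ((dg B A w : ℝ) / A.card - (dg B A w : ℝ) / A.card) ^ 2 = 0 :=
        Finset.sum_eq_zero fun w _ => by rw [sub_self]; exact zero_pow two_ne_zero
      rw [hAA, hz] at hvar
      exact absurd hvar (not_le.2 hm)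
    · have he1 : (1 : ℝ) ≤ ((A \ A').card : ℝ) := Nat.one_le_cast.2 hne.card_pos
      have hceil : (⌈β₂ * (A.card : ℝ)⌉₊ : ℝ) ≤ 2 * (β₂ * A.card) := by
        have := Nat.ceil_lt_add_one (mul_pos hβ₂ ha).le
        linarith
      obtain ⟨Ap, hs1, hs2, hs3⟩ := Finset.exists_subsuperset_card_eq
        (Finset.sdiff_subset : A \ A' ⊆ A) (n := ⌈β₂ * (A.card : ℝ)⌉₊)
        (by
          have h3 : ((A \ A').card : ℝ) ≤ (⌈β₂ * (A.card : ℝ)⌉₊ : ℝ) :=
            hlt.le.trans (Nat.le_ceil _)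
          exact_mod_cast h3)
        (by
          refine Nat.ceil_le.2 ?_
          have : β₂ * (A.card : ℝ) ≤ 1 * A.card :=
            mul_le_mul_of_nonneg_right (by linarith) ha.le
          linarith)
      have hplus : β₂ * A.card ≤ (Ap.card : ℝ) := by
        rw [hs3]
        exact Nat.le_ceil _
      have hplus2 : (Ap.card : ℝ) ≤ 2 * (β₂ * A.card) := by rw [hs3]; exact hceil
      have u1 := hup A' hA' ((mul_le_mul_of_nonneg_right h1 ha.le).trans hb)
      have u2 := hup Ap hs2 hplus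
      have u3 : ∑ w ∈ W, (dg B (A \ A') w : ℝ) ^ 2 ≤ ∑ w ∈ W, (dg B Ap w : ℝ) ^ 2 := by
        refine Finset.sum_le_sum fun w _ => ?_
        have : (dg B (A \ A') w : ℝ) ≤ dg B Ap w := by exact_mod_cast dg_mono hs1 w
        exact pow_le_pow_left₀ (Nat.cast_nonneg _) this 2
      have u4 : ∑ w ∈ W, (dg B (A \ A') w : ℝ) ^ 2 ≤
          K * p ^ 2 * (2 * (β₂ * A.card)) ^ 2 * W.card := by
        refine (u3.trans u2).trans ?_
        have h4 : (Ap.card : ℝ) ^ 2 ≤ (2 * (β₂ * A.card)) ^ 2 :=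
          pow_le_pow_left₀ (Nat.cast_nonneg _) hplus2 2
        exact mul_le_mul_of_nonneg_right (mul_le_mul_of_nonneg_left h4
          (mul_nonneg (by linarith) (sq_nonneg _))) hw.le
      have hpt : ∀ w ∈ W, ((dg B A' w : ℝ) / A'.card - (dg B A w : ℝ) / A.card) ^ 2 ≤
          2 * β₂ ^ 2 / A'.card ^ 2 * (dg B A' w : ℝ) ^ 2 +
            2 / A.card ^ 2 * (dg B (A \ A') w : ℝ) ^ 2 := by
        intro w _
        rw [hsplit w]
        exact ar_pt _ _ _ _ _ _ ha' ha (Nat.cast_nonneg _) hlt.le hcard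
      have hsum := Finset.sum_le_sum hpt
      rw [Finset.sum_add_distrib, ← Finset.mul_sum, ← Finset.mul_sum] at hsum
      exact ar_fin c K p _ _ _ β₂ _ _ hc hK hp hw ha ha' hβ₂ h2 u1 u4 (hvar.trans hsum)
  refine ⟨hbig, ?_⟩
  have ha'' : (0 : ℝ) < (A \ A').card := lt_of_lt_of_le (mul_pos hβ₂ ha) hbig
  have hpt : ∀ w ∈ W, (dg B A w : ℝ) ^ 2 / A.card +
      A'.card * ((dg B A' w : ℝ) / A'.card - (dg B A w : ℝ) / A.card) ^ 2 ≤
      (dg B A' w : ℝ) ^ 2 / A'.card + (dg B (A \ A') w : ℝ) ^ 2 / (A \ A').card := by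
    intro w _
    rw [hsplit w, hcard]
    exact ar_en _ _ _ _ ha' ha''
  have hsum := Finset.sum_le_sum hpt
  rw [Finset.sum_add_distrib, Finset.sum_add_distrib, ← Finset.mul_sum, ← Finset.sum_div,
    ← Finset.sum_div, ← Finset.sum_div] at hsum
  unfold q
  have h8 : c ^ 2 / 16 * β * p ^ 2 * W.card * A.card ≤ A'.card *
      ∑ w ∈ W, ((dg B A' w : ℝ) / A'.card - (dg B A w : ℝ) / A.card) ^ 2 := by
    have h9 : c ^ 2 / 16 * β * p ^ 2 * W.card * A.card =
        (β * A.card) * (c ^ 2 * p ^ 2 * W.card / 16) := by ring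
    rw [h9]
    exact mul_le_mul hb hvar hm.le ha'.le
  linarith

lemma split_step (B : Finset (Sym2 (Fin n))) (W A : Finset (Fin n)) (p c K β β₂ : ℝ) (hc : 0 < c)
    (hK : 1 ≤ K) (hβ₂ : 0 < β₂) (h1 : β₂ ≤ β) (h2 : β₂ * (16 * K) ≤ c)
    (hβ1 : β ≤ 1 / 2) (hp : 0 < p) (hA : A.Nonempty) (hW : W.Nonempty)
    (hdeg : ∀ z ∈ A, c * p * W.card ≤ ((W.filter (fun w => s(z, w) ∈ B)).card : ℝ))
    (hup : ∀ A₀ ⊆ A, β₂ * A.card ≤ A₀.card →
      ∑ w ∈ W, (dg B A₀ w : ℝ) ^ 2 ≤ K * p ^ 2 * A₀.card ^ 2 * W.card)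
    (hnc : ¬ Cluster B W p c β A) :
    ∃ A' ⊆ A, β₂ * A.card ≤ A'.card ∧ β₂ * A.card ≤ (A \ A').card ∧
      q B W A + c ^ 2 / 16 * β * p ^ 2 * W.card * A.card ≤ q B W A' + q B W (A \ A') := by
  have ha : (0 : ℝ) < A.card := by exact_mod_cast hA.card_pos
  have hw : (0 : ℝ) < W.card := by exact_mod_cast hW.card_pos
  have hβ : 0 < β := hβ₂.trans_le h1
  unfold Cluster at hnc
  push Not at hnc
  obtain ⟨A₁, A₂, s1, s2, b1, b2, hlt⟩ := hnc
  have ha1 : (0 : ℝ) < A₁.card := lt_of_lt_of_le (by positivity) b1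
  have ha2 : (0 : ℝ) < A₂.card := lt_of_lt_of_le (by positivity) b2
  have hD : c ^ 2 * p ^ 2 * W.card ≤ ∑ w ∈ W, ((dg B A w : ℝ) / A.card) ^ 2 := by
    have h3 : c * p * W.card ≤ ∑ w ∈ W, (dg B A w : ℝ) / A.card := by
      rw [← Finset.sum_div, sum_dg, le_div_iff₀ ha]
      have := Finset.sum_le_sum hdeg
      rw [Finset.sum_const, nsmul_eq_mul] at this
      linarith
    have h4 := sq_sum_le_card_mul_sum_sq (s := W) (f := fun w => (dg B A w : ℝ) / A.card)
    have h5 : (c * p * W.card) ^ 2 ≤ (∑ w ∈ W, (dg B A w : ℝ) / A.card) ^ 2 :=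
      pow_le_pow_left₀ (by positivity) h3 2
    have h6 : (W.card : ℝ) * (c ^ 2 * p ^ 2 * W.card) ≤
        W.card * ∑ w ∈ W, ((dg B A w : ℝ) / A.card) ^ 2 := by
      refine le_trans (le_of_eq ?_) (h5.trans h4)
      ring
    exact le_of_mul_le_mul_left h6 hw
  have hx : ∑ w ∈ W, ((dg B A₁ w : ℝ) / A₁.card) * ((dg B A₂ w : ℝ) / A₂.card) <
      c ^ 2 / 4 * p ^ 2 * W.card := by
    have h3 : ∑ w ∈ W, ((dg B A₁ w : ℝ) / A₁.card) * ((dg B A₂ w : ℝ) / A₂.card) =
        (∑ w ∈ W, (dg B A₁ w : ℝ) * dg B A₂ w) / (A₁.card * A₂.card) := by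
      rw [Finset.sum_div]
      exact Finset.sum_congr rfl fun w _ => by rw [div_mul_div_comm]
    rw [h3, div_lt_iff₀ (by positivity)]
    refine hlt.trans_le (le_of_eq ?_)
    ring
  have hor : c ^ 2 * p ^ 2 * W.card / 16 ≤
        ∑ w ∈ W, ((dg B A₁ w : ℝ) / A₁.card - (dg B A w : ℝ) / A.card) ^ 2 ∨
      c ^ 2 * p ^ 2 * W.card / 16 ≤
        ∑ w ∈ W, ((dg B A₂ w : ℝ) / A₂.card - (dg B A w : ℝ) / A.card) ^ 2 := by
    by_contra hcon
    push Not at hcon
    obtain ⟨g1, g2⟩ := hcon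
    have hpt : ∀ w ∈ W, 3 / 4 * ((dg B A w : ℝ) / A.card) ^ 2 +
        (-(5 / 2)) * ((dg B A₁ w : ℝ) / A₁.card - (dg B A w : ℝ) / A.card) ^ 2 +
        (-(5 / 2)) * ((dg B A₂ w : ℝ) / A₂.card - (dg B A w : ℝ) / A.card) ^ 2 ≤
        ((dg B A₁ w : ℝ) / A₁.card) * ((dg B A₂ w : ℝ) / A₂.card) := by
      intro w _
      generalize (dg B A w : ℝ) / A.card = d
      generalize (dg B A₁ w : ℝ) / A₁.card = x
      generalize (dg B A₂ w : ℝ) / A₂.card = y
      nlinarith [sq_nonneg ((x - d) + d / 4), sq_nonneg ((y - d) + d / 4),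
        sq_nonneg ((x - d) + (y - d))]
    have hsum := Finset.sum_le_sum hpt
    rw [Finset.sum_add_distrib, Finset.sum_add_distrib, ← Finset.mul_sum, ← Finset.mul_sum,
      ← Finset.mul_sum] at hsum
    have hm : 0 < c ^ 2 * p ^ 2 * (W.card : ℝ) := by positivity
    nlinarith
  rcases hor with h | h
  · obtain ⟨k1, k2⟩ := split_aux B W A p c K β β₂ hc hK hβ₂ h1 h2 hβ1 hp hA hW hup A₁ s1 b1 h
    exact ⟨A₁, s1, by nlinarith, k1, k2⟩
  · obtain ⟨k1, k2⟩ := split_aux B W A p c K β β₂ hc hK hβ₂ h1 h2 hβ1 hp hA hW hup A₂ s2 b2 h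
    exact ⟨A₂, s2, by nlinarith, k1, k2⟩

/-- the total size of the non-cluster members -/
noncomputable def bad (B : Finset (Sym2 (Fin n))) (W : Finset (Fin n)) (p c β : ℝ)
    (P : Finset (Finset (Fin n))) : ℝ :=
  ∑ A ∈ P.filter (fun A => ¬ Cluster B W p c β A), (A.card : ℝ)

lemma bad_nonneg (B : Finset (Sym2 (Fin n))) (W : Finset (Fin n)) (p c β : ℝ)
    (P : Finset (Finset (Fin n))) : 0 ≤ bad B W p c β P :=
  Finset.sum_nonneg fun _ _ => by positivity

lemma sum_card_le (P : Finset (Finset (Fin n))) (A : Finset (Fin n)) (h1 : ∀ A' ∈ P, A' ⊆ A)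
    (h2 : ∀ A' ∈ P, ∀ A'' ∈ P, A' ≠ A'' → Disjoint A' A'') :
    ∑ A' ∈ P, (A'.card : ℝ) ≤ A.card := by
  have h3 : (P.biUnion id).card = ∑ A' ∈ P, A'.card := by
    rw [Finset.card_biUnion]
    · rfl
    · intro x hx y hy hxy
      exact h2 x hx y hy hxy
  have h4 : (P.biUnion id).card ≤ A.card :=
    Finset.card_le_card (Finset.biUnion_subset.2 fun x hx => h1 x hx)
  rw [h3] at h4
  exact_mod_cast h4

lemma bad_le (B : Finset (Sym2 (Fin n))) (W : Finset (Fin n)) (p c β : ℝ)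
    (P : Finset (Finset (Fin n))) : bad B W p c β P ≤ ∑ A' ∈ P, (A'.card : ℝ) :=
  Finset.sum_le_sum_of_subset_of_nonneg (Finset.filter_subset _ _) fun _ _ _ => by positivity

lemma recur (B : Finset (Sym2 (Fin n))) (W Z : Finset (Fin n)) (p c K β β₂ γ : ℝ) (hc : 0 < c)
    (hK : 1 ≤ K) (hβ₂ : 0 < β₂) (h1 : β₂ ≤ β) (h2 : β₂ * (16 * K) ≤ c)
    (hβ1 : β ≤ 1 / 2) (hp : 0 < p) (hW : W.Nonempty)
    (hdeg : ∀ z ∈ Z, c * p * W.card ≤ ((W.filter (fun w => s(z, w) ∈ B)).card : ℝ))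
    (hup : ∀ A ⊆ Z, γ * Z.card ≤ A.card →
      ∑ w ∈ W, (dg B A w : ℝ) ^ 2 ≤ K * p ^ 2 * A.card ^ 2 * W.card) :
    ∀ (r : ℕ) (A : Finset (Fin n)), A ⊆ Z → A.Nonempty → γ * Z.card ≤ β₂ ^ (r + 1) * A.card →
    ∃ P : Finset (Finset (Fin n)), P.card ≤ 2 ^ r ∧
      (∀ A' ∈ P, A'.Nonempty ∧ A' ⊆ A ∧ β₂ ^ r * A.card ≤ A'.card) ∧
      (∀ A' ∈ P, ∀ A'' ∈ P, A' ≠ A'' → Disjoint A' A'') ∧
      (∀ z ∈ A, ∃ A' ∈ P, z ∈ A') ∧
      q B W A + c ^ 2 / 16 * β * p ^ 2 * W.card * (r * bad B W p c β P) ≤ ∑ A' ∈ P, q B W A' := by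
  have hβ : 0 < β := hβ₂.trans_le h1
  have hβ21 : β₂ ≤ 1 := by linarith
  have hw : (0 : ℝ) < W.card := by exact_mod_cast hW.card_pos
  have hκ : 0 ≤ c ^ 2 / 16 * β * p ^ 2 * W.card := by positivity
  intro r
  induction r with
  | zero =>
    intro A hAZ hA hA2
    refine ⟨{A}, by simp, ?_, ?_, ?_, ?_⟩
    · intro A' hA'
      rw [Finset.mem_singleton] at hA'
      subst hA'
      exact ⟨hA, Finset.Subset.refl _, by simp⟩
    · intro A' hA' A'' hA'' hne
      rw [Finset.mem_singleton] at hA' hA''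
      exact absurd (hA'.trans hA''.symm) hne
    · intro z hz
      exact ⟨A, Finset.mem_singleton_self _, hz⟩
    · simp
  | succ r ih =>
    intro A hAZ hA hA2
    have ha : (0 : ℝ) < A.card := by exact_mod_cast hA.card_pos
    by_cases hcl : Cluster B W p c β A
    · refine ⟨{A}, by simp [Nat.one_le_two_pow], ?_, ?_, ?_, ?_⟩
      · intro A' hA'
        rw [Finset.mem_singleton] at hA'
        subst hA'
        refine ⟨hA, Finset.Subset.refl _, ?_⟩
        have : β₂ ^ (r + 1) ≤ 1 := pow_le_one₀ hβ₂.le hβ21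
        nlinarith
      · intro A' hA' A'' hA'' hne
        rw [Finset.mem_singleton] at hA' hA''
        exact absurd (hA'.trans hA''.symm) hne
      · intro z hz
        exact ⟨A, Finset.mem_singleton_self _, hz⟩
      · have hbad : bad B W p c β {A} = 0 := by
          unfold bad
          rw [Finset.filter_singleton, if_neg (not_not.2 hcl), Finset.sum_empty]
        rw [hbad]
        simp
    · have hpow : β₂ ^ (r + 1 + 1) * A.card ≤ β₂ * A.card := by
        have : β₂ ^ (r + 1 + 1) ≤ β₂ := by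
          rw [pow_succ]
          have : β₂ ^ (r + 1) ≤ 1 := pow_le_one₀ hβ₂.le hβ21
          nlinarith
        exact mul_le_mul_of_nonneg_right this ha.le
      obtain ⟨A', hA', c1, c2, hq⟩ := split_step B W A p c K β β₂ hc hK hβ₂ h1 h2 hβ1 hp hA hW
        (fun z hz => hdeg z (hAZ hz))
        (fun A₀ hA₀ h3 => hup A₀ (hA₀.trans hAZ) ((hA2.trans hpow).trans h3)) hcl
      have ca' : (0 : ℝ) < A'.card := lt_of_lt_of_le (by positivity) c1
      have ca'' : (0 : ℝ) < (A \ A').card := lt_of_lt_of_le (by positivity) c2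
      have n1 : A'.Nonempty := Finset.card_pos.1 (by exact_mod_cast ca')
      have n2 : (A \ A').Nonempty := Finset.card_pos.1 (by exact_mod_cast ca'')
      have hmul : ∀ x : ℝ, β₂ * A.card ≤ x → β₂ ^ (r + 1 + 1) * A.card ≤ β₂ ^ (r + 1) * x := by
        intro x hx
        rw [pow_succ, mul_assoc]
        exact mul_le_mul_of_nonneg_left hx (by positivity)
      have hmul' : ∀ x : ℝ, β₂ * A.card ≤ x → β₂ ^ (r + 1) * A.card ≤ β₂ ^ r * x := by
        intro x hx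
        rw [pow_succ, mul_assoc]
        exact mul_le_mul_of_nonneg_left hx (by positivity)
      obtain ⟨P', p1, p2, p3, p4, p5⟩ := ih A' (hA'.trans hAZ) n1 (hA2.trans (hmul _ c1))
      obtain ⟨P'', r1, r2, r3, r4, r5⟩ := ih (A \ A') (Finset.sdiff_subset.trans hAZ) n2
        (hA2.trans (hmul _ c2))
      have hdd : ∀ X ∈ P', ∀ Y ∈ P'', Disjoint X Y := fun X hX Y hY =>
        Finset.disjoint_of_subset_left (p2 X hX).2.1 (Finset.disjoint_of_subset_right (r2 Y hY).2.1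
          Finset.disjoint_sdiff)
      have hdis : Disjoint P' P'' := by
        rw [Finset.disjoint_left]
        intro X hX hX'
        have h3 := hdd X hX X hX'
        rw [disjoint_self] at h3
        exact (p2 X hX).1.ne_empty h3
      have hbad : bad B W p c β (P' ∪ P'') = bad B W p c β P' + bad B W p c β P'' := by
        unfold bad
        rw [Finset.filter_union, Finset.sum_union]
        exact Finset.disjoint_filter_filter hdis
      have hDis : ∀ X ∈ P' ∪ P'', ∀ Y ∈ P' ∪ P'', X ≠ Y → Disjoint X Y := by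
        intro X hX Y hY hne
        rcases Finset.mem_union.1 hX with h3 | h3 <;> rcases Finset.mem_union.1 hY with h4 | h4
        · exact p3 X h3 Y h4 hne
        · exact hdd X h3 Y h4
        · exact (hdd Y h4 X h3).symm
        · exact r3 X h3 Y h4 hne
      have hSub : ∀ X ∈ P' ∪ P'', X.Nonempty ∧ X ⊆ A ∧ β₂ ^ (r + 1) * A.card ≤ X.card := by
        intro X hX
        rcases Finset.mem_union.1 hX with h3 | h3
        · exact ⟨(p2 X h3).1, (p2 X h3).2.1.trans hA', (hmul' _ c1).trans (p2 X h3).2.2⟩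
        · exact ⟨(r2 X h3).1, (r2 X h3).2.1.trans Finset.sdiff_subset,
            (hmul' _ c2).trans (r2 X h3).2.2⟩
      have hble : bad B W p c β (P' ∪ P'') ≤ A.card :=
        (bad_le B W p c β _).trans (sum_card_le _ A (fun X hX => (hSub X hX).2.1) hDis)
      refine ⟨P' ∪ P'', ?_, hSub, hDis, ?_, ?_⟩
      · refine (Finset.card_union_le _ _).trans ?_
        rw [pow_succ]
        omega
      · intro z hz
        by_cases hz' : z ∈ A'
        · obtain ⟨X, hX, hzX⟩ := p4 z hz'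
          exact ⟨X, Finset.mem_union_left _ hX, hzX⟩
        · obtain ⟨X, hX, hzX⟩ := r4 z (Finset.mem_sdiff.2 ⟨hz, hz'⟩)
          exact ⟨X, Finset.mem_union_right _ hX, hzX⟩
      · rw [Finset.sum_union hdis]
        have h3 : c ^ 2 / 16 * β * p ^ 2 * W.card * bad B W p c β (P' ∪ P'') ≤
            c ^ 2 / 16 * β * p ^ 2 * W.card * A.card := mul_le_mul_of_nonneg_left hble hκ
        rw [hbad] at h3 ⊢
        push_cast
        generalize c ^ 2 / 16 * β * p ^ 2 * (W.card : ℝ) = κ at *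
        nlinarith

end ClusterL

open ClusterL in
theorem cluster : S_CLUSTER := by
  intro c K β δ hc hK hβ hβ1 hδ
  set β₂ : ℝ := min β (c / (16 * K)) with hβ₂def
  have hβ₂ : 0 < β₂ := lt_min hβ (by positivity)
  have h1 : β₂ ≤ β := min_le_left _ _
  have h2 : β₂ * (16 * K) ≤ c := by
    have := min_le_right β (c / (16 * K))
    rw [← hβ₂def, le_div_iff₀ (by positivity)] at this
    exact this
  have hβ21 : β₂ ≤ 1 := by linarith
  obtain ⟨r, hr⟩ := exists_nat_ge (K / (c ^ 2 / 16 * β * δ))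
  refine ⟨2 ^ r, β₂ ^ (r + 1), by positivity, pow_le_one₀ hβ₂.le hβ21, ?_⟩
  intro n B Z W p hp hZ hW hdeg hup
  have hz : (0 : ℝ) < Z.card := by exact_mod_cast hZ.card_pos
  have hw : (0 : ℝ) < W.card := by exact_mod_cast hW.card_pos
  obtain ⟨P, p1, p2, p3, p4, p5⟩ := recur B W Z p c K β β₂ (β₂ ^ (r + 1)) hc hK hβ₂ h1 h2 hβ1 hp hW
    hdeg hup r Z (Finset.Subset.refl _) hZ le_rfl
  have hsize : ∀ A ∈ P, β₂ ^ (r + 1) * Z.card ≤ (A.card : ℝ) := by
    intro A hA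
    refine le_trans ?_ (p2 A hA).2.2
    refine mul_le_mul_of_nonneg_right ?_ hz.le
    rw [pow_succ]
    have : 0 < β₂ ^ r := by positivity
    nlinarith
  have hE : ∑ A ∈ P, q B W A ≤ K * p ^ 2 * W.card * Z.card := by
    have h3 : ∀ A ∈ P, q B W A ≤ K * p ^ 2 * W.card * A.card := by
      intro A hA
      have hA0 : (0 : ℝ) < A.card := by exact_mod_cast (p2 A hA).1.card_pos
      unfold q
      rw [div_le_iff₀ hA0]
      refine (hup A (p2 A hA).2.1 (hsize A hA)).trans (le_of_eq ?_)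
      ring
    refine (Finset.sum_le_sum h3).trans ?_
    rw [← Finset.mul_sum]
    exact mul_le_mul_of_nonneg_left (sum_card_le P Z (fun A hA => (p2 A hA).2.1) p3)
      (by positivity)
  have hbad : bad B W p c β P ≤ δ * Z.card := by
    have h3 := q_nonneg B W Z
    have h4 : (p ^ 2 * W.card) * (c ^ 2 / 16 * β * (r * bad B W p c β P)) ≤
        (p ^ 2 * W.card) * (K * Z.card) := by
      nlinarith
    have h5 := le_of_mul_le_mul_left h4 (by positivity)
    have h6 : K ≤ r * (c ^ 2 / 16 * β * δ) := by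
      rwa [div_le_iff₀ (by positivity)] at hr
    have h7 : 0 < K := by linarith
    have h8 : 0 < (r : ℝ) := by
      by_contra hcon
      have : (r : ℝ) = 0 := le_antisymm (not_lt.1 hcon) (Nat.cast_nonneg r)
      rw [this, zero_mul] at h6
      linarith
    have h9 : (r * (c ^ 2 / 16 * β)) * bad B W p c β P ≤ (r * (c ^ 2 / 16 * β)) * (δ * Z.card) := by
      have : K * Z.card ≤ r * (c ^ 2 / 16 * β * δ) * Z.card :=
        mul_le_mul_of_nonneg_right h6 hz.le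
      nlinarith
    exact le_of_mul_le_mul_left h9 (by positivity)
  refine ⟨P.filter (fun A => Cluster B W p c β A), ?_, ?_, ?_, ?_⟩
  · exact (Finset.card_le_card (Finset.filter_subset _ _)).trans p1
  · intro A hA
    rw [Finset.mem_filter] at hA
    exact ⟨(p2 A hA.1).2.1, hsize A hA.1, hA.2⟩
  · intro A hA A' hA' hne
    exact p3 A (Finset.mem_filter.1 hA).1 A' (Finset.mem_filter.1 hA').1 hne
  · refine le_trans ?_ hbad
    have h3 : Z \ (P.filter (fun A => Cluster B W p c β A)).biUnion id ⊆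
        (P.filter (fun A => ¬ Cluster B W p c β A)).biUnion id := by
      intro z hz'
      rw [Finset.mem_sdiff] at hz'
      obtain ⟨A, hA, hzA⟩ := p4 z hz'.1
      rw [Finset.mem_biUnion]
      refine ⟨A, Finset.mem_filter.2 ⟨hA, fun hcl => hz'.2 ?_⟩, hzA⟩
      rw [Finset.mem_biUnion]
      exact ⟨A, Finset.mem_filter.2 ⟨hA, hcl⟩, hzA⟩
    have h4 := (Finset.card_le_card h3).trans Finset.card_biUnion_le
    unfold bad
    have h5 : ((Z \ (P.filter (fun A => Cluster B W p c β A)).biUnion id).card : ℝ) ≤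
        ((∑ A ∈ P.filter (fun A => ¬ Cluster B W p c β A), (id A).card : ℕ) : ℝ) := by
      exact_mod_cast h4
    refine h5.trans (le_of_eq ?_)
    push_cast
    rfl

end Pool.Agent.H973.CT
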