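import Pool.Agent.H973.CT.Stm

set_option autoImplicit false

/-! Leaf DEGEN of project CT (helper973): expected number of non-injective walks. -/

namespace Pool.Agent.H973.CT

open Finset Classical Pool.Agent.W166.Gnp

namespace DegenL

/-- the number of vertices of a walk is at most the number of its edges plus one -/
theorem range_le {n : ℕ} (φ : ℕ → Fin n) (r : ℕ) :
    ((range (r + 1)).image φ).card ≤
      ((range r).image (fun i => s(φ i, φ (i + 1)))).card + 1 := by
  induction r with
  | zero => simp
  | succ r ih =>
    rw [Finset.range_add_one (n := r + 1), image_insert]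
    by_cases h : φ (r + 1) ∈ (range (r + 1)).image φ
    · rw [insert_eq_of_mem h]
      refine ih.trans ?_
      have : ((range r).image (fun i => s(φ i, φ (i + 1)))) ⊆
          ((range (r + 1)).image (fun i => s(φ i, φ (i + 1)))) :=
        image_subset_image (range_subset_range.mpr (Nat.le_succ r))
      have := card_le_card this
      omega
    · rw [card_insert_of_notMem h]
      have h2 : s(φ r, φ (r + 1)) ∉ (range r).image (fun i => s(φ i, φ (i + 1))) := by
        intro h'
        obtain ⟨i, hi, he⟩ := mem_image.mp h'
        have hi' := mem_range.mp hi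
        apply h
        have h3 : φ (r + 1) ∈ s(φ i, φ (i + 1)) := by
          rw [he]
          exact Sym2.mem_mk_right _ _
        rcases Sym2.mem_iff.mp h3 with h1 | h1
        · exact mem_image.mpr ⟨i, mem_range.mpr (by omega), h1.symm⟩
        · exact mem_image.mpr ⟨i + 1, mem_range.mpr (by omega), h1.symm⟩
      have h5 : (range (r + 1)).image (fun i => s(φ i, φ (i + 1))) =
          insert (s(φ r, φ (r + 1))) ((range r).image (fun i => s(φ i, φ (i + 1)))) := by
        rw [Finset.range_add_one, image_insert]
      rw [h5, card_insert_of_notMem h2]
      omega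

variable {n r : ℕ}

/-- the edges of a walk -/
noncomputable def dset (φ : Fin (r + 1) → Fin n) : Finset (Sym2 (Fin n)) :=
  univ.image (fun i : Fin r => s(φ i.castSucc, φ i.succ))

theorem chain_iff (S : Finset (Sym2 (Fin n))) (φ : Fin (r + 1) → Fin n) :
    chain S φ ↔ dset φ ⊆ S := by
  unfold chain dset
  rw [image_subset_iff]
  simp

theorem card_range_le (φ : Fin (r + 1) → Fin n) : (univ.image φ).card ≤ (dset φ).card + 1 := by
  let ψ : ℕ → Fin n := fun k => φ ⟨min k r, by omega⟩
  have h1 : univ.image φ ⊆ (range (r + 1)).image ψ := by
    intro v hv
    obtain ⟨i, -, rfl⟩ := mem_image.mp hv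
    refine mem_image.mpr ⟨i.val, mem_range.mpr i.isLt, ?_⟩
    simp only [ψ]
    congr 1
    ext
    simp only
    have := i.isLt
    omega
  have h2 : (range r).image (fun i => s(ψ i, ψ (i + 1))) ⊆ dset φ := by
    intro e he
    obtain ⟨i, hi, rfl⟩ := mem_image.mp he
    have hi' := mem_range.mp hi
    refine mem_image.mpr ⟨⟨i, hi'⟩, mem_univ _, ?_⟩
    simp only [ψ]
    have e1 : (⟨i, hi'⟩ : Fin r).castSucc = ⟨min i r, by omega⟩ := by
      ext
      simp only [Fin.castSucc_mk]
      omega
    have e2 : (⟨i, hi'⟩ : Fin r).succ = ⟨min (i + 1) r, by omega⟩ := by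
      ext
      simp only [Fin.succ_mk]
      omega
    rw [e1, e2]
  have h3 := range_le ψ r
  have h4 := card_le_card h1
  have h5 := card_le_card h2
  omega

theorem Pr_chain_le {p : ℝ} (h0 : 0 ≤ p) (φ : Fin (r + 1) → Fin n) :
    Ex (allE n) p (fun S => if chain S φ then (1 : ℝ) else 0) ≤ p ^ (dset φ).card := by
  by_cases h : dset φ ⊆ allE n
  · have := Pr_superset h p
    unfold Pr at this
    rw [← this]
    apply le_of_eq
    apply Ex_congr
    intro S _
    by_cases h2 : dset φ ⊆ S <;> simp [chain_iff, h2]
  · have : Ex (allE n) p (fun S => if chain S φ then (1 : ℝ) else 0) =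
        Ex (allE n) p (fun _ => (0 : ℝ)) := by
      apply Ex_congr
      intro S hS
      rw [if_neg]
      rw [chain_iff]
      exact fun h' => h (h'.trans hS)
    rw [this, Ex_const]
    positivity

/-- number of maps with an image of `m` elements -/
theorem card_image_eq (m : ℕ) :
    ((univ : Finset (Fin (r + 1) → Fin n)).filter (fun φ => (univ.image φ).card = m)).card ≤
      m ^ (r + 1) * n ^ m := by
  have h : ((univ : Finset (Fin (r + 1) → Fin n)).filter (fun φ => (univ.image φ).card = m)) ⊆
      (univ : Finset ((Fin (r + 1) → Fin m) × (Fin m → Fin n))).image (fun q => q.2 ∘ q.1) := by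
    intro φ hφ
    have hc := (mem_filter.mp hφ).2
    let e : (univ.image φ) ≃ Fin m := Finset.equivFinOfCardEq hc
    refine mem_image.mpr ⟨(fun i => e ⟨φ i, mem_image_of_mem _ (mem_univ i)⟩,
      fun k => (e.symm k).val), mem_univ _, ?_⟩
    funext i
    simp
  refine (card_le_card h).trans (card_image_le.trans ?_)
  rw [card_univ, Fintype.card_prod, Fintype.card_fun, Fintype.card_fun, Fintype.card_fin,
    Fintype.card_fin, Fintype.card_fin]

end DegenL

open DegenL in
theorem degen : S_DEGEN := by
  intro r hr
  refine ⟨(r + 1) * (r + 1) ^ (r + 1), by positivity, ?_⟩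
  intro n p h0 h1 hpn
  have hn0 : (0 : ℝ) ≤ n := Nat.cast_nonneg n
  -- expectation as a sum
  have e1 : Ex (allE n) p (fun S => ((degWalks r S).card : ℝ)) =
      ∑ φ ∈ (univ : Finset (Fin (r + 1) → Fin n)).filter (fun φ => ¬ Function.Injective φ),
        Ex (allE n) p (fun S => if chain S φ then (1 : ℝ) else 0) := by
    rw [← Ex_sum]
    apply Ex_congr
    intro S _
    unfold degWalks
    rw [← sum_filter, filter_filter, sum_const, nsmul_eq_mul, mul_one]
    congr 2
    apply filter_congr
    intro φ _
    tauto
  rw [e1]
  calc ∑ φ ∈ (univ : Finset (Fin (r + 1) → Fin n)).filter (fun φ => ¬ Function.Injective φ),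
        Ex (allE n) p (fun S => if chain S φ then (1 : ℝ) else 0)
      ≤ ∑ φ ∈ (univ : Finset (Fin (r + 1) → Fin n)).filter (fun φ => ¬ Function.Injective φ),
        p ^ ((univ.image φ).card - 1) := by
        apply sum_le_sum
        intro φ _
        refine (Pr_chain_le h0 φ).trans ?_
        apply pow_le_pow_of_le_one h0 h1
        have := card_range_le φ
        omega
    _ = ∑ m ∈ range (r + 1), ∑ φ ∈ ((univ : Finset (Fin (r + 1) → Fin n)).filter
          (fun φ => ¬ Function.Injective φ)).filter (fun φ => (univ.image φ).card = m),
          p ^ ((univ.image φ).card - 1) := by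
        rw [sum_fiberwise_of_maps_to]
        intro φ hφ
        have hni := (mem_filter.mp hφ).2
        rw [mem_range]
        have h2 : (univ.image φ).card ≤ (univ : Finset (Fin (r + 1))).card := card_image_le
        have h3 : (univ.image φ).card ≠ (univ : Finset (Fin (r + 1))).card := by
          intro h4
          rw [card_image_iff] at h4
          exact hni (by simpa using h4)
        rw [card_univ, Fintype.card_fin] at h2 h3
        omega
    _ ≤ ∑ m ∈ range (r + 1), ((r + 1) ^ (r + 1) : ℝ) * (n * (p * n) ^ (r - 1)) := by
        apply sum_le_sum
        intro m hm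
        have hm' := mem_range.mp hm
        rcases Nat.eq_zero_or_pos m with hm0 | hm0
        · subst hm0
          have : ((univ : Finset (Fin (r + 1) → Fin n)).filter
            (fun φ => ¬ Function.Injective φ)).filter (fun φ => (univ.image φ).card = 0) = ∅ := by
            rw [filter_eq_empty_iff]
            intro φ _ h4
            rw [card_eq_zero, image_eq_empty] at h4
            have := mem_univ (0 : Fin (r + 1))
            rw [h4] at this
            simp at this
          rw [this, sum_empty]
          positivity
        · have h2 : ∀ φ ∈ ((univ : Finset (Fin (r + 1) → Fin n)).filter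
              (fun φ => ¬ Function.Injective φ)).filter (fun φ => (univ.image φ).card = m),
              p ^ ((univ.image φ).card - 1) = p ^ (m - 1) := by
            intro φ hφ
            rw [(mem_filter.mp hφ).2]
          rw [sum_congr rfl h2, sum_const, nsmul_eq_mul]
          have h3 : ((((univ : Finset (Fin (r + 1) → Fin n)).filter
              (fun φ => ¬ Function.Injective φ)).filter
              (fun φ => (univ.image φ).card = m)).card : ℝ) ≤ (m : ℝ) ^ (r + 1) * n ^ m := by
            have h4 := card_image_eq (n := n) (r := r) m
            have h5 : (((univ : Finset (Fin (r + 1) → Fin n)).filter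
              (fun φ => ¬ Function.Injective φ)).filter
              (fun φ => (univ.image φ).card = m)).card ≤
              ((univ : Finset (Fin (r + 1) → Fin n)).filter
                (fun φ => (univ.image φ).card = m)).card := by
              apply card_le_card
              apply filter_subset_filter
              exact filter_subset _ _
            exact_mod_cast h5.trans h4
          calc ((((univ : Finset (Fin (r + 1) → Fin n)).filter
              (fun φ => ¬ Function.Injective φ)).filter
              (fun φ => (univ.image φ).card = m)).card : ℝ) * p ^ (m - 1)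
              ≤ ((m : ℝ) ^ (r + 1) * n ^ m) * p ^ (m - 1) :=
                mul_le_mul_of_nonneg_right h3 (by positivity)
            _ = (m : ℝ) ^ (r + 1) * (n * (p * n) ^ (m - 1)) := by
                obtain ⟨k, rfl⟩ : ∃ k, m = k + 1 := ⟨m - 1, by omega⟩
                simp only [Nat.add_sub_cancel]
                rw [mul_pow, pow_succ (n : ℝ) k]
                ring
            _ ≤ ((r + 1) ^ (r + 1) : ℝ) * (n * (p * n) ^ (r - 1)) := by
                apply mul_le_mul
                · apply pow_le_pow_left₀ (by positivity)
                  have : m ≤ r + 1 := by omega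
                  exact_mod_cast this
                · apply mul_le_mul_of_nonneg_left _ hn0
                  exact pow_le_pow_right₀ hpn (by omega)
                · positivity
                · positivity
    _ = _ := by
        rw [sum_const, card_range, nsmul_eq_mul]
        push_cast
        ring

end Pool.Agent.H973.CT

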