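import Pool.Agent.H973.CT.Stm

set_option autoImplicit false

/-! Deterministic lemmas. -/

namespace Pool.Agent.H973.CT

open Finset Classical Pool.Agent.W166.Gnp

variable {n : ℕ}

/-- degenerate colouring -/
theorem degen_color (S : Finset (Sym2 (Fin n))) (K : ℕ) (hK : 0 < K) : ∀ (m : ℕ) (U : Finset (Fin n)),
    U.card = m → (∀ U' ⊆ U, U'.Nonempty → ∃ v ∈ U', (nb S U' v).card < K) →
    ∃ f : Fin n → ℕ, (∀ v, f v < K) ∧ ∀ u ∈ U, ∀ v ∈ U, u ≠ v → s(u, v) ∈ S → f u ≠ f v := by
  intro m
  induction m with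
  | zero =>
    intro U hU _
    rw [card_eq_zero] at hU
    subst hU
    exact ⟨fun _ => 0, fun _ => hK, by simp⟩
  | succ m ih =>
    intro U hU h
    have hne : U.Nonempty := by rw [← card_pos, hU]; omega
    obtain ⟨v, hv, hdeg⟩ := h U (Subset.refl _) hne
    obtain ⟨f, hf1, hf2⟩ := ih (U.erase v) (by rw [card_erase_of_mem hv, hU]; rfl)
      (fun U' hU' hne' => h U' (hU'.trans (erase_subset _ _)) hne')
    have hex : ∃ c ∈ range K, c ∉ (nb S U v).image f := by
      by_contra hcon
      push Not at hcon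
      have h1 : range K ⊆ (nb S U v).image f := fun c hc => hcon c hc
      have h2 := card_le_card h1
      rw [card_range] at h2
      exact absurd (h2.trans card_image_le) (by omega)
    obtain ⟨c, hc1, hc2⟩ := hex
    refine ⟨fun u => if u = v then c else f u, ?_, ?_⟩
    · intro u
      dsimp only
      split_ifs
      · exact mem_range.mp hc1
      · exact hf1 u
    · intro a ha b hb hab hS
      dsimp only
      by_cases hav : a = v
      · subst hav
        rw [if_pos rfl, if_neg (Ne.symm hab)]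
        intro h5
        apply hc2
        rw [mem_image]
        exact ⟨b, mem_filter.mpr ⟨hb, hS⟩, h5.symm⟩
      · by_cases hbv : b = v
        · subst hbv
          rw [if_neg hab, if_pos rfl]
          intro h5
          apply hc2
          rw [mem_image]
          exact ⟨a, mem_filter.mpr ⟨ha, by rw [Sym2.eq_swap]; exact hS⟩, h5⟩
        · rw [if_neg hav, if_neg hbv]
          exact hf2 a (mem_erase.mpr ⟨hav, ha⟩) b (mem_erase.mpr ⟨hbv, hb⟩) hab hS

/-- a set of `s` disjoint edges inside `X` -/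
structure IsMat (E : Finset (Sym2 (Fin n))) (X : Finset (Fin n)) (M : Finset (Fin n × Fin n)) :
    Prop where
  mem : ∀ q ∈ M, q.1 ∈ X ∧ q.2 ∈ X ∧ q.1 ≠ q.2 ∧ s(q.1, q.2) ∈ E
  disj : ∀ q ∈ M, ∀ q' ∈ M, q ≠ q' → q.1 ≠ q'.1 ∧ q.1 ≠ q'.2 ∧ q.2 ≠ q'.1 ∧ q.2 ≠ q'.2

/-- vertices of a matching -/
noncomputable def vts (M : Finset (Fin n × Fin n)) : Finset (Fin n) :=
  M.image Prod.fst ∪ M.image Prod.snd

theorem vts_card (M : Finset (Fin n × Fin n)) : (vts M).card ≤ 2 * M.card := by
  unfold vts
  refine (card_union_le _ _).trans ?_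
  have h1 := card_image_le (s := M) (f := Prod.fst)
  have h2 := card_image_le (s := M) (f := Prod.snd)
  omega

theorem matching_or (E : Finset (Sym2 (Fin n))) (X : Finset (Fin n)) : ∀ s : ℕ,
    (∃ M, IsMat E X M ∧ M.card = s) ∨
    ∃ U ⊆ X, U.card ≤ 2 * s ∧ ∀ u ∈ X \ U, ∀ v ∈ X \ U, u ≠ v → s(u, v) ∉ E := by
  intro s
  induction s with
  | zero => exact Or.inl ⟨∅, ⟨by simp, by simp⟩, rfl⟩
  | succ s ih =>
    rcases ih with ⟨M, hM, hMs⟩ | ⟨U, hU, hUc, hUi⟩
    · by_cases h : ∃ u ∈ X \ vts M, ∃ v ∈ X \ vts M, u ≠ v ∧ s(u, v) ∈ E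
      · obtain ⟨u, hu, v, hv, huv, hE⟩ := h
        left
        rw [mem_sdiff] at hu hv
        have hu1 : ∀ q ∈ M, q.1 ≠ u ∧ q.2 ≠ u := by
          intro q hq
          constructor
          · intro h; exact hu.2 (mem_union_left _ (mem_image.mpr ⟨q, hq, h⟩))
          · intro h; exact hu.2 (mem_union_right _ (mem_image.mpr ⟨q, hq, h⟩))
        have hv1 : ∀ q ∈ M, q.1 ≠ v ∧ q.2 ≠ v := by
          intro q hq
          constructor
          · intro h; exact hv.2 (mem_union_left _ (mem_image.mpr ⟨q, hq, h⟩))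
          · intro h; exact hv.2 (mem_union_right _ (mem_image.mpr ⟨q, hq, h⟩))
        have hnot : (u, v) ∉ M := fun h => (hu1 _ h).1 rfl
        refine ⟨insert (u, v) M, ⟨?_, ?_⟩, by rw [card_insert_of_notMem hnot, hMs]⟩
        · intro q hq
          rw [mem_insert] at hq
          rcases hq with rfl | hq
          · exact ⟨hu.1, hv.1, huv, hE⟩
          · exact hM.mem q hq
        · intro q hq q' hq' hne
          rw [mem_insert] at hq hq'
          rcases hq with rfl | hq
          · rcases hq' with rfl | hq'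
            · exact absurd rfl hne
            · exact ⟨(hu1 _ hq').1.symm, (hu1 _ hq').2.symm, (hv1 _ hq').1.symm, (hv1 _ hq').2.symm⟩
          · rcases hq' with rfl | hq'
            · exact ⟨(hu1 _ hq).1, (hv1 _ hq).1, (hu1 _ hq).2, (hv1 _ hq).2⟩
            · exact hM.disj q hq q' hq' hne
      · push Not at h
        right
        refine ⟨vts M, ?_, ?_, h⟩
        · intro x hx
          unfold vts at hx
          rw [mem_union, mem_image, mem_image] at hx
          rcases hx with ⟨q, hq, rfl⟩ | ⟨q, hq, rfl⟩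
          · exact (hM.mem q hq).1
          · exact (hM.mem q hq).2.1
        · have := vts_card M
          omega
    · right
      exact ⟨U, hU, by omega, hUi⟩

/-- one-sided container lemma -/
theorem container (R : Fin n → Finset (Fin n)) (D : ℝ) (hD : 0 < D) (Zc A₁ A₂ : Finset (Fin n))
    (h1 : A₁ ⊆ Zc) (h2 : A₂ ⊆ Zc) (hR : ∀ z, R z ⊆ Zc)
    (hno : ∀ z ∈ A₁, ∀ z' ∈ A₂, z' ∉ R z) :
    ∃ T ⊆ A₁, D * T.card ≤ Zc.card ∧ A₂ ⊆ Zc \ T.biUnion R ∧
      A₁ ⊆ Zc.filter (fun z => ((R z \ T.biUnion R).card : ℝ) < D) := by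
  set Fam := A₁.powerset.filter (fun T => D * T.card ≤ ((T.biUnion R).card : ℝ)) with hFam
  have hne : Fam.Nonempty := ⟨∅, by simp [hFam]⟩
  obtain ⟨T, hT, hmax⟩ := exists_max_image Fam (fun T => T.card) hne
  rw [hFam, mem_filter, mem_powerset] at hT
  refine ⟨T, hT.1, ?_, ?_, ?_⟩
  · refine hT.2.trans ?_
    have : T.biUnion R ⊆ Zc := by
      rw [biUnion_subset]; intro z _; exact hR z
    exact_mod_cast card_le_card this
  · intro z hz
    rw [mem_sdiff, mem_biUnion]
    refine ⟨h2 hz, ?_⟩
    rintro ⟨t, ht, htz⟩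
    exact hno t (hT.1 ht) z hz htz
  · intro z hz
    rw [mem_filter]
    refine ⟨h1 hz, ?_⟩
    by_contra hcon
    push Not at hcon
    have hzT : z ∉ T := by
      intro hzT
      have : R z \ T.biUnion R = ∅ := by
        rw [sdiff_eq_empty_iff_subset]
        exact subset_biUnion_of_mem R hzT
      rw [this, card_empty] at hcon
      simp at hcon
      linarith
    have h3 : insert z T ∈ Fam := by
      rw [hFam, mem_filter, mem_powerset]
      refine ⟨insert_subset hz hT.1, ?_⟩
      rw [card_insert_of_notMem hzT, biUnion_insert]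
      have h4 : (R z ∪ T.biUnion R).card = (R z \ T.biUnion R).card + (T.biUnion R).card := by
        rw [← sdiff_union_self_eq_union, card_union_of_disjoint sdiff_disjoint]
      rw [h4]
      push_cast
      have := hT.2
      linarith
    have h5 := hmax _ h3
    rw [card_insert_of_notMem hzT] at h5
    omega

/-- `z'` is reached from `z` by a path of length `r` -/
def reach (B : Finset (Sym2 (Fin n))) (r : ℕ) (z z' : Fin n) : Prop :=
  ∃ φ ∈ paths r B, φ 0 = z ∧ φ (Fin.last r) = z'

theorem paths_mono {r : ℕ} {B S : Finset (Sym2 (Fin n))} (h : B ⊆ S) : paths r B ⊆ paths r S := by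
  intro φ hφ
  simp only [paths, mem_filter, mem_univ, true_and] at hφ ⊢
  exact ⟨fun i => h (hφ.1 i), hφ.2⟩

/-- many reachable pairs -/
theorem super (hW : S_WALK) {h : ℕ} (hh : 1 ≤ h) (S B : Finset (Sym2 (Fin n))) (hBS : B ⊆ S)
    (Zc W : Finset (Fin n)) (β q : ℝ) (hβ : 0 < β) (hβ2 : β ≤ 1 / 2) (hq : 0 < q)
    (hcp : ∀ A₁ A₂ : Finset (Fin n), A₁ ⊆ Zc → A₂ ⊆ Zc → β * Zc.card ≤ A₁.card →
      β * Zc.card ≤ A₂.card → q * A₁.card ≤ ∑ w ∈ W, (dg B A₁ w : ℝ) * dg B A₂ w)
    (hdeg : ((degWalks (2 * h) S).card : ℝ) ≤ β * Zc.card * q ^ h / 2)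
    (A A' : Finset (Fin n)) (hA : A ⊆ Zc) (hA' : A' ⊆ Zc) (hA2 : 2 * β * Zc.card ≤ A.card)
    (hA2' : 2 * β * Zc.card ≤ A'.card) :
    (β * Zc.card * q ^ h / 2) ^ 2 ≤
      (((A ×ˢ A').filter (fun z => reach B (2 * h) z.1 z.2)).card : ℝ) *
        (pairsW (2 * h) S).card := by
  have hw := hW h n B Zc W β q hh hβ hβ2 hq hcp A A' hA hA' hA2 hA2'
  set Wk := (univ : Finset (Fin (2 * h + 1) → Fin n)).filter
      (fun φ => chain B φ ∧ φ 0 ∈ A ∧ φ (Fin.last (2 * h)) ∈ A') with hWk
  set P := (paths (2 * h) B).filter (fun φ => φ 0 ∈ A ∧ φ (Fin.last (2 * h)) ∈ A') with hP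
  have h1 : Wk ⊆ P ∪ degWalks (2 * h) S := by
    intro φ hφ
    simp only [hWk, mem_filter, mem_univ, true_and] at hφ
    rw [mem_union]
    by_cases hi : Function.Injective φ
    · left
      simp only [hP, paths, mem_filter, mem_univ, true_and]
      exact ⟨⟨hφ.1, hi⟩, hφ.2⟩
    · right
      simp only [degWalks, mem_filter, mem_univ, true_and]
      exact ⟨fun i => hBS (hφ.1 i), hi⟩
  have h2 : (Wk.card : ℝ) ≤ P.card + (degWalks (2 * h) S).card := by
    exact_mod_cast (card_le_card h1).trans (card_union_le _ _)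
  have h3 : β * Zc.card * q ^ h / 2 ≤ (P.card : ℝ) := by linarith
  set Rc := (A ×ˢ A').filter (fun z => reach B (2 * h) z.1 z.2) with hRc
  set ends : (Fin (2 * h + 1) → Fin n) → Fin n × Fin n := fun φ => (φ 0, φ (Fin.last (2 * h)))
    with hends
  have h4 : ∀ φ ∈ P, ends φ ∈ Rc := by
    intro φ hφ
    rw [hP, mem_filter] at hφ
    rw [hRc, mem_filter, mem_product]
    exact ⟨hφ.2, φ, hφ.1, rfl, rfl⟩
  have h5 : P.card = ∑ z ∈ Rc, (P.filter (fun φ => ends φ = z)).card :=
    card_eq_sum_card_fiberwise h4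
  have h6 : (P.card : ℝ) ^ 2 ≤ Rc.card * ∑ z ∈ Rc, ((P.filter (fun φ => ends φ = z)).card : ℝ) ^ 2 := by
    rw [h5]
    push_cast
    exact sq_sum_le_card_mul_sum_sq
  have h7 : ∑ z ∈ Rc, ((P.filter (fun φ => ends φ = z)).card : ℝ) ^ 2 ≤
      ((pairsW (2 * h) S).card : ℝ) := by
    have h8 : ∑ z ∈ Rc, ((P.filter (fun φ => ends φ = z)).card) ^ 2 =
        ∑ z ∈ Rc, ((P.filter (fun φ => ends φ = z)) ×ˢ (P.filter (fun φ => ends φ = z))).card := by
      apply sum_congr rfl
      intro z _
      rw [card_product, sq]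
    have h9 : ∑ z ∈ Rc, ((P.filter (fun φ => ends φ = z)) ×ˢ (P.filter (fun φ => ends φ = z))).card
        ≤ (pairsW (2 * h) S).card := by
      rw [← card_biUnion]
      · apply card_le_card
        intro q hq
        rw [mem_biUnion] at hq
        obtain ⟨z, _, hz⟩ := hq
        obtain ⟨hz1, hz2⟩ := mem_product.mp hz
        obtain ⟨a1, a2⟩ := mem_filter.mp hz1
        obtain ⟨b1, b2⟩ := mem_filter.mp hz2
        have c1 : ends q.1 = ends q.2 := a2.trans b2.symm
        simp only [hends, Prod.mk.injEq] at c1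
        rw [pairsW, mem_filter, mem_product]
        exact ⟨⟨paths_mono hBS (mem_filter.mp a1).1, paths_mono hBS (mem_filter.mp b1).1⟩, c1⟩
      · intro z _ z' _ hzz
        rw [Function.onFun, Finset.disjoint_left]
        intro q hq hq'
        have e1 := (mem_filter.mp (mem_product.mp hq).1).2
        have e2 := (mem_filter.mp (mem_product.mp hq').1).2
        exact hzz (e1.symm.trans e2)
    have h10 := h8.le.trans h9
    exact_mod_cast h10
  have h11 : 0 ≤ β * Zc.card * q ^ h / 2 := by positivity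
  calc (β * Zc.card * q ^ h / 2) ^ 2 ≤ (P.card : ℝ) ^ 2 := pow_le_pow_left₀ h11 h3 2
    _ ≤ _ := h6
    _ ≤ _ := mul_le_mul_of_nonneg_left h7 (Nat.cast_nonneg _)

/-- the path, the two private neighbours and the edge give an odd cycle -/
theorem cycle_of (G : SimpleGraph (Fin n)) (h : ℕ) (hh : 1 ≤ h) (x₁ x₂ y₁ y₂ : Fin n)
    (φ : Fin (2 * h + 1) → Fin n) (hφ : Function.Injective φ)
    (hadj : ∀ i : Fin (2 * h), G.Adj (φ i.castSucc) (φ i.succ))
    (h1 : G.Adj x₁ x₂) (h2 : G.Adj x₁ y₁) (h3 : G.Adj x₂ y₂) (h4 : G.Adj y₁ (φ 0))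
    (h5 : G.Adj y₂ (φ (Fin.last (2 * h)))) (hy : y₁ ≠ y₂) (hx1 : ∀ i, φ i ≠ x₁)
    (hx2 : ∀ i, φ i ≠ x₂) (hy1 : ∀ i, φ i ≠ y₁) (hy2 : ∀ i, φ i ≠ y₂) (hxy1 : x₁ ≠ y₂)
    (hxy2 : x₂ ≠ y₁) : (SimpleGraph.cycleGraph (2 * h + 5)).IsContained G := by
  set f : Fin (2 * h + 5) → Fin n := fun i =>
    if hi : i.val < 2 * h + 1 then φ ⟨i.val, hi⟩
    else if i.val = 2 * h + 1 then y₂ else if i.val = 2 * h + 2 then x₂
    else if i.val = 2 * h + 3 then x₁ else y₁ with hf
  have e12 := h1.ne
  have e2 := h2.ne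
  have e3 := h3.ne
  have hinj : Function.Injective f := by
    intro i j hij
    have hi := i.isLt
    have hj := j.isLt
    simp only [hf] at hij
    apply Fin.ext
    by_cases a : i.val < 2 * h + 1
    · by_cases b : j.val < 2 * h + 1
      · rw [dif_pos a, dif_pos b] at hij
        have := hφ hij
        simpa using this
      · rw [dif_pos a, dif_neg b] at hij
        exfalso
        split_ifs at hij
        · exact hy2 _ hij
        · exact hx2 _ hij
        · exact hx1 _ hij
        · exact hy1 _ hij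
    · by_cases b : j.val < 2 * h + 1
      · rw [dif_neg a, dif_pos b] at hij
        exfalso
        split_ifs at hij
        · exact hy2 _ hij.symm
        · exact hx2 _ hij.symm
        · exact hx1 _ hij.symm
        · exact hy1 _ hij.symm
      · rw [dif_neg a, dif_neg b] at hij
        split_ifs at hij <;> first | omega | (exfalso; first | exact hy hij | exact hy hij.symm | exact e12 hij | exact e12 hij.symm | exact e2 hij | exact e2 hij.symm | exact e3 hij | exact e3 hij.symm | exact hxy1 hij | exact hxy1 hij.symm | exact hxy2 hij | exact hxy2 hij.symm)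
  have hstep : ∀ i j : Fin (2 * h + 5), (j.val = i.val + 1 ∨ (i.val = 2 * h + 4 ∧ j.val = 0)) →
      G.Adj (f i) (f j) := by
    intro i j hij
    have hi := i.isLt
    have hj := j.isLt
    simp only [hf]
    rcases hij with hij | ⟨hi4, hj0⟩
    · by_cases b : j.val < 2 * h + 1
      · have a : i.val < 2 * h + 1 := by omega
        rw [dif_pos a, dif_pos b]
        have h0 := hadj ⟨i.val, by omega⟩
        have e1 : (⟨i.val, a⟩ : Fin (2 * h + 1)) = (⟨i.val, by omega⟩ : Fin (2 * h)).castSucc := rfl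
        have e2' : (⟨j.val, b⟩ : Fin (2 * h + 1)) = (⟨i.val, by omega⟩ : Fin (2 * h)).succ := by
          apply Fin.ext
          exact hij
        rw [e1, e2']
        exact h0
      · by_cases a : i.val < 2 * h + 1
        · rw [dif_pos a, dif_neg b, if_pos (by omega)]
          have : (⟨i.val, a⟩ : Fin (2 * h + 1)) = Fin.last (2 * h) := by
            apply Fin.ext; simp; omega
          rw [this]
          exact h5.symm
        · rw [dif_neg a, dif_neg b]
          by_cases c1 : i.val = 2 * h + 1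
          · rw [if_pos c1, if_neg (by omega), if_pos (by omega)]
            exact h3.symm
          · by_cases c2 : i.val = 2 * h + 2
            · rw [if_neg c1, if_pos c2, if_neg (by omega), if_neg (by omega), if_pos (by omega)]
              exact h1.symm
            · rw [if_neg c1, if_neg c2, if_pos (by omega), if_neg (by omega), if_neg (by omega),
                if_neg (by omega)]
              exact h2
    · rw [dif_neg (by omega), if_neg (by omega), if_neg (by omega), if_neg (by omega),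
        dif_pos (by omega)]
      have : (⟨j.val, by omega⟩ : Fin (2 * h + 1)) = 0 := by apply Fin.ext; simp [hj0]
      rw [this]
      exact h4
  refine ⟨⟨⟨f, ?_⟩, hinj⟩⟩
  intro i j hij
  rw [SimpleGraph.cycleGraph_adj'] at hij
  have hi := i.isLt
  have hj := j.isLt
  rcases hij with hij | hij
  · refine (hstep _ _ ?_).symm
    rw [Fin.sub_def] at hij
    simp only at hij
    by_cases hle : j.val ≤ i.val
    · left
      have : (2 * h + 5 - j.val + i.val) % (2 * h + 5) = i.val - j.val := by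
        have : 2 * h + 5 - j.val + i.val = (i.val - j.val) + (2 * h + 5) := by omega
        rw [this, Nat.add_mod_right, Nat.mod_eq_of_lt (by omega)]
      omega
    · right
      have : (2 * h + 5 - j.val + i.val) % (2 * h + 5) = 2 * h + 5 - j.val + i.val :=
        Nat.mod_eq_of_lt (by omega)
      omega
  · apply hstep
    rw [Fin.sub_def] at hij
    simp only at hij
    by_cases hle : i.val ≤ j.val
    · left
      have : (2 * h + 5 - i.val + j.val) % (2 * h + 5) = j.val - i.val := by
        have : 2 * h + 5 - i.val + j.val = (j.val - i.val) + (2 * h + 5) := by omega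
        rw [this, Nat.add_mod_right, Nat.mod_eq_of_lt (by omega)]
      omega
    · right
      have : (2 * h + 5 - i.val + j.val) % (2 * h + 5) = 2 * h + 5 - i.val + j.val :=
        Nat.mod_eq_of_lt (by omega)
      omega

end Pool.Agent.H973.CT
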