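import Pool.Agent.H973.CT.Stm2

set_option autoImplicit false

/-! # The deterministic leaf `S_DET2` -/

namespace Pool.Agent.H973.CT

open Finset Classical Pool.Agent.W166.Gnp

namespace Det2L

variable {n : ℕ}

theorem mem_nb {S : Finset (Sym2 (Fin n))} {A : Finset (Fin n)} {v u : Fin n} :
    u ∈ nb S A v ↔ u ∈ A ∧ s(v, u) ∈ S := by
  simp [nb]

theorem mem_prs2 {A B : Finset (Fin n)} {e : Sym2 (Fin n)} :
    e ∈ prs2 A B ↔ ∃ a ∈ A, ∃ b ∈ B, a ≠ b ∧ e = s(a, b) := by
  unfold prs2
  simp only [mem_image, mem_filter, mem_product, Prod.exists]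
  constructor
  · rintro ⟨a, b, ⟨⟨ha, hb⟩, hab⟩, rfl⟩
    exact ⟨a, ha, b, hb, hab, rfl⟩
  · rintro ⟨a, ha, b, hb, hab, rfl⟩
    exact ⟨a, b, ⟨⟨ha, hb⟩, hab⟩, rfl⟩

theorem mem_dl {v : Fin n} {S : Finset (Sym2 (Fin n))} {e : Sym2 (Fin n)} :
    e ∈ dl v S ↔ e ∈ S ∧ v ∉ e := by
  simp [dl]

theorem mk_mem_dl {v a b : Fin n} {S : Finset (Sym2 (Fin n))} (h : s(a, b) ∈ S) (ha : a ≠ v)
    (hb : b ≠ v) : s(a, b) ∈ dl v S := by
  rw [mem_dl]
  refine ⟨h, ?_⟩
  simp only [Sym2.mem_iff, not_or]
  exact ⟨fun h' => ha h'.symm, fun h' => hb h'.symm⟩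

theorem H_ends {X : Finset (Fin n)} {H : Finset (Sym2 (Fin n))} (hH : H ⊆ prs2 X X) {a b : Fin n}
    (h : s(a, b) ∈ H) : a ∈ X ∧ b ∈ X ∧ a ≠ b := by
  obtain ⟨c, hc, d, hd, hcd, he⟩ := mem_prs2.1 (hH h)
  rcases Sym2.eq_iff.1 he with ⟨rfl, rfl⟩ | ⟨rfl, rfl⟩
  · exact ⟨hc, hd, hcd⟩
  · exact ⟨hd, hc, hcd.symm⟩

theorem S_ends {P : Finset (Fin n)} {S : Finset (Sym2 (Fin n))} (hS : S ⊆ prs2 P (univ \ P))
    {a b : Fin n} (h : s(a, b) ∈ S) : (a ∈ P ↔ b ∉ P) ∧ a ≠ b := by
  obtain ⟨c, hc, d, hd, hcd, he⟩ := mem_prs2.1 (hS h)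
  have hd' : d ∉ P := by simpa using hd
  rcases Sym2.eq_iff.1 he with ⟨rfl, rfl⟩ | ⟨rfl, rfl⟩
  · exact ⟨by simp [hc, hd'], hcd⟩
  · exact ⟨by simp [hc, hd'], hcd.symm⟩

/-- number of `H`-steps of the walk `w` -/
noncomputable def cnt (H : Finset (Sym2 (Fin n))) (w : ℕ → Fin n) (r : ℕ) : ℕ :=
  ((range r).filter (fun i => s(w i, w (i + 1)) ∈ H)).card

theorem cnt_succ_pos {H : Finset (Sym2 (Fin n))} {w : ℕ → Fin n} {r : ℕ}
    (h : s(w r, w (r + 1)) ∈ H) : cnt H w (r + 1) = cnt H w r + 1 := by
  unfold cnt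
  rw [range_add_one, filter_insert, if_pos h, card_insert_of_notMem]
  simp

theorem cnt_succ_neg {H : Finset (Sym2 (Fin n))} {w : ℕ → Fin n} {r : ℕ}
    (h : s(w r, w (r + 1)) ∉ H) : cnt H w (r + 1) = cnt H w r := by
  unfold cnt
  rw [range_add_one, filter_insert, if_neg h]

theorem cnt_le (H : Finset (Sym2 (Fin n))) (w : ℕ → Fin n) (r : ℕ) : cnt H w r ≤ r := by
  unfold cnt
  exact (card_filter_le _ _).trans (by simp)

theorem wr_of_walk {S : Finset (Sym2 (Fin n))} {w : ℕ → Fin n} :
    ∀ r : ℕ, (∀ i < r, s(w i, w (i + 1)) ∈ S) → w r ∈ wr S r (w 0)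
  | 0, _ => by simp [wr]
  | r + 1, h => by
    rw [wr, mem_biUnion]
    exact ⟨w r, wr_of_walk r (fun i hi => h i (by omega)), mem_nb.2 ⟨mem_univ _, h r (by omega)⟩⟩

theorem hw_of_walk {S H : Finset (Sym2 (Fin n))} {w : ℕ → Fin n} :
    ∀ r : ℕ, (∀ i < r, s(w i, w (i + 1)) ∈ H ∨ s(w i, w (i + 1)) ∈ S) →
      w r ∈ hw S H r (cnt H w r) (w 0)
  | 0, _ => by simp [hw, cnt]
  | r + 1, h => by
    have ih := hw_of_walk r (fun i hi => h i (by omega))
    by_cases hr : s(w r, w (r + 1)) ∈ H
    · rw [cnt_succ_pos hr, hw, mem_union]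
      right
      rw [mem_biUnion]
      exact ⟨w r, ih, mem_nb.2 ⟨mem_univ _, hr⟩⟩
    · rw [cnt_succ_neg hr]
      have hS := (h r (by omega)).resolve_left hr
      cases hc : cnt H w r with
      | zero =>
        rw [hc] at ih
        rw [hw, mem_biUnion]
        exact ⟨w r, ih, mem_nb.2 ⟨mem_univ _, hS⟩⟩
      | succ j =>
        rw [hc] at ih
        rw [hw, mem_union]
        left
        rw [mem_biUnion]
        exact ⟨w r, ih, mem_nb.2 ⟨mem_univ _, hS⟩⟩

/-- parity of the number of steps -/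
theorem parity {P : Finset (Fin n)} {H : Finset (Sym2 (Fin n))} {w : ℕ → Fin n} :
    ∀ r : ℕ, (∀ i < r, s(w i, w (i + 1)) ∈ H → w i ∉ P ∧ w (i + 1) ∉ P) →
      (∀ i < r, s(w i, w (i + 1)) ∉ H → (w i ∈ P ↔ w (i + 1) ∉ P)) →
      ((w r ∈ P ↔ w 0 ∈ P) ↔ Even (r + cnt H w r))
  | 0, _, _ => by simp [cnt]
  | r + 1, h1, h2 => by
    have ih := parity r (fun i hi => h1 i (by omega)) (fun i hi => h2 i (by omega))
    by_cases hr : s(w r, w (r + 1)) ∈ H
    · have h3 := h1 r (by omega) hr
      rw [cnt_succ_pos hr]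
      have e : r + 1 + (cnt H w r + 1) = (r + cnt H w r) + 2 := by ring
      rw [e, Nat.even_add]
      simp only [even_two, iff_true]
      rw [← ih]
      simp [h3.1, h3.2]
    · have h3 := h2 r (by omega) hr
      rw [cnt_succ_neg hr]
      have e : r + 1 + cnt H w r = (r + cnt H w r) + 1 := by ring
      rw [e, Nat.even_add_one, ← ih]
      tauto

/-- the deleted edges of the first kind -/
noncomputable def del1 (h : ℕ) (S H : Finset (Sym2 (Fin n))) : Finset (Sym2 (Fin n)) :=
  (univ.filter (fun ψ : Fin (2 * h + 5) → Fin n => MainCyc h S H ψ)).image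
    (fun ψ => s(ψ 3, ψ 4))

/-- the deleted edges of the second kind -/
noncomputable def del2 (h : ℕ) (P X : Finset (Fin n)) (S H : Finset (Sym2 (Fin n))) :
    Finset (Sym2 (Fin n)) :=
  S.filter (fun e => ∃ x ∈ X, ∃ q ∈ P, ∃ z : Fin n, ∃ j : ℕ, 2 ≤ j ∧ j ≤ 2 * h + 3 ∧
    e = s(x, q) ∧ s(x, z) ∈ H ∧ q ∈ hw (dl x S) (dl x H) (2 * h + 3) j z)

theorem val_lit (h m : ℕ) (hm : m < 2 * h + 5) :
    (Fin.ofNat (2 * h + 5) m).val = m := Nat.mod_eq_of_lt hm

theorem no_cycle {h : ℕ} {P X : Finset (Fin n)} {H S : Finset (Sym2 (Fin n))}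
    (hPX : Disjoint P X) (hH : H ⊆ prs2 X X) (hS : S ⊆ prs2 P (univ \ P))
    (hno : NoCyc (2 * h + 5) H) (g : ℕ → Fin n) (hper : ∀ k, g (k + (2 * h + 5)) = g k)
    (hinj : ∀ a b, g a = g b → a % (2 * h + 5) = b % (2 * h + 5))
    (hE : ∀ k, s(g k, g (k + 1)) ∈ (S \ (del1 h S H ∪ del2 h P X S H)) ∪ H) : False := by
  have hXP : ∀ a ∈ X, a ∉ P := fun a ha ha' => (disjoint_left.1 hPX) ha' ha
  have hEH : ∀ k, s(g k, g (k + 1)) ∈ H → g k ∉ P ∧ g (k + 1) ∉ P := by
    intro k hk
    have := H_ends hH hk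
    exact ⟨hXP _ this.1, hXP _ this.2.1⟩
  have hES : ∀ k, s(g k, g (k + 1)) ∉ H → s(g k, g (k + 1)) ∈ S ∧
      s(g k, g (k + 1)) ∉ del1 h S H ∧ s(g k, g (k + 1)) ∉ del2 h P X S H := by
    intro k hk
    have := hE k
    simp only [mem_union, mem_sdiff, not_or, hk, or_false] at this
    exact this
  have hES' : ∀ k, s(g k, g (k + 1)) ∉ H → (g k ∈ P ↔ g (k + 1) ∉ P) := fun k hk =>
    (S_ends hS (hES k hk).1).1
  -- an `H`-edge followed by another edge
  obtain ⟨k0, hk0, hk1⟩ : ∃ k, s(g k, g (k + 1)) ∈ H ∧ s(g (k + 1), g (k + 1 + 1)) ∉ H := by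
    by_contra hcon
    push Not at hcon
    by_cases hex : ∃ k, s(g k, g (k + 1)) ∈ H
    · obtain ⟨k0, hk0⟩ := hex
      have hall : ∀ i, s(g (k0 + i), g (k0 + i + 1)) ∈ H := by
        intro i
        induction i with
        | zero => exact hk0
        | succ i ih => exact hcon _ ih
      apply hno
      refine ⟨fun i => g (k0 + i.val), ?_, ?_⟩
      · intro a b hab
        have h1 := hinj _ _ hab
        have h2 := a.2
        have h3 := b.2
        apply Fin.ext
        have h4 : (a.val : ℕ) ≡ b.val [MOD (2 * h + 5)] := Nat.ModEq.add_left_cancel' k0 h1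
        have h5 := h4
        unfold Nat.ModEq at h5
        rwa [Nat.mod_eq_of_lt h2, Nat.mod_eq_of_lt h3] at h5
      · rintro i j (hij | ⟨hi, hj⟩)
        · have := hall i.val
          simp only [hij]
          exact this
        · have := hall i.val
          simp only [hj, add_zero]
          have e : k0 + i.val + 1 = k0 + (2 * h + 5) := by omega
          rw [e, hper] at this
          exact this
    · push Not at hex
      have h0 : cnt H g (2 * h + 5) = 0 := by
        unfold cnt
        rw [card_eq_zero, filter_eq_empty_iff]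
        intro i _
        exact hex i
      have := parity (P := P) (H := H) (w := g) (2 * h + 5) (fun i _ => hEH i)
        (fun i _ => hES' i)
      rw [h0] at this
      have e : g (2 * h + 5) = g 0 := by
        have := hper 0
        rwa [zero_add] at this
      rw [e] at this
      simp only [iff_self, add_zero, true_iff] at this
      have h2 : ¬ Even (2 * h + 5) := by
        rw [Nat.not_even_iff_odd]
        exact ⟨h + 2, by ring⟩
      exact h2 this
  -- the vertices
  have hzx := H_ends hH hk0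
  have hS1 := hES (k0 + 1) hk1
  have hP1 := hES' (k0 + 1) hk1
  have hxP : g (k0 + 1) ∉ P := hXP _ hzx.2.1
  have hqP : g (k0 + 1 + 1) ∈ P := by
    by_contra hq
    exact hxP (hP1.2 hq)
  set x := g (k0 + 1) with hx
  -- the walk backwards
  let w : ℕ → Fin n := fun i => g (k0 + (2 * h + 5) - i)
  have hw0 : w 0 = g k0 := by simp only [w]; rw [Nat.sub_zero, hper]
  have hwq : w (2 * h + 3) = g (k0 + 1 + 1) := by
    simp only [w]
    congr 1
    omega
  have hedge : ∀ i < 2 * h + 3, s(w i, w (i + 1)) =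
      s(g (k0 + (2 * h + 5) - (i + 1)), g (k0 + (2 * h + 5) - (i + 1) + 1)) := by
    intro i hi
    simp only [w]
    rw [Sym2.eq_swap]
    congr 2
    congr 1
    omega
  have hne : ∀ i ≤ 2 * h + 3, w i ≠ x := by
    intro i hi he
    have h1 := hinj _ _ he
    have e1 : k0 + (2 * h + 5) - i = k0 + (2 * h + 5 - i) := by omega
    rw [e1] at h1
    have h2 : (2 * h + 5 - i) ≡ 1 [MOD (2 * h + 5)] := Nat.ModEq.add_left_cancel' k0 h1
    unfold Nat.ModEq at h2
    rw [Nat.mod_eq_of_lt (show 1 < 2 * h + 5 by omega)] at h2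
    rcases Nat.eq_zero_or_pos i with h0 | h0
    · subst h0
      simp at h2
    · rw [Nat.mod_eq_of_lt (by omega)] at h2
      omega
  have hstep : ∀ i < 2 * h + 3, s(w i, w (i + 1)) ∈ dl x H ∨ s(w i, w (i + 1)) ∈ dl x S := by
    intro i hi
    have h1 := hne i (by omega)
    have h2 := hne (i + 1) (by omega)
    by_cases hc : s(w i, w (i + 1)) ∈ H
    · exact Or.inl (mk_mem_dl hc h1 h2)
    · right
      apply mk_mem_dl _ h1 h2
      rw [hedge i hi] at hc ⊢
      exact (hES _ hc).1
  have hdlH : ∀ i < 2 * h + 3, (s(w i, w (i + 1)) ∈ dl x H ↔ s(w i, w (i + 1)) ∈ H) := by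
    intro i hi
    constructor
    · intro h'
      exact (mem_dl.1 h').1
    · intro h'
      exact mk_mem_dl h' (hne i (by omega)) (hne (i + 1) (by omega))
  have hq := hw_of_walk (2 * h + 3) hstep
  have hpar := parity (P := P) (H := dl x H) (w := w) (2 * h + 3)
    (fun i hi hc => by
      rw [hdlH i hi] at hc
      have := H_ends hH hc
      exact ⟨hXP _ this.1, hXP _ this.2.1⟩)
    (fun i hi hc => by
      rw [hdlH i hi] at hc
      rw [hedge i hi] at hc
      have h1 := (hES _ hc).1
      rw [← hedge i hi] at h1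
      exact (S_ends hS h1).1)
  have hz : w 0 ∉ P := by rw [hw0]; exact hXP _ hzx.1
  have hqP' : w (2 * h + 3) ∈ P := by rw [hwq]; exact hqP
  simp only [hz, hqP', true_iff, false_iff] at hpar
  have hpar2 : ¬ Even (2 * h + 3 + cnt (dl x H) w (2 * h + 3)) := by
    intro h'
    exact hpar h'
  set c := cnt (dl x H) w (2 * h + 3) with hcdef
  have hc_even : Even c := by
    rw [Nat.even_add] at hpar2
    have h3 : ¬ Even (2 * h + 3) := by
      rw [Nat.not_even_iff_odd]; exact ⟨h + 1, by ring⟩
    by_contra hco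
    exact hpar2 (by simp [h3, hco])
  have hcle : c ≤ 2 * h + 3 := cnt_le _ _ _
  rcases Nat.eq_zero_or_pos c with hc0 | hcpos
  · -- exactly one `H`-edge
    have hnoH : ∀ i < 2 * h + 3, s(w i, w (i + 1)) ∉ H := by
      intro i hi hc
      have h1 : i ∈ (range (2 * h + 3)).filter (fun i => s(w i, w (i + 1)) ∈ dl x H) := by
        rw [mem_filter, mem_range]
        exact ⟨hi, (hdlH i hi).2 hc⟩
      have h2 := card_pos.2 ⟨i, h1⟩
      have h3 : c = ((range (2 * h + 3)).filter (fun i => s(w i, w (i + 1)) ∈ dl x H)).card := rfl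
      omega
    have hnoH' : ∀ m, 1 ≤ m → m < 2 * h + 5 → s(g (k0 + m), g (k0 + m + 1)) ∉ H := by
      intro m hm1 hm2
      rcases Nat.eq_or_lt_of_le hm1 with h1 | h1
      · rw [← h1]; exact hk1
      · have h3 : 2 * h + 5 - (m + 1) < 2 * h + 3 := by omega
        have h2 := hnoH (2 * h + 5 - (m + 1)) h3
        rw [hedge _ h3] at h2
        have e1 : k0 + (2 * h + 5) - (2 * h + 5 - (m + 1) + 1) = k0 + m := by omega
        rw [e1] at h2
        exact h2
    have hM : MainCyc h S H (fun i : Fin (2 * h + 5) => g (k0 + i.val)) := by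
      refine ⟨?_, ?_, ?_⟩
      · intro a b hab
        have h1 := hinj _ _ hab
        have h2 := a.2
        have h3 := b.2
        apply Fin.ext
        have h4 : (a.val : ℕ) ≡ b.val [MOD (2 * h + 5)] := Nat.ModEq.add_left_cancel' k0 h1
        unfold Nat.ModEq at h4
        rwa [Nat.mod_eq_of_lt h2, Nat.mod_eq_of_lt h3] at h4
      · have e0 : ((0 : Fin (2 * h + 5)).val) = 0 := rfl
        have e1 : ((1 : Fin (2 * h + 5)).val) = 1 := val_lit h 1 (by omega)
        simp only [e0, e1, add_zero]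
        exact hk0
      · rintro i j hi (hij | ⟨hij, hj⟩)
        · have := (hES (k0 + i.val) (hnoH' _ hi i.2)).1
          simp only [hij]
          exact this
        · have := (hES (k0 + i.val) (hnoH' _ hi i.2)).1
          simp only [hj, add_zero]
          have e : k0 + i.val + 1 = k0 + (2 * h + 5) := by omega
          rw [e, hper] at this
          exact this
    have e3 : ((3 : Fin (2 * h + 5)).val) = 3 := val_lit h 3 (by omega)
    have e4 : ((4 : Fin (2 * h + 5)).val) = 4 := val_lit h 4 (by omega)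
    have h3 := (hES (k0 + 3) (hnoH' 3 (by omega) (by omega))).2.1
    apply h3
    unfold del1
    rw [mem_image]
    refine ⟨fun i : Fin (2 * h + 5) => g (k0 + i.val), ?_, ?_⟩
    · rw [mem_filter]; exact ⟨mem_univ _, hM⟩
    · simp only [e3, e4]
  · -- at least two further `H`-edges
    have hc2 : 2 ≤ c := by
      rcases hc_even with ⟨m, hm⟩
      omega
    apply hS1.2.2
    unfold del2
    rw [mem_filter]
    refine ⟨hS1.1, x, hzx.2.1, g (k0 + 1 + 1), hqP, g k0, c, hc2, hcle, rfl, ?_, ?_⟩
    · rw [Sym2.eq_swap]; exact hk0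
    · rw [hwq, hw0] at hq
      exact hq

theorem card_biUnion_real {α β : Type*} [DecidableEq β] (s : Finset α) (t : α → Finset β) (c : ℝ)
    (h : ∀ a ∈ s, ((t a).card : ℝ) ≤ c) : ((s.biUnion t).card : ℝ) ≤ s.card * c := by
  calc ((s.biUnion t).card : ℝ) ≤ ((∑ a ∈ s, (t a).card : ℕ) : ℝ) := by
        exact_mod_cast card_biUnion_le
    _ = ∑ a ∈ s, ((t a).card : ℝ) := by push_cast; rfl
    _ ≤ ∑ _a ∈ s, c := sum_le_sum h
    _ = s.card * c := by rw [sum_const, nsmul_eq_mul]

/-- facts about a main cycle -/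
theorem main_facts {h : ℕ} (hh : 1 ≤ h) {P X : Finset (Fin n)} {H S : Finset (Sym2 (Fin n))}
    (hPX : Disjoint P X) (hH : H ⊆ prs2 X X) (hS : S ⊆ prs2 P (univ \ P))
    {ψ : Fin (2 * h + 5) → Fin n} (hψ : MainCyc h S H ψ) :
    ∃ w : ℕ → Fin n, (∀ a b, a < 2 * h + 5 → b < 2 * h + 5 → w a = w b → a = b) ∧
      w 3 = ψ 3 ∧ w 4 = ψ 4 ∧ s(w 0, w 1) ∈ H ∧
      (∀ m, 1 ≤ m → m < 2 * h + 4 → s(w m, w (m + 1)) ∈ S) ∧ s(w (2 * h + 4), w 0) ∈ S ∧
      w 0 ∈ X ∧ w 1 ∈ X ∧ w 2 ∈ P ∧ w 3 ∉ P ∧ w 4 ∈ P ∧ w (2 * h + 4) ∈ P := by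
  obtain ⟨hinj, h01, hst⟩ := hψ
  have hXP : ∀ a ∈ X, a ∉ P := fun a ha ha' => (disjoint_left.1 hPX) ha' ha
  let w : ℕ → Fin n := fun m => ψ (Fin.ofNat (2 * h + 5) m)
  have hw : ∀ m, w m = ψ (Fin.ofNat (2 * h + 5) m) := fun _ => rfl
  have hS' : ∀ m, 1 ≤ m → m < 2 * h + 4 → s(w m, w (m + 1)) ∈ S := by
    intro m h1 h2
    apply hst
    · rw [val_lit h m (by omega)]; exact h1
    · left
      rw [val_lit h m (by omega), val_lit h (m + 1) (by omega)]
  have hSl : s(w (2 * h + 4), w 0) ∈ S := by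
    apply hst
    · rw [val_lit h _ (by omega)]; omega
    · right
      rw [val_lit h _ (by omega), val_lit h 0 (by omega)]
      exact ⟨rfl, rfl⟩
  have hH01 : s(w 0, w 1) ∈ H := h01
  have e01 := H_ends hH hH01
  have e12 := S_ends hS (hS' 1 (by omega) (by omega))
  have e23 := S_ends hS (hS' 2 (by omega) (by omega))
  have e34 := S_ends hS (hS' 3 (by omega) (by omega))
  have el := S_ends hS hSl
  have n0 := hXP _ e01.1
  have n1 := hXP _ e01.2.1
  have p2 : w 2 ∈ P := by
    by_contra hc
    exact n1 (e12.1.2 hc)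
  have n3 : w 3 ∉ P := e23.1.1 p2
  have p4 : w 4 ∈ P := by
    by_contra hc
    exact n3 (e34.1.2 hc)
  have pl : w (2 * h + 4) ∈ P := el.1.2 n0
  refine ⟨w, ?_, rfl, rfl, hH01, hS', hSl, e01.1, e01.2.1, p2, n3, p4, pl⟩
  intro a b ha hb hab
  have h1 := hinj hab
  have h2 := congrArg Fin.val h1
  rwa [val_lit h a ha, val_lit h b hb] at h2

theorem ncard_ge {P : Finset (Fin n)} {H S D : Finset (Sym2 (Fin n))}
    (hS : S ⊆ prs2 P (univ \ P)) (v : Fin n) (B : Finset (Fin n))
    (hB : ∀ u, s(v, u) ∈ S → s(v, u) ∈ D → u ∈ B) :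
    ((nb S univ v).card : ℝ) - B.card ≤
      (((SimpleGraph.fromEdgeSet (((S \ D) ∪ H : Finset (Sym2 (Fin n))) :
        Set (Sym2 (Fin n)))).neighborSet v).ncard : ℝ) := by
  have hsub : ((nb S univ v \ B : Finset (Fin n)) : Set (Fin n)) ⊆
      (SimpleGraph.fromEdgeSet (((S \ D) ∪ H : Finset (Sym2 (Fin n))) :
        Set (Sym2 (Fin n)))).neighborSet v := by
    intro u hu
    simp only [coe_sdiff, Set.mem_sdiff, mem_coe] at hu
    have h1 := (mem_nb.1 hu.1).2
    rw [SimpleGraph.mem_neighborSet, SimpleGraph.fromEdgeSet_adj]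
    refine ⟨?_, (S_ends hS h1).2⟩
    simp only [coe_union, coe_sdiff, Set.mem_union, Set.mem_sdiff, mem_coe]
    left
    exact ⟨h1, fun hD => hu.2 (hB u h1 hD)⟩
  have h1 := Set.ncard_le_ncard hsub (Set.toFinite _)
  rw [Set.ncard_coe_finset] at h1
  have h2 : (nb S univ v).card ≤ (nb S univ v \ B).card + B.card := by
    have := card_le_card (s := nb S univ v) (t := (nb S univ v \ B) ∪ B) (by
      intro u hu
      by_cases hb : u ∈ B
      · exact mem_union_right _ hb
      · exact mem_union_left _ (mem_sdiff.2 ⟨hu, hb⟩))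
    exact this.trans (card_union_le _ _)
  have h3 : ((nb S univ v).card : ℝ) ≤ ((nb S univ v \ B).card : ℝ) + B.card := by
    exact_mod_cast h2
  have h4 : ((nb S univ v \ B).card : ℝ) ≤ (((SimpleGraph.fromEdgeSet
      (((S \ D) ∪ H : Finset (Sym2 (Fin n))) : Set (Sym2 (Fin n)))).neighborSet v).ncard : ℝ) := by
    exact_mod_cast h1
  linarith

end Det2L

open Det2L in
theorem det2 : S_DET2 := by
  intro h κ n p ℓ ε P X H S hh hp hℓ hPX hH hdH hno hG
  have hS := hG.sub
  have hℓ0 : 0 < ℓ := by linarith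
  have hXP : ∀ a ∈ X, a ∉ P := fun a ha ha' => (disjoint_left.1 hPX) ha' ha
  refine ⟨SimpleGraph.fromEdgeSet (((S \ (del1 h S H ∪ del2 h P X S H)) ∪ H :
    Finset (Sym2 (Fin n))) : Set (Sym2 (Fin n))), ?_, ?_, ?_, ?_, ?_⟩
  · apply SimpleGraph.fromEdgeSet_mono
    rw [coe_subset]
    exact union_subset_union sdiff_subset (Subset.refl _)
  · apply SimpleGraph.fromEdgeSet_mono
    rw [coe_subset]
    exact subset_union_right
  · rintro ⟨f⟩
    let g : ℕ → Fin n := fun k => f.toHom (Fin.ofNat (2 * h + 5) k)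
    apply no_cycle hPX hH hS hno g
    · intro k
      simp only [g]
      congr 1
      apply Fin.ext
      simp [Fin.ofNat]
    · intro a b hab
      have h1 := f.injective' hab
      exact congrArg Fin.val h1
    · intro k
      have hadj : (SimpleGraph.cycleGraph (2 * h + 5)).Adj (Fin.ofNat (2 * h + 5) k)
          (Fin.ofNat (2 * h + 5) (k + 1)) := by
        rw [SimpleGraph.cycleGraph_adj']
        right
        have : (Fin.ofNat (2 * h + 5) (k + 1) : Fin (2 * h + 5)) - Fin.ofNat (2 * h + 5) k =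
            Fin.ofNat (2 * h + 5) 1 := by
          rw [sub_eq_iff_eq_add]
          apply Fin.ext
          simp [Fin.ofNat, Fin.val_add]
          ring_nf
        rw [this, val_lit h 1 (by omega)]
      have := f.toHom.map_adj hadj
      rw [SimpleGraph.fromEdgeSet_adj] at this
      exact_mod_cast this.1
  · -- degrees at `P`
    intro v hv
    let B := ((nb S univ v).filter (fun r => ∃ r'' ∈ nb S univ v, r'' ≠ r ∧
      Frel h P X S H v r r'')) ∪ nb S X v
    have hB := ncard_ge (P := P) (H := H) (D := del1 h S H ∪ del2 h P X S H) hS v B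
      (by
        intro u hu hD
        rw [mem_union] at hD
        rcases hD with hD | hD
        · -- first kind
          rw [del1, mem_image] at hD
          obtain ⟨ψ, hψ, he⟩ := hD
          rw [mem_filter] at hψ
          obtain ⟨w, winj, w3, w4, wH, wS, wl, x0, x1, p2, n3, p4, pl⟩ :=
            main_facts hh hPX hH hS hψ.2
          rw [← w3, ← w4] at he
          have h1 : w 4 = v ∧ w 3 = u := by
            rcases Sym2.eq_iff.1 he with ⟨a, b⟩ | ⟨a, b⟩
            · exact absurd (a ▸ hv) n3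
            · exact ⟨b, a⟩
          obtain ⟨rfl, rfl⟩ := h1
          apply mem_union_left
          rw [mem_filter]
          refine ⟨mem_nb.2 ⟨mem_univ _, hu⟩, w 5, mem_nb.2 ⟨mem_univ _, wS 4 (by omega) (by omega)⟩,
            fun h' => by have := winj _ _ (by omega) (by omega) h'; omega, ?_⟩
          refine ⟨w 2, p2, w 1, x1, w 0, x0, w (2 * h + 4), pl, w (2 * h + 3),
            fun h' => by have := winj _ _ (by omega) (by omega) h'; omega,
            fun h' => by have := winj _ _ (by omega) (by omega) h'; omega,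
            fun h' => by have := winj _ _ (by omega) (by omega) h'; omega,
            fun h' => by have := winj _ _ (by omega) (by omega) h'; omega, ?_, ?_, ?_, ?_, ?_, ?_⟩
          · rw [Sym2.eq_swap]; exact wS 2 (by omega) (by omega)
          · rw [Sym2.eq_swap]; exact wS 1 (by omega) (by omega)
          · rw [Sym2.eq_swap]; exact wH
          · rw [Sym2.eq_swap]; exact wl
          · rw [Sym2.eq_swap]; exact wS (2 * h + 3) (by omega) (by omega)
          · have := wr_of_walk (S := dl (w 4) S) (w := fun i => w (2 * h + 3 - i)) (2 * h - 2) (by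
              intro i hi
              have e : 2 * h + 3 - i = (2 * h + 3 - (i + 1)) + 1 := by omega
              rw [e, Sym2.eq_swap]
              apply mk_mem_dl (wS _ (by omega) (by omega))
              · intro h'
                have := winj _ _ (by omega) (by omega) h'
                omega
              · intro h'
                have := winj _ _ (by omega) (by omega) h'
                omega)
            simp only [Nat.sub_zero] at this
            have e : 2 * h + 3 - (2 * h - 2) = 5 := by omega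
            rw [e] at this
            exact this
        · -- second kind
          rw [del2, mem_filter] at hD
          obtain ⟨_, x, hx, q, hq, z, j, _, _, he, _, _⟩ := hD
          apply mem_union_right
          rcases Sym2.eq_iff.1 he with ⟨a, b⟩ | ⟨a, b⟩
          · exact absurd (a ▸ hv) (hXP x hx)
          · rw [mem_nb]
            exact ⟨b ▸ hx, hu⟩)
    have h1 : (B.card : ℝ) ≤ p * n / ℓ ^ 2 + κ := by
      have e1 := hG.b7 v hv
      have e2 : ((nb S X v).card : ℝ) ≤ κ := by exact_mod_cast hG.few v hv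
      have e3 : (B.card : ℝ) ≤ (((nb S univ v).filter (fun r => ∃ r'' ∈ nb S univ v, r'' ≠ r ∧
          Frel h P X S H v r r'')).card : ℝ) + (nb S X v).card := by
        exact_mod_cast card_union_le _ _
      linarith
    have h2 := hG.lowP v hv
    linarith
  · -- degrees outside `P`
    intro v hv
    let B1 := (nb S (P.filter (fun q => ∃ x ∈ X, x ≠ v ∧ s(q, x) ∈ S)) v).biUnion (fun p₁ =>
      (nb S X p₁).biUnion (fun x₁ => ((nb H univ x₁).filter (fun x₂ => x₂ ≠ v)).biUnion (fun x₂ =>
        nb S (wr (dl v S) (2 * h + 1) x₂) v)))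
    let B2 := (nb H univ v).biUnion (fun z => (Icc 2 (2 * h + 3)).biUnion (fun j =>
      nb S (hw (dl v S) (dl v H) (2 * h + 3) j z) v))
    have hB := ncard_ge (P := P) (H := H) (D := del1 h S H ∪ del2 h P X S H) hS v
      (B1 ∪ B2) (by
        intro u hu hD
        rw [mem_union] at hD
        rcases hD with hD | hD
        · rw [del1, mem_image] at hD
          obtain ⟨ψ, hψ, he⟩ := hD
          rw [mem_filter] at hψ
          obtain ⟨w, winj, w3, w4, wH, wS, wl, x0, x1, p2, n3, p4, pl⟩ :=
            main_facts hh hPX hH hS hψ.2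
          rw [← w3, ← w4] at he
          have h1 : w 3 = v ∧ w 4 = u := by
            rcases Sym2.eq_iff.1 he with ⟨a, b⟩ | ⟨a, b⟩
            · exact ⟨a, b⟩
            · exact absurd (b ▸ p4) hv
          obtain ⟨rfl, rfl⟩ := h1
          apply mem_union_left
          simp only [B1, mem_biUnion]
          refine ⟨w 2, ?_, w 1, ?_, w 0, ?_, ?_⟩
          · rw [mem_nb, mem_filter]
            refine ⟨⟨p2, w 1, x1, fun h' => ?_, ?_⟩, ?_⟩
            · have := winj _ _ (by omega) (by omega) h'
              omega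
            · rw [Sym2.eq_swap]; exact wS 1 (by omega) (by omega)
            · rw [Sym2.eq_swap]; exact wS 2 (by omega) (by omega)
          · rw [mem_nb]
            refine ⟨x1, ?_⟩
            rw [Sym2.eq_swap]; exact wS 1 (by omega) (by omega)
          · rw [mem_filter, mem_nb]
            refine ⟨⟨mem_univ _, ?_⟩, fun h' => ?_⟩
            · rw [Sym2.eq_swap]; exact wH
            · have := winj _ _ (by omega) (by omega) h'
              omega
          · rw [mem_nb]
            refine ⟨?_, hu⟩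
            have := wr_of_walk (S := dl (w 3) S)
              (w := fun i => if i = 0 then w 0 else w (2 * h + 5 - i)) (2 * h + 1) (by
              intro i hi
              rcases Nat.eq_zero_or_pos i with h0 | h0
              · subst h0
                simp only [if_true, zero_add, one_ne_zero, if_false]
                rw [Sym2.eq_swap]
                apply mk_mem_dl
                · have e : 2 * h + 5 - 1 = 2 * h + 4 := by omega
                  rw [e]; exact wl
                · intro h'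
                  have := winj _ _ (by omega) (by omega) h'
                  omega
                · intro h'
                  have := winj _ _ (by omega) (by omega) h'
                  omega
              · simp only [h0.ne', if_false, Nat.succ_ne_zero]
                have e : 2 * h + 5 - i = (2 * h + 5 - (i + 1)) + 1 := by omega
                rw [e, Sym2.eq_swap]
                apply mk_mem_dl (wS _ (by omega) (by omega))
                · intro h'
                  have := winj _ _ (by omega) (by omega) h'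
                  omega
                · intro h'
                  have := winj _ _ (by omega) (by omega) h'
                  omega)
            simp only [if_true] at this
            have e0 : ¬ (2 * h + 1 = 0) := by omega
            rw [if_neg e0] at this
            have e : 2 * h + 5 - (2 * h + 1) = 4 := by omega
            rw [e] at this
            exact this
        · rw [del2, mem_filter] at hD
          obtain ⟨_, x, hx, q, hq, z, j, hj1, hj2, he, hxz, hqw⟩ := hD
          apply mem_union_right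
          have h1 : v = x ∧ u = q := by
            rcases Sym2.eq_iff.1 he with ⟨a, b⟩ | ⟨a, b⟩
            · exact ⟨a, b⟩
            · exact absurd (a ▸ hq) hv
          obtain ⟨rfl, rfl⟩ := h1
          simp only [B2, mem_biUnion]
          exact ⟨z, mem_nb.2 ⟨mem_univ _, hxz⟩, j, mem_Icc.2 ⟨hj1, hj2⟩, mem_nb.2 ⟨hqw, hu⟩⟩)
    have h1 : (B1.card : ℝ) ≤ κ * (p * n) / ℓ ^ 4 := by
      have e1 : (B1.card : ℝ) ≤
          ((nb S (P.filter (fun q => ∃ x ∈ X, x ≠ v ∧ s(q, x) ∈ S)) v).card : ℝ) *
            (κ * (ℓ * ℓ ^ 2)) := by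
        apply card_biUnion_real
        intro p₁ hp₁
        have hp₁P : p₁ ∈ P := (mem_filter.1 (mem_nb.1 hp₁).1).1
        have e2 : (((nb S X p₁).biUnion (fun x₁ => ((nb H univ x₁).filter
            (fun x₂ => x₂ ≠ v)).biUnion (fun x₂ =>
              nb S (wr (dl v S) (2 * h + 1) x₂) v))).card : ℝ) ≤
            ((nb S X p₁).card : ℝ) * (ℓ * ℓ ^ 2) := by
          apply card_biUnion_real
          intro x₁ _
          have e3 : ((((nb H univ x₁).filter (fun x₂ => x₂ ≠ v)).biUnion (fun x₂ =>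
              nb S (wr (dl v S) (2 * h + 1) x₂) v)).card : ℝ) ≤
              (((nb H univ x₁).filter (fun x₂ => x₂ ≠ v)).card : ℝ) * ℓ ^ 2 := by
            apply card_biUnion_real
            intro x₂ hx₂
            rw [mem_filter] at hx₂
            exact hG.b5 v hv x₂ (H_ends hH (mem_nb.1 hx₂.1).2).2.1 hx₂.2
          have e4 : (((nb H univ x₁).filter (fun x₂ => x₂ ≠ v)).card : ℝ) ≤ ℓ :=
            le_trans (by exact_mod_cast card_filter_le _ _) (hdH x₁)
          exact e3.trans (mul_le_mul_of_nonneg_right e4 (by positivity))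
        have e5 : ((nb S X p₁).card : ℝ) ≤ κ := by exact_mod_cast hG.few p₁ hp₁P
        exact e2.trans (mul_le_mul_of_nonneg_right e5 (by positivity))
      have e6 := hG.b4 v hv
      calc (B1.card : ℝ) ≤ _ := e1
        _ ≤ (p * n / ℓ ^ 7) * (κ * (ℓ * ℓ ^ 2)) :=
            mul_le_mul_of_nonneg_right e6 (by positivity)
        _ = κ * (p * n) / ℓ ^ 4 := by field_simp
    have h2 : (B2.card : ℝ) ≤ (2 * h + 2) * ℓ ^ (2 * h + 7) := by
      have e1 : (B2.card : ℝ) ≤ ((nb H univ v).card : ℝ) * ((2 * h + 2) * ℓ ^ (2 * h + 6)) := by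
        apply card_biUnion_real
        intro z hz
        have hvz := H_ends hH (mem_nb.1 hz).2
        have e2 : (((Icc 2 (2 * h + 3)).biUnion (fun j =>
            nb S (hw (dl v S) (dl v H) (2 * h + 3) j z) v)).card : ℝ) ≤
            ((Icc 2 (2 * h + 3)).card : ℝ) * ℓ ^ (2 * h + 6) := by
          apply card_biUnion_real
          intro j hj
          rw [mem_Icc] at hj
          exact hG.b6 v hvz.1 z hvz.2.1 hvz.2.2.symm j hj.1 hj.2
        have e3 : ((Icc 2 (2 * h + 3)).card : ℝ) = 2 * h + 2 := by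
          rw [Nat.card_Icc]
          have : 2 * h + 3 + 1 - 2 = 2 * h + 2 := by omega
          rw [this]
          push_cast
          ring
        rw [e3] at e2
        exact e2
      have e4 := hdH v
      calc (B2.card : ℝ) ≤ _ := e1
        _ ≤ ℓ * ((2 * h + 2) * ℓ ^ (2 * h + 6)) := mul_le_mul_of_nonneg_right e4 (by positivity)
        _ = (2 * h + 2) * ℓ ^ (2 * h + 7) := by ring
    have h3 : ((B1 ∪ B2).card : ℝ) ≤ B1.card + B2.card := by exact_mod_cast card_union_le _ _
    have h4 := hG.lowR v hv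
    linarith

end Pool.Agent.H973.CT
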