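import Pool.Agent.H973.CT.Stm3

set_option autoImplicit false

/-! `S_EXCA`: few exceptional vertices. -/

namespace Pool.Agent.H973.CT

open Finset Classical Pool.Agent.W166.Gnp

variable {n : ℕ}

namespace ExcAL

/-- the private neighbours of `x` -/
noncomputable def pv (S E : Finset (Sym2 (Fin n))) (Y T : Finset (Fin n)) (x : Fin n) :
    Finset (Fin n) := (nb E Y x).filter (fun y => ¬ ∃ x' ∈ T, x' ≠ x ∧ s(x', y) ∈ S)

theorem nb_mono {S E : Finset (Sym2 (Fin n))} (h : E ⊆ S) (A : Finset (Fin n)) (v : Fin n) :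
    nb E A v ⊆ nb S A v := by
  intro u hu
  unfold nb at hu ⊢
  rw [mem_filter] at hu ⊢
  exact ⟨hu.1, h hu.2⟩

theorem nb_univ (S : Finset (Sym2 (Fin n))) (A : Finset (Fin n)) (v : Fin n) :
    nb S A v ⊆ nb S univ v := by
  intro u hu
  unfold nb at hu ⊢
  rw [mem_filter] at hu ⊢
  exact ⟨mem_univ _, hu.2⟩

theorem sum_priv {S E : Finset (Sym2 (Fin n))} (h : E ⊆ S) {Y T : Finset (Fin n)}
    (hYT : ∀ y ∈ Y, y ∉ T) :
    ∑ x ∈ T, (nb E Y x \ pv S E Y T x).card ≤ (nonpriv S T).card := by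
  rw [← card_sigma]
  apply card_le_card_of_injOn (fun q => (q.1, q.2))
  · rintro ⟨x, y⟩ hq
    have hq' := mem_sigma.mp (mem_coe.mp hq)
    obtain ⟨hx, hy⟩ := hq'
    simp only at hx hy
    obtain ⟨hy1, hy2⟩ := mem_sdiff.mp hy
    unfold pv at hy2
    rw [mem_filter, not_and, not_not] at hy2
    have hy3 := hy2 hy1
    unfold nb at hy1
    rw [mem_filter] at hy1
    rw [mem_coe]
    unfold nonpriv
    rw [mem_filter]
    exact ⟨mem_univ _, hx, hYT y hy1.1, h hy1.2, hy3⟩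
  · rintro ⟨x, y⟩ _ ⟨x', y'⟩ _ h
    simp only [Prod.mk.injEq] at h
    obtain ⟨rfl, rfl⟩ := h
    rfl

theorem pv_disj {S E : Finset (Sym2 (Fin n))} (h : E ⊆ S) {Y T : Finset (Fin n)} :
    ∀ x ∈ T, ∀ x' ∈ T, x ≠ x' → Disjoint (pv S E Y T x) (pv S E Y T x') := by
  intro x hx x' hx' hne
  rw [disjoint_left]
  intro y hy hy'
  unfold pv at hy hy'
  rw [mem_filter] at hy hy'
  apply hy'.2
  refine ⟨x, hx, hne, h ?_⟩
  have := hy.1
  unfold nb at this
  rw [mem_filter] at this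
  exact this.2

end ExcAL

open ExcAL in
/-- `S_EXCA` -/
theorem exca : S_EXCA := by
  intro h κ n d γ CP CD C₁ p L Λ S E X Y Z₀ hh hd hd1 hγ hγ1 hΛ hN hG hES hXY hZ
  by_contra hcon
  push Not at hcon
  obtain ⟨T, hTs, hTc⟩ := exists_subset_card_eq hcon.le
  have hp := hN.hp
  have hn0 : (1 : ℝ) ≤ n := by exact_mod_cast hN.hn
  have hL : (1 : ℝ) ≤ L := hΛ.trans hN.hΛ
  have hL0 : (0 : ℝ) < L := by linarith
  have hpL : 0 < p * L := mul_pos hp hL0
  set m : ℝ := p * n with hm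
  have hm0 : 0 < m := mul_pos hp (by linarith)
  -- bounds for `s0`
  have hs1 : ((s0 p L : ℕ) : ℝ) ≤ 1 / (p * L) := Nat.floor_le (by positivity)
  have hpL2 : 2 * (p * L) ≤ 1 := by
    have := hN.hm3
    have h2 : 2 * (p * L) * n ≤ 1 * n := by rw [one_mul]; linarith
    exact le_of_mul_le_mul_right h2 (by linarith)
  have hs2 : 1 / (2 * (p * L)) ≤ ((s0 p L : ℕ) : ℝ) := by
    have h1 := Nat.lt_floor_add_one (1 / (p * L))
    have h2 : 1 / (p * L) - 1 < ((s0 p L : ℕ) : ℝ) := by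
      unfold s0
      linarith
    have h3 : 1 ≤ 1 / (2 * (p * L)) := by
      rw [le_div_iff₀ (by positivity)]
      linarith
    have h4 : 1 / (p * L) = 2 * (1 / (2 * (p * L))) := by field_simp
    linarith
  have hTX : T ⊆ X := hTs.trans (filter_subset _ _)
  have hYT : ∀ y ∈ Y, y ∉ T := fun y hy hT => (disjoint_left.mp hXY) (hTX hT) hy
  -- the private neighbours
  have hnp : ((nonpriv S T).card : ℝ) < d ^ 2 * γ / 18432 * n / L := by
    apply hG.priv
    rw [hTc]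
    refine hs1.trans ?_
    have e1 : 2 * (n : ℝ) / (p * n * L) = 2 * (1 / (p * L)) := by field_simp
    rw [e1]
    have : 0 < 1 / (p * L) := by positivity
    linarith
  have hdeg : ∀ (A : Finset (Fin n)) (v : Fin n), ((nb E A v).card : ℝ) ≤ 8 * m := by
    intro A v
    refine le_trans ?_ (hG.deg v)
    exact_mod_cast card_le_card ((nb_mono hES A v).trans (nb_univ S A v))
  -- lower bound for the double sum
  have hlow : (s0 p L : ℝ) * ((d / 12) ^ 2 * m ^ 2 / 2) ≤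
      ∑ x ∈ T, ∑ y ∈ nb E Y x, ((nb E Z₀ y).card : ℝ) := by
    rw [← hTc, ← nsmul_eq_mul]
    apply card_nsmul_le_sum
    intro x hx
    exact (mem_filter.mp (hTs hx)).2
  -- splitting
  have hsplit : ∀ x ∈ T, ∑ y ∈ nb E Y x, ((nb E Z₀ y).card : ℝ) ≤
      ∑ y ∈ pv S E Y T x, ((nb S Z₀ y).card : ℝ) +
        8 * m * ((nb E Y x \ pv S E Y T x).card : ℝ) := by
    intro x _
    have hsub : pv S E Y T x ⊆ nb E Y x := filter_subset _ _
    rw [← sum_sdiff hsub, add_comm]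
    apply add_le_add
    · apply sum_le_sum
      intro y _
      exact_mod_cast card_le_card (nb_mono hES Z₀ y)
    · rw [mul_comm, ← nsmul_eq_mul]
      apply sum_le_card_nsmul
      intro y _
      exact hdeg Z₀ y
  have hbi : ∑ x ∈ T, ∑ y ∈ pv S E Y T x, ((nb S Z₀ y).card : ℝ) =
      ∑ y ∈ T.biUnion (pv S E Y T), ((nb S Z₀ y).card : ℝ) := by
    rw [sum_biUnion]
    intro x hx x' hx' hne
    exact pv_disj hES x hx x' hx' hne
  have hYc : (((T.biUnion (pv S E Y T)).card : ℕ) : ℝ) ≤ 8 * n / L := by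
    have h1 : ((T.biUnion (pv S E Y T)).card : ℝ) ≤ ((∑ x ∈ T, (pv S E Y T x).card : ℕ) : ℝ) := by
      exact_mod_cast card_biUnion_le
    refine h1.trans ?_
    push_cast
    calc ∑ x ∈ T, ((pv S E Y T x).card : ℝ) ≤ ∑ _x ∈ T, 8 * m := by
          apply sum_le_sum
          intro x _
          refine le_trans ?_ (hdeg Y x)
          exact_mod_cast card_le_card (filter_subset _ _)
      _ = (s0 p L : ℝ) * (8 * m) := by rw [sum_const, nsmul_eq_mul, hTc]
      _ ≤ 1 / (p * L) * (8 * m) := mul_le_mul_of_nonneg_right hs1 (by positivity)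
      _ = 8 * n / L := by rw [hm]; field_simp
  have hexc := hG.exc (T.biUnion (pv S E Y T)) Z₀ hYc hZ
  have hpr : ((∑ x ∈ T, (nb E Y x \ pv S E Y T x).card : ℕ) : ℝ) ≤ ((nonpriv S T).card : ℝ) := by
    exact_mod_cast sum_priv hES hYT
  push_cast at hpr
  have hup : ∑ x ∈ T, ∑ y ∈ nb E Y x, ((nb E Z₀ y).card : ℝ) ≤
      ∑ y ∈ T.biUnion (pv S E Y T), ((nb S Z₀ y).card : ℝ) +
        8 * m * ((nonpriv S T).card : ℝ) := by
    calc ∑ x ∈ T, ∑ y ∈ nb E Y x, ((nb E Z₀ y).card : ℝ)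
        ≤ ∑ x ∈ T, (∑ y ∈ pv S E Y T x, ((nb S Z₀ y).card : ℝ) +
          8 * m * ((nb E Y x \ pv S E Y T x).card : ℝ)) := sum_le_sum hsplit
      _ = ∑ y ∈ T.biUnion (pv S E Y T), ((nb S Z₀ y).card : ℝ) +
          8 * m * ∑ x ∈ T, ((nb E Y x \ pv S E Y T x).card : ℝ) := by
          rw [sum_add_distrib, hbi, ← mul_sum]
      _ ≤ _ := by
          have := mul_le_mul_of_nonneg_left hpr (show (0 : ℝ) ≤ 8 * m by positivity)
          linarith
  -- numerics
  set q : ℝ := d ^ 2 * (m * n / L) with hq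
  have hq0 : 0 < q := by positivity
  have n1 : q / 576 ≤ (s0 p L : ℝ) * ((d / 12) ^ 2 * m ^ 2 / 2) := by
    have e1 : q / 576 = 1 / (2 * (p * L)) * ((d / 12) ^ 2 * m ^ 2 / 2) := by
      rw [hq, hm]
      field_simp
      ring
    rw [e1]
    exact mul_le_mul_of_nonneg_right hs2 (by positivity)
  have n2 : d ^ 2 / 1152 * (p * n) * n / L = q / 1152 := by
    rw [hq, hm]
    field_simp
  have n3 : 8 * m * ((nonpriv S T).card : ℝ) ≤ q / 2304 := by
    have e2 : d ^ 2 * γ / 18432 * n / L ≤ d ^ 2 * 1 / 18432 * n / L := by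
      have h1 : d ^ 2 * γ ≤ d ^ 2 * 1 := mul_le_mul_of_nonneg_left hγ1 (by positivity)
      gcongr
    have e3 : ((nonpriv S T).card : ℝ) ≤ d ^ 2 * 1 / 18432 * n / L := hnp.le.trans e2
    have e4 := mul_le_mul_of_nonneg_left e3 (show (0 : ℝ) ≤ 8 * m by positivity)
    refine e4.trans (le_of_eq ?_)
    rw [hq]
    field_simp
    ring
  rw [n2] at hexc
  linarith

end Pool.Agent.H973.CT
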