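import Pool.Agent.H973.CT.Tail2
import Pool.Agent.H973.CT.Det

set_option autoImplicit false

/-! Statements for the upper bound part (functions `p ≥ n^{-θ + η}`): assembly.

`m = p n`, the cycle has length `2h+5`, `S` is the random edge set, `E ⊆ S` the edges of a subgraph
with minimum degree `≥ d m` and without the cycle. `Y, Z, W` are disjoint sets, every vertex has
`≥ d m/12` `E`-neighbours in `Y` and in `Z` and `≥ d m/(12 M)` in `W`, `|W| ≤ 4n/(3M)`, `M = ⌈L²⌉`. -/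

namespace Pool.Agent.H973.CT

open Finset Classical Pool.Agent.W166.Gnp

variable {n : ℕ}

/-- the constant `β` -/
noncomputable def bet (d : ℝ) : ℝ := d ^ 2 / 147456

/-- the constant in the lower bound for the number of common neighbours in `W` -/
noncomputable def cq (d γ : ℝ) : ℝ := (d / 16) ^ 2 / 4 * bet d * γ * (d / 192)

/-- the threshold of the container algorithm -/
noncomputable def Dc (h : ℕ) (d γ CP : ℝ) (n : ℕ) (p L : ℝ) : ℝ :=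
  (bet d * γ * n * (cq d γ * (p * n) ^ 2 / L ^ 2) ^ h / 2) ^ 2 /
    (n * (L * CP * (n * (p * n) ^ (2 * h) + (p * n) ^ (4 * h))))

/-- the number of exceptional vertices, size of the matchings -/
noncomputable def s0 (p L : ℝ) : ℕ := ⌊1 / (p * L)⌋₊

/-- the `z' ∈ Zc` that can be reached from `z` by a path of length `2h` in `B` -/
noncomputable def Rset (h : ℕ) (Zc : Finset (Fin n)) (B : Finset (Sym2 (Fin n))) (z : Fin n) :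
    Finset (Fin n) := Zc.filter (fun z' => reach B (2 * h) z z')

/-- the pairs (cluster, edges between `Z` and `W`) -/
noncomputable def IdxA (γ : ℝ) (n : ℕ) (p L : ℝ) :
    Finset (Finset (Fin n) × Finset (Sym2 (Fin n))) :=
  univ.filter (fun k => γ * n ≤ (k.1.card : ℝ) ∧ (k.2.card : ℝ) ≤ 11 * (p * n) * n / L ^ 2)

/-- the containers -/
noncomputable def CsA (h : ℕ) (d γ CP : ℝ) (n : ℕ) (p L : ℝ)
    (k : Finset (Fin n) × Finset (Sym2 (Fin n))) : Finset (Finset (Fin n)) :=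
  univ.filter (fun C => (C.card : ℝ) ≤ 2 * bet d * k.1.card ∧
    ∃ T : Finset (Fin n), (T.card : ℝ) ≤ n / Dc h d γ CP n p L ∧
      (C = k.1 \ T.biUnion (Rset h k.1 k.2) ∨
       C = k.1.filter (fun z =>
        ((Rset h k.1 k.2 z \ T.biUnion (Rset h k.1 k.2)).card : ℝ) < Dc h d γ CP n p L)))

/-- the bad event of the main union bound -/
def MainA (h : ℕ) (d γ CP : ℝ) (n : ℕ) (p L : ℝ) (S : Finset (Sym2 (Fin n))) : Prop :=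
  ∃ k ∈ IdxA γ n p L, ∃ g : Fin n → Option (Fin n), ∃ I : Finset (Fin n),
    ∃ C : Fin n → Finset (Fin n), I.card = (s0 p L + 1) / 2 ∧ ∀ x ∈ I, C x ∈ CsA h d γ CP n p L k ∧
      ((univ.filter (fun y => g y = some x)).card : ℝ) ≤ 8 * (p * n) ∧
      d ^ 2 / 576 * k.1.card * (p * n) * p ≤
        ∑ y ∈ univ.filter (fun y => g y = some x), ((nb S (C x) y).card : ℝ)

/-- numeric conditions (upper bound part) -/
structure NumA (h κ n : ℕ) (p L Λ : ℝ) : Prop where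
  hp : 0 < p
  hp1 : p ≤ 1
  hκ : 1 ≤ κ
  hn : 1 ≤ n
  hΛ : Λ ≤ L
  hlog : Λ * Real.log (n + 1) ≤ L
  hkap : (n : ℝ) ^ 2 ≤ L ^ κ
  hm : L ^ (4 * h + 6) ≤ p * n
  hm2 : L ^ (4 * h + 6) * n ≤ (p * n) ^ (2 * h + 2)
  hm3 : 2 * L * (p * n) ≤ n
  hL4 : L ^ 4 ≤ n

/-- the good event -/
structure GoodA (h κ : ℕ) (d γ CP CD C₁ : ℝ) (n : ℕ) (p L : ℝ) (S : Finset (Sym2 (Fin n))) :
    Prop where
  sub : S ⊆ allE n
  deg : ∀ v, ((nb S univ v).card : ℝ) ≤ 8 * (p * n)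
  sparse : ∀ U : Finset (Fin n), U.Nonempty → (U.card : ℝ) ≤ C₁ / (p * L) →
    ∃ v ∈ U, (nb S U v).card < 2 * κ
  upper : ∀ A : Finset (Fin n), γ * n ≤ A.card →
    ((univ.filter (fun w => 16 * p * A.card ≤ ((nb S A w).card : ℝ))).card : ℝ) ≤ 1 / (γ * p)
  exc : ∀ Y Z : Finset (Fin n), (Y.card : ℝ) ≤ 8 * n / L → (Z.card : ℝ) ≤ bet d * n →
    ∑ y ∈ Y, ((nb S Z y).card : ℝ) < d ^ 2 / 1152 * (p * n) * n / L
  priv : ∀ T : Finset (Fin n), (T.card : ℝ) ≤ 2 * n / (p * n * L) →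
    ((nonpriv S T).card : ℝ) < d ^ 2 * γ / 18432 * n / L
  pairs : ((pairsW (2 * h) S).card : ℝ) ≤ L * CP * (n * (p * n) ^ (2 * h) + (p * n) ^ (4 * h))
  degen : ((degWalks (2 * h) S).card : ℝ) ≤ L * CD * (n * (p * n) ^ (2 * h - 1))
  main : ¬ MainA h d γ CP n p L S

/-- **S_MAINA** (probability of the main bad event). From `S_MAIN` with `κ := Finset (Fin n) × Finset
(Sym2 (Fin n))`, `Idx = IdxA`, `Cs = CsA`, `z k = |k.1|`, `β = 2 bet d` (`128 β = d²/576 = c`),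
`Λ₁ = n + b log (n+1) · 2` (`b = 11 pn·n/L²`; there are at most `2^n` first components and
`≤ (n²+1)^b ≤ (n+1)^(2b)` second ones: `|Sym2 (Fin n)| = n(n+1)/2 ≤ n²`, number of subsets with at most
`b` elements of an `N`-set `≤ (N+1)^b`), `Λ₂ = log 2 + q log (n+1)`, `q = n/Dc`, `s₁ = (s0+1)/2`.
NUMERICS: with `m = pn`, `s0 ≥ 1/(2pL)` (`1/(pL) ≥ 2` by `hm3`), `s₁ ≥ 1/(4pL)`, so
`s₁ m² ≥ m n/(4L)`; the right hand side `R = s₁ c γ m²/4` is `≥ c γ m n/(16 L)`. Each of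
`n log(n+1) ≤ n L/Λ`, `n`, `b log(n+1) ≤ 11 m n/(L Λ)` is at most `R/8` for large `Λ`
(`m ≥ L^10`); `q log(n+1) ≤ q L/Λ`, `q = n/Dc = 4 L CP (n m^(2h) + m^(4h)) L^(4h)/(bet² γ² cq^(2h)
m^(4h)) ≤ C L^(4h+1) (n/m^(2h) + 1)`, so `q L/Λ ≤ c γ m²/32` by `hm2` (`L^(4h+6) n ≤ m^(2h+2)`) and
`hm`. Finally `exp(-R) ≤ 1/L` because `R ≥ L`. -/
def S_MAINA : Prop := ∀ (h κ : ℕ) (d γ CP : ℝ), 1 ≤ h → 1 ≤ κ → 0 < d → d ≤ 1 → 0 < γ → γ ≤ 1 →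
  0 < CP → ∃ Λ : ℝ, 1 ≤ Λ ∧ ∀ (n : ℕ) (p L : ℝ), NumA h κ n p L Λ →
  Pr (allE n) p (fun S => MainA h d γ CP n p L S) ≤ 1 / L

/-- **S_GOODA** (probability of the good event). From `deg_bound`, `sparse_bound` (with
`C = C₁`), `upper_bound`, `exc_bound` (`c = d²/1152`, `c/128 = bet d`) of `Tail2.lean`, `S_PRIV`
(`β = d²γ/18432`), `S_PAIRS`, `S_DEGEN` (`r = 2h`) with Markov (`Pr_markov` or `Pr_le_Ex`), `S_MAINA`.
Each failure probability is `≤ 1/L` (up to a constant factor `≤ 2`) for large `Λ`. -/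
def S_GOODA : Prop := ∀ (h κ : ℕ) (d γ C₁ : ℝ), 1 ≤ h → 1 ≤ κ → 0 < d → d ≤ 1 → 0 < γ → γ ≤ 1 →
  0 < C₁ → Real.exp 1 * C₁ ≤ κ → ∃ CP CD Λ : ℝ, 0 < CP ∧ 0 < CD ∧ 1 ≤ Λ ∧
  ∀ (n : ℕ) (p L : ℝ), NumA h κ n p L Λ →
  Pr (allE n) p (fun S => ¬ GoodA h κ d γ CP CD C₁ n p L S) ≤ 16 / L

/-- **S_EXCA** (few exceptional vertices; deterministic). Suppose the filter has more than `s0`
elements, let `T` be `s0` of them; `|T| ≤ 1/(pL)`. For `x ∈ T` let `Y x` be the set of `y ∈ nb E Y x`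
that have no other `S`-neighbour in `T`; if `y ∈ nb E Y x \ Y x` then `(x,y) ∈ nonpriv S T`. So
`∑_{x∈T} |nb E Y x \ Y x| < d²γ/18432 n/L`, hence (degrees `≤ 8m`)
`∑_{x∈T} ∑_{y∈Y x} |nb E Z₀ y| ≥ s0 (d/12)² m²/2 - 8 m d² n/(18432 L) ≥ (d²/576 - d²/2304) m n/L
≥ d²/1152 m n/L` (`s0 ≥ 1/(2pL)` as `pL ≤ 1/2`). The `Y x` are disjoint, their union has
`≤ 8 m s0 ≤ 8n/L` elements: contradiction to `exc`. -/
def S_EXCA : Prop := ∀ (h κ n : ℕ) (d γ CP CD C₁ p L Λ : ℝ) (S E : Finset (Sym2 (Fin n)))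
  (X Y Z₀ : Finset (Fin n)), 1 ≤ h → 0 < d → d ≤ 1 → 0 < γ → γ ≤ 1 → 1 ≤ Λ → NumA h κ n p L Λ →
  GoodA h κ d γ CP CD C₁ n p L S → E ⊆ S → Disjoint X Y → (Z₀.card : ℝ) ≤ bet d * n →
  (X.filter (fun x => (d / 12) ^ 2 * (p * n) ^ 2 / 2 ≤
    ∑ y ∈ nb E Y x, ((nb E Z₀ y).card : ℝ))).card ≤ s0 p L

/-- **S_MATA** (no large matching inside a colour class; deterministic). `m = pn`,
`c₀ = d/12`. Let `M` be a matching with `s0` edges, `T = vts M`, `|T| ≤ 2 s0 ≤ 2/(pL)`. For `x ∈ T` let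
`Y x` be the set of `y ∈ nb E Y x` with no other `S`-neighbour in `T`;
`∑_{x∈T} |nb E Y x \ Y x| ≤ |nonpriv S T| < β₅ n/L`, `β₅ = d²γ/18432`. Call `x` bad if
`|nb E Y x \ Y x| > 4 β₅ m`: fewer than `1/(4pL) ≤ s0/2` bad `x`, so at least `(s0+1)/2` edges of `M`
have no bad end. For such an edge `(x,x')` let `A x = {z ∈ Zc | ∃ y ∈ Y x, s(y,z) ∈ E}`. There is no
path of length `2h` in `B` from `z ∈ A x` to `z' ∈ A x'` (`cycle_of`; the path avoids `X`, `Y`).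
`container` with `R = Rset h Zc B`, `D = Dc`: `T₀` with `|T₀| ≤ n/Dc`, `A x' ⊆ C' = Zc \ R(T₀)`,
`A x ⊆ C = {z | |R z \ R(T₀)| < Dc}`. If both `C`, `C'` have `≥ 2 bet |Zc|` elements then `super`
(`q = (d/16)²/4 p² bet |Zc| |W| ≥ cq m²/L²`, `hdeg` from the hypothesis on `CD`) gives
`(bet |Zc| q^h/2)² ≤ #{(z,z') ∈ C × C' reachable} |pairsW| < n Dc |pairsW|`, contradiction to the
definition of `Dc`. So one of the ends `x*` of the edge has a container `C x* ∈ CsA` with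
`A x* ⊆ C x*`. Take `(s0+1)/2` such edges, `I` = set of the `x*`, `g y = some x` iff `x ∈ I`, `y ∈ Y x`.
`∑_{y∈Y x} |nb S (C x) y| ≥ ∑_{y∈Y x} |nb E Zc y| ≥ c₀²/2 m² |Zc|/n - 8m · 4β₅ m ≥ c₀²/4 m²|Zc|/n`
(`|Zc| ≥ γ n`): this is the bad event `MainA`. -/
def S_MATA : Prop := ∀ (h κ n : ℕ) (d γ CP CD C₁ p L Λ : ℝ) (S E B : Finset (Sym2 (Fin n)))
  (X Y W Zc : Finset (Fin n)), 1 ≤ h → 0 < d → d ≤ 1 → 0 < γ → γ ≤ 1 → 0 < CP → 0 < CD → 1 ≤ Λ →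
  NumA h κ n p L Λ → 2 * CD * L ^ (2 * h + 1) ≤ bet d * γ * (cq d γ) ^ h * (p * n) →
  GoodA h κ d γ CP CD C₁ n p L S → E ⊆ S → B ⊆ E → Disjoint X Y →
  (∀ u v, s(u, v) ∈ B → u ∉ X ∧ u ∉ Y) →
  ¬ (SimpleGraph.cycleGraph (2 * h + 5)).IsContained
    (SimpleGraph.fromEdgeSet (E : Set (Sym2 (Fin n)))) →
  γ * n ≤ (Zc.card : ℝ) → (B.card : ℝ) ≤ 11 * (p * n) * n / L ^ 2 →
  d * n / (192 * L ^ 2) ≤ (W.card : ℝ) → Cluster B W p (d / 16) (bet d) Zc →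
  (∀ x ∈ X, (d / 12) ^ 2 / 2 * (p * n) ^ 2 * Zc.card / n ≤
    ∑ y ∈ nb E Y x, ((nb E Zc y).card : ℝ)) →
  ¬ ∃ M, IsMat E X M ∧ M.card = s0 p L

/-- **S_SIDEA** (one side of the random splitting; deterministic). `T, γ'` from
`S_CLUSTER (d/16) 512 (bet d) (bet d)`, `γ = γ' d/96`. `m = pn`. `|Z| ≥ d n/96` (count pairs
`(v, z)`, `z ∈ nb E Z v`: `n d m/12 ≤ |Z| 8 m`), `|W| ≥ d n/(96 M) ≥ d n/(192 L²)`. `B` = edges of `E`
joining `Z` and `W`: `|B| ≤ 8 m |W| ≤ 11 m n/L²`. Hypotheses of the cluster lemma: `c p |W| ≤ d m/(12M)`;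
`∑_{w∈W} dg² ≤ 256 p²|A|²|W| + 64 m²/(γ p) ≤ 512 p² |A|² |W|` by `upper` and `deg`. Let `Z₀` = the part
of `Z` outside the clusters, `|Z₀| ≤ bet d |Z|`. For `x ∈ X = univ \ (Y ∪ Z ∪ W)`:
`∑_{y∈nb E Y x} |nb E Z y| ≥ (d/12)² m²`; all but `s0` vertices (`S_EXCA`) have at least half of this in
the union of the clusters, so for one cluster `Zc`, `≥ (d/12)²/2 m² |Zc|/n` (pigeonhole, as
`∑ |Zc| ≤ n`): colour `x` with the index of this cluster. By `S_MATA` and `matching_or` in each class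
there is a set of `≤ 2 s0` vertices whose removal leaves an independent set. Uncoloured vertices go
to `U`. -/
def S_SIDEA : Prop := ∀ (h : ℕ) (d : ℝ), 1 ≤ h → 0 < d → d ≤ 1 → ∃ (T : ℕ) (γ : ℝ), 1 ≤ T ∧
  0 < γ ∧ γ ≤ 1 ∧ ∀ (CP CD : ℝ), 0 < CP → 0 < CD → ∃ Λ : ℝ, 1 ≤ Λ ∧
  ∀ (κ n : ℕ) (p L C₁ : ℝ) (S E : Finset (Sym2 (Fin n))) (Y Z W : Finset (Fin n)),
  NumA h κ n p L Λ → GoodA h κ d γ CP CD C₁ n p L S → E ⊆ S →
  ¬ (SimpleGraph.cycleGraph (2 * h + 5)).IsContained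
    (SimpleGraph.fromEdgeSet (E : Set (Sym2 (Fin n)))) →
  Disjoint Y Z → Disjoint Y W → Disjoint Z W →
  (∀ v, d * (p * n) / 12 ≤ ((nb E Y v).card : ℝ)) →
  (∀ v, d * (p * n) / 12 ≤ ((nb E Z v).card : ℝ)) →
  (∀ v, d * (p * n) / (12 * ⌈L ^ 2⌉₊) ≤ ((nb E W v).card : ℝ)) →
  (W.card : ℝ) ≤ 4 * n / (3 * ⌈L ^ 2⌉₊) →
  ∃ (f : Fin n → ℕ) (U : Finset (Fin n)), (∀ v, f v < T) ∧ (U.card : ℝ) ≤ (2 * T + 1) * s0 p L ∧
    ∀ u v, u ∉ Y ∪ Z ∪ W ∪ U → v ∉ Y ∪ Z ∪ W ∪ U → s(u, v) ∈ E → f u ≠ f v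

/-- **S_UPA** (upper bound for one `n`). `d ≤ 1` without loss of generality. `T, γ` from `S_SIDEA`,
`C₁ = 2 (2T+1)`; `lam (4h+6) ≤ min ((2h+2) η) (1/(4h+4))`, `lam ≤ 1/16`, `L = n^lam`,
`κ ≥ max (e C₁) (2/lam)`, `CP, CD, Λ` from `S_GOODA`, `Λ'` from `S_SIDEA`; `NumA` holds for large `n`.
For good `S` and `G`: `E` = edges of `G`, `S_SPLIT` with `N v = nb E univ v`, `dd = d pn`,
`M = ⌈L²⌉₊` (`12 n exp(-d pn/(48 M)) ≤ 1` as `pn ≥ L^10`, `M ≤ 2L²`), `S_SIDEA` for `(A 0, A 1, A 2)` and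
`(A 3, A 4, A 5)`; `degen_color` for `U₁ ∪ U₂` (`sparse`, `|U₁ ∪ U₂| ≤ C₁ s0 ≤ C₁/(pL)`). Every vertex
is outside `A 0 ∪ A 1 ∪ A 2` or outside `A 3 ∪ A 4 ∪ A 5`. `C = 2T + 2κ` colours. -/
def S_UPA : Prop := ∀ (h : ℕ) (d η : ℝ), 1 ≤ h → 0 < d → 0 < η →
  ∃ (C : ℕ) (lam : ℝ) (N : ℕ), 0 < C ∧ 0 < lam ∧ ∀ (n : ℕ) (p : ℝ), N ≤ n → 0 < p → p ≤ 1 →
  (n : ℝ) ^ (1 / (2 * (h : ℝ) + 2) + η) ≤ p * n → p * n ≤ (n : ℝ) ^ (1 / 2 : ℝ) →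
  Pr (allE n) p (fun S => ¬ ∀ G : SimpleGraph (Fin n),
    G ≤ SimpleGraph.fromEdgeSet (S : Set (Sym2 (Fin n))) →
    ¬ (SimpleGraph.cycleGraph (2 * h + 5)).IsContained G →
    (∀ v, d * p * n ≤ ((G.neighborSet v).ncard : ℝ)) → G.Colorable C) ≤ 16 / (n : ℝ) ^ lam

end Pool.Agent.H973.CT
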