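import Pool.Agent.H973.CT.Stm2
import Pool.Agent.H973.CT.Stm3
import Pool.Graph.R_seed8.W166.Gnp.Thr

set_option autoImplicit false

/-! Chromatic thresholds of odd cycles in `G(n,p)`: from the statements for one `n` to the
threshold. -/

namespace Pool.Agent.H973.CT

open Finset Filter Topology Asymptotics
open Pool.Agent.W166.Gnp hiding thr_lower

open Classical in
/-- the probability that the random graph `G(n,p)` has the property `A` -/
noncomputable def gnp (n : ℕ) (p : ℝ) (A : SimpleGraph (Fin n) → Prop) : ℝ :=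
  ∑ Γ : SimpleGraph (Fin n),
    if A Γ then p ^ Γ.edgeSet.ncard * (1 - p) ^ (n.choose 2 - Γ.edgeSet.ncard) else 0

/-- the chromatic threshold `δ_χ(H,p)` -/
noncomputable def chromThreshold {V : Type} (H : SimpleGraph V) (p : ℕ → ℝ) : ℝ :=
  sInf {d : ℝ | 0 < d ∧ ∃ C : ℕ, 0 < C ∧ Tendsto (fun n : ℕ => gnp n (p n) (fun Γ =>
    ∀ G : SimpleGraph (Fin n), G ≤ Γ → ¬ H.IsContained G →
      (∀ v, d * p n * n ≤ ((G.neighborSet v).ncard : ℝ)) → G.Colorable C)) atTop (𝓝 1)}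

theorem gnp_eq (n : ℕ) (p : ℝ) (A : SimpleGraph (Fin n) → Prop) : gnp n p A =
    Pr (allE n) p (fun S => A (SimpleGraph.fromEdgeSet (S : Set (Sym2 (Fin n))))) := by
  classical
  unfold gnp
  exact sum_eq_Pr p A

/-- the property whose probability is considered -/
def Prop0 {V : Type} (H : SimpleGraph V) (d : ℝ) (C n : ℕ) (q : ℝ) (Γ : SimpleGraph (Fin n)) :
    Prop :=
  ∀ G : SimpleGraph (Fin n), G ≤ Γ → ¬ H.IsContained G →
      (∀ v, d * q * n ≤ ((G.neighborSet v).ncard : ℝ)) → G.Colorable C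

theorem gnp_le_one (n : ℕ) {p : ℝ} (h0 : 0 ≤ p) (h1 : p ≤ 1) (A : SimpleGraph (Fin n) → Prop) :
    gnp n p A ≤ 1 := by
  rw [gnp_eq]
  exact Pr_le_one h0 h1 _

theorem gnp_compl (n : ℕ) {p : ℝ} (A : SimpleGraph (Fin n) → Prop) :
    gnp n p A = 1 - Pr (allE n) p
      (fun S => ¬ A (SimpleGraph.fromEdgeSet (S : Set (Sym2 (Fin n))))) := by
  rw [gnp_eq, Pr_not]
  ring

/-- tending to one -/
theorem tendsto_one (p : ℕ → ℝ) (hp : ∀ n, 0 ≤ p n ∧ p n ≤ 1)
    (A : (n : ℕ) → SimpleGraph (Fin n) → Prop) (b : ℕ → ℝ) (hb : Tendsto b atTop (𝓝 0))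
    (h : ∀ᶠ n : ℕ in atTop, Pr (allE n) (p n)
      (fun S => ¬ A n (SimpleGraph.fromEdgeSet (S : Set (Sym2 (Fin n))))) ≤ b n) :
    Tendsto (fun n => gnp n (p n) (A n)) atTop (𝓝 1) := by
  have h3 : Tendsto (fun n : ℕ => 1 - b n) atTop (𝓝 1) := by
    have h5 := (tendsto_const_nhds (x := (1 : ℝ))).sub hb
    simpa using h5
  refine tendsto_of_tendsto_of_tendsto_of_le_of_le' h3 tendsto_const_nhds ?_ ?_
  · filter_upwards [h] with n hn
    rw [gnp_compl]
    linarith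
  · filter_upwards with n
    exact gnp_le_one n (hp n).1 (hp n).2 _

/-- upper part -/
theorem part_upper (hU : S_UPA) (h : ℕ) (hh : 1 ≤ h) (p : ℕ → ℝ) (hp : ∀ n, 0 ≤ p n ∧ p n ≤ 1)
    (η : ℝ) (hη : 0 < η)
    (h1 : ∀ᶠ n : ℕ in atTop, (n : ℝ) ^ (1 / (2 * (h : ℝ) + 2) + η) ≤ p n * n)
    (h2 : ∀ᶠ n : ℕ in atTop, p n * n ≤ (n : ℝ) ^ (1 / 2 : ℝ)) :
    chromThreshold (SimpleGraph.cycleGraph (2 * h + 5)) p = 0 := by
  have hset : {d : ℝ | 0 < d ∧ ∃ C : ℕ, 0 < C ∧ Tendsto (fun n : ℕ => gnp n (p n) (fun Γ =>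
    ∀ G : SimpleGraph (Fin n), G ≤ Γ → ¬ (SimpleGraph.cycleGraph (2 * h + 5)).IsContained G →
      (∀ v, d * p n * n ≤ ((G.neighborSet v).ncard : ℝ)) → G.Colorable C)) atTop (𝓝 1)} =
      Set.Ioi 0 := by
    ext d
    rw [Set.mem_ofPred_eq, Set.mem_Ioi]
    refine ⟨fun hd => hd.1, fun hd => ⟨hd, ?_⟩⟩
    obtain ⟨C, lam, N, hC, hlam, hmain⟩ := hU h d η hh hd hη
    refine ⟨C, hC, ?_⟩
    refine tendsto_one p hp (fun n Γ => ∀ G : SimpleGraph (Fin n), G ≤ Γ →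
      ¬ (SimpleGraph.cycleGraph (2 * h + 5)).IsContained G →
      (∀ v, d * p n * n ≤ ((G.neighborSet v).ncard : ℝ)) → G.Colorable C)
      (fun n => 16 / (n : ℝ) ^ lam) ?_ ?_
    · apply Tendsto.const_div_atTop
      exact (tendsto_rpow_atTop hlam).comp tendsto_natCast_atTop_atTop
    · filter_upwards [h1, h2, eventually_ge_atTop N, eventually_ge_atTop 1] with n e1 e2 e3 e4
      have hpos : 0 < p n := by
        rcases lt_or_eq_of_le (hp n).1 with h5 | h5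
        · exact h5
        · exfalso
          rw [← h5, zero_mul] at e1
          have : (0 : ℝ) < (n : ℝ) ^ (1 / (2 * (h : ℝ) + 2) + η) := by
            apply Real.rpow_pos_of_pos
            exact_mod_cast e4
          linarith
      exact hmain n (p n) e3 hpos (hp n).2 e1 e2
  unfold chromThreshold
  rw [hset]
  exact csInf_Ioi

/-- lower part -/
theorem part_lower (hL : S_LOWB) (h : ℕ) (hh : 1 ≤ h) (p : ℕ → ℝ) (hp : ∀ n, 0 ≤ p n ∧ p n ≤ 1)
    (h1 : ∀ᶠ n : ℕ in atTop, (n : ℝ) ^ (1 / (2 * (h : ℝ) + 2)) ≤ p n * n)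
    (h2 : ∀ η : ℝ, 0 < η → ∃ᶠ n : ℕ in atTop, p n * n ≤ (n : ℝ) ^ (1 / (2 * (h : ℝ) + 2) + η)) :
    1 / 2 ≤ chromThreshold (SimpleGraph.cycleGraph (2 * h + 5)) p := by
  have hh2 : (0 : ℝ) < 2 * (h : ℝ) + 2 := by positivity
  have hpos : ∀ᶠ n : ℕ in atTop, 0 < p n ∧ 1 ≤ p n * n := by
    filter_upwards [h1, eventually_ge_atTop 1] with n e1 e4
    have h4 : (1 : ℝ) ≤ n := by exact_mod_cast e4
    have h5 : (1 : ℝ) ≤ (n : ℝ) ^ (1 / (2 * (h : ℝ) + 2)) := Real.one_le_rpow h4 (by positivity)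
    refine ⟨?_, by linarith⟩
    rcases lt_or_eq_of_le (hp n).1 with h6 | h6
    · exact h6
    · exfalso
      rw [← h6, zero_mul] at e1
      linarith
  unfold chromThreshold
  apply le_csInf
  · refine ⟨4, by norm_num, 1, by norm_num, ?_⟩
    refine tendsto_one p hp (fun n Γ => ∀ G : SimpleGraph (Fin n), G ≤ Γ →
      ¬ (SimpleGraph.cycleGraph (2 * h + 5)).IsContained G →
      (∀ v, 4 * p n * n ≤ ((G.neighborSet v).ncard : ℝ)) → G.Colorable 1)
      (fun n => Real.exp (-((n : ℝ) / 2))) ?_ ?_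
    · apply Real.tendsto_exp_neg_atTop_nhds_zero.comp
      exact tendsto_natCast_atTop_atTop.atTop_div_const (by norm_num)
    · filter_upwards [hpos, eventually_gt_atTop 0] with n e1 e2
      have h6 := no_large_deg e2 e1.1 (hp n).2
      have h7 : Real.exp (-(p n * (n : ℝ) ^ 2 / 2)) ≤ Real.exp (-((n : ℝ) / 2)) := by
        rw [Real.exp_le_exp]
        have : (0 : ℝ) < n := by exact_mod_cast e2
        nlinarith [mul_le_mul_of_nonneg_right e1.2 this.le]
      refine le_trans (Pr_mono e1.1.le (hp n).2 ?_) (h6.trans h7)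
      intro S _ hS
      push Not at hS
      obtain ⟨G, hG, _, hdeg, _⟩ := hS
      exact ⟨G, hG, hdeg⟩
  · rintro d ⟨_, C, hC, hlim⟩
    by_contra hd
    rw [not_le] at hd
    obtain ⟨μ, hμ, N, hmain⟩ := hL h C (1 / 2 - d) hh hC (by linarith)
    have hev : ∀ᶠ n : ℕ in atTop, 1 / 2 < gnp n (p n) (fun Γ =>
        ∀ G : SimpleGraph (Fin n), G ≤ Γ → ¬ (SimpleGraph.cycleGraph (2 * h + 5)).IsContained G →
          (∀ v, d * p n * n ≤ ((G.neighborSet v).ncard : ℝ)) → G.Colorable C) :=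
      hlim.eventually (lt_mem_nhds (by norm_num))
    have hfr := (h2 (μ / (2 * (h : ℝ) + 2)) (by positivity)).and_eventually
      (hev.and (h1.and (hpos.and ((eventually_ge_atTop N).and (eventually_ge_atTop 1)))))
    obtain ⟨n, e1, e2, e3, e4, e5, e6⟩ := hfr.exists
    have hn1 : (1 : ℝ) ≤ n := by exact_mod_cast e6
    have hn0 : (0 : ℝ) < n := by linarith
    have hpn : 0 ≤ p n * n := by linarith [e4.2]
    have c1 : (n : ℝ) ≤ (p n * n) ^ (2 * h + 2) := by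
      calc (n : ℝ) = ((n : ℝ) ^ (1 / (2 * (h : ℝ) + 2))) ^ (2 * h + 2) := by
            rw [← Real.rpow_natCast, ← Real.rpow_mul hn0.le]
            push_cast
            rw [one_div, inv_mul_cancel₀ hh2.ne', Real.rpow_one]
        _ ≤ _ := by
            apply pow_le_pow_left₀ (by positivity) e3
    have c2 : (p n * n) ^ (2 * h + 2) ≤ (n : ℝ) ^ (1 + μ) := by
      calc (p n * n) ^ (2 * h + 2) ≤
            ((n : ℝ) ^ (1 / (2 * (h : ℝ) + 2) + μ / (2 * (h : ℝ) + 2))) ^ (2 * h + 2) := by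
            apply pow_le_pow_left₀ hpn e1
        _ = _ := by
            rw [← Real.rpow_natCast, ← Real.rpow_mul hn0.le]
            congr 1
            push_cast
            field_simp
    have hPr := hmain n (p n) e5 e4.1 (hp n).2 c1 c2
    rw [gnp_eq] at e2
    have h8 : Pr (allE n) (p n) (fun S => ∀ G : SimpleGraph (Fin n),
        G ≤ SimpleGraph.fromEdgeSet (S : Set (Sym2 (Fin n))) →
        ¬ (SimpleGraph.cycleGraph (2 * h + 5)).IsContained G →
          (∀ v, d * p n * n ≤ ((G.neighborSet v).ncard : ℝ)) → G.Colorable C) ≤ 1 / 4 := by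
      refine le_trans ?_ hPr
      apply Pr_mono e4.1.le (hp n).2
      rintro S _ hA ⟨G, hG1, hG2, hG3, hG4⟩
      apply hG4
      refine hA G hG1 hG2 (fun v => le_trans (le_of_eq ?_) (hG3 v))
      ring
    linarith

/-- the exponent `θ = (2k-3)/(2k-2)` -/
noncomputable def theta (k : ℕ) : ℝ := (2 * (k : ℝ) - 3) / (2 * k - 2)

theorem main_thm (hU : S_UPA) (hL : S_LOWB) (k : ℕ) (hk : 3 ≤ k) (p : ℕ → ℝ)
    (hp : ∀ n, 0 ≤ p n ∧ p n ≤ 1)
    (hlow : (fun n : ℕ => (n : ℝ) ^ (-((2 * (k : ℝ) - 3) / (2 * k - 2)))) =o[atTop] p)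
    (hup : p =o[atTop] (fun n : ℕ => (n : ℝ) ^ (-(1 / 2) : ℝ))) :
    ((∃ η : ℝ, 0 < η ∧ ∀ᶠ n : ℕ in atTop,
        (n : ℝ) ^ (-((2 * (k : ℝ) - 3) / (2 * k - 2)) + η) ≤ p n) →
      chromThreshold (SimpleGraph.cycleGraph (2 * k + 1)) p = 0) ∧
    ((¬ ∃ η : ℝ, 0 < η ∧ ∀ᶠ n : ℕ in atTop,
        (n : ℝ) ^ (-((2 * (k : ℝ) - 3) / (2 * k - 2)) + η) ≤ p n) →
      1 / 2 ≤ chromThreshold (SimpleGraph.cycleGraph (2 * k + 1)) p) := by
  obtain ⟨h, rfl⟩ : ∃ h, k = h + 2 := ⟨k - 2, by omega⟩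
  have hh : 1 ≤ h := by omega
  have hcyc : 2 * (h + 2) + 1 = 2 * h + 5 := by ring
  rw [hcyc]
  have hh2 : (0 : ℝ) < 2 * (h : ℝ) + 2 := by positivity
  have hexp : ∀ x : ℝ, -((2 * ((h + 2 : ℕ) : ℝ) - 3) / (2 * ((h + 2 : ℕ) : ℝ) - 2)) + x + 1 =
      1 / (2 * (h : ℝ) + 2) + x := by
    intro x
    push_cast
    have e : (2 * ((h : ℝ) + 2) - 2) = 2 * (h : ℝ) + 2 := by ring
    rw [e]
    field_simp
    ring
  have hmul : ∀ (n : ℕ) (x : ℝ), 1 ≤ n →
      (n : ℝ) ^ (-((2 * ((h + 2 : ℕ) : ℝ) - 3) / (2 * ((h + 2 : ℕ) : ℝ) - 2)) + x) * n =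
      (n : ℝ) ^ (1 / (2 * (h : ℝ) + 2) + x) := by
    intro n x hn
    have hn0 : (0 : ℝ) < n := by exact_mod_cast hn
    rw [← hexp x, Real.rpow_add_one hn0.ne']
  constructor
  · rintro ⟨η, hη, hev⟩
    apply part_upper hU h hh p hp η hη
    · filter_upwards [hev, eventually_ge_atTop 1] with n e1 e2
      rw [← hmul n η e2]
      exact mul_le_mul_of_nonneg_right e1 (Nat.cast_nonneg n)
    · have h3 := hup.def (c := 1) one_pos
      filter_upwards [h3, eventually_ge_atTop 1] with n e1 e2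
      have hn0 : (0 : ℝ) < n := by exact_mod_cast e2
      rw [Real.norm_of_nonneg (hp n).1, one_mul, Real.norm_of_nonneg (by positivity)] at e1
      calc p n * n ≤ (n : ℝ) ^ (-(1 / 2) : ℝ) * n := mul_le_mul_of_nonneg_right e1 hn0.le
        _ = (n : ℝ) ^ (1 / 2 : ℝ) := by
            rw [← Real.rpow_add_one hn0.ne']
            norm_num
  · intro hno
    apply part_lower hL h hh p hp
    · have h3 := hlow.def (c := 1) one_pos
      filter_upwards [h3, eventually_ge_atTop 1] with n e1 e2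
      have hn0 : (0 : ℝ) < n := by exact_mod_cast e2
      rw [Real.norm_of_nonneg (hp n).1, one_mul, Real.norm_of_nonneg (by positivity)] at e1
      have h4 := hmul n 0 e2
      rw [add_zero, add_zero] at h4
      rw [← h4]
      exact mul_le_mul_of_nonneg_right e1 hn0.le
    · intro η hη
      have h5 : ∃ᶠ n : ℕ in atTop, ¬
        (n : ℝ) ^ (-((2 * ((h + 2 : ℕ) : ℝ) - 3) / (2 * ((h + 2 : ℕ) : ℝ) - 2)) + η) ≤ p n := by
        intro hcon
        apply hno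
        refine ⟨η, hη, ?_⟩
        filter_upwards [hcon] with n hn
        exact not_not.mp hn
      refine (h5.and_eventually (eventually_ge_atTop 1)).mono ?_
      rintro n ⟨e1, e2⟩
      have hn0 : (0 : ℝ) < n := by exact_mod_cast e2
      rw [← hmul n η e2]
      exact mul_le_mul_of_nonneg_right (not_le.mp e1).le hn0.le

end Pool.Agent.H973.CT
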