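import Pool.Agent.H973.CT.Stm2
import Pool.Agent.H973.CT.Tail2

set_option autoImplicit false

/-! `S_GB4` from `S_IND`. -/

namespace Pool.Agent.H973.CT

open Finset Classical Pool.Agent.W166.Gnp

variable {n : ℕ}

namespace GB4L

/-- the vertices of `P` with a neighbour `x ≠ r` in `X` -/
noncomputable def QQ (P X : Finset (Fin n)) (r : Fin n) (S : Finset (Sym2 (Fin n))) :
    Finset (Fin n) := P.filter (fun q => ∃ x ∈ X, x ≠ r ∧ s(q, x) ∈ S)

/-- the edges at `r` -/
noncomputable def at_ (E : Finset (Sym2 (Fin n))) (r : Fin n) : Finset (Sym2 (Fin n)) :=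
  E.filter (fun e => r ∈ e)

theorem mem_prs2 {P : Finset (Fin n)} {q r : Fin n} (hq : q ∈ P) (hr : r ∉ P) :
    s(r, q) ∈ prs2 P (univ \ P) := by
  unfold prs2
  rw [mem_image]
  refine ⟨(q, r), ?_, Sym2.eq_swap⟩
  rw [mem_filter, mem_product, mem_sdiff]
  exact ⟨⟨hq, mem_univ _, hr⟩, fun e : q = r => hr (e ▸ hq)⟩

theorem QQ_sdiff (P X : Finset (Fin n)) {r : Fin n} (hr : r ∉ P) (S : Finset (Sym2 (Fin n)))
    (E : Finset (Sym2 (Fin n))) :
    QQ P X r (S \ at_ E r) = QQ P X r S := by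
  unfold QQ
  apply filter_congr
  intro q hq
  have hqr : r ≠ q := fun e => hr (e ▸ hq)
  constructor
  · rintro ⟨x, hx, hxr, h⟩
    exact ⟨x, hx, hxr, (mem_sdiff.mp h).1⟩
  · rintro ⟨x, hx, hxr, h⟩
    refine ⟨x, hx, hxr, mem_sdiff.mpr ⟨h, ?_⟩⟩
    intro h2
    have h3 := (mem_filter.mp h2).2
    rw [Sym2.mem_iff] at h3
    rcases h3 with h3 | h3
    · exact hqr h3
    · exact hxr h3.symm

theorem QQ_card (P X : Finset (Fin n)) (r : Fin n) (S : Finset (Sym2 (Fin n))) {d : ℝ}
    (hd : ∀ v, ((nb S univ v).card : ℝ) ≤ d) : ((QQ P X r S).card : ℝ) ≤ X.card * d := by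
  have h1 : QQ P X r S ⊆ X.biUnion (fun x => nb S univ x) := by
    intro q hq
    obtain ⟨_, x, hx, _, h⟩ := mem_filter.mp hq
    rw [mem_biUnion]
    refine ⟨x, hx, ?_⟩
    unfold nb
    rw [mem_filter]
    exact ⟨mem_univ _, by rw [Sym2.eq_swap]; exact h⟩
  have h2 : ((QQ P X r S).card : ℝ) ≤ ((∑ x ∈ X, (nb S univ x).card : ℕ) : ℝ) := by
    exact_mod_cast (card_le_card h1).trans card_biUnion_le
  refine h2.trans ?_
  push_cast
  calc ∑ x ∈ X, ((nb S univ x).card : ℝ) ≤ ∑ _x ∈ X, d := sum_le_sum fun x _ => hd x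
    _ = X.card * d := by rw [sum_const, nsmul_eq_mul]

theorem nb_card (Q : Finset (Fin n)) (r : Fin n) (S : Finset (Sym2 (Fin n))) :
    (nb S Q r).card ≤ (S ∩ Q.image (fun q => s(r, q))).card := by
  apply card_le_card_of_injOn (fun q => s(r, q))
  · intro q hq
    have h := mem_filter.mp (mem_coe.mp hq)
    rw [mem_coe, mem_inter]
    exact ⟨h.2, mem_image_of_mem _ h.1⟩
  · intro q _ q' _ h
    exact Sym2.congr_right.mp h

end GB4L

open GB4L in
/-- `S_GB4` -/
theorem gb4 (hI : S_IND) : S_GB4 := by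
  intro h κ hh hκ
  refine ⟨128, by norm_num, ?_⟩
  intro n p ℓ hN P X H hS
  set E : Finset (Sym2 (Fin n)) := prs2 P (univ \ P) with hE
  have hn0 : (1 : ℝ) ≤ n := by exact_mod_cast hN.hn
  have hl : (128 : ℝ) ≤ ℓ := hN.hΛ
  have hl1 : (1 : ℝ) ≤ ℓ := by linarith
  have hl0 : (0 : ℝ) < ℓ := by linarith
  set x : ℝ := p * n / ℓ ^ 7 with hx
  have hpn : 0 < p * n := mul_pos hN.hp (by linarith)
  -- `x` is large
  have hxl : ℓ ≤ x := by
    rw [hx, le_div_iff₀ (by positivity)]
    refine le_trans ?_ hN.hm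
    calc ℓ * ℓ ^ 7 = ℓ ^ 8 := by ring
      _ ≤ ℓ ^ (2 * h + 30) := pow_le_pow_right₀ hl1 (by omega)
  -- one vertex
  have hone : ∀ r ∈ (univ.filter (fun r : Fin n => r ∉ P)),
      Pr E p (fun S => (∀ v, ((nb S univ v).card : ℝ) ≤ 8 * (p * n)) ∧
        x < ((nb S (QQ P X r S) r).card : ℝ)) ≤ Real.exp (-x) := by
    intro r hr
    have hr' : r ∉ P := (mem_filter.mp hr).2
    have hsub : at_ E r ⊆ E := filter_subset _ _
    have hΦ : ∀ T : Finset (Sym2 (Fin n)),
        (QQ P X r T).image (fun q => s(r, q)) ⊆ at_ E r := by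
      intro T e he
      obtain ⟨q, hq, rfl⟩ := mem_image.mp he
      unfold at_
      rw [mem_filter]
      exact ⟨mem_prs2 (mem_filter.mp hq).1 hr', Sym2.mem_mk_left _ _⟩
    have key := hI (Sym2 (Fin n)) E (at_ E r) p x 1 (fun T => (QQ P X r T).image (fun q => s(r, q)))
      hsub hN.hp.le hN.hp1 zero_le_one hΦ
    rw [one_mul] at key
    refine le_trans (Pr_mono hN.hp.le hN.hp1 ?_) key
    rintro S _ ⟨hd, hlt⟩
    simp only [QQ_sdiff P X hr' S E]
    constructor
    · have c1 : (((QQ P X r S).image (fun q => s(r, q))).card : ℝ) ≤ ((QQ P X r S).card : ℝ) := by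
        exact_mod_cast card_image_le
      have c2 := QQ_card P X r S hd
      have c3 : Real.exp (1 + 1) ≤ 8 := by norm_num; exact exp_two_le
      have c4 : (X.card : ℝ) * (8 * (p * n)) ≤ 8 * n / ℓ ^ 8 := by
        rw [le_div_iff₀ (by positivity)]
        have := mul_le_mul_of_nonneg_right hS.xc (show (0 : ℝ) ≤ 8 * n by positivity)
        nlinarith
      have c5 : (((QQ P X r S).image (fun q => s(r, q))).card : ℝ) ≤ 8 * n / ℓ ^ 8 := by linarith
      have c6 : 0 ≤ (((QQ P X r S).image (fun q => s(r, q))).card : ℝ) := Nat.cast_nonneg _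
      calc Real.exp (1 + 1) * (((QQ P X r S).image (fun q => s(r, q))).card : ℝ) * p
          ≤ 8 * (8 * n / ℓ ^ 8) * p := by
            apply mul_le_mul_of_nonneg_right _ hN.hp.le
            exact mul_le_mul c3 c5 c6 (by norm_num)
        _ = 64 / ℓ * (p * n / ℓ ^ 7) := by field_simp; ring
        _ ≤ 1 * (p * n / ℓ ^ 7) := by
            apply mul_le_mul_of_nonneg_right _ (by positivity)
            rw [div_le_one hl0]
            linarith
        _ = x := by rw [one_mul]
    · refine hlt.le.trans ?_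
      exact_mod_cast nb_card (QQ P X r S) r S
  -- union bound
  have hun : Pr E p (fun S => (∀ v, ((nb S univ v).card : ℝ) ≤ 8 * (p * n)) ∧ ¬ B4 n p ℓ P X S) ≤
      n * Real.exp (-x) := by
    calc Pr E p (fun S => (∀ v, ((nb S univ v).card : ℝ) ≤ 8 * (p * n)) ∧ ¬ B4 n p ℓ P X S)
        ≤ Pr E p (fun S => ∃ r ∈ (univ.filter (fun r : Fin n => r ∉ P)),
            ((∀ v, ((nb S univ v).card : ℝ) ≤ 8 * (p * n)) ∧
              x < ((nb S (QQ P X r S) r).card : ℝ))) := by
          apply Pr_mono hN.hp.le hN.hp1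
          rintro S _ ⟨hd, hB⟩
          unfold B4 at hB
          push Not at hB
          obtain ⟨r, hr, hlt⟩ := hB
          exact ⟨r, mem_filter.mpr ⟨mem_univ _, hr⟩, hd, hlt⟩
      _ ≤ ∑ r ∈ (univ.filter (fun r : Fin n => r ∉ P)),
            Pr E p (fun S => (∀ v, ((nb S univ v).card : ℝ) ≤ 8 * (p * n)) ∧
              x < ((nb S (QQ P X r S) r).card : ℝ)) := Pr_exists_le hN.hp.le hN.hp1 _ _
      _ ≤ ∑ _r ∈ (univ.filter (fun r : Fin n => r ∉ P)), Real.exp (-x) := sum_le_sum hone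
      _ = ((univ.filter (fun r : Fin n => r ∉ P)).card : ℝ) * Real.exp (-x) := by
          rw [sum_const, nsmul_eq_mul]
      _ ≤ n * Real.exp (-x) := by
          apply mul_le_mul_of_nonneg_right _ (Real.exp_pos _).le
          have : (univ.filter (fun r : Fin n => r ∉ P)).card ≤ n := by
            have := card_le_univ (univ.filter (fun r : Fin n => r ∉ P))
            simpa using this
          exact_mod_cast this
  refine hun.trans ?_
  -- numerics
  have hlog : 128 * Real.log n ≤ ℓ := hN.hlog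
  have hlog0 : 0 ≤ Real.log n := Real.log_nonneg hn0
  have h1 : Real.log n + 64 ≤ x := by linarith
  have h2 : Real.exp (-x) ≤ Real.exp (-(Real.log n + 64)) := Real.exp_le_exp.mpr (by linarith)
  have h3 : Real.exp (-(Real.log n + 64)) = (n : ℝ)⁻¹ * Real.exp (-64) := by
    rw [neg_add, Real.exp_add, Real.exp_neg (Real.log n), Real.exp_log (by linarith)]
  have h4 : Real.exp (-64) ≤ 1 / 64 := by
    rw [Real.exp_neg, ← one_div]
    apply one_div_le_one_div_of_le (by norm_num)
    have := Real.add_one_le_exp (64 : ℝ)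
    linarith
  calc (n : ℝ) * Real.exp (-x) ≤ n * ((n : ℝ)⁻¹ * Real.exp (-64)) := by
        rw [← h3]
        exact mul_le_mul_of_nonneg_left h2 (by linarith)
    _ = Real.exp (-64) := by
        have : (n : ℝ) ≠ 0 := by linarith
        field_simp
    _ ≤ 1 / 64 := h4

end Pool.Agent.H973.CT
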