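import Pool.Agent.H973.CT.Stm2
import Pool.Agent.H973.CT.Tail2

set_option autoImplicit false

/-! [GB5] few walks of length `2h+2` between two vertices. -/

namespace Pool.Agent.H973.CT

open Finset Classical Pool.Agent.W166.Gnp

namespace GB5L

variable {n : ℕ}

theorem wr_card {S : Finset (Sym2 (Fin n))} {D : ℝ} (hD : 0 ≤ D)
    (h : ∀ v, ((nb S univ v).card : ℝ) ≤ D) (r : ℕ) (a : Fin n) :
    ((wr S r a).card : ℝ) ≤ D ^ r := by
  induction r with
  | zero => simp [wr]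
  | succ r ih =>
    have h1 : (((wr S r a).biUnion (nb S univ)).card : ℝ) ≤
        ∑ v ∈ wr S r a, ((nb S univ v).card : ℝ) := by exact_mod_cast card_biUnion_le
    calc ((wr S (r + 1) a).card : ℝ) = (((wr S r a).biUnion (nb S univ)).card : ℝ) := rfl
      _ ≤ ∑ v ∈ wr S r a, ((nb S univ v).card : ℝ) := h1
      _ ≤ ∑ _v ∈ wr S r a, D := sum_le_sum fun v _ => h v
      _ = (wr S r a).card * D := by rw [sum_const, nsmul_eq_mul]
      _ ≤ D ^ r * D := mul_le_mul_of_nonneg_right ih hD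
      _ = D ^ (r + 1) := (pow_succ D r).symm

theorem nb_mono {S T : Finset (Sym2 (Fin n))} (h : S ⊆ T) (A : Finset (Fin n)) (v : Fin n) :
    nb S A v ⊆ nb T A v := by
  intro u hu
  rw [nb, mem_filter] at hu ⊢
  exact ⟨hu.1, h hu.2⟩

end GB5L

open GB5L in
/-- **S_GB5** -/
theorem gb5 (hI : S_IND) : S_GB5 := by
  intro h κ hh hκ
  refine ⟨8 ^ (2 * h + 2), one_le_pow₀ (by norm_num), ?_⟩
  intro n p ℓ hN P X H hS
  have h0 : 0 ≤ p := hN.hp.le
  have h1 : p ≤ 1 := hN.hp1
  have hℓ : (8 : ℝ) ^ (2 * h + 2) ≤ ℓ := hN.hΛ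
  have h64 : (64 : ℝ) ≤ 8 ^ (2 * h + 2) := by
    calc (64 : ℝ) = 8 ^ 2 := by norm_num
      _ ≤ 8 ^ (2 * h + 2) := pow_le_pow_right₀ (by norm_num) (by omega)
  have hℓ4 : (64 : ℝ) ≤ ℓ := h64.trans hℓ
  have hn : (1 : ℝ) ≤ n := by exact_mod_cast hN.hn
  have hn0 : (0 : ℝ) < n := by linarith
  have hpn : 0 ≤ p * n := by positivity
  have key : ∀ q : Fin n × Fin n, Pr (prs2 P (univ \ P)) p
      (fun S => (∀ v, ((nb S univ v).card : ℝ) ≤ 8 * (p * n)) ∧
        ℓ ^ 2 < ((nb S (wr (dl q.1 S) (2 * h + 1) q.2) q.1).card : ℝ)) ≤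
      Real.exp (-(ℓ ^ 2)) := by
    rintro ⟨r, x⟩
    dsimp only
    have h2 := hI (Sym2 (Fin n)) (prs2 P (univ \ P))
      ((prs2 P (univ \ P)).filter (fun e => r ∈ e)) p (ℓ ^ 2) 1
      (fun T => (prs2 P (univ \ P)).filter (fun e => r ∈ e) ∩
        (wr T (2 * h + 1) x).image (fun u => s(r, u)))
      (filter_subset _ _) h0 h1 zero_le_one (fun T => inter_subset_left)
    refine (Pr_mono h0 h1 ?_).trans (h2.trans (by rw [one_mul]))
    rintro S hSE ⟨hdeg, hbig⟩
    have hdl : S \ (prs2 P (univ \ P)).filter (fun e => r ∈ e) = dl r S := by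
      ext e
      rw [mem_sdiff, mem_filter, dl, mem_filter]
      constructor
      · rintro ⟨ha, hb⟩
        exact ⟨ha, fun hr => hb ⟨hSE ha, hr⟩⟩
      · rintro ⟨ha, hb⟩
        exact ⟨ha, fun hr => hb hr.2⟩
    rw [hdl]
    refine ⟨?_, ?_⟩
    · have e1 : ((wr (dl r S) (2 * h + 1) x).card : ℝ) ≤ (8 * (p * n)) ^ (2 * h + 1) := by
        refine wr_card (by positivity) ?_ _ _
        intro v
        refine le_trans ?_ (hdeg v)
        exact_mod_cast card_le_card (nb_mono (filter_subset _ _) _ _)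
      have e2 : (((prs2 P (univ \ P)).filter (fun e => r ∈ e) ∩
          (wr (dl r S) (2 * h + 1) x).image (fun u => s(r, u))).card : ℝ) ≤
          (8 * (p * n)) ^ (2 * h + 1) := by
        refine le_trans ?_ e1
        exact_mod_cast (card_le_card inter_subset_right).trans card_image_le
      have e3 : Real.exp (1 + 1) ≤ 8 := by norm_num; exact exp_two_le
      have e4 : (p * n) ^ (2 * h + 2) ≤ ℓ * n := hN.hm2
      have e5 : (p * n) ^ (2 * h + 1) * p ≤ ℓ := by
        have e6 : ((p * n) ^ (2 * h + 1) * p) * n ≤ ℓ * n := by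
          calc ((p * n) ^ (2 * h + 1) * p) * n = (p * n) ^ (2 * h + 2) := by ring
            _ ≤ ℓ * n := e4
        exact le_of_mul_le_mul_right e6 hn0
      calc Real.exp (1 + 1) * (((prs2 P (univ \ P)).filter (fun e => r ∈ e) ∩
          (wr (dl r S) (2 * h + 1) x).image (fun u => s(r, u))).card : ℝ) * p
          ≤ 8 * (8 * (p * n)) ^ (2 * h + 1) * p := by gcongr
        _ = 8 ^ (2 * h + 2) * ((p * n) ^ (2 * h + 1) * p) := by
            rw [mul_pow]; ring
        _ ≤ ℓ * ℓ := by gcongr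
        _ = ℓ ^ 2 := by ring
    · have e1 : (nb S (wr (dl r S) (2 * h + 1) x) r).card ≤
          (S ∩ ((prs2 P (univ \ P)).filter (fun e => r ∈ e) ∩
            (wr (dl r S) (2 * h + 1) x).image (fun u => s(r, u)))).card := by
        refine card_le_card_of_injOn (fun u => s(r, u)) ?_ ?_
        · intro u hu
          rw [mem_coe, nb, mem_filter] at hu
          rw [mem_coe, mem_inter, mem_inter, mem_filter]
          exact ⟨hu.2, ⟨hSE hu.2, Sym2.mem_mk_left r u⟩, mem_image_of_mem _ hu.1⟩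
        · intro u _ v _ huv
          exact Sym2.congr_right.1 huv
      have e2 : ((nb S (wr (dl r S) (2 * h + 1) x) r).card : ℝ) ≤
          ((S ∩ ((prs2 P (univ \ P)).filter (fun e => r ∈ e) ∩
            (wr (dl r S) (2 * h + 1) x).image (fun u => s(r, u)))).card : ℝ) := by
        exact_mod_cast e1
      exact hbig.le.trans e2
  calc Pr (prs2 P (univ \ P)) p (fun S => (∀ v, ((nb S univ v).card : ℝ) ≤ 8 * (p * n)) ∧
      ¬ B5 h n ℓ P X S)
      ≤ Pr (prs2 P (univ \ P)) p (fun S => ∃ q ∈ (univ : Finset (Fin n × Fin n)),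
        (∀ v, ((nb S univ v).card : ℝ) ≤ 8 * (p * n)) ∧
        ℓ ^ 2 < ((nb S (wr (dl q.1 S) (2 * h + 1) q.2) q.1).card : ℝ)) := by
        apply Pr_mono h0 h1
        rintro S _ ⟨hdeg, hB⟩
        unfold B5 at hB
        push Not at hB
        obtain ⟨r, _, x, _, _, hb⟩ := hB
        exact ⟨(r, x), mem_univ _, hdeg, hb⟩
    _ ≤ ∑ q ∈ (univ : Finset (Fin n × Fin n)), Pr (prs2 P (univ \ P)) p
        (fun S => (∀ v, ((nb S univ v).card : ℝ) ≤ 8 * (p * n)) ∧
        ℓ ^ 2 < ((nb S (wr (dl q.1 S) (2 * h + 1) q.2) q.1).card : ℝ)) :=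
        Pr_exists_le h0 h1 _ _
    _ ≤ ∑ _q ∈ (univ : Finset (Fin n × Fin n)), Real.exp (-(ℓ ^ 2)) :=
        sum_le_sum fun q _ => key q
    _ = (n : ℝ) ^ 2 * Real.exp (-(ℓ ^ 2)) := by
        rw [sum_const, nsmul_eq_mul, card_univ, Fintype.card_prod, Fintype.card_fin]
        push_cast
        ring
    _ ≤ Real.exp (2 * ℓ) * Real.exp (-(ℓ ^ 2)) := by
        apply mul_le_mul_of_nonneg_right _ (Real.exp_pos _).le
        have e1 : (0 : ℝ) ≤ Real.log n := Real.log_nonneg hn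
        have e2 : Real.log n ≤ ℓ := by
          have := hN.hlog
          nlinarith
        calc (n : ℝ) ^ 2 = Real.exp (Real.log n) ^ 2 := by rw [Real.exp_log hn0]
          _ = Real.exp (2 * Real.log n) := by rw [← Real.exp_nat_mul]; norm_num
          _ ≤ Real.exp (2 * ℓ) := Real.exp_le_exp.mpr (by linarith)
    _ = Real.exp (-(ℓ ^ 2 - 2 * ℓ)) := by
        rw [← Real.exp_add]; congr 1; ring
    _ ≤ Real.exp (-(64 : ℝ)) := Real.exp_le_exp.mpr (by nlinarith)
    _ ≤ 1 / 64 := by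
        rw [Real.exp_neg, ← one_div]
        apply one_div_le_one_div_of_le (by norm_num)
        have := Real.add_one_le_exp (64 : ℝ)
        linarith

end Pool.Agent.H973.CT
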