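import Pool.Agent.H973.CT.Stm2
import Pool.Agent.H973.CT.Tail2

set_option autoImplicit false

namespace Pool.Agent.H973.CT

open Finset Classical Pool.Agent.W166.Gnp

variable {n : ℕ}

namespace GB6L

lemma card_biUnion_nb (S : Finset (Sym2 (Fin n))) {a : ℝ}
    (h : ∀ v, ((nb S univ v).card : ℝ) ≤ a) (A : Finset (Fin n)) :
    ((A.biUnion (nb S univ)).card : ℝ) ≤ A.card * a := by
  have h1 : ((A.biUnion (nb S univ)).card : ℝ) ≤ ∑ v ∈ A, ((nb S univ v).card : ℝ) := by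
    exact_mod_cast (Finset.card_biUnion_le (s := A) (t := nb S univ))
  refine h1.trans ?_
  rw [← nsmul_eq_mul]
  exact Finset.sum_le_card_nsmul _ _ _ (fun v _ => h v)

lemma card_hw {S H : Finset (Sym2 (Fin n))} {a ℓ : ℝ} (ha : 0 ≤ a) (hℓ : 0 ≤ ℓ)
    (hS : ∀ v, ((nb S univ v).card : ℝ) ≤ a) (hH : ∀ v, ((nb H univ v).card : ℝ) ≤ ℓ)
    (z : Fin n) : ∀ r j : ℕ, ((hw S H r j z).card : ℝ) * a ^ j ≤ 2 ^ r * a ^ r * ℓ ^ j := by
  intro r
  induction r with
  | zero =>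
    intro j
    cases j with
    | zero => simp [hw]
    | succ j =>
      simp only [hw, Finset.card_empty, Nat.cast_zero, zero_mul]
      positivity
  | succ r ih =>
    intro j
    cases j with
    | zero =>
      have h1 : ((hw S H (r + 1) 0 z).card : ℝ) ≤ (hw S H r 0 z).card * a := by
        simp only [hw]
        exact card_biUnion_nb S hS _
      have h2 := ih 0
      simp only [pow_zero, mul_one] at h2 ⊢
      have h3 := mul_le_mul_of_nonneg_right h2 ha
      have h4 : (2 : ℝ) ^ r * a ^ r * a ≤ 2 ^ (r + 1) * a ^ (r + 1) := by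
        have : 0 ≤ (2 : ℝ) ^ r * a ^ r * a := by positivity
        rw [pow_succ, pow_succ]
        nlinarith
      linarith
    | succ j =>
      have h1 : ((hw S H (r + 1) (j + 1) z).card : ℝ) ≤
          (hw S H r (j + 1) z).card * a + (hw S H r j z).card * ℓ := by
        simp only [hw]
        have h5 := Finset.card_union_le ((hw S H r (j + 1) z).biUnion (nb S univ))
          ((hw S H r j z).biUnion (nb H univ))
        have h6 : ((((hw S H r (j + 1) z).biUnion (nb S univ)) ∪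
          ((hw S H r j z).biUnion (nb H univ))).card : ℝ) ≤
          (((hw S H r (j + 1) z).biUnion (nb S univ)).card : ℝ) +
          (((hw S H r j z).biUnion (nb H univ)).card : ℝ) := by exact_mod_cast h5
        exact h6.trans (add_le_add (card_biUnion_nb S hS _) (card_biUnion_nb H hH _))
      have h2 := mul_le_mul_of_nonneg_right (ih (j + 1)) ha
      have h3 := mul_le_mul_of_nonneg_right (ih j) (mul_nonneg ha hℓ)
      have h4 := mul_le_mul_of_nonneg_right h1 (pow_nonneg ha (j + 1))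
      calc ((hw S H (r + 1) (j + 1) z).card : ℝ) * a ^ (j + 1)
          ≤ ((hw S H r (j + 1) z).card * a + (hw S H r j z).card * ℓ) * a ^ (j + 1) := h4
        _ = (hw S H r (j + 1) z).card * a ^ (j + 1) * a +
            (hw S H r j z).card * a ^ j * (a * ℓ) := by ring
        _ ≤ 2 ^ r * a ^ r * ℓ ^ (j + 1) * a + 2 ^ r * a ^ r * ℓ ^ j * (a * ℓ) := add_le_add h2 h3
        _ = 2 ^ (r + 1) * a ^ (r + 1) * ℓ ^ (j + 1) := by ring

lemma card_hw' {S H : Finset (Sym2 (Fin n))} {a ℓ : ℝ} (ha : 0 < a) (hℓ : 0 ≤ ℓ) (hla : ℓ ≤ a)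
    (hS : ∀ v, ((nb S univ v).card : ℝ) ≤ a) (hH : ∀ v, ((nb H univ v).card : ℝ) ≤ ℓ)
    (z : Fin n) (r j : ℕ) (hj : 2 ≤ j) :
    ((hw S H (r + 2) j z).card : ℝ) ≤ 2 ^ (r + 2) * a ^ r * ℓ ^ 2 := by
  have h := card_hw ha.le hℓ hS hH z (r + 2) j
  obtain ⟨i, rfl⟩ := Nat.exists_eq_add_of_le hj
  have h1 : ℓ ^ (2 + i) ≤ ℓ ^ 2 * a ^ i := by
    rw [pow_add]
    exact mul_le_mul_of_nonneg_left (pow_le_pow_left₀ hℓ hla i) (by positivity)
  have h2 : ((hw S H (r + 2) (2 + i) z).card : ℝ) * a ^ (2 + i) ≤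
      (2 ^ (r + 2) * a ^ r * ℓ ^ 2) * a ^ (2 + i) := by
    refine h.trans ?_
    calc 2 ^ (r + 2) * a ^ (r + 2) * ℓ ^ (2 + i)
        ≤ 2 ^ (r + 2) * a ^ (r + 2) * (ℓ ^ 2 * a ^ i) :=
          mul_le_mul_of_nonneg_left h1 (by positivity)
      _ = _ := by ring
  exact le_of_mul_le_mul_right h2 (by positivity)

lemma nb_dl_card (x v : Fin n) (S : Finset (Sym2 (Fin n))) :
    (nb (dl x S) univ v).card ≤ (nb S univ v).card := by
  refine Finset.card_le_card ?_
  intro u hu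
  simp only [nb, dl, Finset.mem_filter, Finset.mem_univ, true_and] at hu ⊢
  exact hu.1

end GB6L

open GB6L in
theorem gb6 (hI : S_IND) : S_GB6 := by
  intro h κ hh hκ
  refine ⟨Real.exp 2 * 2 ^ (2 * h + 3) * 8 ^ (2 * h + 1) + 256 * (h + 1), ?_, ?_⟩
  · have h1 : 0 ≤ Real.exp 2 * 2 ^ (2 * h + 3) * 8 ^ (2 * h + 1) := by positivity
    have h2 : (0 : ℝ) ≤ h := Nat.cast_nonneg _
    linarith
  intro n p ℓ hN P X H hB
  set Λ : ℝ := Real.exp 2 * 2 ^ (2 * h + 3) * 8 ^ (2 * h + 1) + 256 * (h + 1) with hΛdef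
  have hp := hN.hp
  have hp1 := hN.hp1
  have hh0 : (0 : ℝ) ≤ h := Nat.cast_nonneg _
  have hc0 : 0 ≤ Real.exp 2 * 2 ^ (2 * h + 3) * 8 ^ (2 * h + 1) := by positivity
  have hΛ1 : 256 * ((h : ℝ) + 1) ≤ Λ := by rw [hΛdef]; linarith
  have hΛ2 : Real.exp 2 * 2 ^ (2 * h + 3) * 8 ^ (2 * h + 1) ≤ Λ := by rw [hΛdef]; linarith
  have hℓΛ := hN.hΛ
  have hℓ1 : 1 ≤ ℓ := by linarith
  have hn : (1 : ℝ) ≤ n := by exact_mod_cast hN.hn
  -- `ℓ ≤ 8 p n`
  have hpn : ℓ ≤ p * n := by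
    refine le_trans ?_ hN.hm
    calc ℓ = ℓ ^ 1 := (pow_one ℓ).symm
      _ ≤ ℓ ^ (2 * h + 30) := pow_le_pow_right₀ hℓ1 (by omega)
  have hpn0 : 0 < p * n := by linarith
  set E : Finset (Sym2 (Fin n)) := prs2 P (univ \ P) with hE
  set xx : ℝ := ℓ ^ (2 * h + 6) with hxx
  have hxx1 : ℓ ≤ xx := by
    calc ℓ = ℓ ^ 1 := (pow_one ℓ).symm
      _ ≤ ℓ ^ (2 * h + 6) := pow_le_pow_right₀ hℓ1 (by omega)
  -- one event
  have key : ∀ (x z : Fin n) (j : ℕ), 2 ≤ j → Pr E p (fun S =>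
      (∀ v, ((nb S univ v).card : ℝ) ≤ 8 * (p * n)) ∧
      ¬ ((nb S (hw (dl x S) (dl x H) (2 * h + 3) j z) x).card : ℝ) ≤ xx) ≤ Real.exp (-ℓ) := by
    intro x z j hj
    set R' : Finset (Sym2 (Fin n)) := E.filter (fun e => x ∈ e) with hR'
    set Φ : Finset (Sym2 (Fin n)) → Finset (Sym2 (Fin n)) := fun T =>
      ((hw (dl x T) (dl x H) (2 * h + 3) j z).image (fun u => s(x, u))) ∩ R' with hΦ
    have hI' := hI (Sym2 (Fin n)) E R' p xx 1 Φ (Finset.filter_subset _ _) hp.le hp1 zero_le_one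
      (fun T => Finset.inter_subset_right)
    have h1 : Real.exp (-(1 * xx)) ≤ Real.exp (-ℓ) := by
      rw [one_mul]
      exact Real.exp_le_exp.mpr (by linarith)
    refine le_trans (Pr_mono hp.le hp1 ?_) (hI'.trans h1)
    intro S hS hA
    obtain ⟨hdeg, hbig⟩ := hA
    push Not at hbig
    have hdl : dl x (S \ R') = dl x S := by
      ext e
      simp only [dl, hR', Finset.mem_filter, Finset.mem_sdiff, not_and]
      constructor
      · rintro ⟨⟨h2, -⟩, h3⟩
        exact ⟨h2, h3⟩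
      · rintro ⟨h2, h3⟩
        exact ⟨⟨h2, fun _ => h3⟩, h3⟩
    have hΦS : Φ (S \ R') = ((hw (dl x S) (dl x H) (2 * h + 3) j z).image
        (fun u => s(x, u))) ∩ R' := by
      simp only [hΦ]
      rw [hdl]
    rw [hΦS]
    constructor
    · have h2 : (((hw (dl x S) (dl x H) (2 * h + 3) j z).image (fun u => s(x, u)) ∩ R').card : ℝ) ≤
          2 ^ (2 * h + 3) * (8 * (p * n)) ^ (2 * h + 1) * ℓ ^ 2 := by
        have h3 : (((hw (dl x S) (dl x H) (2 * h + 3) j z).image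
            (fun u => s(x, u)) ∩ R').card : ℝ) ≤
            ((hw (dl x S) (dl x H) (2 * h + 3) j z).card : ℝ) := by
          exact_mod_cast (Finset.card_le_card Finset.inter_subset_left).trans
            Finset.card_image_le
        refine h3.trans ?_
        exact card_hw' (a := 8 * (p * n)) (ℓ := ℓ) (by linarith) (by linarith) (by linarith)
          (fun v => le_trans (by exact_mod_cast nb_dl_card x v S) (hdeg v))
          (fun v => le_trans (by exact_mod_cast nb_dl_card x v H) (hB.hd v)) z (2 * h + 1) j hj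
      have h4 : Real.exp (1 + 1) *
          (((hw (dl x S) (dl x H) (2 * h + 3) j z).image (fun u => s(x, u)) ∩ R').card : ℝ) * p ≤
          Real.exp (1 + 1) * (2 ^ (2 * h + 3) * (8 * (p * n)) ^ (2 * h + 1) * ℓ ^ 2) * p := by
        refine mul_le_mul_of_nonneg_right ?_ hp.le
        exact mul_le_mul_of_nonneg_left h2 (Real.exp_pos _).le
      refine h4.trans ?_
      -- `(p n) ^ (2 h + 1) p ≤ ℓ`
      have h5 : (p * n) ^ (2 * h + 1) * p ≤ ℓ := by
        have h6 : (p * n) ^ (2 * h + 1) * p * n ≤ ℓ * n := by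
          calc (p * n) ^ (2 * h + 1) * p * n = (p * n) ^ (2 * h + 2) := by ring
            _ ≤ ℓ * n := hN.hm2
        exact le_of_mul_le_mul_right h6 (by linarith)
      have e2 : Real.exp (1 + 1) = Real.exp 2 := by norm_num
      have hle : (0 : ℝ) ≤ Real.exp 2 * 2 ^ (2 * h + 3) * 8 ^ (2 * h + 1) * ℓ ^ 2 := by positivity
      calc Real.exp (1 + 1) * (2 ^ (2 * h + 3) * (8 * (p * n)) ^ (2 * h + 1) * ℓ ^ 2) * p
          = (Real.exp 2 * 2 ^ (2 * h + 3) * 8 ^ (2 * h + 1) * ℓ ^ 2) *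
            ((p * n) ^ (2 * h + 1) * p) := by
            rw [e2, mul_pow]; ring
        _ ≤ (Real.exp 2 * 2 ^ (2 * h + 3) * 8 ^ (2 * h + 1) * ℓ ^ 2) * ℓ :=
            mul_le_mul_of_nonneg_left h5 hle
        _ = (Real.exp 2 * 2 ^ (2 * h + 3) * 8 ^ (2 * h + 1)) * ℓ ^ 3 := by ring
        _ ≤ ℓ * ℓ ^ 3 := mul_le_mul_of_nonneg_right (hΛ2.trans hℓΛ) (by positivity)
        _ = ℓ ^ 4 := by ring
        _ ≤ ℓ ^ (2 * h + 6) := pow_le_pow_right₀ hℓ1 (by omega)
    · refine hbig.le.trans ?_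
      have h7 : (nb S (hw (dl x S) (dl x H) (2 * h + 3) j z) x).card ≤
          (S ∩ ((hw (dl x S) (dl x H) (2 * h + 3) j z).image (fun u => s(x, u)) ∩ R')).card := by
        refine Finset.card_le_card_of_injOn (fun u => s(x, u)) ?_ ?_
        · intro u hu
          simp only [nb, Finset.coe_filter, Set.mem_ofPred_eq] at hu
          simp only [Finset.coe_inter, Set.mem_inter_iff, Finset.mem_coe, Finset.mem_image, hR',
            Finset.mem_filter]
          exact ⟨hu.2, ⟨u, hu.1, rfl⟩, hS hu.2, Sym2.mem_mk_left x u⟩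
        · intro u _ v _ huv
          exact Sym2.congr_right.mp huv
      exact_mod_cast h7
  -- union bound
  have hB6 : ∀ S : Finset (Sym2 (Fin n)), ((∀ v, ((nb S univ v).card : ℝ) ≤ 8 * (p * n)) ∧
      ¬ B6 h n ℓ X H S) → ∃ i ∈ ((univ : Finset (Fin n)) ×ˢ (univ : Finset (Fin n))) ×ˢ
        Finset.Icc 2 (2 * h + 3), (∀ v, ((nb S univ v).card : ℝ) ≤ 8 * (p * n)) ∧
      ¬ ((nb S (hw (dl i.1.1 S) (dl i.1.1 H) (2 * h + 3) i.2 i.1.2) i.1.1).card : ℝ) ≤ xx := by
    rintro S ⟨hdeg, hb⟩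
    unfold B6 at hb
    push Not at hb
    obtain ⟨x, -, z, -, -, j, hj2, hj3, hbig⟩ := hb
    refine ⟨((x, z), j), ?_, hdeg, not_le.mpr hbig⟩
    simp only [Finset.mem_product, Finset.mem_univ, true_and, Finset.mem_Icc]
    exact ⟨hj2, hj3⟩
  refine (Pr_mono hp.le hp1 (fun S _ => hB6 S)).trans ?_
  refine (Pr_exists_le hp.le hp1 _ _).trans ?_
  have hsum : ∑ i ∈ ((univ : Finset (Fin n)) ×ˢ (univ : Finset (Fin n))) ×ˢ
      Finset.Icc 2 (2 * h + 3), Pr E p (fun S => (∀ v, ((nb S univ v).card : ℝ) ≤ 8 * (p * n)) ∧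
      ¬ ((nb S (hw (dl i.1.1 S) (dl i.1.1 H) (2 * h + 3) i.2 i.1.2) i.1.1).card : ℝ) ≤ xx) ≤
      (((univ : Finset (Fin n)) ×ˢ (univ : Finset (Fin n))) ×ˢ
      Finset.Icc 2 (2 * h + 3)).card • Real.exp (-ℓ) := by
    refine Finset.sum_le_card_nsmul _ _ _ ?_
    intro i hi
    rw [Finset.mem_product, Finset.mem_Icc] at hi
    exact key i.1.1 i.1.2 i.2 hi.2.1
  refine hsum.trans ?_
  rw [Finset.card_product, Finset.card_product, Finset.card_univ, Fintype.card_fin, Nat.card_Icc,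
    nsmul_eq_mul]
  have hlog : 4 * Real.log n ≤ ℓ := by
    refine le_trans ?_ hN.hlog
    refine mul_le_mul_of_nonneg_right (by linarith) (Real.log_nonneg hn)
  have hn2 : (n : ℝ) * n ≤ Real.exp (ℓ / 2) := by
    have : (n : ℝ) * n = Real.exp (Real.log n + Real.log n) := by
      rw [Real.exp_add, Real.exp_log (by linarith)]
    rw [this]
    exact Real.exp_le_exp.mpr (by linarith)
  have hexp : Real.exp (-(ℓ / 2)) ≤ 1 / (64 * (2 * h + 2)) := by
    rw [Real.exp_neg, ← one_div]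
    refine one_div_le_one_div_of_le (by positivity) ?_
    have := Real.add_one_le_exp (ℓ / 2)
    linarith
  have hcast : ((n * n * (2 * h + 3 + 1 - 2) : ℕ) : ℝ) = (n : ℝ) * n * (2 * h + 2) := by
    have : 2 * h + 3 + 1 - 2 = 2 * h + 2 := by omega
    rw [this]; push_cast; ring
  rw [hcast]
  calc (n : ℝ) * n * (2 * h + 2) * Real.exp (-ℓ)
      ≤ Real.exp (ℓ / 2) * (2 * h + 2) * Real.exp (-ℓ) := by
        refine mul_le_mul_of_nonneg_right ?_ (Real.exp_pos _).le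
        exact mul_le_mul_of_nonneg_right hn2 (by positivity)
    _ = (2 * h + 2) * Real.exp (-(ℓ / 2)) := by
        have : Real.exp (-(ℓ / 2)) = Real.exp (ℓ / 2) * Real.exp (-ℓ) := by
          rw [← Real.exp_add]; congr 1; ring
        rw [this]; ring
    _ ≤ (2 * h + 2) * (1 / (64 * (2 * h + 2))) :=
        mul_le_mul_of_nonneg_left hexp (by positivity)
    _ = 1 / 64 := by
        field_simp

end Pool.Agent.H973.CT
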