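import Pool.Agent.H973.CT.Stm2
import Pool.Agent.H973.CT.Tail2
import Pool.Graph.R_seed8.W166.Gnp.ProbA

set_option autoImplicit false

/-! Leaf GB7 (helper980). -/

namespace Pool.Agent.H973.CT

open Finset Classical Pool.Agent.W166.Gnp

namespace GB7L

theorem Pr_image {α β : Type} [DecidableEq α] [DecidableEq β] (g : α → β)
    (hg : Function.Injective g) (R : Finset α) (p : ℝ) (A : Finset β → Prop) :
    Pr (R.image g) p A = Pr R p (fun N => A (N.image g)) := by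
  unfold Pr Ex
  symm
  refine sum_nbij (fun N => N.image g) ?_ ?_ ?_ ?_
  · intro N hN
    rw [mem_powerset] at hN ⊢
    exact image_subset_image hN
  · intro N _ N' _ h
    exact (image_injective hg) h
  · intro M hM
    rw [mem_coe, mem_powerset] at hM
    obtain ⟨N, hN, rfl⟩ := subset_image_iff.mp hM
    exact ⟨N, by simpa using hN, rfl⟩
  · intro N hN
    beta_reduce
    rw [card_image_of_injective _ hg, card_image_of_injective _ hg]

theorem Pr_fub0 {α : Type} [DecidableEq α] {E1 E2 : Finset α} (hd : Disjoint E1 E2) {p : ℝ}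
    (h0 : 0 ≤ p) (h1 : p ≤ 1) (A : Finset α → Prop) (η : ℝ) (hη : 0 ≤ η)
    (hA2 : ∀ S1, S1 ⊆ E1 → Pr E2 p (fun S2 => A (S1 ∪ S2)) ≤ η) :
    Pr (E1 ∪ E2) p A ≤ η := by
  have h := Pr_fub hd h0 h1 A (fun _ => True) 0 η hη (by
    have : Pr E1 p (fun _ => ¬ True) = 0 := by
      unfold Pr
      simp [Ex_const]
    exact this.le) (fun S1 hS1 _ => hA2 S1 hS1)
  linarith

theorem Pr_false {α : Type} [DecidableEq α] (E : Finset α) (p : ℝ) (A : Finset α → Prop)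
    (h : ∀ S, S ⊆ E → ¬ A S) : Pr E p A = 0 := by
  unfold Pr
  refine Eq.trans (Ex_congr (g := fun _ => (0 : ℝ)) ?_) (Ex_const E p 0)
  intro S hS
  rw [if_neg (h S hS)]

variable {n : ℕ}

theorem mem_nb {S : Finset (Sym2 (Fin n))} {A : Finset (Fin n)} {v u : Fin n} :
    u ∈ nb S A v ↔ u ∈ A ∧ s(v, u) ∈ S := by
  simp [nb]

theorem nb_mono {S T : Finset (Sym2 (Fin n))} (h : S ⊆ T) {A B : Finset (Fin n)} (hAB : A ⊆ B)
    (v : Fin n) : nb S A v ⊆ nb T B v := by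
  intro u hu
  rw [mem_nb] at hu ⊢
  exact ⟨hAB hu.1, h hu.2⟩

theorem mem_wr_succ {S : Finset (Sym2 (Fin n))} {m : ℕ} {a b : Fin n} :
    b ∈ wr S (m + 1) a ↔ ∃ c ∈ wr S m a, s(c, b) ∈ S := by
  simp [wr, mem_nb]

theorem wr_succ' {S : Finset (Sym2 (Fin n))} : ∀ (m : ℕ) (a b : Fin n),
    b ∈ wr S (m + 1) a ↔ ∃ c, s(a, c) ∈ S ∧ b ∈ wr S m c := by
  intro m
  induction m with
  | zero =>
    intro a b
    rw [mem_wr_succ]
    simp [wr]
  | succ m ih =>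
    intro a b
    rw [mem_wr_succ]
    constructor
    · rintro ⟨c, hc, h⟩
      obtain ⟨d, hd, hdc⟩ := (ih a c).mp hc
      exact ⟨d, hd, mem_wr_succ.mpr ⟨c, hdc, h⟩⟩
    · rintro ⟨d, hd, h⟩
      obtain ⟨c, hc, hcb⟩ := mem_wr_succ.mp h
      exact ⟨c, (ih a c).mpr ⟨d, hd, hc⟩, hcb⟩

theorem wr_symm {S : Finset (Sym2 (Fin n))} : ∀ (m : ℕ) (a b : Fin n),
    b ∈ wr S m a → a ∈ wr S m b := by
  intro m
  induction m with
  | zero =>
    intro a b h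
    simp only [wr, mem_singleton] at h ⊢
    exact h.symm
  | succ m ih =>
    intro a b h
    obtain ⟨c, hc, h2⟩ := mem_wr_succ.mp h
    rw [wr_succ']
    exact ⟨c, by rw [Sym2.eq_swap]; exact h2, ih a c hc⟩

theorem wr_mono {S T : Finset (Sym2 (Fin n))} (h : S ⊆ T) : ∀ (m : ℕ) (a b : Fin n),
    b ∈ wr S m a → b ∈ wr T m a := by
  intro m
  induction m with
  | zero =>
    intro a b h
    simpa [wr] using h
  | succ m ih =>
    intro a b hb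
    rw [mem_wr_succ] at hb ⊢
    obtain ⟨c, hc, h2⟩ := hb
    exact ⟨c, ih a c hc, h h2⟩

theorem card_biUnion_real {α β : Type} [DecidableEq β] (s : Finset α) (t : α → Finset β) (a b : ℝ)
    (hb : 0 ≤ b) (hs : (s.card : ℝ) ≤ a) (ht : ∀ x ∈ s, ((t x).card : ℝ) ≤ b) :
    ((s.biUnion t).card : ℝ) ≤ a * b := by
  calc ((s.biUnion t).card : ℝ) ≤ ∑ x ∈ s, ((t x).card : ℝ) := by exact_mod_cast card_biUnion_le
    _ ≤ ∑ _x ∈ s, b := sum_le_sum ht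
    _ = s.card * b := by rw [sum_const, nsmul_eq_mul]
    _ ≤ a * b := mul_le_mul_of_nonneg_right hs hb

theorem dl_sub (v : Fin n) (S : Finset (Sym2 (Fin n))) : dl v S ⊆ S := filter_subset _ _

theorem wr_card {S : Finset (Sym2 (Fin n))} {D : ℝ} (hD : 0 ≤ D)
    (hd : ∀ v, ((nb S univ v).card : ℝ) ≤ D) : ∀ (m : ℕ) (a : Fin n),
    ((wr S m a).card : ℝ) ≤ D ^ m := by
  intro m
  induction m with
  | zero => intro a; simp [wr]
  | succ m ih =>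
    intro a
    rw [pow_succ]
    exact card_biUnion_real _ _ _ _ hD (ih a) (fun x _ => hd x)

theorem card_mono_real {α : Type} {s t : Finset α} (h : s ⊆ t) : (s.card : ℝ) ≤ t.card := by
  exact_mod_cast card_le_card h

/-- the edges of `prs2 P Pᶜ` -/
theorem mem_prs2_compl {P : Finset (Fin n)} {a b : Fin n} (ha : a ∈ P) :
    s(a, b) ∈ prs2 P (univ \ P) ↔ b ∉ P := by
  unfold prs2
  simp only [mem_image, mem_filter, mem_product, mem_sdiff, mem_univ, true_and, Prod.exists]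
  constructor
  · rintro ⟨c, d, ⟨⟨hc, hd⟩, _⟩, h⟩
    rw [Sym2.eq_iff] at h
    rcases h with ⟨rfl, rfl⟩ | ⟨rfl, rfl⟩
    · exact hd
    · exact absurd ha hd
  · intro hb
    exact ⟨a, b, ⟨⟨ha, hb⟩, fun h => hb (h ▸ ha)⟩, rfl⟩

theorem prs2_not_both {P : Finset (Fin n)} {a b : Fin n} (ha : a ∉ P) (hb : b ∉ P) :
    s(a, b) ∉ prs2 P (univ \ P) := by
  unfold prs2
  simp only [mem_image, mem_filter, mem_product, mem_sdiff, mem_univ, true_and, Prod.exists]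
  rintro ⟨c, d, ⟨⟨hc, hd⟩, _⟩, h⟩
  rw [Sym2.eq_iff] at h
  rcases h with ⟨rfl, rfl⟩ | ⟨rfl, rfl⟩
  · exact ha hc
  · exact hb hc

/-- the edges not at `p'` and those at `p'` -/
theorem split (P : Finset (Fin n)) (p' : Fin n) (hp' : p' ∈ P) :
    prs2 P (univ \ P) = dl p' (prs2 P (univ \ P)) ∪ (univ \ P).image (fun r => s(p', r)) := by
  ext e
  induction e using Sym2.ind with
  | _ a b =>
    simp only [mem_union, dl, mem_filter, mem_image, mem_sdiff, mem_univ, true_and, Sym2.mem_iff]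
    constructor
    · intro h
      by_cases h2 : p' = a ∨ p' = b
      · right
        rcases h2 with rfl | rfl
        · exact ⟨b, (mem_prs2_compl hp').mp h, rfl⟩
        · rw [Sym2.eq_swap] at h
          exact ⟨a, (mem_prs2_compl hp').mp h, Sym2.eq_swap⟩
      · exact Or.inl ⟨h, h2⟩
    · rintro (h | ⟨r, hr, h⟩)
      · exact h.1
      · rw [← h]
        exact (mem_prs2_compl hp').mpr hr

theorem split_disj (P : Finset (Fin n)) (p' : Fin n) :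
    Disjoint (dl p' (prs2 P (univ \ P))) ((univ \ P).image (fun r => s(p', r))) := by
  rw [disjoint_left]
  intro e h1 h2
  rw [mem_image] at h2
  obtain ⟨r, _, rfl⟩ := h2
  simp [dl] at h1

theorem Frel_mono {h : ℕ} {P X : Finset (Fin n)} {S T H : Finset (Sym2 (Fin n))} (hST : S ⊆ T)
    {p' r r'' : Fin n} (hF : Frel h P X S H p' r r'') : Frel h P X T H p' r r'' := by
  obtain ⟨p₁, hp₁, x₁, hx₁, x₂, hx₂, p₂, hp₂, r₂, a1, a2, a3, a4, a5, a6, a7, a8, a9, a10⟩ := hF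
  exact ⟨p₁, hp₁, x₁, hx₁, x₂, hx₂, p₂, hp₂, r₂, a1, a2, a3, a4, hST a5, hST a6, a7, hST a8,
    hST a9, wr_mono (filter_subset_filter _ hST) _ _ _ a10⟩

theorem out_deg {h : ℕ} {κ : ℕ} {P X : Finset (Fin n)} {S H : Finset (Sym2 (Fin n))}
    {p ℓ D : ℝ} (hℓ : 0 < ℓ) (hD : 0 ≤ D)
    (hd : ∀ v, ((nb S univ v).card : ℝ) ≤ D) (hH : ∀ v, ((nb H univ v).card : ℝ) ≤ ℓ)
    (hfew : ∀ v ∈ P, (nb S X v).card ≤ κ) (h4 : B4 n p ℓ P X S) (p' r : Fin n) (hr : r ∉ P) :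
    (((univ \ P).filter (fun r'' => Frel h P X S H p' r r'')).card : ℝ) ≤
      p * n / ℓ ^ 7 * (κ * (ℓ * (D * (D * D ^ (2 * h - 2))))) := by
  have hsub : (univ \ P).filter (fun r'' => Frel h P X S H p' r r'') ⊆
      (nb S (P.filter (fun q => ∃ x ∈ X, x ≠ r ∧ s(q, x) ∈ S)) r).biUnion (fun p₁ =>
        (nb S X p₁).biUnion (fun x₁ => (nb H univ x₁).biUnion (fun x₂ =>
          (nb S univ x₂).biUnion (fun p₂ => (nb S univ p₂).biUnion (fun r₂ =>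
            wr (dl p' S) (2 * h - 2) r₂))))) := by
    intro r'' hr''
    rw [mem_filter] at hr''
    obtain ⟨p₁, hp₁, x₁, hx₁, x₂, hx₂, p₂, hp₂, r₂, a1, a2, a3, a4, a5, a6, a7, a8, a9, a10⟩ :=
      hr''.2
    simp only [mem_biUnion, mem_nb, mem_filter, mem_univ, true_and]
    exact ⟨p₁, ⟨⟨hp₁, x₁, hx₁, a2, a6⟩, a5⟩, x₁, ⟨hx₁, a6⟩, x₂, a7, p₂, a8, r₂, a9, a10⟩
  refine le_trans (card_mono_real hsub) ?_
  refine card_biUnion_real _ _ _ _ (by positivity) (h4 r hr) (fun p₁ hp₁ => ?_)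
  have hp₁P : p₁ ∈ P := (mem_filter.mp (mem_nb.mp hp₁).1).1
  refine card_biUnion_real _ _ _ _ (by positivity) (by exact_mod_cast hfew p₁ hp₁P)
    (fun x₁ _ => ?_)
  refine card_biUnion_real _ _ _ _ (by positivity) (hH x₁) (fun x₂ _ => ?_)
  refine card_biUnion_real _ _ _ _ (by positivity) (hd x₂) (fun p₂ _ => ?_)
  refine card_biUnion_real _ _ _ _ (by positivity) (hd p₂) (fun r₂ _ => ?_)
  exact wr_card hD (fun v => le_trans (card_mono_real (nb_mono (dl_sub p' S) subset_rfl v)) (hd v))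
    _ _

theorem in_deg {h : ℕ} {κ : ℕ} {P X : Finset (Fin n)} {S H : Finset (Sym2 (Fin n))}
    {p ℓ D : ℝ} (hℓ : 0 < ℓ) (hD : 0 ≤ D) (hpn : 0 ≤ p * n) (hS : S ⊆ prs2 P (univ \ P))
    (hd : ∀ v, ((nb S univ v).card : ℝ) ≤ D) (hH : ∀ v, ((nb H univ v).card : ℝ) ≤ ℓ)
    (hfew : ∀ v ∈ P, (nb S X v).card ≤ κ) (h4 : B4 n p ℓ P X S) (p' r'' : Fin n) :
    (((univ \ P).filter (fun r => Frel h P X S H p' r r'')).card : ℝ) ≤
      D ^ (2 * h - 2) * (p * n / ℓ ^ 7 * (κ * (ℓ * (D * D)))) := by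
  have hsub : (univ \ P).filter (fun r => Frel h P X S H p' r r'') ⊆
      ((wr (dl p' S) (2 * h - 2) r'').filter (fun r₂ => r₂ ∉ P)).biUnion (fun r₂ =>
        (nb S (P.filter (fun q => ∃ x ∈ X, x ≠ r₂ ∧ s(q, x) ∈ S)) r₂).biUnion (fun p₂ =>
          (nb S X p₂).biUnion (fun x₂ => (nb H univ x₂).biUnion (fun x₁ =>
            (nb S univ x₁).biUnion (fun p₁ => nb S univ p₁))))) := by
    intro r hr
    rw [mem_filter] at hr
    obtain ⟨p₁, hp₁, x₁, hx₁, x₂, hx₂, p₂, hp₂, r₂, a1, a2, a3, a4, a5, a6, a7, a8, a9, a10⟩ :=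
      hr.2
    have hr₂ : r₂ ∉ P := (mem_prs2_compl hp₂).mp (hS a9)
    simp only [mem_biUnion, mem_nb, mem_filter, mem_univ, true_and]
    refine ⟨r₂, ⟨wr_symm _ _ _ a10, hr₂⟩, p₂, ⟨⟨hp₂, x₂, hx₂, fun h => a4 h.symm, ?_⟩, ?_⟩, x₂,
      ⟨hx₂, ?_⟩, x₁, ?_, p₁, ?_, ?_⟩
    · rw [Sym2.eq_swap]; exact a8
    · rw [Sym2.eq_swap]; exact a9
    · rw [Sym2.eq_swap]; exact a8
    · rw [Sym2.eq_swap]; exact a7
    · rw [Sym2.eq_swap]; exact a6
    · rw [Sym2.eq_swap]; exact a5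
  refine le_trans (card_mono_real hsub) ?_
  refine card_biUnion_real _ _ _ _ (by positivity) ?_ (fun r₂ hr₂ => ?_)
  · refine le_trans (card_mono_real (filter_subset _ _)) ?_
    exact wr_card hD (fun v => le_trans
      (card_mono_real (nb_mono (dl_sub p' S) subset_rfl v)) (hd v)) _ _
  have hr₂P : r₂ ∉ P := (mem_filter.mp hr₂).2
  refine card_biUnion_real _ _ _ _ (by positivity) (h4 r₂ hr₂P) (fun p₂ hp₂ => ?_)
  have hp₂P : p₂ ∈ P := (mem_filter.mp (mem_nb.mp hp₂).1).1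
  refine card_biUnion_real _ _ _ _ (by positivity) (by exact_mod_cast hfew p₂ hp₂P)
    (fun x₂ _ => ?_)
  refine card_biUnion_real _ _ _ _ (by positivity) (hH x₂) (fun x₁ _ => ?_)
  refine card_biUnion_real _ _ _ _ (by positivity) (hd x₁) (fun p₁ _ => ?_)
  exact hd p₁

/-- `Frel` does not see the edges at `p'` -/
theorem Frel_local {h : ℕ} {P X : Finset (Fin n)} {S1 H : Finset (Sym2 (Fin n))} {N : Finset (Fin n)}
    (hX : X ⊆ univ \ P) {p' : Fin n} (hp' : p' ∈ P) (hN : N ⊆ univ \ P)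
    (hS1 : S1 ⊆ dl p' (prs2 P (univ \ P))) {r r'' : Fin n} (hr : r ∉ P)
    (hF : Frel h P X (S1 ∪ N.image (fun r => s(p', r))) H p' r r'') : Frel h P X S1 H p' r r'' := by
  obtain ⟨p₁, hp₁, x₁, hx₁, x₂, hx₂, p₂, hp₂, r₂, a1, a2, a3, a4, a5, a6, a7, a8, a9, a10⟩ := hF
  have key : ∀ a b : Fin n, a ≠ p' → b ≠ p' → s(a, b) ∈ S1 ∪ N.image (fun r => s(p', r)) →
      s(a, b) ∈ S1 := by
    intro a b ha hb hab
    rw [mem_union] at hab
    rcases hab with hab | hab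
    · exact hab
    · rw [mem_image] at hab
      obtain ⟨c, _, hc⟩ := hab
      rw [Sym2.eq_iff] at hc
      rcases hc with ⟨h1, _⟩ | ⟨h1, _⟩
      · exact absurd h1.symm ha
      · exact absurd h1.symm hb
  have hsub : S1 ∪ N.image (fun r => s(p', r)) ⊆ prs2 P (univ \ P) := by
    intro e he
    rw [split P p' hp', mem_union]
    rw [mem_union] at he
    rcases he with he | he
    · exact Or.inl (hS1 he)
    · exact Or.inr (image_subset_image hN he)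
  have hr₂ : r₂ ∉ P := (mem_prs2_compl hp₂).mp (hsub a9)
  have ne : ∀ a : Fin n, a ∉ P → a ≠ p' := fun a ha h => ha (h ▸ hp')
  have hXP : ∀ x ∈ X, x ∉ P := fun x hx => (mem_sdiff.mp (hX hx)).2
  have hdl : dl p' (S1 ∪ N.image (fun r => s(p', r))) ⊆ dl p' S1 := by
    intro e he
    simp only [dl, mem_filter, mem_union, mem_image] at he ⊢
    refine ⟨?_, he.2⟩
    rcases he.1 with h1 | ⟨c, _, hc⟩
    · exact h1
    · exact absurd (by rw [← hc]; simp) he.2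
  exact ⟨p₁, hp₁, x₁, hx₁, x₂, hx₂, p₂, hp₂, r₂, a1, a2, a3, a4,
    key _ _ (ne r hr) a1 a5, key _ _ a1 (ne _ (hXP x₁ hx₁)) a6, a7,
    key _ _ (ne _ (hXP x₂ hx₂)) a3 a8, key _ _ a3 (ne r₂ hr₂) a9, wr_mono hdl _ _ _ a10⟩

theorem nb_image {P : Finset (Fin n)} {S1 : Finset (Sym2 (Fin n))} {N : Finset (Fin n)}
    {p' : Fin n} (hS1 : S1 ⊆ dl p' (prs2 P (univ \ P))) :
    nb (S1 ∪ N.image (fun r => s(p', r))) univ p' = N := by
  ext u
  rw [mem_nb, mem_union, mem_image]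
  constructor
  · rintro ⟨_, h1 | ⟨c, hc, h⟩⟩
    · have := hS1 h1
      simp [dl] at this
    · rw [Sym2.congr_right] at h
      exact h ▸ hc
  · intro hu
    exact ⟨mem_univ _, Or.inr ⟨u, hu, rfl⟩⟩

theorem Lam_facts {h κ : ℕ} (hκ : 1 ≤ κ) : (128 : ℝ) ≤ 128 * (κ : ℝ) ^ 2 * 8 ^ (2 * h + 2) ∧
    8 * (κ : ℝ) ≤ 128 * (κ : ℝ) ^ 2 * 8 ^ (2 * h + 2) ∧
    (κ : ℝ) ^ 2 * 8 ^ (2 * h + 2) ≤ 128 * (κ : ℝ) ^ 2 * 8 ^ (2 * h + 2) := by
  have h1 : (1 : ℝ) ≤ κ := by exact_mod_cast hκ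
  have h2 : (1 : ℝ) ≤ 8 ^ (2 * h + 2) := one_le_pow₀ (by norm_num)
  have h3 : (1 : ℝ) ≤ (κ : ℝ) ^ 2 := one_le_pow₀ h1
  have h4 : (κ : ℝ) ≤ (κ : ℝ) ^ 2 := by nlinarith
  have h5 : (κ : ℝ) ^ 2 ≤ (κ : ℝ) ^ 2 * 8 ^ (2 * h + 2) :=
    le_mul_of_one_le_right (by positivity) h2
  refine ⟨by nlinarith, by nlinarith, by nlinarith⟩

/-- numerical consequences -/
structure Facts (h κ n : ℕ) (p ℓ : ℝ) : Prop where
  l128 : 128 ≤ ℓ
  lk : 8 * (κ : ℝ) ≤ ℓ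
  lkk : (κ : ℝ) ^ 2 * 8 ^ (2 * h + 2) ≤ ℓ
  mp : (p * n) ^ (2 * h + 1) * p ≤ ℓ
  lm : ℓ ^ 32 ≤ p * n
  n128 : (128 : ℝ) ≤ n
  lg : 2 * Real.log n ≤ ℓ

theorem facts {h κ n : ℕ} (hh : 1 ≤ h) (hκ : 1 ≤ κ) {p ℓ : ℝ}
    (hN : NumB h κ n p ℓ (128 * (κ : ℝ) ^ 2 * 8 ^ (2 * h + 2))) : Facts h κ n p ℓ := by
  obtain ⟨f1, f2, f3⟩ := Lam_facts (h := h) hκ
  have hΛ := hN.hΛ
  have hn0 : (0 : ℝ) < n := by exact_mod_cast hN.hn
  have hn1 : (1 : ℝ) ≤ n := by exact_mod_cast hN.hn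
  have l128 : 128 ≤ ℓ := le_trans f1 hΛ
  have lm : ℓ ^ 32 ≤ p * n := le_trans (pow_le_pow_right₀ (by linarith) (by omega)) hN.hm
  have hlog : 0 ≤ Real.log n := Real.log_nonneg hn1
  refine ⟨l128, le_trans f2 hΛ, le_trans f3 hΛ, ?_, lm, ?_, ?_⟩
  · have h2 := hN.hm2
    have e : (p * n) ^ (2 * h + 2) = ((p * n) ^ (2 * h + 1) * p) * n := by ring
    rw [e] at h2
    exact le_of_mul_le_mul_right h2 hn0
  · have h3 : p * n ≤ n := mul_le_of_le_one_left hn0.le hN.hp1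
    have h4 : ℓ ≤ ℓ ^ 32 := le_self_pow₀ (by linarith) (by norm_num)
    linarith
  · refine le_trans ?_ hN.hlog
    apply mul_le_mul_of_nonneg_right _ hlog
    linarith

theorem exp_one_le : Real.exp 1 ≤ 8 := by
  have := Real.exp_one_lt_d9
  linarith

theorem cond1 {h κ n : ℕ} {p ℓ : ℝ} (hp : 0 < p) (F : Facts h κ n p ℓ) (hκ : 1 ≤ κ) :
    Real.exp 1 * (κ * 8 ^ (2 * h) * (p * n) ^ (2 * h + 1) / ℓ ^ 6) * p * ℓ ≤ 1 := by
  have hl : 0 < ℓ := by have := F.l128; linarith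
  have h1 : (1 : ℝ) ≤ κ := by exact_mod_cast hκ
  have e : Real.exp 1 * (κ * 8 ^ (2 * h) * (p * n) ^ (2 * h + 1) / ℓ ^ 6) * p * ℓ =
      Real.exp 1 * (κ * 8 ^ (2 * h)) * ((p * n) ^ (2 * h + 1) * p) / ℓ ^ 5 := by
    field_simp
  rw [e, div_le_one (by positivity)]
  have h2 : Real.exp 1 * (κ * 8 ^ (2 * h)) ≤ ℓ := by
    calc Real.exp 1 * (κ * 8 ^ (2 * h)) ≤ 8 * (κ * 8 ^ (2 * h)) :=
          mul_le_mul_of_nonneg_right exp_one_le (by positivity)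
      _ = κ * 8 ^ (2 * h + 1) := by ring
      _ ≤ (κ : ℝ) ^ 2 * 8 ^ (2 * h + 2) := by
          apply mul_le_mul _ _ (by positivity) (by positivity)
          · nlinarith
          · exact pow_le_pow_right₀ (by norm_num) (by omega)
      _ ≤ ℓ := F.lkk
  calc Real.exp 1 * (κ * 8 ^ (2 * h)) * ((p * n) ^ (2 * h + 1) * p) ≤ ℓ * ℓ :=
        mul_le_mul h2 F.mp (by positivity) hl.le
    _ = ℓ ^ 2 := by ring
    _ ≤ ℓ ^ 5 := pow_le_pow_right₀ (by have := F.l128; linarith) (by norm_num)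

theorem cond2 {h κ n : ℕ} {p ℓ c : ℝ} (hp : 0 < p) (F : Facts h κ n p ℓ) (hκ : 1 ≤ κ)
    (hc : c ≤ n) :
    Real.exp 2 * (c * (κ * 8 ^ (2 * h) * (p * n) ^ (2 * h + 1) / ℓ ^ 6)) * p ^ 2 ≤
      p * n / (8 * κ * ℓ ^ 2) := by
  have hl : 0 < ℓ := by have := F.l128; linarith
  have h1 : (1 : ℝ) ≤ κ := by exact_mod_cast hκ
  have hm : 0 ≤ p * n := by positivity
  have step1 : Real.exp 2 * (c * (κ * 8 ^ (2 * h) * (p * n) ^ (2 * h + 1) / ℓ ^ 6)) * p ^ 2 ≤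
      Real.exp 2 * (n * (κ * 8 ^ (2 * h) * (p * n) ^ (2 * h + 1) / ℓ ^ 6)) * p ^ 2 := by
    gcongr
  refine le_trans step1 ?_
  have e : Real.exp 2 * (n * (κ * 8 ^ (2 * h) * (p * n) ^ (2 * h + 1) / ℓ ^ 6)) * p ^ 2 =
      (Real.exp 2 * (κ * 8 ^ (2 * h))) * ((p * n) ^ (2 * h + 1) * p) * (p * n) / ℓ ^ 6 := by
    ring
  rw [e, div_le_div_iff₀ (by positivity) (by positivity)]
  have h2 : (Real.exp 2 * (κ * 8 ^ (2 * h))) * (8 * κ) ≤ ℓ := by
    calc (Real.exp 2 * (κ * 8 ^ (2 * h))) * (8 * κ) ≤ (8 * (κ * 8 ^ (2 * h))) * (8 * κ) := by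
          have := exp_two_le
          gcongr
      _ = (κ : ℝ) ^ 2 * 8 ^ (2 * h + 2) := by ring
      _ ≤ ℓ := F.lkk
  have h3 := F.mp
  calc (Real.exp 2 * (κ * 8 ^ (2 * h))) * ((p * n) ^ (2 * h + 1) * p) * (p * n) * (8 * κ * ℓ ^ 2)
      = ((Real.exp 2 * (κ * 8 ^ (2 * h))) * (8 * κ)) * ((p * n) ^ (2 * h + 1) * p) *
        (p * n * ℓ ^ 2) := by ring
    _ ≤ ℓ * ℓ * (p * n * ℓ ^ 2) := by
        apply mul_le_mul_of_nonneg_right _ (by positivity)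
        exact mul_le_mul h2 h3 (by positivity) hl.le
    _ = p * n * ℓ ^ 4 := by ring
    _ ≤ p * n * ℓ ^ 6 := by
        apply mul_le_mul_of_nonneg_left _ hm
        exact pow_le_pow_right₀ (by have := F.l128; linarith) (by norm_num)

theorem cond3 {h κ n : ℕ} {p ℓ : ℝ} (hp : 0 < p) (F : Facts h κ n p ℓ) (hκ : 1 ≤ κ) :
    ℓ ≤ p * n / (8 * κ * ℓ ^ 2) ∧
    2 * (p * n / (8 * κ * ℓ ^ 2) + 1) * (1 + κ) ≤ p * n / ℓ ^ 2 := by
  have hl : 0 < ℓ := by have := F.l128; linarith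
  have h1 : (1 : ℝ) ≤ κ := by exact_mod_cast hκ
  have hm : 0 ≤ p * n := by positivity
  have ha : ℓ ≤ p * n / (8 * κ * ℓ ^ 2) := by
    rw [le_div_iff₀ (by positivity)]
    calc ℓ * (8 * κ * ℓ ^ 2) ≤ ℓ * (ℓ * ℓ ^ 2) := by
          have := F.lk
          gcongr
      _ = ℓ ^ 4 := by ring
      _ ≤ ℓ ^ 32 := pow_le_pow_right₀ (by have := F.l128; linarith) (by norm_num)
      _ ≤ p * n := F.lm
  refine ⟨ha, ?_⟩
  have hx1 : 1 ≤ p * n / (8 * κ * ℓ ^ 2) := le_trans (by have := F.l128; linarith) ha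
  have e : p * n / ℓ ^ 2 = (p * n / (8 * κ * ℓ ^ 2)) * (8 * κ) := by
    field_simp
  rw [e]
  set x := p * n / (8 * κ * ℓ ^ 2) with hx
  calc 2 * (x + 1) * (1 + κ) ≤ 2 * (x + x) * (κ + κ) := by
        gcongr
    _ = x * (8 * κ) := by ring

theorem one (hB : S_B7) {h κ n : ℕ} (hh : 1 ≤ h) (hκ : 1 ≤ κ) {p ℓ : ℝ}
    (hN : NumB h κ n p ℓ (128 * (κ : ℝ) ^ 2 * 8 ^ (2 * h + 2))) {P X : Finset (Fin n)}
    {H : Finset (Sym2 (Fin n))} (hS : SetB n p ℓ P X H) (p' : Fin n) (hp' : p' ∈ P) :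
    Pr (prs2 P (univ \ P)) p (fun S => ((∀ v, ((nb S univ v).card : ℝ) ≤ 8 * (p * n)) ∧
      (∀ v ∈ P, (nb S X v).card ≤ κ) ∧ B4 n p ℓ P X S) ∧
      p * n / ℓ ^ 2 < (((nb S univ p').filter (fun r => ∃ r'' ∈ nb S univ p', r'' ≠ r ∧
        Frel h P X S H p' r r'')).card : ℝ)) ≤
      2 * n * (1 / ℓ) ^ κ + Real.exp (-(p * n / (8 * κ * ℓ ^ 2))) := by
  have F := facts hh hκ hN
  have h0 : 0 ≤ p := hN.hp.le
  have h1 : p ≤ 1 := hN.hp1
  have hl : 0 < ℓ := by have := F.l128; linarith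
  have hκ' : (1 : ℝ) ≤ κ := by exact_mod_cast hκ
  have hn0 : (0 : ℝ) < n := by have := F.n128; linarith
  have hm : 0 < p * n := mul_pos hN.hp hn0
  have hη : 0 ≤ 2 * n * (1 / ℓ) ^ κ + Real.exp (-(p * n / (8 * κ * ℓ ^ 2))) := by positivity
  obtain ⟨c3a, c3b⟩ := cond3 hN.hp F hκ
  set Δ : ℝ := κ * 8 ^ (2 * h) * (p * n) ^ (2 * h + 1) / ℓ ^ 6 with hΔ
  have hΔ0 : 0 < Δ := by rw [hΔ]; positivity
  rw [split P p' hp']
  apply Pr_fub0 (split_disj P p') h0 h1 _ _ hη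
  intro S1 hS1
  by_cases hg : (∀ r ∈ univ \ P, (((univ \ P).filter
      (fun r'' => Frel h P X S1 H p' r r'')).card : ℝ) ≤ Δ) ∧
      (∀ r'' ∈ univ \ P, (((univ \ P).filter
      (fun r => Frel h P X S1 H p' r r'')).card : ℝ) ≤ Δ)
  · rw [Pr_image _ (row_inj p')]
    have hcard : ((univ \ P).card : ℝ) ≤ n := by
      have := card_le_univ (univ \ P)
      rw [Fintype.card_fin] at this
      exact_mod_cast this
    have key := hB n κ p Δ ℓ (p * n / (8 * κ * ℓ ^ 2)) (univ \ P)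
      (fun r r'' => Frel h P X S1 H p' r r'') hN.hp h1 hκ (by have := F.l128; linarith) hΔ0
      (by linarith) hg.1 hg.2 (cond1 hN.hp F hκ) (cond2 hN.hp F hκ hcard)
    refine le_trans (Pr_mono h0 h1 ?_) (le_trans key ?_)
    · intro N hNs hA
      obtain ⟨_, hA2⟩ := hA
      rw [nb_image hS1] at hA2
      refine lt_of_le_of_lt c3b (lt_of_lt_of_le hA2 (card_mono_real ?_))
      intro r hr
      rw [mem_filter] at hr ⊢
      obtain ⟨hr1, r'', hr'', hne, hF⟩ := hr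
      have hrP : r ∉ P := (mem_sdiff.mp (hNs hr1)).2
      exact ⟨hr1, r'', hr'', hne, Frel_local hS.xp hp' hNs hS1 hrP hF⟩
    · gcongr
  · rw [Pr_false]
    · exact hη
    · intro S2 hS2 hA
      apply hg
      obtain ⟨⟨hd, hfew, h4⟩, _⟩ := hA
      have hsub : S1 ∪ S2 ⊆ prs2 P (univ \ P) := by
        rw [split P p' hp']
        exact union_subset_union hS1 hS2
      obtain ⟨h', rfl⟩ : ∃ h', h = h' + 1 := ⟨h - 1, by omega⟩
      have e2 : 2 * (h' + 1) - 2 = 2 * h' := by omega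
      constructor
      · intro r hr
        have hrP : r ∉ P := (mem_sdiff.mp hr).2
        refine le_trans (card_mono_real ?_) (le_trans (out_deg (h := h' + 1) hl (by positivity) hd hS.hd
          hfew h4 p' r hrP) (le_of_eq ?_))
        · intro r'' hr''
          rw [mem_filter] at hr'' ⊢
          exact ⟨hr''.1, Frel_mono subset_union_left hr''.2⟩
        · rw [hΔ, e2]
          field_simp
          ring
      · intro r'' _
        refine le_trans (card_mono_real ?_) (le_trans (in_deg (h := h' + 1) hl (by positivity) hm.le hsub hd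
          hS.hd hfew h4 p' r'') (le_of_eq ?_))
        · intro r hr
          rw [mem_filter] at hr ⊢
          exact ⟨hr.1, Frel_mono subset_union_left hr.2⟩
        · rw [hΔ, e2]
          field_simp
          ring

end GB7L

open GB7L

theorem gb7 (hB : S_B7) : S_GB7 := by
  intro h κ hh hκ
  refine ⟨128 * (κ : ℝ) ^ 2 * 8 ^ (2 * h + 2), le_trans (by norm_num) (Lam_facts hκ).1, ?_⟩
  intro n p ℓ hN P X H hS
  have F := facts hh hκ hN
  have h0 : 0 ≤ p := hN.hp.le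
  have h1 : p ≤ 1 := hN.hp1
  have hn0 : (0 : ℝ) < n := by have := F.n128; linarith
  have hl : 0 < ℓ := by have := F.l128; linarith
  have hη : 0 ≤ 2 * n * (1 / ℓ) ^ κ + Real.exp (-(p * n / (8 * κ * ℓ ^ 2))) := by positivity
  have s1 : Pr (prs2 P (univ \ P)) p (fun S => ((∀ v, ((nb S univ v).card : ℝ) ≤ 8 * (p * n)) ∧
      (∀ v ∈ P, (nb S X v).card ≤ κ) ∧ B4 n p ℓ P X S) ∧ ¬ B7 h n p ℓ P X H S) ≤
      ∑ p' ∈ P, (2 * n * (1 / ℓ) ^ κ + Real.exp (-(p * n / (8 * κ * ℓ ^ 2)))) := by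
    refine le_trans (Pr_mono h0 h1 ?_) (le_trans (Pr_exists_le h0 h1 P
      (fun p' S => ((∀ v, ((nb S univ v).card : ℝ) ≤ 8 * (p * n)) ∧
      (∀ v ∈ P, (nb S X v).card ≤ κ) ∧ B4 n p ℓ P X S) ∧
      p * n / ℓ ^ 2 < (((nb S univ p').filter (fun r => ∃ r'' ∈ nb S univ p', r'' ≠ r ∧
        Frel h P X S H p' r r'')).card : ℝ)))
      (sum_le_sum (fun p' hp' => one hB hh hκ hN hS p' hp')))
    rintro S _ ⟨hA, hb⟩
    unfold B7 at hb
    push Not at hb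
    obtain ⟨p', hp', hb2⟩ := hb
    exact ⟨p', hp', hA, hb2⟩
  refine le_trans s1 ?_
  rw [sum_const, nsmul_eq_mul]
  have hPn : (P.card : ℝ) ≤ n := by
    have := card_le_univ P
    rw [Fintype.card_fin] at this
    exact_mod_cast this
  have hk : (1 / ℓ) ^ κ ≤ 1 / (n : ℝ) ^ 4 := by
    rw [div_pow, one_pow]
    exact one_div_le_one_div_of_le (by positivity) hN.hkap
  have hx : Real.exp (-(p * n / (8 * κ * ℓ ^ 2))) ≤ 1 / (n : ℝ) ^ 2 := by
    have h3 := (cond3 hN.hp F hκ).1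
    have h4 := F.lg
    calc Real.exp (-(p * n / (8 * κ * ℓ ^ 2))) ≤ Real.exp (-(2 * Real.log n)) := by
          apply Real.exp_le_exp.mpr
          linarith
      _ = 1 / (n : ℝ) ^ 2 := by
          rw [Real.exp_neg, two_mul, Real.exp_add, Real.exp_log hn0, one_div, sq]
  have hn := F.n128
  calc (P.card : ℝ) * (2 * n * (1 / ℓ) ^ κ + Real.exp (-(p * n / (8 * κ * ℓ ^ 2))))
      ≤ n * (2 * n * (1 / (n : ℝ) ^ 4) + 1 / (n : ℝ) ^ 2) := by
        gcongr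
    _ = 2 / (n : ℝ) ^ 2 + 1 / n := by
        field_simp
    _ ≤ 2 / (128 : ℝ) ^ 2 + 1 / 128 := by
        gcongr
    _ ≤ 1 / 64 := by norm_num

end Pool.Agent.H973.CT
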