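import Pool.Agent.H973.CT.Stm2
import Pool.Agent.H973.CT.Tail2

set_option autoImplicit false

namespace Pool.Agent.H973.CT

open Finset Classical Pool.Agent.W166.Gnp

/-- **S_GFEW** -/
theorem gfew : S_GFEW := by
  intro h κ hh hκ
  refine ⟨1, le_refl _, ?_⟩
  intro n p ℓ hN P X H hS
  have hp0 : 0 ≤ p := hN.hp.le
  have hp1 : p ≤ 1 := hN.hp1
  have hℓ : 1 ≤ ℓ := hN.hΛ
  have hℓ0 : 0 < ℓ := by linarith
  -- `2 ≤ n`
  have hn2 : 2 ≤ n := by
    by_contra hcon
    have hn1 : n = 1 := by have := hN.hn; omega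
    have h1 := hS.big1
    have h2 := hS.big2
    have h3 : (univ \ P).card + P.card = n := by
      rw [Finset.card_sdiff_add_card_eq_card (subset_univ P), card_univ, Fintype.card_fin]
    have h4 : 1 ≤ 3 * P.card := by
      have : (n : ℝ) ≤ ((3 * P.card : ℕ) : ℝ) := by push_cast; exact h1
      have := Nat.cast_le.mp this
      omega
    have h5 : 1 ≤ 3 * (univ \ P).card := by
      have : (n : ℝ) ≤ ((3 * (univ \ P).card : ℕ) : ℝ) := by push_cast; exact h2
      have := Nat.cast_le.mp this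
      omega
    omega
  have hnR : (2 : ℝ) ≤ n := by exact_mod_cast hn2
  have hXp0 : 0 ≤ (X.card : ℝ) * p := by positivity
  have hXp : (X.card : ℝ) * p ≤ 1 / ℓ ^ 8 := by
    rw [le_div_iff₀ (by positivity)]
    exact hS.xc
  have hXp1 : (X.card : ℝ) * p ≤ 1 := by
    refine hXp.trans ?_
    rw [div_le_one (by positivity)]
    exact one_le_pow₀ hℓ
  have hpow : ((X.card : ℝ) * p) ^ (κ + 1) ≤ 1 / (n : ℝ) ^ 32 := by
    calc ((X.card : ℝ) * p) ^ (κ + 1) ≤ ((X.card : ℝ) * p) ^ κ :=
          pow_le_pow_of_le_one hXp0 hXp1 (Nat.le_succ κ)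
      _ ≤ (1 / ℓ ^ 8) ^ κ := pow_le_pow_left₀ hXp0 hXp κ
      _ = 1 / (ℓ ^ κ) ^ 8 := by
          rw [one_div_pow, ← pow_mul, ← pow_mul, mul_comm 8 κ]
      _ ≤ 1 / ((n : ℝ) ^ 4) ^ 8 := by
          apply one_div_le_one_div_of_le (by positivity)
          exact pow_le_pow_left₀ (by positivity) hN.hkap 8
      _ = 1 / (n : ℝ) ^ 32 := by rw [← pow_mul]
  calc Pr (prs2 P (univ \ P)) p (fun S => ¬ ∀ v ∈ P, (nb S X v).card ≤ κ)
      ≤ Pr (prs2 P (univ \ P)) p (fun S => ∃ v ∈ P, κ + 1 ≤ (S ∩ prs {v} X).card) := by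
        apply Pr_mono hp0 hp1
        intro S hSsub hnot
        push Not at hnot
        obtain ⟨v, hv, hlt⟩ := hnot
        refine ⟨v, hv, ?_⟩
        refine (Nat.succ_le_of_lt hlt).trans ?_
        refine card_le_card_of_injOn (fun u => s(v, u)) ?_ ?_
        · intro u hu
          have hu' := mem_filter.mp (mem_coe.mp hu)
          refine mem_coe.mpr (mem_inter.mpr ⟨hu'.2, mem_prs (mem_singleton_self v) hu'.1 ?_⟩)
          intro hvu
          have := mem_sdiff.mp (hS.xp hu'.1)
          exact this.2 (hvu ▸ hv)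
        · intro u _ u' _ huu
          exact Sym2.congr_right.mp huu
    _ ≤ ∑ v ∈ P, Pr (prs2 P (univ \ P)) p (fun S => κ + 1 ≤ (S ∩ prs {v} X).card) :=
        Pr_exists_le hp0 hp1 _ _
    _ ≤ ∑ _v ∈ P, 1 / (n : ℝ) ^ 32 := by
        apply sum_le_sum
        intro v hv
        have hD : prs {v} X ⊆ prs2 P (univ \ P) := by
          intro e he
          simp only [prs, mem_image, mem_filter, mem_product] at he
          obtain ⟨q, ⟨⟨hq1, hq2⟩, hq3⟩, rfl⟩ := he
          simp only [prs2, mem_image, mem_filter, mem_product]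
          refine ⟨q, ⟨⟨?_, hS.xp hq2⟩, hq3⟩, rfl⟩
          rw [mem_singleton] at hq1
          rw [hq1]; exact hv
        refine (card_up hD hp0 hp1 (κ + 1)).trans ?_
        have hDc : (prs {v} X).card ≤ X.card := by
          have := card_prs {v} X
          rwa [card_singleton, one_mul] at this
        calc ((prs {v} X).card.choose (κ + 1) : ℝ) * p ^ (κ + 1)
            ≤ (X.card : ℝ) ^ (κ + 1) * p ^ (κ + 1) := by
              apply mul_le_mul_of_nonneg_right _ (by positivity)
              have : (prs {v} X).card.choose (κ + 1) ≤ X.card ^ (κ + 1) :=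
                (Nat.choose_le_pow _ _).trans (Nat.pow_le_pow_left hDc _)
              exact_mod_cast this
          _ = ((X.card : ℝ) * p) ^ (κ + 1) := by rw [mul_pow]
          _ ≤ 1 / (n : ℝ) ^ 32 := hpow
    _ = (P.card : ℝ) * (1 / (n : ℝ) ^ 32) := by rw [sum_const, nsmul_eq_mul]
    _ ≤ (n : ℝ) * (1 / (n : ℝ) ^ 32) := by
        apply mul_le_mul_of_nonneg_right _ (by positivity)
        have : P.card ≤ n := by
          have := card_le_univ P
          rwa [Fintype.card_fin] at this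
        exact_mod_cast this
    _ ≤ 1 / 64 := by
        have h31 : (64 : ℝ) ≤ (n : ℝ) ^ 31 := by
          calc (64 : ℝ) ≤ 2 ^ 31 := by norm_num
            _ ≤ (n : ℝ) ^ 31 := pow_le_pow_left₀ (by norm_num) hnR 31
        rw [mul_one_div, div_le_div_iff₀ (by positivity) (by norm_num)]
        have : (n : ℝ) ^ 32 = n * (n : ℝ) ^ 31 := by ring
        rw [this]
        nlinarith

end Pool.Agent.H973.CT

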