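import Pool.Agent.H973.CT.Stm2
import Pool.Agent.H973.CT.Tail2

set_option autoImplicit false

/-! The leaf `S_GLOW` (degrees of the random bipartite graph). -/

namespace Pool.Agent.H973.CT

open Finset Classical Pool.Agent.W166.Gnp

namespace GLowL

variable {n : ℕ}

/-- the other side of the bipartition -/
noncomputable def oth (P : Finset (Fin n)) (v : Fin n) : Finset (Fin n) :=
  if v ∈ P then univ \ P else P

/-- the possible edges at `v` -/
noncomputable def De (P : Finset (Fin n)) (v : Fin n) : Finset (Sym2 (Fin n)) :=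
  (oth P v).image (fun u => s(v, u))

theorem inj (v : Fin n) : Function.Injective (fun u : Fin n => s(v, u)) := by
  intro u u' h
  exact Sym2.congr_right.mp h

theorem card_De (P : Finset (Fin n)) (v : Fin n) : (De P v).card = (oth P v).card :=
  card_image_of_injective _ (inj v)

theorem mem_prs2 {A B : Finset (Fin n)} {x y : Fin n} :
    s(x, y) ∈ prs2 A B ↔ x ≠ y ∧ ((x ∈ A ∧ y ∈ B) ∨ (y ∈ A ∧ x ∈ B)) := by
  simp only [prs2, mem_image, mem_filter, mem_product, Sym2.eq_iff, Prod.exists]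
  constructor
  · rintro ⟨a, b, ⟨⟨ha, hb⟩, hne⟩, (⟨rfl, rfl⟩ | ⟨rfl, rfl⟩)⟩
    · exact ⟨hne, Or.inl ⟨ha, hb⟩⟩
    · exact ⟨fun h => hne h.symm, Or.inr ⟨ha, hb⟩⟩
  · rintro ⟨hne, (⟨ha, hb⟩ | ⟨ha, hb⟩)⟩
    · exact ⟨x, y, ⟨⟨ha, hb⟩, hne⟩, Or.inl ⟨rfl, rfl⟩⟩
    · exact ⟨y, x, ⟨⟨ha, hb⟩, fun h => hne h.symm⟩, Or.inr ⟨rfl, rfl⟩⟩

theorem De_sub (P : Finset (Fin n)) (v : Fin n) : De P v ⊆ prs2 P (univ \ P) := by
  intro e he
  simp only [De, mem_image] at he
  obtain ⟨u, hu, rfl⟩ := he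
  rw [mem_prs2]
  unfold oth at hu
  by_cases hv : v ∈ P
  · rw [if_pos hv] at hu
    refine ⟨?_, Or.inl ⟨hv, hu⟩⟩
    rintro rfl
    exact (mem_sdiff.mp hu).2 hv
  · rw [if_neg hv] at hu
    refine ⟨?_, Or.inr ⟨hu, mem_sdiff.mpr ⟨mem_univ _, hv⟩⟩⟩
    rintro rfl
    exact hv hu

theorem card_nb {P : Finset (Fin n)} {S : Finset (Sym2 (Fin n))} (hS : S ⊆ prs2 P (univ \ P))
    (v : Fin n) : (nb S univ v).card = (S ∩ De P v).card := by
  rw [← card_image_of_injective (nb S univ v) (inj v)]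
  congr 1
  ext e
  simp only [mem_image, nb, mem_filter, mem_univ, true_and, mem_inter, De]
  constructor
  · rintro ⟨u, hu, rfl⟩
    refine ⟨hu, u, ?_, rfl⟩
    have h := mem_prs2.mp (hS hu)
    unfold oth
    rcases h with ⟨_, (⟨h1, h2⟩ | ⟨h1, h2⟩)⟩
    · rw [if_pos h1]; exact h2
    · rw [if_neg (mem_sdiff.mp h2).2]; exact h1
  · rintro ⟨he, u, _, rfl⟩
    exact ⟨u, he, rfl⟩

theorem oth_le (P : Finset (Fin n)) (v : Fin n) : ((oth P v).card : ℝ) ≤ n := by
  have : (oth P v).card ≤ (univ : Finset (Fin n)).card := card_le_card (subset_univ _)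
  rw [card_univ, Fintype.card_fin] at this
  exact_mod_cast this

theorem main (ε : ℝ) (hε : 0 < ε) : ∃ Λ : ℝ, 1 ≤ Λ ∧
    ∀ (n : ℕ) (p ℓ : ℝ), 0 < p → p ≤ 1 → 1 ≤ n → Λ ≤ ℓ → Λ * Real.log n ≤ ℓ → ℓ ≤ p * n →
    ∀ P : Finset (Fin n), (n : ℝ) ≤ 3 * P.card → (n : ℝ) ≤ 3 * (univ \ P).card →
  Pr (prs2 P (univ \ P)) p (fun S => ¬ ((∀ v, ((nb S univ v).card : ℝ) ≤ 8 * (p * n)) ∧
    (∀ v ∈ P, (1 - ε) * (p * (univ \ P).card) ≤ ((nb S univ v).card : ℝ)) ∧
    ∀ v ∉ P, (1 - ε) * (p * P.card) ≤ ((nb S univ v).card : ℝ))) ≤ 1 / 64 := by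
  set q : ℝ := min ε 1 with hq
  have hq0 : 0 < q := lt_min hε one_pos
  have hq1 : q ≤ 1 := min_le_right _ _
  have hqε : q ≤ ε := min_le_left _ _
  have hqq : 0 < q ^ 2 := by positivity
  have hqq1 : q ^ 2 ≤ 1 := by nlinarith
  refine ⟨12 * 128 / q ^ 2, ?_, ?_⟩
  · rw [le_div_iff₀ hqq]; linarith
  intro n p ℓ h0 h1 hn hΛ hlog hm P hP1 hP2
  have hn0 : (0 : ℝ) < n := by exact_mod_cast hn
  have hlogn : 0 ≤ Real.log n := Real.log_nonneg (by exact_mod_cast hn)
  have hnonneg : 0 ≤ p * n := by positivity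
  have hoth : ∀ v, (n : ℝ) ≤ 3 * (oth P v).card := by
    intro v
    unfold oth
    split_ifs
    · exact hP2
    · exact hP1
  calc Pr (prs2 P (univ \ P)) p (fun S => ¬ ((∀ v, ((nb S univ v).card : ℝ) ≤ 8 * (p * n)) ∧
    (∀ v ∈ P, (1 - ε) * (p * (univ \ P).card) ≤ ((nb S univ v).card : ℝ)) ∧
    ∀ v ∉ P, (1 - ε) * (p * P.card) ≤ ((nb S univ v).card : ℝ)))
      ≤ Pr (prs2 P (univ \ P)) p (fun S => ∃ v ∈ (univ : Finset (Fin n)),
          (8 * (p * n) ≤ ((S ∩ De P v).card : ℝ) ∨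
            ((S ∩ De P v).card : ℝ) ≤ (1 - q) * (p * (De P v).card))) := by
        apply Pr_mono h0.le h1
        intro S hS h
        by_contra hcon
        apply h
        push Not at hcon
        refine ⟨?_, ?_, ?_⟩
        · intro v
          have := (hcon v (mem_univ v)).1
          rw [card_nb hS v]
          exact this.le
        · intro v hv
          have h2 := (hcon v (mem_univ v)).2
          rw [card_nb hS v]
          refine le_trans ?_ h2.le
          rw [card_De]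
          unfold oth
          rw [if_pos hv]
          apply mul_le_mul_of_nonneg_right (by linarith)
          positivity
        · intro v hv
          have h2 := (hcon v (mem_univ v)).2
          rw [card_nb hS v]
          refine le_trans ?_ h2.le
          rw [card_De]
          unfold oth
          rw [if_neg hv]
          apply mul_le_mul_of_nonneg_right (by linarith)
          positivity
    _ ≤ ∑ v ∈ (univ : Finset (Fin n)), Pr (prs2 P (univ \ P)) p (fun S =>
          (8 * (p * n) ≤ ((S ∩ De P v).card : ℝ) ∨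
            ((S ∩ De P v).card : ℝ) ≤ (1 - q) * (p * (De P v).card))) :=
        Pr_exists_le h0.le h1 _ _
    _ ≤ ∑ _v ∈ (univ : Finset (Fin n)), 2 * Real.exp (-(q ^ 2 / 6 * (p * n))) := by
        apply sum_le_sum
        intro v _
        refine (Pr_or_le h0.le h1 _ _).trans ?_
        have hA : Pr (prs2 P (univ \ P)) p (fun S => 8 * (p * n) ≤ ((S ∩ De P v).card : ℝ)) ≤
            Real.exp (-(8 * (p * n))) := by
          apply tail8 (De_sub P v) h0.le h1
          rw [card_De]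
          have := oth_le P v
          nlinarith
        have hB : Pr (prs2 P (univ \ P)) p (fun S =>
            ((S ∩ De P v).card : ℝ) ≤ (1 - q) * (p * (De P v).card)) ≤
            Real.exp (-(q ^ 2 / 2 * (p * (De P v).card))) :=
          card_lower (De_sub P v) h0.le h1 hq0.le hq1
        have hA' : Real.exp (-(8 * (p * n))) ≤ Real.exp (-(q ^ 2 / 6 * (p * n))) := by
          apply Real.exp_le_exp.mpr
          nlinarith
        have hB' : Real.exp (-(q ^ 2 / 2 * (p * (De P v).card))) ≤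
            Real.exp (-(q ^ 2 / 6 * (p * n))) := by
          apply Real.exp_le_exp.mpr
          rw [card_De]
          have h3 := hoth v
          have h4 : p * n ≤ 3 * (p * (oth P v).card) := by nlinarith
          have h5 : q ^ 2 * (p * n) ≤ q ^ 2 * (3 * (p * (oth P v).card)) :=
            mul_le_mul_of_nonneg_left h4 hqq.le
          linarith
        linarith
    _ = 2 * (n * Real.exp (-(q ^ 2 / 6 * (p * n)))) := by
        rw [sum_const, card_univ, Fintype.card_fin, nsmul_eq_mul]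
        ring
    _ = 2 * Real.exp (Real.log n - q ^ 2 / 6 * (p * n)) := by
        rw [sub_eq_add_neg, Real.exp_add, Real.exp_log hn0]
    _ ≤ 2 * Real.exp (-128) := by
        apply mul_le_mul_of_nonneg_left _ (by norm_num)
        apply Real.exp_le_exp.mpr
        have h6 : 12 * 128 ≤ q ^ 2 * ℓ := by
          rw [div_le_iff₀ hqq] at hΛ
          linarith
        have h7 : 12 * 128 * Real.log n ≤ q ^ 2 * ℓ := by
          have h8 : q ^ 2 * (12 * 128 / q ^ 2 * Real.log n) ≤ q ^ 2 * ℓ :=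
            mul_le_mul_of_nonneg_left hlog hqq.le
          have h9 : q ^ 2 * (12 * 128 / q ^ 2 * Real.log n) = 12 * 128 * Real.log n := by
            field_simp
          rw [h9] at h8
          exact h8
        have h10 : q ^ 2 * ℓ ≤ q ^ 2 * (p * n) := mul_le_mul_of_nonneg_left hm hqq.le
        linarith
    _ ≤ 1 / 64 := by
        have h11 : (129 : ℝ) ≤ Real.exp 128 := by
          have := Real.add_one_le_exp (128 : ℝ)
          linarith
        rw [Real.exp_neg]
        have h12 : (Real.exp 128)⁻¹ ≤ (129 : ℝ)⁻¹ := inv_anti₀ (by norm_num) h11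
        norm_num at h12 ⊢
        linarith

end GLowL

theorem glow : S_GLOW := by
  intro h κ ε _ _ hε
  obtain ⟨Λ, hΛ, H⟩ := GLowL.main ε hε
  refine ⟨Λ, hΛ, ?_⟩
  intro n p ℓ hN P hP1 hP2
  have hl : 1 ≤ ℓ := hΛ.trans hN.hΛ
  apply H n p ℓ hN.hp hN.hp1 hN.hn hN.hΛ hN.hlog _ P hP1 hP2
  refine le_trans ?_ hN.hm
  calc ℓ = ℓ ^ 1 := (pow_one ℓ).symm
    _ ≤ ℓ ^ (2 * h + 30) := pow_le_pow_right₀ hl (by omega)

end Pool.Agent.H973.CT
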