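import Pool.Agent.H973.CT.Stm3

set_option autoImplicit false

/-! `S_GOODA`: probability of the good event. -/

namespace Pool.Agent.H973.CT

open Finset Classical Pool.Agent.W166.Gnp

namespace GoodAL

variable {n : ℕ}

/-- the failure of the good event is the union of eight events -/
theorem not_good {h κ : ℕ} {d γ CP CD C₁ : ℝ} {p L : ℝ} {S : Finset (Sym2 (Fin n))}
    (hS : S ⊆ allE n) (hng : ¬ GoodA h κ d γ CP CD C₁ n p L S) :
    (∃ v : Fin n, 8 * (p * n) ≤ ((nb S univ v).card : ℝ)) ∨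
    ((∃ U : Finset (Fin n), U.Nonempty ∧ (U.card : ℝ) ≤ C₁ / (p * L) ∧
      ∀ v ∈ U, 2 * κ ≤ (nb S U v).card) ∨
    ((∃ A : Finset (Fin n), γ * n ≤ A.card ∧
      1 / (γ * p) ≤ ((univ.filter (fun w => 16 * p * A.card ≤ ((nb S A w).card : ℝ))).card : ℝ)) ∨
    ((∃ Y Z : Finset (Fin n), (Y.card : ℝ) ≤ 8 * n / L ∧
      (Z.card : ℝ) ≤ d ^ 2 / 1152 / 128 * n ∧
      d ^ 2 / 1152 * (p * n) * n / L ≤ ∑ y ∈ Y, ((nb S Z y).card : ℝ)) ∨
    ((∃ T : Finset (Fin n), (T.card : ℝ) ≤ 2 * n / (p * n * L) ∧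
      d ^ 2 * γ / 18432 * n / L ≤ ((nonpriv S T).card : ℝ)) ∨
    ((L * CP * (n * (p * n) ^ (2 * h) + (p * n) ^ (4 * h)) ≤ ((pairsW (2 * h) S).card : ℝ)) ∨
    ((L * CD * (n * (p * n) ^ (2 * h - 1)) ≤ ((degWalks (2 * h) S).card : ℝ)) ∨
      MainA h d γ CP n p L S)))))) := by
  by_contra hcon
  push Not at hcon
  obtain ⟨a1, a2, a3, a4, a5, a6, a7, a8⟩ := hcon
  apply hng
  refine ⟨hS, fun v => (a1 v).le, ?_, ?_, ?_, a5, a6.le, a7.le, a8⟩
  · intro U hU hU2
    obtain ⟨v, hv, hv2⟩ := a2 U hU hU2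
    exact ⟨v, hv, hv2⟩
  · intro A hA
    exact (a3 A hA).le
  · intro Y Z hY hZ
    apply a4 Y Z hY
    refine hZ.trans (le_of_eq ?_)
    unfold bet
    ring

theorem le_exp_self (x : ℝ) : x ≤ Real.exp x := by
  have := Real.add_one_le_exp x
  linarith

/-- `exp (-x) ≤ 1 / L` if `L ≤ x` -/
theorem exp_neg_le {x L : ℝ} (hL : 0 < L) (h : L ≤ x) : Real.exp (-x) ≤ 1 / L := by
  rw [Real.exp_neg, ← one_div]
  exact one_div_le_one_div_of_le hL (h.trans (le_exp_self x))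

end GoodAL

open GoodAL

theorem gooda (h1 : S_PRIV) (h2 : S_PAIRS) (h3 : S_DEGEN) (h4 : S_MAINA) : S_GOODA := by
  intro h κ d γ C₁ hh hκ hd hd1 hγ hγ1 hC₁ heC
  have hβ : 0 < d ^ 2 * γ / 18432 := by positivity
  obtain ⟨L0, hL0, hpriv⟩ := h1 (d ^ 2 * γ / 18432) hβ
  obtain ⟨CP, hCP, hpairs⟩ := h2 (2 * h) (by omega)
  obtain ⟨CD, hCD, hdeg⟩ := h3 (2 * h) (by omega)
  obtain ⟨Λ₁, hΛ₁, hmain⟩ := h4 h κ d γ CP hh hκ hd hd1 hγ hγ1 hCP
  set Λ : ℝ := Λ₁ + L0 + 9216 / d ^ 2 + 4 / (d ^ 2 * γ / 18432) with hΛdef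
  have e1 : 0 < 9216 / d ^ 2 := by positivity
  have e2 : 0 < 4 / (d ^ 2 * γ / 18432) := by positivity
  refine ⟨CP, CD, Λ, hCP, hCD, by linarith, ?_⟩
  intro n p L hN
  have hp := hN.hp
  have hp1 := hN.hp1
  have hn : (1 : ℝ) ≤ n := by exact_mod_cast hN.hn
  have hΛL := hN.hΛ
  have hL1 : 1 ≤ L := by linarith
  have hLpos : 0 < L := by linarith
  have hlog0 : 0 ≤ Real.log ((n : ℝ) + 1) := Real.log_nonneg (by linarith)
  have hpn : L ^ 2 ≤ p * n := by
    refine le_trans ?_ hN.hm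
    exact pow_le_pow_right₀ hL1 (by omega)
  have hLL : L ≤ L ^ 2 := by nlinarith
  have hLpn : L ≤ p * n := hLL.trans hpn
  have hpn1 : 1 ≤ p * n := hL1.trans hLpn
  have hLn4 : L ^ 4 ≤ n := hN.hL4
  have hLn : L ≤ n := by
    refine le_trans ?_ hLn4
    calc L = L ^ 1 := (pow_one L).symm
      _ ≤ L ^ 4 := pow_le_pow_right₀ hL1 (by omega)
  have hlogL : Real.log ((n : ℝ) + 1) ≤ L := by
    refine le_trans ?_ hN.hlog
    have : 1 ≤ Λ := by linarith
    nlinarith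
  -- the eight bounds
  have b1 : Pr (allE n) p (fun S => ∃ v : Fin n, 8 * (p * n) ≤ ((nb S univ v).card : ℝ)) ≤
      1 / L := by
    refine (deg_bound hp.le hp1).trans ?_
    rw [le_div_iff₀ hLpos]
    have c1 : (n : ℝ) ≤ Real.exp (p * n) := by
      calc (n : ℝ) ≤ n + 1 := by linarith
        _ = Real.exp (Real.log (n + 1)) := (Real.exp_log (by linarith)).symm
        _ ≤ Real.exp (p * n) := Real.exp_le_exp.mpr (hlogL.trans hLpn)
    have c2 : L ≤ Real.exp (p * n) := hLpn.trans (le_exp_self _)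
    calc n * Real.exp (-(8 * (p * n))) * L
        ≤ Real.exp (p * n) * Real.exp (-(8 * (p * n))) * Real.exp (p * n) := by
          apply mul_le_mul _ c2 hLpos.le (by positivity)
          exact mul_le_mul_of_nonneg_right c1 (Real.exp_pos _).le
      _ = Real.exp (-(6 * (p * n))) := by
          rw [← Real.exp_add, ← Real.exp_add]
          congr 1
          ring
      _ ≤ 1 := by
          rw [Real.exp_le_one_iff]
          linarith
  have b2 : Pr (allE n) p (fun S => ∃ U : Finset (Fin n), U.Nonempty ∧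
      (U.card : ℝ) ≤ C₁ / (p * L) ∧ ∀ v ∈ U, 2 * κ ≤ (nb S U v).card) ≤ 2 / L := by
    refine (sparse_bound κ hp hp1 hL1 hC₁ heC hN.hn hN.hkap).trans ?_
    exact div_le_div_of_nonneg_left (by norm_num) hLpos hLn
  have b3 : Pr (allE n) p (fun S => ∃ A : Finset (Fin n), γ * n ≤ A.card ∧
      1 / (γ * p) ≤ ((univ.filter (fun w => 16 * p * A.card ≤ ((nb S A w).card : ℝ))).card : ℝ)) ≤
      1 / L := by
    refine (upper_bound hp hp1 hγ hN.hn).trans ?_
    exact exp_neg_le hLpos (by linarith)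
  have b4 : Pr (allE n) p (fun S => ∃ Y Z : Finset (Fin n), (Y.card : ℝ) ≤ 8 * n / L ∧
      (Z.card : ℝ) ≤ d ^ 2 / 1152 / 128 * n ∧
      d ^ 2 / 1152 * (p * n) * n / L ≤ ∑ y ∈ Y, ((nb S Z y).card : ℝ)) ≤ 1 / L := by
    refine (exc_bound hp hp1 (by positivity) hLpos ?_).trans ?_
    · have c1 : 9216 / d ^ 2 ≤ L := by linarith
      rw [div_le_iff₀ (by positivity)] at c1
      have c2 : L * (L * d ^ 2) ≤ (p * n) * d ^ 2 := by
        have : L * (L * d ^ 2) = L ^ 2 * d ^ 2 := by ring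
        rw [this]
        exact mul_le_mul_of_nonneg_right hpn (by positivity)
      nlinarith
    · exact exp_neg_le hLpos (by linarith)
  have b5 : Pr (allE n) p (fun S => ∃ T : Finset (Fin n), (T.card : ℝ) ≤ 2 * n / (p * n * L) ∧
      d ^ 2 * γ / 18432 * n / L ≤ ((nonpriv S T).card : ℝ)) ≤ 1 / L := by
    refine (hpriv n p L hp hp1 (by linarith) hLn4 ?_).trans ?_
    · refine le_trans ?_ hLpn
      refine le_trans ?_ hN.hlog
      apply mul_le_mul_of_nonneg_right _ hlog0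
      linarith
    · apply exp_neg_le hLpos
      have c1 : 4 / (d ^ 2 * γ / 18432) ≤ L := by linarith
      rw [div_le_iff₀ hβ] at c1
      rw [le_div_iff₀ (by positivity)]
      have c2 : L * (4 * L) ≤ (d ^ 2 * γ / 18432) * L ^ 4 := by
        have c3 : L ^ 2 * 4 ≤ L ^ 2 * (L * (d ^ 2 * γ / 18432)) :=
          mul_le_mul_of_nonneg_left c1 (by positivity)
        have c4 : L ^ 2 * (L * (d ^ 2 * γ / 18432)) = (d ^ 2 * γ / 18432) * L ^ 3 := by ring
        have c5 : (d ^ 2 * γ / 18432) * L ^ 3 ≤ (d ^ 2 * γ / 18432) * L ^ 4 :=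
          mul_le_mul_of_nonneg_left (pow_le_pow_right₀ hL1 (by omega)) hβ.le
        nlinarith
      exact c2.trans (mul_le_mul_of_nonneg_left hLn4 hβ.le)
  have b6 : Pr (allE n) p (fun S =>
      L * CP * (n * (p * n) ^ (2 * h) + (p * n) ^ (4 * h)) ≤ ((pairsW (2 * h) S).card : ℝ)) ≤
      1 / L := by
    have c0 : (0 : ℝ) < n * (p * n) ^ (2 * h) + (p * n) ^ (4 * h) := by positivity
    have c1 := hpairs n p hp.le hp1 hpn1
    have c2 : 2 * (2 * h) = 4 * h := by ring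
    rw [c2] at c1
    refine (Pr_markov hp.le hp1 _ (fun S _ => Nat.cast_nonneg _) _ _ (by positivity) c1).trans ?_
    apply le_of_eq
    field_simp
  have b7 : Pr (allE n) p (fun S =>
      L * CD * (n * (p * n) ^ (2 * h - 1)) ≤ ((degWalks (2 * h) S).card : ℝ)) ≤ 1 / L := by
    have c0 : (0 : ℝ) < n * (p * n) ^ (2 * h - 1) := by positivity
    have c1 := hdeg n p hp.le hp1 hpn1
    refine (Pr_markov hp.le hp1 _ (fun S _ => Nat.cast_nonneg _) _ _ (by positivity) c1).trans ?_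
    apply le_of_eq
    field_simp
  have b8 : Pr (allE n) p (fun S => MainA h d γ CP n p L S) ≤ 1 / L := by
    apply hmain
    refine ⟨hp, hp1, hN.hκ, hN.hn, by linarith, ?_, hN.hkap, hN.hm, hN.hm2, hN.hm3, hN.hL4⟩
    refine le_trans ?_ hN.hlog
    apply mul_le_mul_of_nonneg_right _ hlog0
    linarith
  have key : Pr (allE n) p (fun S => ¬ GoodA h κ d γ CP CD C₁ n p L S) ≤
      1 / L + (2 / L + (1 / L + (1 / L + (1 / L + (1 / L + (1 / L + 1 / L)))))) := by
    refine (Pr_mono hp.le hp1 (fun S hS hng => not_good hS hng)).trans ?_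
    refine (Pr_or_le hp.le hp1 _ _).trans (add_le_add b1 ?_)
    refine (Pr_or_le hp.le hp1 _ _).trans (add_le_add b2 ?_)
    refine (Pr_or_le hp.le hp1 _ _).trans (add_le_add b3 ?_)
    refine (Pr_or_le hp.le hp1 _ _).trans (add_le_add b4 ?_)
    refine (Pr_or_le hp.le hp1 _ _).trans (add_le_add b5 ?_)
    refine (Pr_or_le hp.le hp1 _ _).trans (add_le_add b6 ?_)
    exact (Pr_or_le hp.le hp1 _ _).trans (add_le_add b7 b8)
  refine key.trans ?_
  have : 1 / L + (2 / L + (1 / L + (1 / L + (1 / L + (1 / L + (1 / L + 1 / L)))))) = 9 / L := by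
    ring
  rw [this]
  exact div_le_div_of_nonneg_right (by norm_num) hLpos.le

end Pool.Agent.H973.CT
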