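import Pool.Agent.H973.CT.Stm2
import Pool.Agent.H973.CT.Tail2
import Pool.Graph.R_seed8.W166.Gnp.ProbA

set_option autoImplicit false

/-! Leaf Ind: revealing a block of edges last. -/

namespace Pool.Agent.H973.CT

open Finset Classical Pool.Agent.W166.Gnp

theorem ind : S_IND := by
  intro α _ E R' p x t Φ hR h0 h1 ht hΦ
  have hE : E = (E \ R') ∪ R' := (sdiff_union_of_subset hR).symm
  have hd : Disjoint (E \ R') R' := sdiff_disjoint
  have hnn : (0 : ℝ) ≤ Real.exp (-(t * x)) := (Real.exp_pos _).le
  have key := Pr_fub hd h0 h1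
    (fun S => Real.exp (1 + t) * (Φ (S \ R')).card * p ≤ x ∧
      x ≤ ((S ∩ Φ (S \ R')).card : ℝ)) (fun _ => True) 0 (Real.exp (-(t * x))) hnn
    (by simp [Pr, Ex]) ?_
  · rw [← hE, zero_add] at key
    convert key
  · intro S1 hS1 _
    by_cases hc : Real.exp (1 + t) * (Φ S1).card * p ≤ x
    · refine le_trans (Pr_mono h0 h1 ?_) (tail (hΦ S1) h0 h1 t x ht hc)
      intro S2 hS2 hS
      have e1 : (S1 ∪ S2) \ R' = S1 := by
        ext a
        simp only [mem_sdiff, mem_union]
        constructor
        · rintro ⟨h | h, h'⟩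
          · exact h
          · exact absurd (hS2 h) h'
        · intro h
          exact ⟨Or.inl h, (mem_sdiff.mp (hS1 h)).2⟩
      rw [e1] at hS
      have e2 : (S1 ∪ S2) ∩ Φ S1 = S2 ∩ Φ S1 := by
        ext a
        simp only [mem_inter, mem_union]
        constructor
        · rintro ⟨h | h, h'⟩
          · exact absurd (hΦ S1 h') (mem_sdiff.mp (hS1 h)).2
          · exact ⟨h, h'⟩
        · rintro ⟨h, h'⟩
          exact ⟨Or.inr h, h'⟩
      rw [e2] at hS
      exact hS.2
    · refine le_trans (le_of_eq ?_) hnn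
      unfold Pr Ex
      apply sum_eq_zero
      intro S2 hS2
      have hS2' := mem_powerset.mp hS2
      have e1 : (S1 ∪ S2) \ R' = S1 := by
        ext a
        simp only [mem_sdiff, mem_union]
        constructor
        · rintro ⟨h | h, h'⟩
          · exact h
          · exact absurd (hS2' h) h'
        · intro h
          exact ⟨Or.inl h, (mem_sdiff.mp (hS1 h)).2⟩
      beta_reduce
      rw [if_neg, mul_zero]
      intro hS
      rw [e1] at hS
      exact hc hS.1

end Pool.Agent.H973.CT
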