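import Pool.Agent.H973.CT.Stm2
import Pool.Graph.R_seed8.W166.Gnp.ProbA

set_option autoImplicit false

/-! Leaf LowB: union bound, choice of the parameters, combination of the leaves. -/

namespace Pool.Agent.H973.CT

open Finset Classical Pool.Agent.W166.Gnp

namespace LowBL

theorem evt (a Λ : ℝ) (ha : 0 < a) (hΛ : 1 ≤ Λ) : ∃ N : ℕ, ∀ n : ℕ, N ≤ n →
    1 ≤ n ∧ Λ ≤ (n : ℝ) ^ a ∧ Λ * Real.log n ≤ (n : ℝ) ^ a := by
  have h1 : Filter.Tendsto (fun n : ℕ => (n : ℝ) ^ a) Filter.atTop Filter.atTop :=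
    (tendsto_rpow_atTop ha).comp tendsto_natCast_atTop_atTop
  have h2 := h1.eventually_ge_atTop Λ
  have hΛ0 : 0 < Λ := by linarith
  have h3 : ∀ᶠ n : ℕ in Filter.atTop, Λ * Real.log n ≤ (n : ℝ) ^ a := by
    have h4 := (isLittleO_log_rpow_atTop ha).bound (c := 1 / Λ) (by positivity)
    have h5 := tendsto_natCast_atTop_atTop (R := ℝ) |>.eventually h4
    filter_upwards [h5, Filter.eventually_ge_atTop 1] with n hn hn1
    have hn1' : (1 : ℝ) ≤ n := by exact_mod_cast hn1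
    rw [Real.norm_of_nonneg (Real.log_nonneg hn1'), Real.norm_of_nonneg (by positivity)] at hn
    calc Λ * Real.log n ≤ Λ * (1 / Λ * (n : ℝ) ^ a) := mul_le_mul_of_nonneg_left hn hΛ0.le
      _ = (n : ℝ) ^ a := by field_simp
  obtain ⟨N, hN⟩ := Filter.eventually_atTop.1
    (h2.and (h3.and (Filter.eventually_ge_atTop 1)))
  exact ⟨N, fun n hn => ⟨(hN n hn).2.2, (hN n hn).1, (hN n hn).2.1⟩⟩

theorem numB_mono {h κ n : ℕ} {p ℓ Λ Λ' : ℝ} (H : NumB h κ n p ℓ Λ) (hΛ : Λ' ≤ Λ) :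
    NumB h κ n p ℓ Λ' := by
  refine ⟨H.hp, H.hp1, H.hκ, H.hn, hΛ.trans H.hΛ, le_trans ?_ H.hlog, H.hkap, H.hm, H.hm2⟩
  exact mul_le_mul_of_nonneg_right hΛ (Real.log_natCast_nonneg n)

/-- the numeric facts -/
theorem facts (h A n : ℕ) (p μ : ℝ) (hh : 1 ≤ h)
    (hμ : μ = 1 / ((4 * h + 4) * (A + 2 * h + 31))) (hn : 1 ≤ n) (hp : 0 < p)
    (hlow : (n : ℝ) ≤ (p * n) ^ (2 * h + 2)) (hup : (p * n) ^ (2 * h + 2) ≤ (n : ℝ) ^ (1 + μ)) :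
    1 ≤ (n : ℝ) ^ μ ∧ (n : ℝ) ^ μ ≤ n ∧ ((n : ℝ) ^ μ) ^ (2 * (A + 2 * h + 31)) ≤ p * n ∧
    (p * n) ^ 2 ≤ n ∧ (p * n) ^ (2 * h + 2) ≤ (n : ℝ) ^ μ * n ∧
    (n : ℝ) ^ 4 ≤ ((n : ℝ) ^ μ) ^ ⌈4 / μ⌉₊ := by
  have hn' : (1 : ℝ) ≤ n := by exact_mod_cast hn
  have hn0 : (0 : ℝ) < n := by linarith
  have hD : (0 : ℝ) < (4 * h + 4) * (A + 2 * h + 31) := by positivity
  have hμ0 : 0 < μ := by rw [hμ]; positivity
  have hμ1 : μ ≤ 1 := by
    rw [hμ, div_le_one hD]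
    have h1 : (0 : ℝ) ≤ h := Nat.cast_nonneg h
    have h2 : (0 : ℝ) ≤ A := Nat.cast_nonneg A
    nlinarith
  have hpow : ∀ k : ℕ, ((n : ℝ) ^ μ) ^ k = (n : ℝ) ^ (μ * k) := by
    intro k
    rw [Real.rpow_mul hn0.le, Real.rpow_natCast]
  have hℓ1 : 1 ≤ (n : ℝ) ^ μ := Real.one_le_rpow hn' hμ0.le
  have hℓn : (n : ℝ) ^ μ ≤ n := by
    calc (n : ℝ) ^ μ ≤ (n : ℝ) ^ (1 : ℝ) := Real.rpow_le_rpow_of_exponent_le hn' hμ1
      _ = n := Real.rpow_one _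
  have hpn0 : 0 < p * n := by positivity
  have hbig : ((n : ℝ) ^ μ) ^ (2 * (A + 2 * h + 31)) ≤ p * n := by
    rw [← pow_le_pow_iff_left₀ (by positivity) hpn0.le (show 2 * h + 2 ≠ 0 by omega)]
    refine le_trans (le_of_eq ?_) hlow
    rw [← pow_mul, hpow]
    have : μ * ((2 * (A + 2 * h + 31) * (2 * h + 2) : ℕ) : ℝ) = 1 := by
      rw [hμ]
      push_cast
      field_simp
      ring
    rw [this, Real.rpow_one]
  have hpn1 : 1 ≤ p * n := le_trans (one_le_pow₀ hℓ1) hbig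
  have hup' : (p * n) ^ (2 * h + 2) ≤ (n : ℝ) ^ μ * n := by
    refine hup.trans (le_of_eq ?_)
    rw [Real.rpow_add hn0, Real.rpow_one, mul_comm]
  refine ⟨hℓ1, hℓn, hbig, ?_, hup', ?_⟩
  · have h1 : ((p * n) ^ 2) ^ 2 ≤ (n : ℝ) ^ 2 := by
      calc ((p * n) ^ 2) ^ 2 = (p * n) ^ 4 := by ring
        _ ≤ (p * n) ^ (2 * h + 2) := pow_le_pow_right₀ hpn1 (by omega)
        _ ≤ (n : ℝ) ^ μ * n := hup'
        _ ≤ n * n := mul_le_mul_of_nonneg_right hℓn hn0.le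
        _ = (n : ℝ) ^ 2 := by ring
    exact (pow_le_pow_iff_left₀ (by positivity) hn0.le two_ne_zero).1 h1
  · rw [hpow]
    have h1 : (4 : ℝ) ≤ μ * (⌈4 / μ⌉₊ : ℝ) := by
      have h2 := Nat.le_ceil (4 / μ)
      have h3 : μ * (4 / μ) = 4 := by field_simp
      calc (4 : ℝ) = μ * (4 / μ) := h3.symm
        _ ≤ _ := mul_le_mul_of_nonneg_left h2 hμ0.le
    calc (n : ℝ) ^ 4 = (n : ℝ) ^ ((4 : ℕ) : ℝ) := (Real.rpow_natCast _ 4).symm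
      _ ≤ _ := by
        apply Real.rpow_le_rpow_of_exponent_le hn'
        exact_mod_cast h1

/-- the union bound -/
theorem goodb (hh : ℕ) (κ n : ℕ) (p ℓ ε : ℝ) (P X : Finset (Fin n)) (H : Finset (Sym2 (Fin n)))
    (h0 : 0 ≤ p) (h1 : p ≤ 1)
    (e1 : Pr (prs2 P (univ \ P)) p (fun S => ¬ ((∀ v, ((nb S univ v).card : ℝ) ≤ 8 * (p * n)) ∧
      (∀ v ∈ P, (1 - ε) * (p * (univ \ P).card) ≤ ((nb S univ v).card : ℝ)) ∧
      ∀ v ∉ P, (1 - ε) * (p * P.card) ≤ ((nb S univ v).card : ℝ))) ≤ 1 / 64)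
    (e2 : Pr (prs2 P (univ \ P)) p (fun S => ¬ ∀ v ∈ P, (nb S X v).card ≤ κ) ≤ 1 / 64)
    (e4 : Pr (prs2 P (univ \ P)) p (fun S => (∀ v, ((nb S univ v).card : ℝ) ≤ 8 * (p * n)) ∧
      ¬ B4 n p ℓ P X S) ≤ 1 / 64)
    (e5 : Pr (prs2 P (univ \ P)) p (fun S => (∀ v, ((nb S univ v).card : ℝ) ≤ 8 * (p * n)) ∧
      ¬ B5 hh n ℓ P X S) ≤ 1 / 64)
    (e6 : Pr (prs2 P (univ \ P)) p (fun S => (∀ v, ((nb S univ v).card : ℝ) ≤ 8 * (p * n)) ∧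
      ¬ B6 hh n ℓ X H S) ≤ 1 / 64)
    (e7 : Pr (prs2 P (univ \ P)) p (fun S => ((∀ v, ((nb S univ v).card : ℝ) ≤ 8 * (p * n)) ∧
      (∀ v ∈ P, (nb S X v).card ≤ κ) ∧ B4 n p ℓ P X S) ∧ ¬ B7 hh n p ℓ P X H S) ≤ 1 / 64) :
    Pr (prs2 P (univ \ P)) p (fun S => ¬ GoodB hh κ n p ℓ ε P X H S) ≤ 1 / 8 := by
  set E := prs2 P (univ \ P) with hE
  have key : Pr E p (fun S => ¬ GoodB hh κ n p ℓ ε P X H S) ≤
      Pr E p (fun S => (¬ ((∀ v, ((nb S univ v).card : ℝ) ≤ 8 * (p * n)) ∧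
        (∀ v ∈ P, (1 - ε) * (p * (univ \ P).card) ≤ ((nb S univ v).card : ℝ)) ∧
        ∀ v ∉ P, (1 - ε) * (p * P.card) ≤ ((nb S univ v).card : ℝ))) ∨
        ((¬ ∀ v ∈ P, (nb S X v).card ≤ κ) ∨
        (((∀ v, ((nb S univ v).card : ℝ) ≤ 8 * (p * n)) ∧ ¬ B4 n p ℓ P X S) ∨
        (((∀ v, ((nb S univ v).card : ℝ) ≤ 8 * (p * n)) ∧ ¬ B5 hh n ℓ P X S) ∨
        (((∀ v, ((nb S univ v).card : ℝ) ≤ 8 * (p * n)) ∧ ¬ B6 hh n ℓ X H S) ∨
        (((∀ v, ((nb S univ v).card : ℝ) ≤ 8 * (p * n)) ∧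
        (∀ v ∈ P, (nb S X v).card ≤ κ) ∧ B4 n p ℓ P X S) ∧ ¬ B7 hh n p ℓ P X H S)))))) := by
    apply Pr_mono h0 h1
    intro S hS hbad
    by_contra hcon
    push Not at hcon
    obtain ⟨a1, a2, a4, a5, a6, a7⟩ := hcon
    exact hbad ⟨hS, a1.1, a1.2.1, a1.2.2, a2, a4 a1.1, a5 a1.1, a6 a1.1,
      a7 ⟨a1.1, a2, a4 a1.1⟩⟩
  refine key.trans ?_
  refine (Pr_or_le h0 h1 _ _).trans ?_
  have f2 := Pr_or_le (E := E) h0 h1 (fun S => ¬ ∀ v ∈ P, (nb S X v).card ≤ κ)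
    (fun S => (((∀ v, ((nb S univ v).card : ℝ) ≤ 8 * (p * n)) ∧ ¬ B4 n p ℓ P X S) ∨
        (((∀ v, ((nb S univ v).card : ℝ) ≤ 8 * (p * n)) ∧ ¬ B5 hh n ℓ P X S) ∨
        (((∀ v, ((nb S univ v).card : ℝ) ≤ 8 * (p * n)) ∧ ¬ B6 hh n ℓ X H S) ∨
        (((∀ v, ((nb S univ v).card : ℝ) ≤ 8 * (p * n)) ∧
        (∀ v ∈ P, (nb S X v).card ≤ κ) ∧ B4 n p ℓ P X S) ∧ ¬ B7 hh n p ℓ P X H S)))))
  have f3 := Pr_or_le (E := E) h0 h1
    (fun S => (∀ v, ((nb S univ v).card : ℝ) ≤ 8 * (p * n)) ∧ ¬ B4 n p ℓ P X S)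
    (fun S => (((∀ v, ((nb S univ v).card : ℝ) ≤ 8 * (p * n)) ∧ ¬ B5 hh n ℓ P X S) ∨
        (((∀ v, ((nb S univ v).card : ℝ) ≤ 8 * (p * n)) ∧ ¬ B6 hh n ℓ X H S) ∨
        (((∀ v, ((nb S univ v).card : ℝ) ≤ 8 * (p * n)) ∧
        (∀ v ∈ P, (nb S X v).card ≤ κ) ∧ B4 n p ℓ P X S) ∧ ¬ B7 hh n p ℓ P X H S))))
  have f4 := Pr_or_le (E := E) h0 h1
    (fun S => (∀ v, ((nb S univ v).card : ℝ) ≤ 8 * (p * n)) ∧ ¬ B5 hh n ℓ P X S)
    (fun S => (((∀ v, ((nb S univ v).card : ℝ) ≤ 8 * (p * n)) ∧ ¬ B6 hh n ℓ X H S) ∨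
        (((∀ v, ((nb S univ v).card : ℝ) ≤ 8 * (p * n)) ∧
        (∀ v ∈ P, (nb S X v).card ≤ κ) ∧ B4 n p ℓ P X S) ∧ ¬ B7 hh n p ℓ P X H S)))
  have f5 := Pr_or_le (E := E) h0 h1
    (fun S => (∀ v, ((nb S univ v).card : ℝ) ≤ 8 * (p * n)) ∧ ¬ B6 hh n ℓ X H S)
    (fun S => (((∀ v, ((nb S univ v).card : ℝ) ≤ 8 * (p * n)) ∧
        (∀ v ∈ P, (nb S X v).card ≤ κ) ∧ B4 n p ℓ P X S) ∧ ¬ B7 hh n p ℓ P X H S))
  linarith

end LowBL

open LowBL in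
theorem lowb (hP : S_PLANT) (hD : S_DET2) (h1 : S_GLOW) (h2 : S_GFEW) (h4 : S_GB4)
    (h5 : S_GB5) (h6 : S_GB6) (h7 : S_GB7) : S_LOWB := by
  intro h C ε hh hC hε
  obtain ⟨A, hA⟩ := hP h C hh hC
  set μ : ℝ := 1 / ((4 * h + 4) * (A + 2 * h + 31)) with hμ
  have hμ0 : 0 < μ := by rw [hμ]; positivity
  set κ : ℕ := ⌈4 / μ⌉₊ with hκ
  have hκ1 : 1 ≤ κ := Nat.one_le_iff_ne_zero.2 (Nat.ceil_pos.2 (by positivity)).ne'
  set ε' : ℝ := min (ε / 2) (1 / 2) with hε'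
  have hε'0 : 0 < ε' := by rw [hε']; positivity
  have hε'1 : ε' ≤ ε / 2 := min_le_left _ _
  have hε'2 : ε' ≤ 1 / 2 := min_le_right _ _
  obtain ⟨Λ0, hΛ0, H0⟩ := hA κ hκ1
  obtain ⟨Λ1, hΛ1, H1⟩ := h1 h κ ε' hh hκ1 hε'0
  obtain ⟨Λ2, hΛ2, H2⟩ := h2 h κ hh hκ1
  obtain ⟨Λ4, hΛ4, H4⟩ := h4 h κ hh hκ1
  obtain ⟨Λ5, hΛ5, H5⟩ := h5 h κ hh hκ1
  obtain ⟨Λ6, hΛ6, H6⟩ := h6 h κ hh hκ1
  obtain ⟨Λ7, hΛ7, H7⟩ := h7 h κ hh hκ1
  set c : ℝ := 4 * (1 + κ + (2 * h + 2)) / ε with hc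
  have hc0 : 0 ≤ c := by positivity
  set Λ : ℝ := 3 + Λ0 + Λ1 + Λ2 + Λ4 + Λ5 + Λ6 + Λ7 + c with hΛ
  obtain ⟨N, hN⟩ := evt μ Λ hμ0 (by linarith)
  refine ⟨μ, hμ0, N, ?_⟩
  intro n p hn hp hp1 hlow hup
  obtain ⟨hn1, hnΛ, hnlog⟩ := hN n hn
  obtain ⟨hℓ1, hℓn, hbig, hsq, hm2, hkap⟩ := facts h A n p μ hh hμ hn1 hp hlow hup
  set ℓ : ℝ := (n : ℝ) ^ μ with hℓ
  have hn1' : (1 : ℝ) ≤ n := by exact_mod_cast hn1
  have hℓ0 : 0 < ℓ := by linarith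
  have hℓ3 : 3 ≤ ℓ := by linarith
  have hn3 : 3 ≤ n := by
    have : (3 : ℝ) ≤ n := hℓ3.trans hℓn
    exact_mod_cast this
  have hpn : 0 < p * n := by positivity
  -- the side `P`
  set P : Finset (Fin n) := univ.filter (fun v => v.val < n / 2) with hPdef
  have hPc : P.card = n / 2 := by
    rw [hPdef, Fin.card_filter_val_lt]
    omega
  have hVc : (univ \ P).card = n - n / 2 := by
    rw [card_sdiff_of_subset (subset_univ P), hPc, card_univ, Fintype.card_fin]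
  have hPr : (n : ℝ) / 2 - 1 / 2 ≤ (P.card : ℝ) := by
    rw [hPc]
    have : n ≤ 2 * (n / 2) + 1 := by omega
    have h' : (n : ℝ) ≤ 2 * ((n / 2 : ℕ) : ℝ) + 1 := by exact_mod_cast this
    linarith
  have hVr : (n : ℝ) / 2 ≤ ((univ \ P).card : ℝ) := by
    rw [hVc]
    have : n ≤ 2 * (n - n / 2) := by omega
    have h' : (n : ℝ) ≤ 2 * ((n - n / 2 : ℕ) : ℝ) := by exact_mod_cast this
    linarith
  have hb1 : (n : ℝ) ≤ 3 * P.card := by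
    rw [hPc]
    have : n ≤ 3 * (n / 2) := by omega
    exact_mod_cast this
  have hb2 : (n : ℝ) ≤ 3 * (univ \ P).card := by
    linarith
  set V₀ : Finset (Fin n) := univ \ P with hV0
  -- powers of `ℓ`
  have hpw : ∀ k : ℕ, k ≤ 2 * (A + 2 * h + 31) → ℓ ^ k ≤ p * n := fun k hk =>
    le_trans (pow_le_pow_right₀ hℓ1 hk) hbig
  have hΛℓ : Λ ≤ ℓ := hnΛ
  have hNum : NumB h κ n p ℓ Λ :=
    ⟨hp, hp1, hκ1, hn1, hΛℓ, hnlog, hkap, hpw _ (by omega), hm2⟩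
  -- planted graph
  have hplant := H0 n p ℓ V₀ hp hp1 (by linarith) (le_trans (mul_le_mul_of_nonneg_right
      (by linarith) (Real.log_natCast_nonneg n)) hnlog)
    (le_trans (pow_le_pow_right₀ hn1' (by norm_num)) hkap)
    (by
      have e1 : ℓ ^ A * 3 ≤ p * n := by
        calc ℓ ^ A * 3 ≤ ℓ ^ A * ℓ := mul_le_mul_of_nonneg_left hℓ3 (by positivity)
          _ = ℓ ^ (A + 1) := by ring
          _ ≤ p * n := hpw _ (by omega)
      have e2 : p * n ≤ p * (3 * V₀.card) := mul_le_mul_of_nonneg_left hb2 hp.le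
      linarith)
    (by
      have e1 : ℓ ^ A ≤ p * n := hpw _ (by omega)
      have e2 : p * ℓ ^ A * n ≤ 1 * n := by
        calc p * ℓ ^ A * n ≤ p * (p * n) * n :=
              mul_le_mul_of_nonneg_right (mul_le_mul_of_nonneg_left e1 hp.le) (by positivity)
          _ = (p * n) ^ 2 := by ring
          _ ≤ n := hsq
          _ = 1 * n := by ring
      exact le_of_mul_le_mul_right e2 (by positivity))
  set E1 : Finset (Sym2 (Fin n)) := prs2 V₀ V₀ with hE1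
  set E2 : Finset (Sym2 (Fin n)) := prs2 P V₀ with hE2
  have hsub : ∀ X Y : Finset (Fin n), prs2 X Y ⊆ allE n := by
    intro X Y e he
    simp only [prs2, mem_image, mem_filter, mem_product] at he
    obtain ⟨q, ⟨_, hq⟩, rfl⟩ := he
    exact mem_allE.2 hq
  have hdisj : Disjoint E1 E2 := by
    rw [Finset.disjoint_left]
    intro e he he'
    simp only [hE1, hE2, prs2, mem_image, mem_filter, mem_product] at he he'
    obtain ⟨q, ⟨⟨hq1, hq2⟩, _⟩, rfl⟩ := he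
    obtain ⟨q', ⟨⟨hq1', hq2'⟩, _⟩, h'⟩ := he'
    rw [Sym2.eq_iff] at h'
    rcases h' with ⟨h1', h2'⟩ | ⟨h1', h2'⟩
    · rw [h1'] at hq1'
      exact (mem_sdiff.1 hq1).2 hq1'
    · rw [h1'] at hq1'
      exact (mem_sdiff.1 hq2).2 hq1'
  -- the bad event
  set Good : Finset (Sym2 (Fin n)) → Prop := fun S => ∃ G : SimpleGraph (Fin n),
    G ≤ SimpleGraph.fromEdgeSet (S : Set (Sym2 (Fin n))) ∧
    ¬ (SimpleGraph.cycleGraph (2 * h + 5)).IsContained G ∧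
    (∀ v, (1 / 2 - ε) * (p * n) ≤ ((G.neighborSet v).ncard : ℝ)) ∧ ¬ G.Colorable C with hGood
  have hmono : ∀ S S' : Finset (Sym2 (Fin n)), S ⊆ S' → Good S → Good S' := by
    rintro S S' hSS ⟨G, hG1, hG2, hG3, hG4⟩
    refine ⟨G, hG1.trans ?_, hG2, hG3, hG4⟩
    exact SimpleGraph.fromEdgeSet_mono (by exact_mod_cast hSS)
  have hmarg : Pr (allE n) p (fun S => ¬ Good S) ≤ Pr (E1 ∪ E2) p (fun S => ¬ Good S) := by
    rw [← Pr_marg (E := allE n) (E1 := E1 ∪ E2) (union_subset (hsub _ _) (hsub _ _)) p]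
    apply Pr_mono hp.le hp1
    intro S _ hS hS'
    exact hS (hmono _ _ inter_subset_left hS')
  refine hmarg.trans ?_
  have hfub := Pr_fub hdisj hp.le hp1 (fun S => ¬ Good S)
    (fun S => ∃ X ⊆ V₀, ∃ H ⊆ S, H ⊆ prs2 X X ∧ (X.card : ℝ) * p * ℓ ^ 8 ≤ 1 ∧
    (∀ v, ((nb H univ v).card : ℝ) ≤ ℓ) ∧ NoCyc (2 * h + 5) H ∧
    ¬ (SimpleGraph.fromEdgeSet (H : Set (Sym2 (Fin n)))).Colorable C) (1 / 8) (1 / 8)
    (by norm_num) hplant ?_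
  · refine hfub.trans (by norm_num)
  · rintro S1 hS1 ⟨X, hX, H, hHS, hHX, hXc, hHd, hHc, hHcol⟩
    have hSet : SetB n p ℓ P X H := ⟨hb1, hb2, hX, hXc, hHX, hHd⟩
    have hgood := goodb h κ n p ℓ ε' P X H hp.le hp1
      (H1 n p ℓ (numB_mono hNum (by linarith)) P hb1 hb2)
      (H2 n p ℓ (numB_mono hNum (by linarith)) P X H hSet)
      (H4 n p ℓ (numB_mono hNum (by linarith)) P X H hSet)
      (H5 n p ℓ (numB_mono hNum (by linarith)) P X H hSet)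
      (H6 n p ℓ (numB_mono hNum (by linarith)) P X H hSet)
      (H7 n p ℓ (numB_mono hNum (by linarith)) P X H hSet)
    refine le_trans (Pr_mono hp.le hp1 ?_) hgood
    intro S2 hS2 hbad hgb
    apply hbad
    have hPX : Disjoint P X := by
      rw [Finset.disjoint_left]
      intro v hv hv'
      exact (mem_sdiff.1 (hX hv')).2 hv
    obtain ⟨G, hG1, hG2, hG3, hG4, hG5⟩ := hD h κ n p ℓ ε' P X H S2 hh hp hℓ1 hPX hHX hHd hHc hgb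
    have hcℓ : (1 + κ + (2 * h + 2)) / ℓ ≤ ε / 4 := by
      have h' : c ≤ ℓ := by linarith
      rw [hc, div_le_iff₀ hε] at h'
      rw [div_le_iff₀ hℓ0]
      linarith
    have hpnℓ : (1 + κ + (2 * h + 2)) * (p * n / ℓ) ≤ ε / 4 * (p * n) := by
      have := mul_le_mul_of_nonneg_right hcℓ hpn.le
      calc (1 + κ + (2 * h + 2)) * (p * n / ℓ) = (1 + κ + (2 * h + 2)) / ℓ * (p * n) := by ring
        _ ≤ _ := this
    have hq0 : 0 < p * n / ℓ := by positivity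
    have hq1 : 1 ≤ p * n / ℓ := by
      rw [le_div_iff₀ hℓ0, one_mul]
      calc ℓ = ℓ ^ 1 := (pow_one ℓ).symm
        _ ≤ p * n := hpw 1 (by omega)
    have hκ0 : (0 : ℝ) ≤ κ := Nat.cast_nonneg κ
    have hh0 : (0 : ℝ) ≤ h := Nat.cast_nonneg h
    refine ⟨G, hG1.trans ?_, hG3, ?_, ?_⟩
    · apply SimpleGraph.fromEdgeSet_mono
      have : (S2 ∪ H : Finset (Sym2 (Fin n))) ⊆ S1 ∪ S2 :=
        union_subset subset_union_right (hHS.trans subset_union_left)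
      exact_mod_cast this
    · intro v
      by_cases hv : v ∈ P
      · refine le_trans ?_ (hG4 v hv)
        have a1 : p * n / ℓ ^ 2 ≤ p * n / ℓ := by
          apply div_le_div_of_nonneg_left hpn.le hℓ0
          calc ℓ = ℓ ^ 1 := (pow_one ℓ).symm
            _ ≤ ℓ ^ 2 := pow_le_pow_right₀ hℓ1 (by norm_num)
        have a2 : (1 - ε') * (p * (n / 2)) ≤ (1 - ε') * (p * V₀.card) :=
          mul_le_mul_of_nonneg_left (mul_le_mul_of_nonneg_left hVr hp.le) (by linarith)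
        have a3 : (1 - ε / 2) * (p * (n / 2)) ≤ (1 - ε') * (p * (n / 2)) :=
          mul_le_mul_of_nonneg_right (by linarith) (by positivity)
        have a4 : (κ : ℝ) ≤ κ * (p * n / ℓ) := by nlinarith
        have a5 : 0 ≤ (2 * (h : ℝ) + 2) * (p * n / ℓ) := by positivity
        have a6 : 0 ≤ ε * (p * n) := by positivity
        linarith
      · refine le_trans ?_ (hG5 v hv)
        have a1 : κ * (p * n) / ℓ ^ 4 ≤ κ * (p * n / ℓ) := by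
          rw [mul_div_assoc]
          apply mul_le_mul_of_nonneg_left _ hκ0
          apply div_le_div_of_nonneg_left hpn.le hℓ0
          calc ℓ = ℓ ^ 1 := (pow_one ℓ).symm
            _ ≤ ℓ ^ 4 := pow_le_pow_right₀ hℓ1 (by norm_num)
        have a2 : (1 - ε') * (p * (n / 2 - 1 / 2)) ≤ (1 - ε') * (p * P.card) :=
          mul_le_mul_of_nonneg_left (mul_le_mul_of_nonneg_left hPr hp.le) (by linarith)
        have a3 : (1 - ε / 2) * (p * (n / 2)) ≤ (1 - ε') * (p * (n / 2)) :=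
          mul_le_mul_of_nonneg_right (by linarith) (by positivity)
        have a4 : (1 - ε') * (p / 2) ≤ p * n / ℓ := by
          have : (1 - ε') * (p / 2) ≤ 1 := by nlinarith
          linarith
        have a5 : (2 * (h : ℝ) + 2) * ℓ ^ (2 * h + 7) ≤ (2 * h + 2) * (p * n / ℓ) := by
          apply mul_le_mul_of_nonneg_left _ (by positivity)
          rw [le_div_iff₀ hℓ0]
          calc ℓ ^ (2 * h + 7) * ℓ = ℓ ^ (2 * h + 8) := by ring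
            _ ≤ p * n := hpw _ (by omega)
        have a6 : 0 ≤ ε * (p * n) := by positivity
        linarith
    · intro hcol
      exact hHcol (hcol.mono_left hG2)

end Pool.Agent.H973.CT
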