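import Pool.Agent.H973.CT.Stm3

set_option autoImplicit false

/-! [MAINA] probability of the main bad event. -/

namespace Pool.Agent.H973.CT

open Finset Classical Pool.Agent.W166.Gnp

namespace MainAL

/-- number of the small subsets -/
theorem card_small {α : Type} [Fintype α] (b : ℕ) :
    ((univ : Finset (Finset α)).filter (fun B => B.card ≤ b)).card ≤ (Fintype.card α + 1) ^ b := by
  have h1 : ((univ : Finset (Finset α)).filter (fun B => B.card ≤ b)).card ≤
      (univ : Finset (Fin b → Option α)).card := by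
    refine card_le_card_of_surjOn
      (fun f : Fin b → Option α => univ.filter (fun a => ∃ i, f i = some a)) ?_
    intro B hB
    rw [mem_coe, mem_filter] at hB
    have hBc : B.card ≤ b := hB.2
    refine ⟨fun i => if h : (i : ℕ) < B.card then
      some (B.equivFin.symm ⟨i, h⟩ : α) else none, mem_coe.2 (mem_univ _), ?_⟩
    ext a
    rw [mem_filter]
    constructor
    · rintro ⟨_, i, hi⟩
      dsimp only at hi
      by_cases h : (i : ℕ) < B.card
      · rw [dif_pos h] at hi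
        rw [← Option.some.inj hi]
        exact (B.equivFin.symm ⟨i, h⟩).2
      · rw [dif_neg h] at hi
        exact absurd hi (by simp)
    · intro ha
      refine ⟨mem_univ _, ⟨B.equivFin ⟨a, ha⟩, by have := (B.equivFin ⟨a, ha⟩).2; omega⟩, ?_⟩
      dsimp only
      rw [dif_pos (B.equivFin ⟨a, ha⟩).2]
      simp
  refine h1.trans ?_
  rw [card_univ, Fintype.card_fun, Fintype.card_option, Fintype.card_fin]

/-- the same with a real bound -/
theorem card_small' {α : Type} [Fintype α] (b : ℝ) (hb : 0 ≤ b) :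
    ((((univ : Finset (Finset α)).filter (fun B => (B.card : ℝ) ≤ b)).card : ℕ) : ℝ) ≤
      Real.exp (b * Real.log (Fintype.card α + 1)) := by
  have h1 : ((univ : Finset (Finset α)).filter (fun B => (B.card : ℝ) ≤ b)).card ≤
      ((univ : Finset (Finset α)).filter (fun B => B.card ≤ ⌊b⌋₊)).card := by
    apply card_le_card
    intro B hB
    rw [mem_filter] at hB ⊢
    exact ⟨hB.1, Nat.le_floor hB.2⟩
  have h2 : (0 : ℝ) < (Fintype.card α : ℝ) + 1 := by positivity
  calc ((((univ : Finset (Finset α)).filter (fun B => (B.card : ℝ) ≤ b)).card : ℕ) : ℝ)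
      ≤ ((Fintype.card α : ℝ) + 1) ^ ⌊b⌋₊ := by exact_mod_cast h1.trans (card_small _)
    _ = Real.exp (⌊b⌋₊ * Real.log (Fintype.card α + 1)) := by
        rw [Real.exp_nat_mul, Real.exp_log h2]
    _ ≤ Real.exp (b * Real.log (Fintype.card α + 1)) := by
        apply Real.exp_le_exp.mpr
        apply mul_le_mul_of_nonneg_right (Nat.floor_le hb)
        exact Real.log_nonneg (by have : (0 : ℝ) ≤ Fintype.card α := Nat.cast_nonneg _; linarith)

theorem card_sym2_le (n : ℕ) : ((Fintype.card (Sym2 (Fin n)) : ℕ) : ℝ) + 1 ≤ ((n : ℝ) + 1) ^ 2 := by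
  have h1 : Fintype.card (Sym2 (Fin n)) ≤ n * n := by
    have := Fintype.card_le_of_surjective (fun q : Fin n × Fin n => s(q.1, q.2)) (by
      intro e
      induction e using Sym2.ind with
      | _ x y => exact ⟨(x, y), rfl⟩)
    rwa [Fintype.card_prod, Fintype.card_fin] at this
  have h2 : ((Fintype.card (Sym2 (Fin n)) : ℕ) : ℝ) ≤ n * n := by exact_mod_cast h1
  have h3 : (0 : ℝ) ≤ n := Nat.cast_nonneg _
  nlinarith

/-- number of the indices -/
theorem card_idx {n : ℕ} {γ p L : ℝ} (hp : 0 ≤ p) :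
    (((IdxA γ n p L).card : ℕ) : ℝ) ≤
      Real.exp (n + 2 * (11 * (p * n) * n / L ^ 2) * Real.log (n + 1)) := by
  have hb : 0 ≤ 11 * (p * n) * n / L ^ 2 := by positivity
  have h1 : (IdxA γ n p L).card ≤ ((univ : Finset (Finset (Fin n))) ×ˢ
      (univ : Finset (Finset (Sym2 (Fin n)))).filter
        (fun B => (B.card : ℝ) ≤ 11 * (p * n) * n / L ^ 2)).card := by
    apply card_le_card
    intro k hk
    unfold IdxA at hk
    rw [mem_filter] at hk
    rw [mem_product, mem_filter]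
    exact ⟨mem_univ _, mem_univ _, hk.2.2⟩
  rw [card_product] at h1
  have h2 := card_small' (α := Sym2 (Fin n)) _ hb
  have h3 : ((univ : Finset (Finset (Fin n))).card : ℝ) ≤ Real.exp n := by
    rw [card_univ, Fintype.card_finset, Fintype.card_fin]
    push_cast
    calc (2 : ℝ) ^ n ≤ (Real.exp 1) ^ n := by
          apply pow_le_pow_left₀ (by norm_num)
          have := Real.add_one_le_exp (1 : ℝ)
          linarith
      _ = Real.exp n := by rw [← Real.exp_nat_mul, mul_one]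
  have h4 : Real.log ((Fintype.card (Sym2 (Fin n)) : ℕ) + 1) ≤ 2 * Real.log (n + 1) := by
    have h5 : (0 : ℝ) < ((Fintype.card (Sym2 (Fin n)) : ℕ) : ℝ) + 1 := by positivity
    calc Real.log ((Fintype.card (Sym2 (Fin n)) : ℕ) + 1) ≤ Real.log (((n : ℝ) + 1) ^ 2) :=
          Real.log_le_log h5 (card_sym2_le n)
      _ = 2 * Real.log (n + 1) := by rw [Real.log_pow]; norm_num
  calc (((IdxA γ n p L).card : ℕ) : ℝ) ≤ ((univ : Finset (Finset (Fin n))).card : ℝ) *
        ((((univ : Finset (Finset (Sym2 (Fin n)))).filter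
        (fun B => (B.card : ℝ) ≤ 11 * (p * n) * n / L ^ 2)).card : ℕ) : ℝ) := by
        exact_mod_cast h1
    _ ≤ Real.exp n * Real.exp (11 * (p * n) * n / L ^ 2 *
        Real.log ((Fintype.card (Sym2 (Fin n)) : ℕ) + 1)) :=
        mul_le_mul h3 h2 (Nat.cast_nonneg _) (Real.exp_pos _).le
    _ ≤ Real.exp n * Real.exp (11 * (p * n) * n / L ^ 2 * (2 * Real.log (n + 1))) := by
        apply mul_le_mul_of_nonneg_left _ (Real.exp_pos _).le
        apply Real.exp_le_exp.mpr
        exact mul_le_mul_of_nonneg_left h4 hb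
    _ = _ := by
        rw [← Real.exp_add]
        congr 1
        ring

/-- number of the containers -/
theorem card_cs {h n : ℕ} {d γ CP p L : ℝ} (hq : 0 ≤ n / Dc h d γ CP n p L)
    (k : Finset (Fin n) × Finset (Sym2 (Fin n))) :
    (((CsA h d γ CP n p L k).card : ℕ) : ℝ) ≤
      Real.exp (1 + n / Dc h d γ CP n p L * Real.log (n + 1)) := by
  have h1 : (CsA h d γ CP n p L k).card ≤ (((univ : Finset (Finset (Fin n))).filter
      (fun T => (T.card : ℝ) ≤ n / Dc h d γ CP n p L)) ×ˢ (univ : Finset Bool)).card := by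
    refine le_trans (card_le_card ?_) (card_image_le (f := fun q : Finset (Fin n) × Bool =>
      if q.2 then k.1 \ q.1.biUnion (Rset h k.1 k.2) else k.1.filter (fun z =>
        ((Rset h k.1 k.2 z \ q.1.biUnion (Rset h k.1 k.2)).card : ℝ) < Dc h d γ CP n p L)))
    intro C hC
    unfold CsA at hC
    rw [mem_filter] at hC
    obtain ⟨_, _, T, hT, hC | hC⟩ := hC
    · rw [mem_image]
      refine ⟨(T, true), ?_, ?_⟩
      · rw [mem_product, mem_filter]
        exact ⟨⟨mem_univ _, hT⟩, mem_univ _⟩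
      · rw [hC]; simp
    · rw [mem_image]
      refine ⟨(T, false), ?_, ?_⟩
      · rw [mem_product, mem_filter]
        exact ⟨⟨mem_univ _, hT⟩, mem_univ _⟩
      · rw [hC]; simp
  rw [card_product, card_univ, Fintype.card_bool] at h1
  have h2 := card_small' (α := Fin n) _ hq
  rw [Fintype.card_fin] at h2
  have h3 : (2 : ℝ) ≤ Real.exp 1 := by
    have := Real.add_one_le_exp (1 : ℝ)
    linarith
  calc (((CsA h d γ CP n p L k).card : ℕ) : ℝ) ≤ ((((univ : Finset (Finset (Fin n))).filter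
      (fun T => (T.card : ℝ) ≤ n / Dc h d γ CP n p L)).card : ℕ) : ℝ) * 2 := by
        exact_mod_cast h1
    _ ≤ Real.exp (n / Dc h d γ CP n p L * Real.log (n + 1)) * Real.exp 1 :=
        mul_le_mul h2 h3 (by norm_num) (Real.exp_pos _).le
    _ = _ := by rw [← Real.exp_add]; congr 1; ring

/-- the numerical inequality for `q = n / Dc` -/
theorem q_bound {h n : ℕ} {d γ CP p L : ℝ} (hd : 0 < d) (hγ : 0 < γ) (hCP : 0 < CP)
    (hL : 1 ≤ L) (hn : (0 : ℝ) < n) (hm0 : 0 < p * n) (hm : L ^ (4 * h + 6) ≤ p * n)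
    (hm2 : L ^ (4 * h + 6) * n ≤ (p * n) ^ (2 * h + 2)) :
    n / Dc h d γ CP n p L * L ≤
      2 * (4 * CP / ((bet d) ^ 2 * γ ^ 2 * (cq d γ) ^ (2 * h))) * (p * n) ^ 2 := by
  have hbet : 0 < bet d := by unfold bet; positivity
  have hcq : 0 < cq d γ := by unfold cq; positivity
  have hL0 : 0 < L := by linarith
  generalize hme : p * (n : ℝ) = m at *
  have hq : n / Dc h d γ CP n p L = 4 * CP / ((bet d) ^ 2 * γ ^ 2 * (cq d γ) ^ (2 * h)) *
      (L ^ (4 * h + 1) * (n / m ^ (2 * h) + 1)) := by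
    unfold Dc
    rw [hme]
    have e1 : (cq d γ * m ^ 2 / L ^ 2) ^ h = (cq d γ) ^ h * m ^ (2 * h) / L ^ (2 * h) := by
      rw [div_pow, mul_pow, ← pow_mul, ← pow_mul]
    rw [e1]
    have e2 : m ^ (4 * h) = m ^ (2 * h) * m ^ (2 * h) := by rw [← pow_add]; congr 1; ring
    have e3 : L ^ (4 * h + 1) = L ^ (2 * h) * L ^ (2 * h) * L := by
      rw [← pow_add, ← pow_succ]; congr 1; ring
    have e4 : (cq d γ) ^ (2 * h) = (cq d γ) ^ h * (cq d γ) ^ h := by
      rw [← pow_add]; congr 1; ring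
    rw [e2, e3, e4]
    have f1 : 0 < m ^ (2 * h) := by positivity
    have f2 : 0 < L ^ (2 * h) := by positivity
    have f3 : 0 < (cq d γ) ^ h := by positivity
    generalize m ^ (2 * h) = A at *
    generalize L ^ (2 * h) = B at *
    generalize (cq d γ) ^ h = C at *
    field_simp
    ring
  rw [hq]
  have hC₀ : 0 < 4 * CP / ((bet d) ^ 2 * γ ^ 2 * (cq d γ) ^ (2 * h)) := by positivity
  generalize 4 * CP / ((bet d) ^ 2 * γ ^ 2 * (cq d γ) ^ (2 * h)) = C₀ at *
  have hm1 : 1 ≤ m := (one_le_pow₀ hL).trans hm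
  have f1 : 0 < m ^ (2 * h) := by positivity
  have g1 : L ^ (4 * h + 2) * (n / m ^ (2 * h)) ≤ m ^ 2 := by
    rw [← mul_div_assoc, div_le_iff₀ f1]
    calc L ^ (4 * h + 2) * n ≤ L ^ (4 * h + 6) * n := by
          apply mul_le_mul_of_nonneg_right _ hn.le
          exact pow_le_pow_right₀ hL (by omega)
      _ ≤ m ^ (2 * h + 2) := hm2
      _ = m ^ 2 * m ^ (2 * h) := by ring
  have g2 : L ^ (4 * h + 2) ≤ m ^ 2 := by
    calc L ^ (4 * h + 2) ≤ L ^ (4 * h + 6) := pow_le_pow_right₀ hL (by omega)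
      _ ≤ m := hm
      _ ≤ m ^ 2 := by nlinarith
  calc C₀ * (L ^ (4 * h + 1) * (n / m ^ (2 * h) + 1)) * L =
        C₀ * (L ^ (4 * h + 2) * (n / m ^ (2 * h)) + L ^ (4 * h + 2)) := by ring
    _ ≤ C₀ * (m ^ 2 + m ^ 2) := by gcongr
    _ = 2 * C₀ * m ^ 2 := by ring

end MainAL

open MainAL in
/-- **S_MAINA** -/
theorem maina (hM : S_MAIN) : S_MAINA := by
  intro h κ d γ CP hh hκ hd hd1 hγ hγ1 hCP
  have hbet : 0 < bet d := by unfold bet; positivity
  have hcq : 0 < cq d γ := by unfold cq; positivity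
  have hC₀ : 0 < 4 * CP / ((bet d) ^ 2 * γ ^ 2 * (cq d γ) ^ (2 * h)) := by positivity
  obtain ⟨C₀, hC₀e⟩ : ∃ C₀, C₀ = 4 * CP / ((bet d) ^ 2 * γ ^ 2 * (cq d γ) ^ (2 * h)) := ⟨_, rfl⟩
  rw [← hC₀e] at hC₀
  obtain ⟨c, hc⟩ : ∃ c, c = d ^ 2 / 576 := ⟨_, rfl⟩
  have hc0 : 0 < c := by rw [hc]; positivity
  have hcγ : 0 < c * γ := by positivity
  refine ⟨1 + (2816 + 64 * C₀) / (c * γ), by
    have : 0 ≤ (2816 + 64 * C₀) / (c * γ) := by positivity
    linarith, ?_⟩
  intro n p L hN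
  obtain ⟨Λ, hΛe⟩ : ∃ Λ, Λ = 1 + (2816 + 64 * C₀) / (c * γ) := ⟨_, rfl⟩
  have hN' := hN
  rw [← hΛe] at hN'
  have hp := hN.hp
  have hn : (1 : ℝ) ≤ n := by exact_mod_cast hN.hn
  have hn0 : (0 : ℝ) < n := by linarith
  have hΛ1 : 1 ≤ Λ := by
    rw [hΛe]
    have : 0 ≤ (2816 + 64 * C₀) / (c * γ) := by positivity
    linarith
  have hΛ2 : 2816 + 64 * C₀ ≤ c * γ * Λ := by
    rw [hΛe]
    have e1 : c * γ * (1 + (2816 + 64 * C₀) / (c * γ)) = c * γ + (2816 + 64 * C₀) := by
      field_simp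
    rw [e1]
    linarith
  have hL1 : 1 ≤ L := hΛ1.trans hN'.hΛ
  have hL0 : 0 < L := by linarith
  have hm0 : 0 < p * n := by positivity
  have hqb := q_bound (h := h) (CP := CP) (p := p) hd hγ hCP hL1 hn0 hm0 hN.hm hN.hm2
  rw [← hC₀e] at hqb
  have hq0 : 0 ≤ n / Dc h d γ CP n p L := by
    apply div_nonneg hn0.le
    unfold Dc
    positivity
  -- the number `s₁`
  have hs0 : 1 / (2 * (p * L)) ≤ (s0 p L : ℝ) := by
    have h2 : 2 * (p * L) ≤ 1 := by
      have h3 := hN.hm3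
      have h4 : (2 * (p * L)) * n ≤ 1 * n := by
        calc (2 * (p * L)) * n = 2 * L * (p * n) := by ring
          _ ≤ n := h3
          _ = 1 * n := (one_mul _).symm
      exact le_of_mul_le_mul_right h4 hn0
    have hpL : 0 < p * L := by positivity
    have h5 : 1 ≤ 1 / (2 * (p * L)) := by
      rw [le_div_iff₀ (by positivity)]; linarith
    have h6 : 1 / (p * L) < (s0 p L : ℝ) + 1 := Nat.lt_floor_add_one _
    have h7 : 1 / (p * L) = 2 * (1 / (2 * (p * L))) := by field_simp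
    linarith
  have hs1 : 1 / (4 * (p * L)) ≤ (((s0 p L + 1) / 2 : ℕ) : ℝ) := by
    have h2 : s0 p L ≤ 2 * ((s0 p L + 1) / 2) := by omega
    have h3 : (s0 p L : ℝ) ≤ 2 * (((s0 p L + 1) / 2 : ℕ) : ℝ) := by exact_mod_cast h2
    have hpL : 0 < p * L := by positivity
    have h7 : 1 / (2 * (p * L)) = 2 * (1 / (4 * (p * L))) := by field_simp; norm_num
    linarith
  obtain ⟨s₁, hs₁e⟩ : ∃ s₁, s₁ = (s0 p L + 1) / 2 := ⟨_, rfl⟩
  rw [← hs₁e] at hs1
  obtain ⟨m, hme⟩ : ∃ m, m = p * (n : ℝ) := ⟨_, rfl⟩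
  obtain ⟨q, hqe⟩ : ∃ q, q = n / Dc h d γ CP n p L := ⟨_, rfl⟩
  have hm : L ^ (4 * h + 6) ≤ m := by rw [hme]; exact hN.hm
  have hmL : L ^ 3 ≤ m := (pow_le_pow_right₀ hL1 (by omega)).trans hm
  have hm1 : 1 ≤ m := (one_le_pow₀ hL1).trans hm
  have hs1m : m * n / (4 * L) ≤ s₁ * m ^ 2 := by
    have e1 : m * n / (4 * L) = 1 / (4 * (p * L)) * m ^ 2 := by
      rw [hme]; field_simp
    rw [e1]
    gcongr
  have hR : c * γ * (m * n / (4 * L)) / 4 ≤ s₁ * (c * γ * m ^ 2) / 4 := by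
    calc c * γ * (m * n / (4 * L)) / 4 ≤ c * γ * (s₁ * m ^ 2) / 4 := by gcongr
      _ = s₁ * (c * γ * m ^ 2) / 4 := by ring
  have hlog0 : 0 ≤ Real.log (n + 1) := Real.log_nonneg (by linarith)
  have hlog : Λ * Real.log (n + 1) ≤ L := hN'.hlog
  have hLΛ : Λ ≤ L := hN'.hΛ
  -- the basic inequality: `c γ m n ≥ (2816 + 64 C₀) n L * L`
  have b0 : (2816 + 64 * C₀) * L ^ 2 ≤ c * γ * m := by
    calc (2816 + 64 * C₀) * L ^ 2 ≤ (c * γ * Λ) * L ^ 2 := by gcongr
      _ ≤ (c * γ * L) * L ^ 2 := by gcongr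
      _ = c * γ * L ^ 3 := by ring
      _ ≤ c * γ * m := by gcongr
  have b1 : 2816 * L ^ 2 ≤ c * γ * m := by
    have : 0 ≤ 64 * C₀ * L ^ 2 := by positivity
    linarith
  obtain ⟨R, hRe⟩ : ∃ R, R = s₁ * (c * γ * m ^ 2) / 4 := ⟨_, rfl⟩
  rw [← hRe] at hR
  have hR' : c * γ * m * n ≤ 16 * L * R := by
    have e1 : c * γ * (m * n / (4 * L)) / 4 = c * γ * m * n / (16 * L) := by
      field_simp; norm_num
    rw [e1, div_le_iff₀ (by positivity)] at hR
    linarith
  -- term 1, 2, 3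
  have t1 : (n : ℝ) * L ≤ R / 8 := by
    have e1 : 2816 * L ^ 2 * n ≤ 16 * L * R := (mul_le_mul_of_nonneg_right b1 hn0.le).trans hR'
    have e2 : L * (2816 * (n * L)) ≤ L * (16 * R) := by
      calc L * (2816 * (n * L)) = 2816 * L ^ 2 * n := by ring
        _ ≤ 16 * L * R := e1
        _ = L * (16 * R) := by ring
    have e3 := le_of_mul_le_mul_left e2 hL0
    have e4 : 0 ≤ (n : ℝ) * L := by positivity
    linarith
  have t2 : (n : ℝ) ≤ R / 8 := (le_mul_of_one_le_right hn0.le hL1).trans t1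
  have hlogL : Real.log (n + 1) ≤ L := (le_mul_of_one_le_left hlog0 hΛ1).trans hlog
  have t3 : (n : ℝ) * Real.log (n + 1) ≤ R / 8 :=
    (mul_le_mul_of_nonneg_left hlogL hn0.le).trans t1
  -- term 4
  have t4 : 2 * (11 * m * n / L ^ 2) * Real.log (n + 1) ≤ R / 8 := by
    have e1 : (11 * m * n / L ^ 2) * L ^ 2 = 11 * m * n := by field_simp
    have e2 : 0 ≤ 11 * m * n / L ^ 2 := by positivity
    generalize 11 * m * n / L ^ 2 = b at *
    -- `2816 b log ≤ c γ Λ b log ≤ c γ b L`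
    have e3 : 2816 * (b * Real.log (n + 1)) ≤ c * γ * (b * L) := by
      calc 2816 * (b * Real.log (n + 1)) ≤ (c * γ * Λ) * (b * Real.log (n + 1)) := by
            apply mul_le_mul_of_nonneg_right _ (mul_nonneg e2 hlog0)
            have : 0 ≤ 64 * C₀ := by positivity
            linarith
        _ = c * γ * (b * (Λ * Real.log (n + 1))) := by ring
        _ ≤ c * γ * (b * L) := by gcongr
    have e4 : L * (2816 * (b * Real.log (n + 1))) ≤ L * (176 * R) := by
      calc L * (2816 * (b * Real.log (n + 1))) ≤ L * (c * γ * (b * L)) := by gcongr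
        _ = c * γ * (b * L ^ 2) := by ring
        _ = 11 * (c * γ * m * n) := by rw [e1]; ring
        _ ≤ 11 * (16 * L * R) := by gcongr
        _ = L * (176 * R) := by ring
    have e5 := le_of_mul_le_mul_left e4 hL0
    have e6 : 2 * b * Real.log (n + 1) = 2 * (b * Real.log (n + 1)) := by ring
    rw [e6]
    linarith
  -- term 5
  have hs₁0 : (0 : ℝ) ≤ s₁ := Nat.cast_nonneg _
  have t5 : (s₁ : ℝ) ≤ R / 8 := by
    rw [hRe]
    have e1 : 32 ≤ c * γ * m ^ 2 := by
      have e2 : 1 ≤ L ^ 2 := one_le_pow₀ hL1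
      calc (32 : ℝ) ≤ 2816 * L ^ 2 := by linarith
        _ ≤ c * γ * m := b1
        _ ≤ c * γ * (m * m) := by
            apply mul_le_mul_of_nonneg_left _ hcγ.le
            exact le_mul_of_one_le_left (by linarith) hm1
        _ = c * γ * m ^ 2 := by ring
    have e3 : (s₁ : ℝ) * 32 ≤ s₁ * (c * γ * m ^ 2) := mul_le_mul_of_nonneg_left e1 hs₁0
    linarith
  -- term 6
  have t6 : s₁ * (q * Real.log (n + 1)) ≤ R / 8 := by
    rw [← hqe, ← hme] at hqb
    rw [← hqe] at hq0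
    have e1 : 64 * C₀ * (q * Real.log (n + 1)) ≤ c * γ * (q * L) := by
      calc 64 * C₀ * (q * Real.log (n + 1)) ≤ (c * γ * Λ) * (q * Real.log (n + 1)) := by
            apply mul_le_mul_of_nonneg_right _ (mul_nonneg hq0 hlog0)
            linarith
        _ = c * γ * (q * (Λ * Real.log (n + 1))) := by ring
        _ ≤ c * γ * (q * L) := by gcongr
    have e2 : c * γ * (q * L) ≤ c * γ * (2 * C₀ * m ^ 2) := by gcongr
    have e3 : C₀ * (32 * (q * Real.log (n + 1))) ≤ C₀ * (c * γ * m ^ 2) := by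
      have f1 : C₀ * (32 * (q * Real.log (n + 1))) = (64 * C₀ * (q * Real.log (n + 1))) / 2 := by
        ring
      have f2 : C₀ * (c * γ * m ^ 2) = (c * γ * (2 * C₀ * m ^ 2)) / 2 := by ring
      rw [f1, f2]
      linarith
    have e4 := le_of_mul_le_mul_left e3 hC₀
    have e5 : (s₁ : ℝ) * (32 * (q * Real.log (n + 1))) ≤ s₁ * (c * γ * m ^ 2) :=
      mul_le_mul_of_nonneg_left e4 hs₁0
    have e6 : (s₁ : ℝ) * (32 * (q * Real.log (n + 1))) = 32 * (s₁ * (q * Real.log (n + 1))) := by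
      ring
    rw [e6] at e5
    rw [hRe]
    linarith
  have hfin := hM n (Finset (Fin n) × Finset (Sym2 (Fin n))) (IdxA γ n p L)
    (CsA h d γ CP n p L) (fun k => (k.1.card : ℝ)) p (2 * bet d) c γ
    (n + 2 * (11 * (p * n) * n / L ^ 2) * Real.log (n + 1))
    (1 + n / Dc h d γ CP n p L * Real.log (n + 1)) s₁ hp hN.hp1 (by positivity) hc0 hγ
    (by rw [hc]; unfold bet; ring_nf; exact le_rfl)
    (by
      intro k hk
      unfold IdxA at hk
      exact (mem_filter.1 hk).2.1)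
    (by
      intro k _ C hC
      unfold CsA at hC
      exact (mem_filter.1 hC).2.1)
    (card_idx hp.le) (fun k _ => card_cs hq0 k)
    (by
      rw [← hme, ← hqe, ← hRe]
      have e1 : (s₁ : ℝ) * (1 + q * Real.log (n + 1)) = s₁ + s₁ * (q * Real.log (n + 1)) := by ring
      rw [e1]
      have e2 : 0 ≤ R / 8 := hn0.le.trans t2
      linarith)
  have hLR : L ≤ R := by
    have e2 : L ≤ n * L := le_mul_of_one_le_left hL0.le hn
    have e3 : 0 ≤ (n : ℝ) * L := by positivity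
    linarith
  have e1 : Pr (allE n) p (fun S => MainA h d γ CP n p L S) ≤
      Real.exp (-(s₁ * (c * γ * (p * n) ^ 2) / 4)) := by
    refine le_trans (Pr_mono hp.le hN.hp1 ?_) hfin
    intro S _ hS
    unfold MainA at hS
    rw [← hs₁e, ← hc] at hS
    exact hS
  refine e1.trans ?_
  rw [← hme, ← hRe, Real.exp_neg, ← one_div]
  apply one_div_le_one_div_of_le hL0
  have := Real.add_one_le_exp R
  linarith

end Pool.Agent.H973.CT
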