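import Pool.Agent.H973.CT.Stm

set_option autoImplicit false

/-! The abstract union bound over containers. -/

namespace Pool.Agent.H973.CT

open Finset Classical Pool.Agent.W166.Gnp

namespace MainL

theorem tail_real {a : ℝ} {K : ℕ} (h0 : 0 ≤ a) (h : a ≤ K / 8) :
    a ^ K / (K.factorial : ℝ) ≤ Real.exp (-K) := by
  have h1 : a ^ K / (K.factorial : ℝ) ≤ ((K : ℝ) / 8) ^ K / (K.factorial : ℝ) := by
    gcongr
  have h2 : ((K : ℝ)) ^ K / (K.factorial : ℝ) ≤ Real.exp K :=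
    Real.pow_div_factorial_le_exp K (Nat.cast_nonneg K) K
  have h3 : ((K : ℝ) / 8) ^ K / (K.factorial : ℝ) = (1 / 8) ^ K * ((K : ℝ) ^ K / (K.factorial : ℝ)) := by
    rw [div_eq_mul_one_div (K : ℝ) 8, mul_pow]
    ring
  have h4 : (1 / 8 : ℝ) * Real.exp 1 ≤ Real.exp (-1) := by
    have h5 := Real.exp_one_lt_d9
    have h6 : Real.exp (-1) = 1 / Real.exp 1 := by
      rw [Real.exp_neg, one_div]
    rw [h6, le_div_iff₀ (Real.exp_pos 1)]
    nlinarith [Real.exp_pos 1]
  calc a ^ K / (K.factorial : ℝ) ≤ (1 / 8) ^ K * ((K : ℝ) ^ K / (K.factorial : ℝ)) := h1.trans h3.le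
    _ ≤ (1 / 8) ^ K * Real.exp K := by gcongr
    _ = ((1 / 8 : ℝ) * Real.exp 1) ^ K := by
        rw [mul_pow, ← Real.exp_nat_mul, mul_one]
    _ ≤ (Real.exp (-1)) ^ K := by gcongr
    _ = Real.exp (-K) := by
        rw [← Real.exp_nat_mul]
        congr 1
        ring

variable {n : ℕ}

/-- the fibre of `x` -/
noncomputable def fb (g : Fin n → Option (Fin n)) (x : Fin n) : Finset (Fin n) :=
  univ.filter (fun y => g y = some x)

/-- the possible edges -/
noncomputable def DD (g : Fin n → Option (Fin n)) (I : Finset (Fin n))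
    (C : Fin n → Finset (Fin n)) : Finset (Sym2 (Fin n)) :=
  (I.biUnion fun x => (fb g x ×ˢ C x).image (fun q => s(q.1, q.2))) ∩ allE n

theorem card_DD (g : Fin n → Option (Fin n)) (I : Finset (Fin n)) (C : Fin n → Finset (Fin n)) :
    (DD g I C).card ≤ ∑ x ∈ I, (fb g x).card * (C x).card := by
  refine (card_le_card inter_subset_left).trans ?_
  refine card_biUnion_le.trans ?_
  refine sum_le_sum fun x _ => ?_
  exact card_image_le.trans (card_product _ _).le

theorem sum_nb (g : Fin n → Option (Fin n)) (I : Finset (Fin n)) (C : Fin n → Finset (Fin n))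
    (S : Finset (Sym2 (Fin n))) (hS : S ⊆ allE n) :
    ∑ x ∈ I, ∑ y ∈ fb g x, (nb S (C x) y).card ≤ 2 * (S ∩ DD g I C).card := by
  let Q : Finset (Σ _ : Fin n, Σ _ : Fin n, Fin n) :=
    I.sigma fun x => (fb g x).sigma fun y => nb S (C x) y
  have h1 : ∑ x ∈ I, ∑ y ∈ fb g x, (nb S (C x) y).card = Q.card := by
    simp only [Q, card_sigma]
  have hQ : ∀ q ∈ Q, q.1 ∈ I ∧ g q.2.1 = some q.1 ∧ q.2.2 ∈ C q.1 ∧ s(q.2.1, q.2.2) ∈ S := by
    intro q hq
    simp only [Q, mem_sigma, fb, nb, mem_filter, mem_univ, true_and] at hq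
    exact ⟨hq.1, hq.2.1, hq.2.2.1, hq.2.2.2⟩
  let F : (Σ _ : Fin n, Σ _ : Fin n, Fin n) → Sym2 (Fin n) := fun q => s(q.2.1, q.2.2)
  have h2 : Q.card ≤ 2 * (Q.image F).card := by
    refine card_le_mul_card_image Q 2 ?_
    intro a _
    induction a using Sym2.ind with
    | _ a b =>
      have h3 : (Q.filter fun q => F q = s(a, b)).card ≤ ({(a, b), (b, a)} : Finset (Fin n × Fin n)).card := by
        refine card_le_card_of_injOn (fun q => (q.2.1, q.2.2)) ?_ ?_
        · intro q hq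
          have hq' := (mem_filter.1 (mem_coe.1 hq)).2
          have h4 : s(q.2.1, q.2.2) = s(a, b) := hq'
          rw [Sym2.eq_iff] at h4
          simp only [coe_insert, coe_singleton, Set.mem_insert_iff, Set.mem_singleton_iff,
            Prod.mk.injEq]
          exact h4
        · rintro ⟨x, y, w⟩ hq ⟨x', y', w'⟩ hq' he
          have h5 := (hQ _ (mem_filter.1 (mem_coe.1 hq)).1).2.1
          have h6 := (hQ _ (mem_filter.1 (mem_coe.1 hq')).1).2.1
          simp only [Prod.mk.injEq] at he h5 h6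
          obtain ⟨rfl, rfl⟩ := he
          rw [h5] at h6
          rw [Option.some.inj h6]
      exact h3.trans (card_le_two)
  rw [h1]
  refine h2.trans (Nat.mul_le_mul_left 2 (card_le_card ?_))
  intro e he
  obtain ⟨q, hq, rfl⟩ := mem_image.1 he
  obtain ⟨h3, h4, h5, h6⟩ := hQ q hq
  refine mem_inter.2 ⟨h6, mem_inter.2 ⟨mem_biUnion.2 ⟨q.1, h3, mem_image.2 ⟨(q.2.1, q.2.2), ?_, rfl⟩⟩,
    hS h6⟩⟩
  exact mem_product.2 ⟨mem_filter.2 ⟨mem_univ _, h4⟩, h5⟩

/-- the event for given data -/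
def Ev (g : Fin n → Option (Fin n)) (I : Finset (Fin n)) (C : Fin n → Finset (Fin n))
    (p c z0 : ℝ) (S : Finset (Sym2 (Fin n))) : Prop :=
  ∀ x ∈ I, ((fb g x).card : ℝ) ≤ 8 * (p * n) ∧
    c * z0 * (p * n) * p ≤ ∑ y ∈ fb g x, ((nb S (C x) y).card : ℝ)

theorem single (g : Fin n → Option (Fin n)) (I : Finset (Fin n)) (C : Fin n → Finset (Fin n))
    {p c β z0 : ℝ} (hp : 0 < p) (hp1 : p ≤ 1) (hc : 0 < c) (hβ : 0 < β) (hβc : 128 * β ≤ c)
    (hz : 0 ≤ z0) (hC : ∀ x ∈ I, ((C x).card : ℝ) ≤ β * z0) :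
    Pr (allE n) p (Ev g I C p c z0) ≤ Real.exp (-(I.card * (c * z0 * (p * n) * p) / 2)) := by
  by_cases hfb : ∀ x ∈ I, ((fb g x).card : ℝ) ≤ 8 * (p * n)
  swap
  · have h1 : Pr (allE n) p (Ev g I C p c z0) ≤ Pr (allE n) p (fun _ => False) := by
      refine Pr_mono hp.le hp1 fun S _ hS => ?_
      exact hfb fun x hx => (hS x hx).1
    have h2 : Pr (allE n) p (fun _ => False) = 0 := by
      unfold Pr
      simp only [if_false]
      exact Ex_const _ _ _
    rw [h2] at h1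
    exact h1.trans (Real.exp_pos _).le
  have hn : (0 : ℝ) ≤ n := Nat.cast_nonneg n
  set x0 : ℝ := I.card * (c * z0 * (p * n) * p) / 2 with hx0
  have hx00 : 0 ≤ x0 := by positivity
  have h1 : Pr (allE n) p (Ev g I C p c z0) ≤
      Pr (allE n) p (fun S => ⌈x0⌉₊ ≤ (S ∩ DD g I C).card) := by
    refine Pr_mono hp.le hp1 fun S hS hev => ?_
    rw [Nat.ceil_le]
    have h2 : (I.card : ℝ) * (c * z0 * (p * n) * p) ≤
        ∑ x ∈ I, ∑ y ∈ fb g x, ((nb S (C x) y).card : ℝ) := by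
      rw [← nsmul_eq_mul, ← sum_const]
      exact sum_le_sum fun x hx => (hev x hx).2
    have h3 := sum_nb g I C S hS
    have h4 : ∑ x ∈ I, ∑ y ∈ fb g x, ((nb S (C x) y).card : ℝ) ≤
        2 * ((S ∩ DD g I C).card : ℝ) := by exact_mod_cast h3
    rw [hx0]
    linarith
  refine h1.trans ((card_up inter_subset_right hp.le hp1 ⌈x0⌉₊).trans ?_)
  have hD : ((DD g I C).card : ℝ) ≤ I.card * ((8 * (p * n)) * (β * z0)) := by
    have h2 : ((DD g I C).card : ℝ) ≤ ∑ x ∈ I, ((fb g x).card : ℝ) * ((C x).card : ℝ) := by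
      exact_mod_cast card_DD g I C
    refine h2.trans ?_
    rw [← nsmul_eq_mul, ← sum_const]
    refine sum_le_sum fun x hx => ?_
    exact mul_le_mul (hfb x hx) (hC x hx) (Nat.cast_nonneg _) (by positivity)
  have hDp : ((DD g I C).card : ℝ) * p ≤ (⌈x0⌉₊ : ℝ) / 8 := by
    have h2 : x0 ≤ ⌈x0⌉₊ := Nat.le_ceil x0
    have h3 : ((DD g I C).card : ℝ) * p ≤ I.card * ((8 * (p * n)) * (β * z0)) * p :=
      mul_le_mul_of_nonneg_right hD hp.le
    have h4 : (I.card : ℝ) * ((8 * (p * n)) * (β * z0)) * p ≤ x0 / 8 := by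
      have h5 : (0:ℝ) ≤ I.card * (p * n) * z0 * p := by positivity
      rw [hx0]
      nlinarith
    linarith
  have h2 : ((DD g I C).card.choose ⌈x0⌉₊ : ℝ) * p ^ ⌈x0⌉₊ ≤
      (((DD g I C).card : ℝ) * p) ^ ⌈x0⌉₊ / (⌈x0⌉₊.factorial : ℝ) := by
    have h3 := Nat.choose_le_pow_div (α := ℝ) ⌈x0⌉₊ (DD g I C).card
    calc ((DD g I C).card.choose ⌈x0⌉₊ : ℝ) * p ^ ⌈x0⌉₊
        ≤ ((DD g I C).card : ℝ) ^ ⌈x0⌉₊ / (⌈x0⌉₊.factorial : ℝ) * p ^ ⌈x0⌉₊ := by gcongr
      _ = _ := by rw [mul_pow]; ring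
  refine h2.trans ((tail_real (by positivity) hDp).trans ?_)
  rw [Real.exp_le_exp]
  exact neg_le_neg (Nat.le_ceil x0)

/-- the choices of the sets on `I` -/
noncomputable def chs {κ : Type} (Cs : κ → Finset (Finset (Fin n))) (k : κ)
    (I : Finset (Fin n)) : Finset (Fin n → Finset (Fin n)) :=
  Fintype.piFinset fun x => if x ∈ I then Cs k else {∅}

theorem card_chs {κ : Type} (Cs : κ → Finset (Finset (Fin n))) (k : κ) (I : Finset (Fin n)) :
    (chs Cs k I).card = (Cs k).card ^ I.card := by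
  unfold chs
  rw [Fintype.card_piFinset]
  have h1 : ∀ x : Fin n, (if x ∈ I then Cs k else {∅}).card = if x ∈ I then (Cs k).card else 1 := by
    intro x
    split_ifs <;> simp
  simp only [h1]
  rw [prod_ite, prod_const, prod_const_one, mul_one]
  congr 2
  simp

end MainL

open MainL in
theorem main_union : S_MAIN := by
  intro n κ Idx Cs z p β c γ Λ₁ Λ₂ s₁ hp hp1 hβ hc hγ hβc hz hCs hIdx hCsc hΛ
  have hn : (0 : ℝ) ≤ n := Nat.cast_nonneg n
  set y : ℝ := s₁ * (c * γ * (p * n) ^ 2) / 2 with hy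
  have h1 : Pr (allE n) p (fun S => ∃ k ∈ Idx, ∃ g : Fin n → Option (Fin n),
      ∃ I : Finset (Fin n), ∃ C : Fin n → Finset (Fin n), I.card = s₁ ∧ ∀ x ∈ I, C x ∈ Cs k ∧
      ((univ.filter (fun y => g y = some x)).card : ℝ) ≤ 8 * (p * n) ∧
      c * z k * (p * n) * p ≤ ∑ y ∈ univ.filter (fun y => g y = some x), ((nb S (C x) y).card : ℝ))
      ≤ Pr (allE n) p (fun S => ∃ k ∈ Idx, ∃ g ∈ (univ : Finset (Fin n → Option (Fin n))),
        ∃ I ∈ powersetCard s₁ (univ : Finset (Fin n)), ∃ C ∈ chs Cs k I,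
          Ev g I C p c (z k) S) := by
    refine Pr_mono hp.le hp1 ?_
    rintro S _ ⟨k, hk, g, I, C, hI, h⟩
    refine ⟨k, hk, g, mem_univ g, I, mem_powersetCard.2 ⟨subset_univ _, hI⟩,
      fun x => if x ∈ I then C x else ∅, ?_, ?_⟩
    · unfold chs
      rw [Fintype.mem_piFinset]
      intro x
      by_cases hx : x ∈ I
      · rw [if_pos hx, if_pos hx]
        exact (h x hx).1
      · rw [if_neg hx, if_neg hx]
        exact mem_singleton_self _
    · intro x hx
      obtain ⟨_, h2, h3⟩ := h x hx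
      refine ⟨h2, ?_⟩
      simp only [if_pos hx]
      exact h3
  refine h1.trans ?_
  have h2 : ∀ k ∈ Idx, ∀ g ∈ (univ : Finset (Fin n → Option (Fin n))),
      ∀ I ∈ powersetCard s₁ (univ : Finset (Fin n)), ∀ C ∈ chs Cs k I,
      Pr (allE n) p (Ev g I C p c (z k)) ≤ Real.exp (-y) := by
    intro k hk g _ I hI C hC
    have hIc := (mem_powersetCard.1 hI).2
    have hzk := hz k hk
    have hz0 : 0 ≤ z k := le_trans (by positivity) hzk
    refine (single g I C hp hp1 hc hβ hβc hz0 fun x hx => ?_).trans ?_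
    · refine hCs k hk _ ?_
      have h3 := (Fintype.mem_piFinset.1 hC) x
      rwa [if_pos hx] at h3
    · rw [Real.exp_le_exp, hIc, hy]
      have h3 : c * γ * (p * n) ^ 2 ≤ c * z k * (p * n) * p := by
        have h4 : (0:ℝ) ≤ c * (p * n) * p := by positivity
        nlinarith [mul_le_mul_of_nonneg_left hzk h4]
      have h5 : (0:ℝ) ≤ s₁ := Nat.cast_nonneg _
      nlinarith [mul_le_mul_of_nonneg_left h3 h5]
  have h3 : ∀ k ∈ Idx, ∀ g ∈ (univ : Finset (Fin n → Option (Fin n))),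
      ∀ I ∈ powersetCard s₁ (univ : Finset (Fin n)),
      Pr (allE n) p (fun S => ∃ C ∈ chs Cs k I, Ev g I C p c (z k) S) ≤
        Real.exp (s₁ * Λ₂) * Real.exp (-y) := by
    intro k hk g hg I hI
    refine (Pr_exists_le hp.le hp1 _ _).trans ((sum_le_sum (h2 k hk g hg I hI)).trans ?_)
    rw [sum_const, nsmul_eq_mul, card_chs, (mem_powersetCard.1 hI).2]
    refine mul_le_mul_of_nonneg_right ?_ (Real.exp_pos _).le
    push_cast
    rw [Real.exp_nat_mul]
    exact pow_le_pow_left₀ (Nat.cast_nonneg _) (hCsc k hk) _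
  have h4 : ∀ k ∈ Idx, ∀ g ∈ (univ : Finset (Fin n → Option (Fin n))),
      Pr (allE n) p (fun S => ∃ I ∈ powersetCard s₁ (univ : Finset (Fin n)), ∃ C ∈ chs Cs k I,
        Ev g I C p c (z k) S) ≤ Real.exp n * (Real.exp (s₁ * Λ₂) * Real.exp (-y)) := by
    intro k hk g hg
    refine (Pr_exists_le hp.le hp1 _ _).trans ((sum_le_sum (h3 k hk g hg)).trans ?_)
    rw [sum_const, nsmul_eq_mul, card_powersetCard, card_univ, Fintype.card_fin]
    refine mul_le_mul_of_nonneg_right ?_ (by positivity)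
    have h5 : ((n.choose s₁ : ℕ) : ℝ) ≤ 2 ^ n := by exact_mod_cast Nat.choose_le_two_pow n s₁
    have h6 : (2:ℝ) ^ n ≤ Real.exp n := by
      have h7 : (2:ℝ) ≤ Real.exp 1 := by
        have := Real.add_one_le_exp (1:ℝ)
        linarith
      calc (2:ℝ) ^ n ≤ (Real.exp 1) ^ n := by gcongr
        _ = Real.exp n := by rw [← Real.exp_nat_mul, mul_one]
    exact h5.trans h6
  have h5 : ∀ k ∈ Idx,
      Pr (allE n) p (fun S => ∃ g ∈ (univ : Finset (Fin n → Option (Fin n))),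
        ∃ I ∈ powersetCard s₁ (univ : Finset (Fin n)), ∃ C ∈ chs Cs k I,
        Ev g I C p c (z k) S) ≤
          Real.exp (n * Real.log (n + 1)) *
            (Real.exp n * (Real.exp (s₁ * Λ₂) * Real.exp (-y))) := by
    intro k hk
    refine (Pr_exists_le hp.le hp1 _ _).trans ((sum_le_sum (h4 k hk)).trans ?_)
    rw [sum_const, nsmul_eq_mul, card_univ, Fintype.card_fun, Fintype.card_option,
      Fintype.card_fin]
    refine mul_le_mul_of_nonneg_right ?_ (by positivity)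
    rw [Real.exp_nat_mul, Real.exp_log (by positivity)]
    push_cast
    exact le_rfl
  refine (Pr_exists_le hp.le hp1 _ _).trans ((sum_le_sum h5).trans ?_)
  rw [sum_const, nsmul_eq_mul]
  refine (mul_le_mul_of_nonneg_right hIdx (by positivity)).trans ?_
  rw [← Real.exp_add, ← Real.exp_add, ← Real.exp_add, ← Real.exp_add, Real.exp_le_exp, hy]
  linarith

end Pool.Agent.H973.CT
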