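import Pool.Agent.H973.CT.Stm3

set_option autoImplicit false
set_option linter.unusedVariables false

/-! **S_MATA**: no large matching inside a colour class. -/

namespace Pool.Agent.H973.CT

open Finset Classical Pool.Agent.W166.Gnp

namespace MatAL

variable {n : ℕ}

theorem bet_pos {d : ℝ} (hd : 0 < d) : 0 < bet d := by unfold bet; positivity

theorem bet_le {d : ℝ} (hd : 0 < d) (hd1 : d ≤ 1) : bet d ≤ 1 / 2 := by
  unfold bet
  have : d ^ 2 ≤ 1 := by nlinarith
  linarith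

theorem cq_pos {d γ : ℝ} (hd : 0 < d) (hγ : 0 < γ) : 0 < cq d γ := by
  have := bet_pos hd
  unfold cq
  positivity

/-- No short connection between the second neighbourhoods of the ends of an edge. -/
theorem nopath {h : ℕ} (hh : 1 ≤ h) {S E B : Finset (Sym2 (Fin n))} {X Y Zc T : Finset (Fin n)}
    (hES : E ⊆ S) (hBE : B ⊆ E) (hXY : Disjoint X Y)
    (hB : ∀ u v, s(u, v) ∈ B → u ∉ X ∧ u ∉ Y)
    (hG : ¬ (SimpleGraph.cycleGraph (2 * h + 5)).IsContained
      (SimpleGraph.fromEdgeSet (E : Set (Sym2 (Fin n)))))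
    {x x' y y' z z' : Fin n} (hx : x ∈ X) (hx' : x' ∈ X) (hxx : x ≠ x') (hxE : s(x, x') ∈ E)
    (hy : y ∈ Y) (hy' : y' ∈ Y) (hxy : s(x, y) ∈ E) (hxy' : s(x', y') ∈ E)
    (hpriv : s(x', y) ∉ S) (hyz : s(y, z) ∈ E) (hyz' : s(y', z') ∈ E) :
    ¬ reach B (2 * h) z z' := by
  rintro ⟨φ, hφ, h0, hl⟩
  rw [paths, mem_filter] at hφ
  obtain ⟨-, hch, hinj⟩ := hφ
  have hXYd : ∀ {a b : Fin n}, a ∈ X → b ∈ Y → a ≠ b := by
    rintro a b ha hb rfl
    exact (Finset.disjoint_left.1 hXY) ha hb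
  have hv : ∀ i : Fin (2 * h + 1), φ i ∉ X ∧ φ i ∉ Y := by
    intro i
    by_cases hi : i.val < 2 * h
    · have h1 := hch ⟨i.val, hi⟩
      have e1 : (⟨i.val, hi⟩ : Fin (2 * h)).castSucc = i := rfl
      rw [e1] at h1
      exact hB _ _ h1
    · have hi2 : i.val = 2 * h := by
        have := i.isLt
        omega
      have h1 := hch ⟨2 * h - 1, by omega⟩
      have e1 : (⟨2 * h - 1, by omega⟩ : Fin (2 * h)).succ = i := by
        apply Fin.ext
        show 2 * h - 1 + 1 = i.val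
        omega
      rw [e1, Sym2.eq_swap] at h1
      exact hB _ _ h1
  apply hG
  refine cycle_of _ h hh x x' y y' φ hinj ?_ ?_ ?_ ?_ ?_ ?_ ?_ ?_ ?_ ?_ ?_ ?_ ?_
  · intro i
    rw [SimpleGraph.fromEdgeSet_adj]
    refine ⟨by exact_mod_cast hBE (hch i), ?_⟩
    intro h1
    have h2 := hinj h1
    have h3 : i.val = i.val + 1 := congrArg Fin.val h2
    omega
  · rw [SimpleGraph.fromEdgeSet_adj]
    exact ⟨by exact_mod_cast hxE, hxx⟩
  · rw [SimpleGraph.fromEdgeSet_adj]
    exact ⟨by exact_mod_cast hxy, hXYd hx hy⟩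
  · rw [SimpleGraph.fromEdgeSet_adj]
    exact ⟨by exact_mod_cast hxy', hXYd hx' hy'⟩
  · rw [SimpleGraph.fromEdgeSet_adj, h0]
    refine ⟨by exact_mod_cast hyz, ?_⟩
    rintro rfl
    exact (hv 0).2 (h0 ▸ hy)
  · rw [SimpleGraph.fromEdgeSet_adj, hl]
    refine ⟨by exact_mod_cast hyz', ?_⟩
    rintro rfl
    exact (hv (Fin.last (2 * h))).2 (hl ▸ hy')
  · rintro rfl
    exact hpriv (hES hxy')
  · intro i h1
    exact (hv i).1 (h1 ▸ hx)
  · intro i h1
    exact (hv i).1 (h1 ▸ hx')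
  · intro i h1
    exact (hv i).2 (h1 ▸ hy)
  · intro i h1
    exact (hv i).2 (h1 ▸ hy')
  · exact hXYd hx hy'
  · exact hXYd hx' hy

/-- One of two unconnected sets has a small container. -/
theorem small_container (hW : S_WALK) {h κ : ℕ} {d γ CP CD C₁ p L Λ : ℝ}
    {S E B : Finset (Sym2 (Fin n))} {W Zc : Finset (Fin n)} (hh : 1 ≤ h) (hd : 0 < d)
    (hd1 : d ≤ 1) (hγ : 0 < γ) (hγ1 : γ ≤ 1) (hCP : 0 < CP) (hCD : 0 < CD) (hΛ : 1 ≤ Λ)
    (hN : NumA h κ n p L Λ)
    (hCDm : 2 * CD * L ^ (2 * h + 1) ≤ bet d * γ * (cq d γ) ^ h * (p * n))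
    (hG : GoodA h κ d γ CP CD C₁ n p L S) (hES : E ⊆ S) (hBE : B ⊆ E)
    (hZc : γ * n ≤ (Zc.card : ℝ)) (hWc : d * n / (192 * L ^ 2) ≤ (W.card : ℝ))
    (hcl : Cluster B W p (d / 16) (bet d) Zc) {A₁ A₂ : Finset (Fin n)} (hA₁ : A₁ ⊆ Zc)
    (hA₂ : A₂ ⊆ Zc) (hno : ∀ z ∈ A₁, ∀ z' ∈ A₂, z' ∉ Rset h Zc B z) :
    (∃ C ∈ CsA h d γ CP n p L (Zc, B), A₁ ⊆ C) ∨ (∃ C ∈ CsA h d γ CP n p L (Zc, B), A₂ ⊆ C) := by
  have hp := hN.hp
  have hL : 1 ≤ L := hΛ.trans hN.hΛ
  have hL0 : 0 < L := by linarith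
  have hn0 : (0 : ℝ) < n := by
    have := hN.hn
    have : 0 < n := by omega
    exact_mod_cast this
  have hm0 : 0 < p * n := by positivity
  have hb := bet_pos hd
  have hc := cq_pos hd hγ
  set PB := L * CP * (n * (p * n) ^ (2 * h) + (p * n) ^ (4 * h)) with hPB
  have hPB0 : 0 < PB := by positivity
  set q0 := cq d γ * (p * n) ^ 2 / L ^ 2 with hq0
  have hq00 : 0 < q0 := by positivity
  set D := Dc h d γ CP n p L with hD
  have hDdef : D = (bet d * γ * n * q0 ^ h / 2) ^ 2 / (n * PB) := rfl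
  have hD0 : 0 < D := by
    rw [hDdef]
    positivity
  obtain ⟨T, hT1, hT2, hT3, hT4⟩ := container (Rset h Zc B) D hD0 Zc A₁ A₂ hA₁ hA₂
    (fun z => filter_subset _ _) hno
  have hTc : (T.card : ℝ) ≤ n / D := by
    rw [le_div_iff₀ hD0]
    have h1 : (Zc.card : ℝ) ≤ n := by
      have := card_le_univ Zc
      rw [Fintype.card_fin] at this
      exact_mod_cast this
    linarith
  set C := Zc.filter (fun z => ((Rset h Zc B z \ T.biUnion (Rset h Zc B)).card : ℝ) < D) with hC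
  set C' := Zc \ T.biUnion (Rset h Zc B) with hC'
  by_cases hs1 : (C.card : ℝ) ≤ 2 * bet d * Zc.card
  · left
    refine ⟨C, ?_, hT4⟩
    rw [CsA, mem_filter]
    exact ⟨mem_univ _, hs1, T, hTc, Or.inr rfl⟩
  by_cases hs2 : (C'.card : ℝ) ≤ 2 * bet d * Zc.card
  · right
    refine ⟨C', ?_, hT3⟩
    rw [CsA, mem_filter]
    exact ⟨mem_univ _, hs2, T, hTc, Or.inl rfl⟩
  exfalso
  push Not at hs1 hs2
  have hZ0 : (0 : ℝ) < Zc.card := lt_of_lt_of_le (by positivity) hZc
  have hW0 : (0 : ℝ) < W.card := lt_of_lt_of_le (by positivity) hWc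
  set q := (d / 16) ^ 2 / 4 * p ^ 2 * (bet d * Zc.card) * W.card with hq
  have hqpos : 0 < q := by positivity
  have hqq : q0 ≤ q := by
    have e1 : q0 = (d / 16) ^ 2 / 4 * p ^ 2 * (bet d * (γ * n)) * (d * n / (192 * L ^ 2)) := by
      rw [hq0]
      unfold cq
      field_simp
    rw [e1, hq]
    apply mul_le_mul _ hWc (by positivity) (by positivity)
    apply mul_le_mul_of_nonneg_left _ (by positivity)
    exact mul_le_mul_of_nonneg_left hZc hb.le
  have hZn : bet d * γ * n * q0 ^ h / 2 ≤ bet d * Zc.card * q ^ h / 2 := by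
    have h1 : q0 ^ h ≤ q ^ h := pow_le_pow_left₀ hq00.le hqq h
    have h2 : bet d * γ * n ≤ bet d * Zc.card := by
      rw [mul_assoc]
      exact mul_le_mul_of_nonneg_left hZc hb.le
    have h3 := mul_le_mul h2 h1 (by positivity) (by positivity)
    linarith
  have hdeg : ((degWalks (2 * h) S).card : ℝ) ≤ bet d * Zc.card * q ^ h / 2 := by
    refine le_trans ?_ hZn
    refine hG.degen.trans ?_
    have e1 : bet d * γ * n * q0 ^ h / 2 =
        (bet d * γ * (cq d γ) ^ h * (p * n)) * (n * (p * n) ^ (2 * h - 1)) / (2 * L ^ (2 * h)) := by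
      have e2 : (p * n) ^ (2 * h) = (p * n) * (p * n) ^ (2 * h - 1) := by
        rw [← pow_succ']
        congr 1
        omega
      rw [hq0, div_pow, mul_pow, ← pow_mul, ← pow_mul, e2]
      field_simp
    rw [e1, le_div_iff₀ (by positivity)]
    have h1 := mul_le_mul_of_nonneg_right hCDm
      (show 0 ≤ n * (p * n) ^ (2 * h - 1) by positivity)
    calc L * CD * (n * (p * n) ^ (2 * h - 1)) * (2 * L ^ (2 * h)) =
        2 * CD * L ^ (2 * h + 1) * (n * (p * n) ^ (2 * h - 1)) := by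
          rw [pow_succ]
          ring
      _ ≤ _ := h1
  have hcp : ∀ A₁ A₂ : Finset (Fin n), A₁ ⊆ Zc → A₂ ⊆ Zc → bet d * Zc.card ≤ A₁.card →
      bet d * Zc.card ≤ A₂.card → q * A₁.card ≤ ∑ w ∈ W, (dg B A₁ w : ℝ) * dg B A₂ w := by
    intro A₁ A₂ h1 h2 h3 h4
    refine le_trans ?_ (hcl A₁ A₂ h1 h2 h3 h4)
    calc q * A₁.card = ((d / 16) ^ 2 / 4 * p ^ 2 * A₁.card * W.card) * (bet d * Zc.card) := by
          rw [hq]
          ring
      _ ≤ ((d / 16) ^ 2 / 4 * p ^ 2 * A₁.card * W.card) * A₂.card :=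
          mul_le_mul_of_nonneg_left h4 (by positivity)
      _ = _ := by ring
  have hsup := super hW hh S B (hBE.trans hES) Zc W (bet d) q hb (bet_le hd hd1) hqpos hcp hdeg
    C C' (filter_subset _ _) sdiff_subset hs1.le hs2.le
  have hRc : (((C ×ˢ C').filter (fun z => reach B (2 * h) z.1 z.2)).card : ℝ) < n * D := by
    have h1 : ((C ×ˢ C').filter (fun z => reach B (2 * h) z.1 z.2)).card =
        ∑ z ∈ C, (C'.filter (fun z' => reach B (2 * h) z z')).card := by
      rw [card_filter, sum_product]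
      refine sum_congr rfl fun z _ => ?_
      rw [card_filter]
    have h2 : ∀ z ∈ C, ((C'.filter (fun z' => reach B (2 * h) z z')).card : ℝ) < D := by
      intro z hz
      rw [hC, mem_filter] at hz
      refine lt_of_le_of_lt ?_ hz.2
      have h3 : C'.filter (fun z' => reach B (2 * h) z z') ⊆
          Rset h Zc B z \ T.biUnion (Rset h Zc B) := by
        intro z' hz'
        rw [mem_filter, hC', mem_sdiff] at hz'
        rw [mem_sdiff, Rset, mem_filter]
        exact ⟨⟨hz'.1.1, hz'.2⟩, hz'.1.2⟩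
      exact_mod_cast card_le_card h3
    have hCne : C.Nonempty := by
      rw [← card_pos]
      have : (0 : ℝ) < C.card := lt_trans (by positivity) hs1
      exact_mod_cast this
    rw [h1]
    push_cast
    calc ∑ z ∈ C, ((C'.filter (fun z' => reach B (2 * h) z z')).card : ℝ) < ∑ z ∈ C, D :=
          sum_lt_sum_of_nonempty hCne h2
      _ = C.card * D := by rw [sum_const, nsmul_eq_mul]
      _ ≤ n * D := by
          apply mul_le_mul_of_nonneg_right _ hD0.le
          have := card_le_univ C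
          rw [Fintype.card_fin] at this
          exact_mod_cast this
  have hpw : ((pairsW (2 * h) S).card : ℝ) ≤ PB := hG.pairs
  have h1 : (bet d * γ * n * q0 ^ h / 2) ^ 2 ≤ (bet d * Zc.card * q ^ h / 2) ^ 2 :=
    pow_le_pow_left₀ (by positivity) hZn 2
  have h2 : (((C ×ˢ C').filter (fun z => reach B (2 * h) z.1 z.2)).card : ℝ) *
      (pairsW (2 * h) S).card ≤
      (((C ×ˢ C').filter (fun z => reach B (2 * h) z.1 z.2)).card : ℝ) * PB :=
    mul_le_mul_of_nonneg_left hpw (Nat.cast_nonneg _)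
  have h3 : (((C ×ˢ C').filter (fun z => reach B (2 * h) z.1 z.2)).card : ℝ) * PB <
      n * D * PB := mul_lt_mul_of_pos_right hRc hPB0
  have h4 : n * D * PB = (bet d * γ * n * q0 ^ h / 2) ^ 2 := by
    rw [hDdef]
    field_simp
  linarith

end MatAL

open MatAL in
theorem mata (hW : S_WALK) : S_MATA := by
  intro h κ n d γ CP CD C₁ p L Λ S E B X Y W Zc hh hd hd1 hγ hγ1 hCP hCD hΛ hN hCDm hG hES hBE hXY
    hB hcyc hZc hBc hWc hcl hX
  rintro ⟨M, hM, hMc⟩
  have hp := hN.hp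
  have hL : 1 ≤ L := hΛ.trans hN.hΛ
  have hL0 : 0 < L := by linarith
  have hn0 : (0 : ℝ) < n := by
    have := hN.hn
    have : 0 < n := by omega
    exact_mod_cast this
  have hm0 : 0 < p * n := by positivity
  set T := vts M with hT
  set s := s0 p L with hs
  -- the number `s`
  have hpL : p * L ≤ 1 / 2 := by
    have h1 := hN.hm3
    have h2 : (2 * (p * L)) * n ≤ 1 * n := by nlinarith
    have := le_of_mul_le_mul_right h2 hn0
    linarith
  have hpL0 : 0 < p * L := by positivity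
  have hsle : (s : ℝ) ≤ 1 / (p * L) := Nat.floor_le (by positivity)
  have hsge : 1 / (2 * (p * L)) ≤ (s : ℝ) := by
    have h1 : 1 / (p * L) < s + 1 := Nat.lt_floor_add_one _
    have h2 : 2 ≤ 1 / (p * L) := by
      rw [le_div_iff₀ hpL0]
      linarith
    have h3 : 1 / (p * L) = 1 / (2 * (p * L)) + 1 / (2 * (p * L)) := by
      field_simp
      norm_num
    linarith
  -- vertices of the matching
  have hTX : ∀ x ∈ T, x ∈ X := by
    intro x hx
    rw [hT, vts, mem_union, mem_image, mem_image] at hx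
    rcases hx with ⟨q, hq, rfl⟩ | ⟨q, hq, rfl⟩
    · exact (hM.mem q hq).1
    · exact (hM.mem q hq).2.1
  have hT1 : ∀ q ∈ M, q.1 ∈ T := fun q hq => mem_union_left _ (mem_image_of_mem _ hq)
  have hT2 : ∀ q ∈ M, q.2 ∈ T := fun q hq => mem_union_right _ (mem_image_of_mem _ hq)
  have hTc : (T.card : ℝ) ≤ 2 * n / (p * n * L) := by
    have h1 : (T.card : ℝ) ≤ 2 * s := by
      have := vts_card M
      rw [hMc] at this
      exact_mod_cast this
    have h2 : 2 * (n : ℝ) / (p * n * L) = 2 * (1 / (p * L)) := by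
      field_simp
    rw [h2]
    linarith
  set b5 := d ^ 2 * γ / 18432 with hb5
  have hb50 : 0 < b5 := by positivity
  have hpriv := hG.priv T hTc
  -- private neighbours
  set Yx : Fin n → Finset (Fin n) := fun x =>
    (nb E Y x).filter (fun y => ∀ x' ∈ T, x' ≠ x → s(x', y) ∉ S) with hYx
  have hsumN : ∑ x ∈ T, (nb E Y x \ Yx x).card ≤ (nonpriv S T).card := by
    have h1 : ∑ x ∈ T, (nb E Y x \ Yx x).card = (T.sigma (fun x => nb E Y x \ Yx x)).card :=
      (card_sigma _ _).symm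
    rw [h1]
    refine card_le_card_of_injOn (fun q => (q.1, q.2)) ?_ ?_
    · rintro ⟨x, y⟩ hq
      rw [mem_coe, mem_sigma] at hq
      obtain ⟨hx, hy⟩ := hq
      rw [mem_sdiff, hYx, mem_filter] at hy
      obtain ⟨hy1, hy2⟩ := hy
      rw [nb, mem_filter] at hy1
      obtain ⟨hyY, hyE⟩ := hy1
      have h2 : ∃ x' ∈ T, x' ≠ x ∧ s(x', y) ∈ S := by
        by_contra hcon
        push Not at hcon
        exact hy2 ⟨mem_filter.2 ⟨hyY, hyE⟩, hcon⟩
      rw [mem_coe, nonpriv, mem_filter]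
      refine ⟨mem_univ _, hx, ?_, hES hyE, h2⟩
      intro hyT
      exact (Finset.disjoint_left.1 hXY) (hTX _ hyT) hyY
    · rintro ⟨x, y⟩ _ ⟨x', y'⟩ _ hq
      simp only [Prod.mk.injEq] at hq
      obtain ⟨rfl, rfl⟩ := hq
      rfl
  -- bad vertices
  set Bd := T.filter (fun x => 4 * b5 * (p * n) < ((nb E Y x \ Yx x).card : ℝ)) with hBd
  have hBdc : 2 * Bd.card < s ∨ 2 * Bd.card ≤ s ∧ Bd.card = 0 := by
    rcases Nat.eq_zero_or_pos Bd.card with h0 | h0
    · right
      rw [h0]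
      exact ⟨Nat.zero_le _, rfl⟩
    left
    have h1 : (Bd.card : ℝ) * (4 * b5 * (p * n)) < b5 * n / L := by
      calc (Bd.card : ℝ) * (4 * b5 * (p * n)) = ∑ x ∈ Bd, 4 * b5 * (p * n) := by
            rw [sum_const, nsmul_eq_mul]
        _ ≤ ∑ x ∈ Bd, ((nb E Y x \ Yx x).card : ℝ) :=
            sum_le_sum fun x hx => (mem_filter.1 hx).2.le
        _ ≤ ∑ x ∈ T, ((nb E Y x \ Yx x).card : ℝ) :=
            sum_le_sum_of_subset_of_nonneg (filter_subset _ _) fun _ _ _ => Nat.cast_nonneg _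
        _ ≤ ((nonpriv S T).card : ℝ) := by exact_mod_cast hsumN
        _ < b5 * n / L := hpriv
    have h2 : (Bd.card : ℝ) < 1 / (4 * (p * L)) := by
      rw [lt_div_iff₀ (by positivity)]
      rw [lt_div_iff₀ hL0] at h1
      have h3 : (Bd.card : ℝ) * (4 * (p * L)) * (b5 * n) < 1 * (b5 * n) := by
        calc (Bd.card : ℝ) * (4 * (p * L)) * (b5 * n) =
            (Bd.card : ℝ) * (4 * b5 * (p * n)) * L := by ring
          _ < b5 * n := h1
          _ = 1 * (b5 * n) := by ring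
      exact lt_of_mul_lt_mul_right h3 (by positivity)
    have h3 : (2 : ℝ) * Bd.card < s := by
      have h4 : 2 * (1 / (4 * (p * L))) = 1 / (2 * (p * L)) := by
        field_simp
        norm_num
      linarith
    exact_mod_cast h3
  have hs2 : 1 ≤ s := by
    have h1 : 0 < 1 / (2 * (p * L)) := by positivity
    have h2 : (0 : ℝ) < s := lt_of_lt_of_le h1 hsge
    exact_mod_cast h2
  -- good edges
  set Mg := M.filter (fun q => q.1 ∉ Bd ∧ q.2 ∉ Bd) with hMg
  have hMgc : (s + 1) / 2 ≤ Mg.card := by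
    have h1 : (M.filter (fun q => ¬ (q.1 ∉ Bd ∧ q.2 ∉ Bd))).card ≤ Bd.card := by
      refine card_le_card_of_injOn (fun q => if q.1 ∈ Bd then q.1 else q.2) ?_ ?_
      · intro q hq
        rw [mem_coe, mem_filter] at hq
        by_cases h2 : q.1 ∈ Bd
        · show (if q.1 ∈ Bd then q.1 else q.2) ∈ (Bd : Set (Fin n))
          rw [if_pos h2]
          exact h2
        · show (if q.1 ∈ Bd then q.1 else q.2) ∈ (Bd : Set (Fin n))
          rw [if_neg h2]
          by_contra h3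
          exact hq.2 ⟨h2, h3⟩
      · intro q hq q' hq' hqq
        rw [mem_coe, mem_filter] at hq hq'
        by_contra hne
        obtain ⟨d1, d2, d3, d4⟩ := hM.disj q hq.1 q' hq'.1 hne
        have h5 : (if q.1 ∈ Bd then q.1 else q.2) = (if q'.1 ∈ Bd then q'.1 else q'.2) := hqq
        split_ifs at h5
        · exact d1 h5
        · exact d2 h5
        · exact d3 h5
        · exact d4 h5
    have h2 : Mg.card + (M.filter (fun q => ¬ (q.1 ∉ Bd ∧ q.2 ∉ Bd))).card = M.card :=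
      card_filter_add_card_filter_not _
    rw [hMc] at h2
    rcases hBdc with h3 | ⟨-, h3⟩ <;> omega
  -- second neighbourhoods
  set A : Fin n → Finset (Fin n) := fun x => Zc.filter (fun z => ∃ y ∈ Yx x, s(y, z) ∈ E) with hA
  have hend : ∀ q ∈ Mg, ∃ x, (x = q.1 ∨ x = q.2) ∧ ∃ C ∈ CsA h d γ CP n p L (Zc, B), A x ⊆ C := by
    intro q hq
    rw [hMg, mem_filter] at hq
    have hqM := hq.1
    obtain ⟨h1, h2, h3, h4⟩ := hM.mem q hqM
    have hno : ∀ z ∈ A q.1, ∀ z' ∈ A q.2, z' ∉ Rset h Zc B z := by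
      intro z hz z' hz' hr
      rw [Rset, mem_filter] at hr
      simp only [hA, mem_filter] at hz hz'
      obtain ⟨-, y, hy, hyz⟩ := hz
      obtain ⟨-, y', hy', hyz'⟩ := hz'
      simp only [hYx, nb, mem_filter] at hy hy'
      exact nopath (T := T) (Zc := Zc) hh hES hBE hXY hB hcyc h1 h2 h3 h4 hy.1.1 hy'.1.1 hy.1.2
        hy'.1.2 (hy.2 q.2 (hT2 q hqM) h3.symm) hyz hyz' hr.2
    rcases small_container hW hh hd hd1 hγ hγ1 hCP hCD hΛ hN hCDm hG hES hBE hZc hWc hcl
      (filter_subset _ _) (filter_subset _ _) hno with h5 | h5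
    · exact ⟨q.1, Or.inl rfl, h5⟩
    · exact ⟨q.2, Or.inr rfl, h5⟩
  have : Nonempty (Fin n) := ⟨⟨0, hN.hn⟩⟩
  choose! xs hxs hxsC using hend
  obtain ⟨M', hM'g, hM'c⟩ := exists_subset_card_eq hMgc
  have hM'M : M' ⊆ M := hM'g.trans (filter_subset _ _)
  set I := M'.image xs with hI
  have hIc : I.card = (s + 1) / 2 := by
    rw [hI, card_image_of_injOn, hM'c]
    intro q hq q' hq' hqq
    by_contra hne
    obtain ⟨d1, d2, d3, d4⟩ := hM.disj q (hM'M hq) q' (hM'M hq') hne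
    rcases hxs q (hM'g hq) with e1 | e1 <;> rcases hxs q' (hM'g hq') with e2 | e2
    · exact d1 (e1.symm.trans (hqq.trans e2))
    · exact d2 (e1.symm.trans (hqq.trans e2))
    · exact d3 (e1.symm.trans (hqq.trans e2))
    · exact d4 (e1.symm.trans (hqq.trans e2))
  have hIT : ∀ x ∈ I, x ∈ T ∧ x ∉ Bd ∧ ∃ C ∈ CsA h d γ CP n p L (Zc, B), A x ⊆ C := by
    intro x hx
    rw [hI, mem_image] at hx
    obtain ⟨q, hq, rfl⟩ := hx
    have hqg := hM'g hq
    have hqM := hM'M hq
    rw [hMg, mem_filter] at hqg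
    refine ⟨?_, ?_, hxsC q (hM'g hq)⟩
    · rcases hxs q (hM'g hq) with e1 | e1
      · rw [e1]; exact hT1 q hqM
      · rw [e1]; exact hT2 q hqM
    · rcases hxs q (hM'g hq) with e1 | e1
      · rw [e1]; exact hqg.2.1
      · rw [e1]; exact hqg.2.2
  have hIC : ∀ x, ∃ C : Finset (Fin n), x ∈ I → C ∈ CsA h d γ CP n p L (Zc, B) ∧ A x ⊆ C := by
    intro x
    by_cases hx : x ∈ I
    · obtain ⟨C, hC1, hC2⟩ := (hIT x hx).2.2
      exact ⟨C, fun _ => ⟨hC1, hC2⟩⟩
    · exact ⟨∅, fun h => absurd h hx⟩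
  choose C hC using hIC
  -- the assignment
  set g : Fin n → Option (Fin n) := fun y =>
    if hy : ∃ x ∈ I, y ∈ Yx x then some hy.choose else none with hg
  have hgx : ∀ x ∈ I, ∀ y, g y = some x ↔ y ∈ Yx x := by
    intro x hx y
    constructor
    · intro h1
      simp only [hg] at h1
      split_ifs at h1 with h2
      have h3 := h2.choose_spec
      rw [Option.some.injEq] at h1
      rw [h1] at h3
      exact h3.2
    · intro h1
      have h2 : ∃ x ∈ I, y ∈ Yx x := ⟨x, hx, h1⟩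
      simp only [hg]
      rw [dif_pos h2]
      have h3 := h2.choose_spec
      generalize h2.choose = w at h3 ⊢
      by_contra hne
      have hne2 : w ≠ x := fun h4 => hne (by rw [h4])
      have h4 := h3.2
      simp only [hYx, nb, mem_filter] at h1 h4
      exact h4.2 x (hIT x hx).1 hne2.symm (hES h1.1.2)
  have hfil : ∀ x ∈ I, univ.filter (fun y => g y = some x) = Yx x := by
    intro x hx
    ext y
    rw [mem_filter]
    exact ⟨fun h1 => (hgx x hx y).1 h1.2, fun h1 => ⟨mem_univ _, (hgx x hx y).2 h1⟩⟩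
  apply hG.main
  refine ⟨(Zc, B), ?_, g, I, C, hIc, ?_⟩
  · rw [IdxA, mem_filter]
    exact ⟨mem_univ _, hZc, hBc⟩
  intro x hx
  obtain ⟨hxT, hxB, -⟩ := hIT x hx
  obtain ⟨hC1, hC2⟩ := hC x hx
  refine ⟨hC1, ?_, ?_⟩
  · rw [hfil x hx]
    refine le_trans ?_ (hG.deg x)
    have h1 : Yx x ⊆ nb S univ x := by
      intro y hy
      simp only [hYx, nb, mem_filter] at hy
      rw [nb, mem_filter]
      exact ⟨mem_univ _, hES hy.1.2⟩
    exact_mod_cast card_le_card h1
  · rw [hfil x hx]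
    have h1 : ∑ y ∈ Yx x, ((nb E Zc y).card : ℝ) ≤ ∑ y ∈ Yx x, ((nb S (C x) y).card : ℝ) := by
      refine sum_le_sum fun y hy => ?_
      have h2 : nb E Zc y ⊆ nb S (C x) y := by
        intro z hz
        rw [nb, mem_filter] at hz
        rw [nb, mem_filter]
        refine ⟨hC2 ?_, hES hz.2⟩
        simp only [hA, mem_filter]
        exact ⟨hz.1, y, hy, hz.2⟩
      exact_mod_cast card_le_card h2
    refine le_trans ?_ h1
    have h2 : ∑ y ∈ nb E Y x, ((nb E Zc y).card : ℝ) = ∑ y ∈ nb E Y x \ Yx x, ((nb E Zc y).card : ℝ)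
        + ∑ y ∈ Yx x, ((nb E Zc y).card : ℝ) :=
      (sum_sdiff (filter_subset _ _)).symm
    have h3 : ∑ y ∈ nb E Y x \ Yx x, ((nb E Zc y).card : ℝ) ≤
        ((nb E Y x \ Yx x).card : ℝ) * (8 * (p * n)) := by
      rw [← nsmul_eq_mul, ← sum_const]
      refine sum_le_sum fun y _ => ?_
      refine le_trans ?_ (hG.deg y)
      have h4 : nb E Zc y ⊆ nb S univ y := by
        intro z hz
        rw [nb, mem_filter] at hz
        rw [nb, mem_filter]
        exact ⟨mem_univ _, hES hz.2⟩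
      exact_mod_cast card_le_card h4
    have h4 : ((nb E Y x \ Yx x).card : ℝ) ≤ 4 * b5 * (p * n) := by
      by_contra hcon
      push Not at hcon
      exact hxB (mem_filter.2 ⟨hxT, hcon⟩)
    have h5 := hX x (hTX x hxT)
    have h6 : ((nb E Y x \ Yx x).card : ℝ) * (8 * (p * n)) ≤
        4 * b5 * (p * n) * (8 * (p * n)) := mul_le_mul_of_nonneg_right h4 (by positivity)
    have h7 : 4 * b5 * (p * n) * (8 * (p * n)) ≤ d ^ 2 / 576 * Zc.card * (p * n) * p := by
      have h8 : 4 * b5 * (p * n) * (8 * (p * n)) = d ^ 2 / 576 * (p * n) * p * (γ * n) := by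
        rw [hb5]
        ring
      rw [h8]
      calc d ^ 2 / 576 * (p * n) * p * (γ * n) ≤ d ^ 2 / 576 * (p * n) * p * Zc.card :=
            mul_le_mul_of_nonneg_left hZc (by positivity)
        _ = _ := by ring
    have h8 : (d / 12) ^ 2 / 2 * (p * n) ^ 2 * Zc.card / n =
        2 * (d ^ 2 / 576 * Zc.card * (p * n) * p) := by
      field_simp
      ring
    show d ^ 2 / 576 * (Zc.card : ℝ) * (p * n) * p ≤ _
    linarith

end Pool.Agent.H973.CT
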