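import Pool.Agent.H973.CT.Stm

set_option autoImplicit false
set_option linter.unusedVariables false

/-! # Leaf PAIRS (by helper784): expected number of pairs of paths with the same ends -/

namespace Pool.Agent.H973.CT

open Finset Classical Pool.Agent.W166.Gnp

namespace PAIRSL

variable {n r : ℕ}

/-- the edges of a walk -/
noncomputable def eds (φ : Fin (r + 1) → Fin n) : Finset (Sym2 (Fin n)) :=
  univ.image (fun i : Fin r => s(φ i.castSucc, φ i.succ))

theorem chain_iff (S : Finset (Sym2 (Fin n))) (φ : Fin (r + 1) → Fin n) :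
    chain S φ ↔ eds φ ⊆ S := by
  unfold chain eds
  constructor
  · intro h e he
    obtain ⟨i, _, rfl⟩ := Finset.mem_image.1 he
    exact h i
  · intro h i
    exact h (Finset.mem_image.2 ⟨i, mem_univ _, rfl⟩)

theorem edge_inj {φ : Fin (r + 1) → Fin n} (hφ : Function.Injective φ) :
    Function.Injective (fun i : Fin r => s(φ i.castSucc, φ i.succ)) := by
  intro i k h
  simp only [Sym2.eq_iff] at h
  rcases h with ⟨h1, _⟩ | ⟨h1, h2⟩
  · exact Fin.castSucc_injective _ (hφ h1)
  · have e1 := congrArg Fin.val (hφ h1)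
    have e2 := congrArg Fin.val (hφ h2)
    simp only [Fin.val_castSucc, Fin.val_succ] at e1 e2
    omega

theorem eds_card {φ : Fin (r + 1) → Fin n} (hφ : Function.Injective φ) : (eds φ).card = r := by
  unfold eds
  rw [Finset.card_image_of_injective _ (edge_inj hφ), Finset.card_univ, Fintype.card_fin]

theorem eds_allE {φ : Fin (r + 1) → Fin n} (hφ : Function.Injective φ) : eds φ ⊆ allE n := by
  intro e he
  unfold eds at he
  obtain ⟨i, _, rfl⟩ := Finset.mem_image.1 he
  rw [mem_allE]
  intro h
  have e1 := congrArg Fin.val (hφ h)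
  simp only [Fin.val_castSucc, Fin.val_succ] at e1
  omega

/-- the indices of the new vertices -/
noncomputable def JJ (q : (Fin (r + 1) → Fin n) × (Fin (r + 1) → Fin n)) : Finset (Fin (r + 1)) :=
  univ.filter (fun i => ∀ k, q.1 k ≠ q.2 i)

/-- the pattern -/
noncomputable def pat (q : (Fin (r + 1) → Fin n) × (Fin (r + 1) → Fin n)) (i : Fin (r + 1)) :
    Option (Fin (r + 1)) :=
  if h : ∃ k, q.1 k = q.2 i then some h.choose else none

theorem pat_none (q : (Fin (r + 1) → Fin n) × (Fin (r + 1) → Fin n)) (i : Fin (r + 1)) :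
    pat q i = none ↔ i ∈ JJ q := by
  unfold pat JJ
  split_ifs with h
  · simp only [reduceCtorEq, mem_filter, mem_univ, true_and, false_iff]
    obtain ⟨k, hk⟩ := h
    intro h2
    exact h2 k hk
  · simp only [mem_filter, mem_univ, true_and, true_iff]
    intro k hk
    exact h ⟨k, hk⟩

theorem pat_some (q : (Fin (r + 1) → Fin n) × (Fin (r + 1) → Fin n)) (i k : Fin (r + 1))
    (h : pat q i = some k) : q.2 i = q.1 k := by
  unfold pat at h
  split_ifs at h with h1
  have h2 := Option.some.inj h
  rw [← h2]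
  exact h1.choose_spec.symm

/-- pairs of injective maps with the same ends -/
noncomputable def QQ (n r : ℕ) : Finset ((Fin (r + 1) → Fin n) × (Fin (r + 1) → Fin n)) :=
  univ.filter (fun q => Function.Injective q.1 ∧ Function.Injective q.2 ∧ q.1 0 = q.2 0 ∧
    q.1 (Fin.last r) = q.2 (Fin.last r))

theorem mem_QQ (q : (Fin (r + 1) → Fin n) × (Fin (r + 1) → Fin n)) : q ∈ QQ n r ↔
    Function.Injective q.1 ∧ Function.Injective q.2 ∧ q.1 0 = q.2 0 ∧
    q.1 (Fin.last r) = q.2 (Fin.last r) := by
  unfold QQ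
  simp only [mem_filter, mem_univ, true_and]

theorem JJ_zero {q : (Fin (r + 1) → Fin n) × (Fin (r + 1) → Fin n)} (hq : q ∈ QQ n r) :
    (0 : Fin (r + 1)) ∉ JJ q := by
  obtain ⟨_, _, h, _⟩ := (mem_QQ q).1 hq
  unfold JJ
  simp only [mem_filter, mem_univ, true_and]
  intro h2
  exact h2 0 h

theorem JJ_last {q : (Fin (r + 1) → Fin n) × (Fin (r + 1) → Fin n)} (hq : q ∈ QQ n r) :
    Fin.last r ∉ JJ q := by
  obtain ⟨_, _, _, h⟩ := (mem_QQ q).1 hq
  unfold JJ
  simp only [mem_filter, mem_univ, true_and]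
  intro h2
  exact h2 _ h

/-- all edges -/
noncomputable def DD (q : (Fin (r + 1) → Fin n) × (Fin (r + 1) → Fin n)) :
    Finset (Sym2 (Fin n)) := eds q.1 ∪ eds q.2

theorem JJ_card_le {q : (Fin (r + 1) → Fin n) × (Fin (r + 1) → Fin n)} (hr : 1 ≤ r)
    (hq : q ∈ QQ n r) : (JJ q).card + 2 ≤ r + 1 := by
  have h0 := JJ_zero hq
  have h1 := JJ_last hq
  have hne : (0 : Fin (r + 1)) ≠ Fin.last r := by
    intro h
    have := congrArg Fin.val h
    simp only [Fin.val_zero, Fin.val_last] at this
    omega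
  have h2 : insert (0 : Fin (r + 1)) (insert (Fin.last r) (JJ q)) ⊆ univ := subset_univ _
  have h3 := Finset.card_le_card h2
  rw [Finset.card_insert_of_notMem, Finset.card_insert_of_notMem h1, Finset.card_univ,
    Fintype.card_fin] at h3
  · omega
  · rw [Finset.mem_insert, not_or]
    exact ⟨hne, h0⟩

/-- the edges of the second path with a new vertex -/
noncomputable def KI (q : (Fin (r + 1) → Fin n) × (Fin (r + 1) → Fin n)) : Finset (Fin r) :=
  univ.filter (fun k => k.castSucc ∈ JJ q ∨ k.succ ∈ JJ q)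

theorem KI_card {q : (Fin (r + 1) → Fin n) × (Fin (r + 1) → Fin n)} (hq : q ∈ QQ n r)
    (hJ : 1 ≤ (JJ q).card) : (JJ q).card + 1 ≤ (KI q).card := by
  set K1 : Finset (Fin r) := univ.filter (fun k => k.succ ∈ JJ q) with hK1
  have e1 : JJ q = K1.image Fin.succ := by
    ext i
    simp only [hK1, mem_image, mem_filter, mem_univ, true_and]
    constructor
    · intro hi
      have hi0 : i ≠ 0 := by
        intro h
        rw [h] at hi
        exact JJ_zero hq hi
      obtain ⟨k, hk⟩ := Fin.exists_succ_eq.2 hi0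
      exact ⟨k, by rw [hk]; exact hi, hk⟩
    · rintro ⟨k, hk, rfl⟩
      exact hk
  have e2 : (JJ q).card = K1.card := by
    conv_lhs => rw [e1]
    exact Finset.card_image_of_injective _ (Fin.succ_injective _)
  have e3 : ∃ k : Fin r, k.castSucc ∈ JJ q ∧ k.succ ∉ JJ q := by
    by_contra hcon
    push Not at hcon
    obtain ⟨i0, hi0⟩ := Finset.card_pos.1 hJ
    have hind : ∀ m, i0.val ≤ m → ∀ hm : m < r + 1, (⟨m, hm⟩ : Fin (r + 1)) ∈ JJ q := by
      intro m hm
      induction m, hm using Nat.le_induction with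
      | base => intro hm; exact hi0
      | succ m hm ih =>
        intro hm1
        have h1 := ih (by omega)
        exact hcon ⟨m, by omega⟩ h1
    exact JJ_last hq (hind r (by have := i0.isLt; omega) (by omega))
  obtain ⟨k, hk1, hk2⟩ := e3
  have e4 : insert k K1 ⊆ KI q := by
    intro x hx
    unfold KI
    simp only [mem_filter, mem_univ, true_and]
    rcases Finset.mem_insert.1 hx with h | h
    · rw [h]; exact Or.inl hk1
    · rw [hK1, mem_filter] at h
      exact Or.inr h.2
  have e5 := Finset.card_le_card e4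
  rw [Finset.card_insert_of_notMem] at e5
  · omega
  · rw [hK1, mem_filter]
    exact fun h => hk2 h.2

theorem DD_card {q : (Fin (r + 1) → Fin n) × (Fin (r + 1) → Fin n)} (hq : q ∈ QQ n r) :
    r + (if (JJ q).card = 0 then 0 else (JJ q).card + 1) ≤ (DD q).card := by
  obtain ⟨h1, h2, _, _⟩ := (mem_QQ q).1 hq
  have e1 : eds q.1 ∪ (KI q).image (fun i : Fin r => s(q.2 i.castSucc, q.2 i.succ)) ⊆ DD q := by
    unfold DD
    apply Finset.union_subset_union subset_rfl
    unfold eds
    exact Finset.image_subset_image (subset_univ _)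
  have e2 : Disjoint (eds q.1) ((KI q).image (fun i : Fin r => s(q.2 i.castSucc, q.2 i.succ))) := by
    rw [Finset.disjoint_left]
    intro e he he'
    obtain ⟨i, _, hi⟩ := Finset.mem_image.1 he
    obtain ⟨k, hk, hk'⟩ := Finset.mem_image.1 he'
    rw [← hk'] at hi
    unfold KI JJ at hk
    simp only [mem_filter, mem_univ, true_and] at hk
    rw [Sym2.eq_iff] at hi
    rcases hk with hk | hk
    · rcases hi with ⟨h3, h4⟩ | ⟨h3, h4⟩
      · exact hk _ h3
      · exact hk _ h4
    · rcases hi with ⟨h3, h4⟩ | ⟨h3, h4⟩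
      · exact hk _ h4
      · exact hk _ h3
  have e3 := Finset.card_le_card e1
  rw [Finset.card_union_of_disjoint e2, eds_card h1,
    Finset.card_image_of_injective _ (edge_inj h2)] at e3
  split_ifs with h
  · omega
  · have := KI_card hq (by omega)
    omega

theorem DD_allE {q : (Fin (r + 1) → Fin n) × (Fin (r + 1) → Fin n)} (hq : q ∈ QQ n r) :
    DD q ⊆ allE n := by
  obtain ⟨h1, h2, _, _⟩ := (mem_QQ q).1 hq
  exact Finset.union_subset (eds_allE h1) (eds_allE h2)

theorem pairs_eq (S : Finset (Sym2 (Fin n))) :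
    pairsW r S = (QQ n r).filter (fun q => DD q ⊆ S) := by
  ext q
  unfold pairsW paths DD
  simp only [mem_filter, mem_product, mem_univ, true_and, mem_QQ, Finset.union_subset_iff,
    chain_iff]
  tauto

theorem ex_eq (p : ℝ) : Ex (allE n) p (fun S => ((pairsW r S).card : ℝ)) =
    ∑ q ∈ QQ n r, p ^ (DD q).card := by
  have h1 : ∀ S : Finset (Sym2 (Fin n)), ((pairsW r S).card : ℝ) =
      ∑ q ∈ QQ n r, if DD q ⊆ S then (1 : ℝ) else 0 := by
    intro S
    rw [pairs_eq, Finset.card_filter]
    push_cast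
    rfl
  simp only [h1]
  rw [Ex_sum]
  apply Finset.sum_congr rfl
  intro q hq
  rw [← Pr_superset (DD_allE hq) p]
  unfold Pr
  apply Ex_congr
  intro S _
  congr

theorem class_card (t : Fin (r + 1) → Option (Fin (r + 1))) :
    ((QQ n r).filter (fun q => pat q = t)).card ≤
      n ^ (r + 1) * n ^ (univ.filter (fun i => t i = none)).card := by
  have h1 : ((QQ n r).filter (fun q => pat q = t)).card ≤
      (univ : Finset ((Fin (r + 1) → Fin n) × ({i // t i = none} → Fin n))).card := by
    apply Finset.card_le_card_of_injOn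
      (fun q : (Fin (r + 1) → Fin n) × (Fin (r + 1) → Fin n) => (q.1, fun i => q.2 i.1))
    · intro q _
      exact mem_coe.2 (mem_univ _)
    · intro q hq q' hq' h
      have h2 := (Finset.mem_filter.1 (Finset.mem_coe.1 hq)).2
      have h3 := (Finset.mem_filter.1 (Finset.mem_coe.1 hq')).2
      simp only [Prod.mk.injEq] at h
      obtain ⟨h4, h5⟩ := h
      apply Prod.ext h4
      funext i
      rcases hti : t i with _ | k
      · exact congrFun h5 ⟨i, hti⟩
      · rw [pat_some q i k (by rw [h2]; exact hti), pat_some q' i k (by rw [h3]; exact hti), h4]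
  refine h1.trans (le_of_eq ?_)
  rw [Finset.card_univ, Fintype.card_prod, Fintype.card_fun, Fintype.card_fun, Fintype.card_fin,
    Fintype.card_fin, Fintype.card_subtype]

theorem class_sum (hr : 1 ≤ r) (p : ℝ) (h0 : 0 ≤ p) (h1 : p ≤ 1) (hpn : 1 ≤ p * n)
    (t : Fin (r + 1) → Option (Fin (r + 1))) :
    ∑ q ∈ (QQ n r).filter (fun q => pat q = t), p ^ (DD q).card ≤
      n * (p * n) ^ r + (p * n) ^ (2 * r) := by
  have hpn0 : 0 ≤ p * n := by linarith
  rcases Finset.eq_empty_or_nonempty ((QQ n r).filter (fun q => pat q = t)) with he | ⟨q0, hq0⟩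
  · rw [he, Finset.sum_empty]
    positivity
  · set j : ℕ := (univ.filter (fun i => t i = none)).card with hj
    have hJ : ∀ q ∈ (QQ n r).filter (fun q => pat q = t), (JJ q).card = j := by
      intro q hq
      have h2 := (Finset.mem_filter.1 hq).2
      rw [hj]
      congr 1
      ext i
      rw [← pat_none, h2]
      simp
    have hjr : j + 2 ≤ r + 1 := by
      rw [← hJ q0 hq0]
      exact JJ_card_le hr (Finset.mem_filter.1 hq0).1
    have h2 : ∀ q ∈ (QQ n r).filter (fun q => pat q = t),
        p ^ (DD q).card ≤ p ^ (r + (if j = 0 then 0 else j + 1)) := by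
      intro q hq
      apply pow_le_pow_of_le_one h0 h1
      rw [← hJ q hq]
      exact DD_card (Finset.mem_filter.1 hq).1
    have h3 := Finset.sum_le_sum h2
    rw [Finset.sum_const, nsmul_eq_mul] at h3
    refine h3.trans ?_
    have h4 : (((QQ n r).filter (fun q => pat q = t)).card : ℝ) ≤ (n : ℝ) ^ (r + 1) * (n : ℝ) ^ j := by
      exact_mod_cast class_card t
    have h5 := mul_le_mul_of_nonneg_right h4 (pow_nonneg h0 (r + (if j = 0 then 0 else j + 1)))
    refine h5.trans ?_
    split_ifs with h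
    · rw [h]
      have e : (n : ℝ) ^ (r + 1) * (n : ℝ) ^ 0 * p ^ (r + 0) = n * (p * n) ^ r := by
        rw [mul_pow]
        ring
      rw [e]
      have : 0 ≤ (p * n) ^ (2 * r) := by positivity
      linarith
    · have e : (n : ℝ) ^ (r + 1) * (n : ℝ) ^ j * p ^ (r + (j + 1)) = (p * n) ^ (r + j + 1) := by
        rw [mul_pow]
        ring
      rw [e]
      have h6 : (p * n) ^ (r + j + 1) ≤ (p * n) ^ (2 * r) :=
        pow_le_pow_right₀ hpn (by omega)
      have : 0 ≤ (n : ℝ) * (p * n) ^ r := by positivity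
      linarith

end PAIRSL

open PAIRSL in
theorem pairs : S_PAIRS := by
  intro r hr
  refine ⟨((Fintype.card (Fin (r + 1) → Option (Fin (r + 1))) : ℕ) : ℝ), ?_, ?_⟩
  · exact_mod_cast Fintype.card_pos
  · intro n p h0 h1 hpn
    rw [ex_eq, ← Finset.sum_fiberwise (QQ n r) (fun q => pat q)]
    calc _ ≤ ∑ _t : Fin (r + 1) → Option (Fin (r + 1)),
          (n * (p * n) ^ r + (p * n) ^ (2 * r)) :=
        Finset.sum_le_sum fun t _ => class_sum hr p h0 h1 hpn t
      _ = _ := by
        rw [Finset.sum_const, nsmul_eq_mul, Finset.card_univ]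

end Pool.Agent.H973.CT
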