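import Pool.Agent.H973.CT.Stm2
import Pool.Agent.H973.CT.Tail2
import Pool.Graph.R_seed8.W166.Gnp.Main
import Pool.Graph.R_seed8.W166.Gnp.ProbA

set_option autoImplicit false

namespace Pool.Agent.H973.CT.PlantL

open Finset Classical Pool.Agent.W166.Gnp

theorem cum_bound (Q : ℕ → ℕ) (C : ℕ) (q : ℝ) (hq : 0 ≤ q) (hQ : ∀ i ≤ C, (Q i : ℝ) ≤ q) :
    ∀ i ≤ C + 1, (cum Q i : ℝ) + 1 ≤ (q + 3) ^ i := by
  intro i
  induction i with
  | zero => intro _; simp [cum]
  | succ i ih =>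
    intro hi
    have h1 := ih (by omega)
    rcases Nat.eq_zero_or_pos i with h0 | h0
    · subst h0
      simp only [cum, if_true]
      push_cast
      simp only [pow_one]
      linarith
    · have e1 : (cum Q (i + 1) : ℝ) + 1 = ((cum Q i : ℝ) + 1) * ((Q i : ℝ) + 1) := by
        simp only [cum, if_neg (show i ≠ 0 by omega)]
        push_cast
        ring
      rw [e1, pow_succ]
      have h2 := hQ i (by omega)
      have h3 : (0 : ℝ) ≤ (Q i : ℝ) := Nat.cast_nonneg _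
      exact mul_le_mul h1 (by linarith) (by linarith) (by positivity)

theorem levels (C : ℕ) (hC : 1 ≤ C) :
    ∃ (a : ℕ) (M : ℝ), 1 ≤ M ∧ ∀ ℓ p : ℝ, M ≤ ℓ → 0 < p → p * ℓ ^ 10 ≤ 1 →
      ∃ s t Λ : ℕ, s = C * t ∧ 1 ≤ t ∧ (Λ : ℝ) ≤ ℓ ^ a ∧ (s : ℝ) * p ≤ 1 / ℓ ^ 9 ∧
      1 / ℓ ^ 9 / 2 ≤ (s : ℝ) * p ∧
      ∀ (V : Type) [DecidableEq V] (W : Finset V) (E : Finset (Sym2 V)), W.card = Λ * s →
        (∀ v ∈ W, ∀ w ∈ W, v ≠ w → s(v, w) ∈ E) →
        ∃ f : ℕ → Finset V, (∀ j ∈ range (C + 1), f j ⊆ W) ∧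
          ((range (C + 1) : Finset ℕ) : Set ℕ).PairwiseDisjoint f ∧
        Pr E p (fun S => ¬ ∀ Rem : Finset V, Rem.card ≤ s → ∃ U, Inv S f Rem s t C U) ≤
          C * (C + 1) / s := by
  have hC' : (1 : ℝ) ≤ C := by exact_mod_cast hC
  obtain ⟨D', hD'⟩ : ∃ D' : ℕ, D' = 4 ^ C * (C + 1) := ⟨_, rfl⟩
  have hD'1 : 1 ≤ D' := by rw [hD']; exact Nat.mul_pos (by positivity) (by omega)
  obtain ⟨B0, hB0⟩ : ∃ B0 : ℕ, B0 = 6 * D' := ⟨_, rfl⟩
  have hB06 : 6 ≤ B0 := by omega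
  have hB0r : (6 : ℝ) ≤ B0 := by exact_mod_cast hB06
  obtain ⟨K0, hK0⟩ := exists_K C hC (15 * 4 ^ C * B0) (by positivity)
  obtain ⟨K, hK⟩ : ∃ K : ℕ, K = K0 + 1 := ⟨_, rfl⟩
  have hK1 : 1 ≤ K := by omega
  have hKr : (1 : ℝ) ≤ K := by exact_mod_cast hK1
  set θ : ℝ := (1 - 1 / (C : ℝ)) ^ K with hθ
  have hC0 : 0 ≤ 1 - 1 / (C : ℝ) := by
    rw [sub_nonneg, div_le_one (by linarith)]; exact hC'
  have hθ0 : 0 ≤ θ := pow_nonneg hC0 _
  have hθB : 15 * 4 ^ C * (B0 : ℝ) * θ ≤ 1 := by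
    refine le_trans ?_ hK0
    apply mul_le_mul_of_nonneg_left _ (by positivity)
    rw [hθ, hK]
    apply pow_le_pow_of_le_one hC0 _ (by omega)
    have : 0 < 1 / (C : ℝ) := by positivity
    linarith
  have hfact : (1 : ℝ) ≤ K.factorial := by exact_mod_cast K.factorial_pos
  obtain ⟨M1, hM1⟩ : ∃ M1 : ℝ, M1 = (8 * (B0 : ℝ) * (4 * K.factorial) ^ C) ^ (C + 1) := ⟨_, rfl⟩
  refine ⟨9 * K * C * (C + 1) + 1, max M1 (max 2 (2 * K * (C + K))),
    le_trans (by norm_num) (le_trans (le_max_left (2 : ℝ) _) (le_max_right _ _)), ?_⟩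
  intro ℓ p hℓ hp hpℓ
  have hℓM : M1 ≤ ℓ := (le_max_left _ _).trans hℓ
  have hℓ2 : 2 ≤ ℓ := ((le_max_left _ _).trans (le_max_right _ _)).trans hℓ
  have hℓK : 2 * K * (C + K) ≤ ℓ := ((le_max_right _ _).trans (le_max_right _ _)).trans hℓ
  have hℓ0 : 0 < ℓ := by linarith
  have hℓ1 : 1 ≤ ℓ := by linarith
  obtain ⟨c0, hc0⟩ : ∃ c0 : ℝ, c0 = 1 / ℓ ^ 9 := ⟨_, rfl⟩
  have hc0pos : 0 < c0 := by rw [hc0]; positivity
  have hℓ9 : 2 ≤ ℓ ^ 9 := by
    calc (2 : ℝ) ≤ ℓ := hℓ2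
      _ = ℓ ^ 1 := (pow_one _).symm
      _ ≤ ℓ ^ 9 := pow_le_pow_right₀ hℓ1 (by norm_num)
  have hc0half : c0 ≤ 1 / 2 := by
    rw [hc0]
    exact one_div_le_one_div_of_le (by norm_num) hℓ9
  obtain ⟨Γ, hΓ⟩ : ∃ Γ : ℝ, Γ = c0 ^ K / K.factorial := ⟨_, rfl⟩
  have hΓpos : 0 < Γ := by
    rw [hΓ]
    positivity
  have hΓ1 : Γ ≤ 1 := by
    rw [hΓ]
    rw [div_le_one (by linarith)]
    have : c0 ^ K ≤ 1 := pow_le_one₀ hc0pos.le (by linarith)
    linarith
  let Q : ℕ → ℕ := fun i => ⌈4 * (B0 : ℝ) / (Γ / 4) ^ i⌉₊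
  have hg : ∀ i : ℕ, 0 < (Γ / 4) ^ i := fun i => by positivity
  have hg1 : ∀ i : ℕ, (Γ / 4) ^ i ≤ 1 := fun i => pow_le_one₀ (by positivity) (by linarith)
  have hQ1 : ∀ i, 4 * (B0 : ℝ) ≤ Q i * (Γ / 4) ^ i := by
    intro i
    have := Nat.le_ceil (4 * (B0 : ℝ) / (Γ / 4) ^ i)
    rwa [div_le_iff₀ (hg i)] at this
  have hQ2 : ∀ i, Q i * (Γ / 4) ^ i ≤ 5 * (B0 : ℝ) := by
    intro i
    have h2 : (Q i : ℝ) < 4 * (B0 : ℝ) / (Γ / 4) ^ i + 1 := Nat.ceil_lt_add_one (by positivity)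
    have h3 : Q i * (Γ / 4) ^ i ≤ (4 * (B0 : ℝ) / (Γ / 4) ^ i + 1) * (Γ / 4) ^ i :=
      mul_le_mul_of_nonneg_right h2.le (hg i).le
    have h4 : (4 * (B0 : ℝ) / (Γ / 4) ^ i + 1) * (Γ / 4) ^ i = 4 * B0 + (Γ / 4) ^ i := by
      have := (hg i).ne'
      field_simp
    have := hg1 i
    linarith
  -- the size of the sets
  have hΛ : (cum Q (C + 1) : ℝ) ≤ ℓ ^ (9 * K * C * (C + 1) + 1) := by
    obtain ⟨q, hq⟩ : ∃ q : ℝ, q = 5 * (B0 : ℝ) * ((4 * K.factorial) ^ C * ℓ ^ (9 * K * C)) :=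
      ⟨_, rfl⟩
    have hq0 : 0 ≤ q := by rw [hq]; positivity
    have h4Γ : 4 / Γ = 4 * K.factorial * ℓ ^ (9 * K) := by
      rw [hΓ, hc0]
      rw [one_div, inv_pow, ← pow_mul]
      field_simp
    have hge1 : 1 ≤ 4 / Γ := by
      rw [le_div_iff₀ hΓpos]; linarith
    have hQq : ∀ i ≤ C, (Q i : ℝ) ≤ q := by
      intro i hi
      have h1 : (Q i : ℝ) ≤ 5 * (B0 : ℝ) * (4 / Γ) ^ i := by
        have h2 := hQ2 i
        have h3 : (4 / Γ) ^ i = 1 / (Γ / 4) ^ i := by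
          rw [one_div, ← inv_pow, inv_div]
        rw [h3, mul_one_div, le_div_iff₀ (hg i)]
        exact h2
      refine h1.trans ?_
      rw [hq]
      have h2 : (4 / Γ) ^ i ≤ (4 / Γ) ^ C := pow_le_pow_right₀ hge1 hi
      have h3 : (4 / Γ) ^ C = (4 * K.factorial) ^ C * ℓ ^ (9 * K * C) := by
        rw [h4Γ, mul_pow, ← pow_mul]
      rw [← h3]
      exact mul_le_mul_of_nonneg_left h2 (by positivity)
    have h1 := cum_bound Q C q hq0 hQq (C + 1) le_rfl
    have h2 : q + 3 ≤ 8 * (B0 : ℝ) * (4 * K.factorial) ^ C * ℓ ^ (9 * K * C) := by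
      have h3 : (1 : ℝ) ≤ (4 * K.factorial) ^ C * ℓ ^ (9 * K * C) := by
        have e1 : (1 : ℝ) ≤ (4 * (K.factorial : ℝ)) ^ C := one_le_pow₀ (by linarith)
        have e2 : (1 : ℝ) ≤ ℓ ^ (9 * K * C) := one_le_pow₀ hℓ1
        nlinarith
      rw [hq]
      have h4 : (3 : ℝ) ≤ 3 * (B0 : ℝ) * ((4 * K.factorial) ^ C * ℓ ^ (9 * K * C)) := by
        nlinarith
      nlinarith
    calc (cum Q (C + 1) : ℝ) ≤ (q + 3) ^ (C + 1) := by linarith
      _ ≤ (8 * (B0 : ℝ) * (4 * K.factorial) ^ C * ℓ ^ (9 * K * C)) ^ (C + 1) :=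
          pow_le_pow_left₀ (by linarith) h2 _
      _ = M1 * ℓ ^ (9 * K * C * (C + 1)) := by
          rw [mul_pow, ← pow_mul, hM1]
      _ ≤ ℓ * ℓ ^ (9 * K * C * (C + 1)) :=
          mul_le_mul_of_nonneg_right hℓM (by positivity)
      _ = ℓ ^ (9 * K * C * (C + 1) + 1) := by rw [pow_succ]; ring
  have hp2 : p ≤ c0 / (2 * K * (C + K)) := by
    rw [le_div_iff₀ (by positivity), hc0, le_div_iff₀ (by positivity)]
    calc p * (2 * K * (C + K)) * ℓ ^ 9 ≤ p * ℓ * ℓ ^ 9 := by gcongr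
      _ = p * ℓ ^ 10 := by ring
      _ ≤ 1 := hpℓ
  obtain ⟨t, ht⟩ : ∃ t, t = ⌊c0 / (C * p)⌋₊ := ⟨_, rfl⟩
  obtain ⟨s, hs⟩ : ∃ s, s = C * t := ⟨_, rfl⟩
  obtain ⟨hb1, hb2, hb3, hb4, hb5⟩ := choose_bounds C K hC hK1 c0 hc0pos hc0half p hp hp2 t s ht hs
  rw [← hΓ] at hb1 hb2 hb3
  have hp1 : p ≤ 1 := by
    refine hp2.trans ?_
    rw [div_le_one (by positivity)]
    nlinarith
  have hspos : (0 : ℝ) < s := by
    by_contra h
    have h1 : (s : ℝ) ≤ 0 := not_lt.mp h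
    have h2 : (s : ℝ) * p ≤ 0 := mul_nonpos_of_nonpos_of_nonneg h1 hp.le
    linarith
  have hs1 : 1 ≤ s := by exact_mod_cast hspos
  have ht1 : 1 ≤ t := by
    rcases Nat.eq_zero_or_pos t with h | h
    · rw [h] at hs; omega
    · exact h
  have hts : t ≤ s := by rw [hs]; exact Nat.le_mul_of_pos_left t hC
  refine ⟨s, t, cum Q (C + 1), hs, ht1, hΛ, hc0 ▸ hb4, hc0 ▸ hb5, ?_⟩
  intro V _ W E hW hE
  obtain ⟨f, hf1, hf2⟩ := partition (fun j => lsz Q j * s) W (C + 1) (by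
    rw [← Finset.sum_mul, ← cum_eq, hW])
  refine ⟨f, fun j hj => (hf1 j hj).1, hf2, ?_⟩
  -- the failure probability
  have hfail : Pr E p (fun S => ∃ i ∈ Icc 1 C,
      ¬ Lev S K s t (B0 * (cum Q i + 1) * s) (3 * (cum Q i + 1) * s) f i) ≤ C * (C + 1) / s := by
    refine (Pr_exists_le hp.le hp1 _ _).trans ?_
    have h1 : ∀ i ∈ Icc 1 C, Pr E p (fun S => ¬ Lev S K s t (B0 * (cum Q i + 1) * s)
        (3 * (cum Q i + 1) * s) f i) ≤ (1 + C) * Real.exp (-s) := by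
      intro i hi
      rw [mem_Icc] at hi
      have hdi : ((range (i + 1) : Finset ℕ) : Set ℕ).PairwiseDisjoint f := by
        apply hf2.subset
        intro x hx
        simp only [coe_range, Set.mem_Iio] at hx ⊢
        omega
      have hdi0 : ((range i : Finset ℕ) : Set ℕ).PairwiseDisjoint f := by
        apply hf2.subset
        intro x hx
        simp only [coe_range, Set.mem_Iio] at hx ⊢
        omega
      apply level_bound hp.le hp1 C K s t i B0 hi.1 hi.2 hB06 Q Γ θ hΓpos hθ0 (hQ1 i) (hQ2 i) hθB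
        hb1 hb2 hb3 f hdi
      · intro v hv e he
        rw [mem_row] at he
        obtain ⟨a, ha, rfl⟩ := he
        rw [mem_biUnion] at ha
        obtain ⟨j, hj, haj⟩ := ha
        rw [mem_range] at hj
        apply hE v ((hf1 i (mem_range.mpr (by omega))).1 hv) a
          ((hf1 j (mem_range.mpr (by omega))).1 haj)
        rintro rfl
        have hdis : Disjoint (f i) (f j) := hf2 (by simp; omega) (by simp; omega) (by omega)
        exact disjoint_left.mp hdis hv haj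
      · rw [card_biUnion hdi0, cum_eq, Finset.sum_mul]
        apply sum_congr rfl
        intro j hj
        rw [mem_range] at hj
        exact (hf1 j (mem_range.mpr (by omega))).2
      · exact (hf1 i (mem_range.mpr (by omega))).2
    refine (sum_le_card_nsmul _ _ _ h1).trans ?_
    rw [Nat.card_Icc, nsmul_eq_mul]
    have h2 : Real.exp (-(s : ℝ)) ≤ 1 / s := by
      rw [Real.exp_neg, ← one_div]
      apply one_div_le_one_div_of_le hspos
      have := Real.add_one_le_exp (s : ℝ)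
      linarith
    have h3 : ((C + 1 - 1 : ℕ) : ℝ) = C := by simp
    rw [h3]
    calc (C : ℝ) * ((1 + C) * Real.exp (-s)) ≤ C * ((1 + C) * (1 / s)) := by gcongr
      _ = C * (C + 1) / s := by ring
  refine (Pr_mono hp.le hp1 ?_).trans hfail
  intro S _ hS
  by_contra hno
  apply hS
  push Not at hno
  intro Rem hRem
  have hT : (C * s.choose t) * s.choose t < D' ^ t := by
    have h1 : s.choose t ≤ 2 ^ s := Nat.choose_le_two_pow s t
    have h2 : (C * s.choose t) * s.choose t ≤ C * 4 ^ s := by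
      calc (C * s.choose t) * s.choose t ≤ (C * 2 ^ s) * 2 ^ s := by gcongr
        _ = C * 4 ^ s := by rw [mul_assoc, ← mul_pow]; norm_num
    have h3 : D' ^ t = 4 ^ s * (C + 1) ^ t := by
      rw [hD', mul_pow, ← pow_mul, ← hs]
    have h4 : C < (C + 1) ^ t := by
      calc C < C + 1 := Nat.lt_succ_self C
        _ = (C + 1) ^ 1 := (pow_one _).symm
        _ ≤ (C + 1) ^ t := Nat.pow_le_pow_right (by omega) ht1
    rw [h3]
    calc (C * s.choose t) * s.choose t ≤ C * 4 ^ s := h2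
      _ < (C + 1) ^ t * 4 ^ s := Nat.mul_lt_mul_of_pos_right h4 (by positivity)
      _ = 4 ^ s * (C + 1) ^ t := by ring
  have hls : ∀ i, s ≤ (cum Q i + 1) * s := fun i => Nat.le_mul_of_pos_left s (by omega)
  exact inv_all S f Rem K s t D' C (fun i => B0 * (cum Q i + 1) * s)
    (fun i => 3 * (cum Q i + 1) * s) hf2 hD'1 (by
      intro i
      have h1 := hls i
      have h2 : (cum Q i + 1) * s ≤ D' * ((cum Q i + 1) * s) := Nat.le_mul_of_pos_left _ hD'1
      calc D' * (3 * (cum Q i + 1) * s) + Rem.card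
          ≤ 3 * (D' * ((cum Q i + 1) * s)) + D' * ((cum Q i + 1) * s) := by
            have : D' * (3 * (cum Q i + 1) * s) = 3 * (D' * ((cum Q i + 1) * s)) := by ring
            omega
        _ ≤ 6 * (D' * ((cum Q i + 1) * s)) := by omega
        _ = B0 * (cum Q i + 1) * s := by rw [hB0]; ring) hT hts (by
      intro i
      have h1 := hls i
      have : 3 * (cum Q i + 1) * s = 3 * ((cum Q i + 1) * s) := by ring
      omega) (by
      intro i
      have h1 := hls i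
      have h2 : (cum Q i + 1) * s ≤ D' * ((cum Q i + 1) * s) := Nat.le_mul_of_pos_left _ hD'1
      have h3 : B0 * (cum Q i + 1) * s = 6 * (D' * ((cum Q i + 1) * s)) := by rw [hB0]; ring
      omega) (by
      have h1 := (hf1 0 (mem_range.mpr (by omega))).2
      have h2 : lsz Q 0 = 2 := rfl
      rw [h2] at h1
      omega) (fun i hi1 hiC => hno i (mem_Icc.mpr ⟨hi1, hiC⟩)) C le_rfl

variable {n : ℕ}

theorem mem_prs2 {A : Finset (Fin n)} {x y : Fin n} (h : s(x, y) ∈ prs2 A A) :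
    x ∈ A ∧ y ∈ A ∧ x ≠ y := by
  simp only [prs2, mem_image, mem_filter, mem_product] at h
  obtain ⟨q, ⟨⟨h1, h2⟩, h3⟩, h4⟩ := h
  rw [Sym2.eq_iff] at h4
  rcases h4 with ⟨rfl, rfl⟩ | ⟨rfl, rfl⟩
  · exact ⟨h1, h2, h3⟩
  · exact ⟨h2, h1, h3.symm⟩

/-- the vertices `φ 0` of the cycles of length `2h+5` -/
noncomputable def Rm (h : ℕ) (W : Finset (Fin n)) (S : Finset (Sym2 (Fin n))) : Finset (Fin n) :=
  (copies (SimpleGraph.cycleGraph (2 * h + 2 + 3)) (fun _ => W) S).image (fun φ => φ 0)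

theorem adj_next {l : ℕ} (a b : Fin (l + 3)) (hab : (SimpleGraph.cycleGraph (l + 3)).Adj a b) :
    (b.val = a.val + 1 ∨ (a.val + 1 = l + 3 ∧ b.val = 0)) ∨
      (a.val = b.val + 1 ∨ (b.val + 1 = l + 3 ∧ a.val = 0)) := by
  rw [SimpleGraph.cycleGraph_adj'] at hab
  have ha := a.2
  have hb := b.2
  rcases hab with h | h
  · right
    rw [Fin.val_sub] at h
    by_cases hle : b.val ≤ a.val
    · have e1 : l + 3 - b.val + a.val = (a.val - b.val) + (l + 3) := by omega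
      rw [e1, Nat.add_mod_right, Nat.mod_eq_of_lt (by omega)] at h
      left; omega
    · rw [Nat.mod_eq_of_lt (by omega)] at h
      right; omega
  · left
    rw [Fin.val_sub] at h
    by_cases hle : a.val ≤ b.val
    · have e1 : l + 3 - a.val + b.val = (b.val - a.val) + (l + 3) := by omega
      rw [e1, Nat.add_mod_right, Nat.mod_eq_of_lt (by omega)] at h
      left; omega
    · rw [Nat.mod_eq_of_lt (by omega)] at h
      right; omega

theorem nocyc (h : ℕ) (W U X : Finset (Fin n)) (S H : Finset (Sym2 (Fin n)))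
    (hX : X ⊆ U) (hU : U ⊆ W) (hR : Disjoint U (Rm h W S)) (hH : H ⊆ S) (hHX : H ⊆ prs2 X X) :
    NoCyc (2 * h + 5) H := by
  rintro ⟨f, hf, hc⟩
  have hnext : ∀ i : Fin (2 * h + 5), ∃ j : Fin (2 * h + 5),
      (j.val = i.val + 1 ∨ (i.val + 1 = 2 * h + 5 ∧ j.val = 0)) := by
    intro i
    by_cases h1 : i.val + 1 = 2 * h + 5
    · exact ⟨⟨0, by omega⟩, Or.inr ⟨h1, rfl⟩⟩
    · exact ⟨⟨i.val + 1, by have := i.2; omega⟩, Or.inl rfl⟩
  have hfX : ∀ i, f i ∈ X := by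
    intro i
    obtain ⟨j, hj⟩ := hnext i
    exact (mem_prs2 (hHX (hc i j hj))).1
  have hmem : f ⟨0, by omega⟩ ∈ Rm h W S := by
    unfold Rm
    rw [mem_image]
    refine ⟨f, ?_, rfl⟩
    rw [mem_copies]
    refine ⟨fun i => hU (hX (hfX i)), hf, ?_⟩
    intro a b hab
    rcases adj_next (l := 2 * h + 2) a b hab with h1 | h1
    · exact hH (hc a b h1)
    · rw [Sym2.eq_swap]
      exact hH (hc b a h1)
  exact disjoint_left.mp hR (hX (hfX _)) hmem

theorem Rm_bound (h : ℕ) (W : Finset (Fin n)) {E : Finset (Sym2 (Fin n))} {p s : ℝ} (h0 : 0 ≤ p)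
    (h1 : p ≤ 1) (hs : 0 < s) :
    Pr E p (fun S => s < ((Rm h W S).card : ℝ)) ≤ (W.card * p) ^ (2 * h + 2 + 3) / s := by
  have h2 : Pr E p (fun S => s < ((Rm h W S).card : ℝ)) ≤ Pr E p (fun S => s ≤
      ((copies (SimpleGraph.cycleGraph (2 * h + 2 + 3)) (fun _ => W) S).card : ℝ)) := by
    apply Pr_mono h0 h1
    intro S _ hS
    have h3 : (Rm h W S).card ≤
        (copies (SimpleGraph.cycleGraph (2 * h + 2 + 3)) (fun _ => W) S).card := card_image_le
    exact hS.le.trans (by exact_mod_cast h3)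
  refine h2.trans (Pr_markov h0 h1 _ (fun S _ => Nat.cast_nonneg _) _ _ hs ?_)
  refine (copies_expect (SimpleGraph.cycleGraph (2 * h + 2 + 3)) (fun _ => W) h0).trans ?_
  rw [card_edge_cycle, prod_const, card_univ, Fintype.card_fin, ← mul_pow]

/-- local sparsity -/
theorem sparse (V₀ : Finset (Fin n)) (κ u : ℕ) {p ℓ : ℝ} (h0 : 0 < p) (h1 : p ≤ 1) (hℓ : 3 ≤ ℓ)
    (hκ : 1 ≤ κ) (hu : 1 ≤ u) (hup : (u : ℝ) * p * ℓ ^ 8 ≤ 1) (hn : (n : ℝ) ^ 2 ≤ ℓ ^ κ)
    (hn1 : 1 ≤ n) :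
    Pr (prs2 V₀ V₀) p (fun S => ∃ U : Finset (Fin n), U ⊆ V₀ ∧ U.card = u ∧
      (κ : ℝ) * u ≤ ((S ∩ prs U U).card : ℝ)) ≤ Real.exp (-6) := by
  have hℓ0 : 0 < ℓ := by linarith
  have hκr : (1 : ℝ) ≤ κ := by exact_mod_cast hκ
  have hur : (1 : ℝ) ≤ u := by exact_mod_cast hu
  have hnr : (1 : ℝ) ≤ n := by exact_mod_cast hn1
  have hlog1 : 1 ≤ Real.log ℓ := by
    rw [Real.le_log_iff_exp_le hℓ0]
    have := Real.exp_one_lt_d9
    linarith
  have hlogn : Real.log n ≤ κ * Real.log ℓ := by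
    have h2 : (n : ℝ) ≤ ℓ ^ κ := by nlinarith
    calc Real.log n ≤ Real.log (ℓ ^ κ) := Real.log_le_log (by linarith) h2
      _ = κ * Real.log ℓ := by rw [Real.log_pow]
  calc Pr (prs2 V₀ V₀) p (fun S => ∃ U : Finset (Fin n), U ⊆ V₀ ∧ U.card = u ∧
      (κ : ℝ) * u ≤ ((S ∩ prs U U).card : ℝ))
      ≤ Pr (prs2 V₀ V₀) p (fun S => ∃ U ∈ powersetCard u V₀,
          (κ : ℝ) * u ≤ ((S ∩ prs U U).card : ℝ)) := by
        apply Pr_mono h0.le h1
        rintro S - ⟨U, hU1, hU2, hU3⟩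
        exact ⟨U, mem_powersetCard.mpr ⟨hU1, hU2⟩, hU3⟩
    _ ≤ ∑ U ∈ powersetCard u V₀, Pr (prs2 V₀ V₀) p (fun S =>
          (κ : ℝ) * u ≤ ((S ∩ prs U U).card : ℝ)) := Pr_exists_le h0.le h1 _ _
    _ ≤ ∑ U ∈ powersetCard u V₀, Real.exp (-((8 * Real.log ℓ - 1) * (κ * u))) := by
        apply sum_le_sum
        intro U hU
        rw [mem_powersetCard] at hU
        have hsub : prs U U ⊆ prs2 V₀ V₀ := by
          intro e he
          simp only [prs, mem_image, mem_filter, mem_product] at he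
          obtain ⟨q, ⟨⟨q1, q2⟩, q3⟩, rfl⟩ := he
          simp only [prs2, mem_image, mem_filter, mem_product]
          exact ⟨q, ⟨⟨hU.1 q1, hU.1 q2⟩, q3⟩, rfl⟩
        refine tail hsub h0.le h1 (8 * Real.log ℓ - 1) (κ * u) (by linarith) ?_
        have e1 : Real.exp (1 + (8 * Real.log ℓ - 1)) = ℓ ^ 8 := by
          rw [show (1 + (8 * Real.log ℓ - 1)) = ((8 : ℕ) : ℝ) * Real.log ℓ by push_cast; ring,
            Real.exp_nat_mul, Real.exp_log hℓ0]
        rw [e1]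
        have h2 : ((prs U U).card : ℝ) ≤ (u : ℝ) * u := by
          have := card_prs U U
          rw [hU.2] at this
          exact_mod_cast this
        calc ℓ ^ 8 * ((prs U U).card : ℝ) * p ≤ ℓ ^ 8 * ((u : ℝ) * u) * p := by gcongr
          _ = (u * p * ℓ ^ 8) * u := by ring
          _ ≤ 1 * u := by gcongr
          _ ≤ κ * u := by gcongr
    _ ≤ (n : ℝ) ^ u * Real.exp (-((8 * Real.log ℓ - 1) * (κ * u))) := by
        rw [sum_const, nsmul_eq_mul, card_powersetCard]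
        apply mul_le_mul_of_nonneg_right _ (Real.exp_pos _).le
        have h2 : V₀.card.choose u ≤ V₀.card ^ u := Nat.choose_le_pow _ _
        have h3 : V₀.card ≤ n := by
          have := card_le_univ V₀
          rwa [Fintype.card_fin] at this
        have h4 : V₀.card.choose u ≤ n ^ u := h2.trans (Nat.pow_le_pow_left h3 u)
        exact_mod_cast h4
    _ = Real.exp (u * Real.log n - (8 * Real.log ℓ - 1) * (κ * u)) := by
        have e1 : (u : ℝ) * Real.log n - (8 * Real.log ℓ - 1) * (κ * u) =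
            (u : ℝ) * Real.log n + -((8 * Real.log ℓ - 1) * (κ * u)) := by ring
        rw [e1, Real.exp_add, Real.exp_nat_mul, Real.exp_log (by linarith)]
    _ ≤ Real.exp (-6) := by
        rw [Real.exp_le_exp]
        have h2 : u * Real.log n ≤ u * (κ * Real.log ℓ) :=
          mul_le_mul_of_nonneg_left hlogn (by linarith)
        have h3 : (1 : ℝ) ≤ κ * u := by nlinarith
        have h4 : 6 ≤ 7 * Real.log ℓ - 1 := by linarith
        have h5 : 6 * 1 ≤ (7 * Real.log ℓ - 1) * (κ * u) :=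
          mul_le_mul h4 h3 (by norm_num) (by linarith)
        nlinarith

/-- deletion of the vertices of large degree -/
theorem clean (C κ s t : ℕ) (hC : 1 ≤ C) (hs : s = 2 * C * t) {ℓ : ℝ}
    (hκ : 4 * κ * (2 * C + 1) ≤ ℓ) (hℓ : 0 < ℓ) {S : Finset (Sym2 (Fin n))} (hS : S ⊆ allE n)
    {f : ℕ → Finset (Fin n)} {Rem U : Finset (Fin n)}
    (hf : ((range (2 * C + 1) : Finset ℕ) : Set ℕ).PairwiseDisjoint f)
    (hU : Inv S f Rem s t (2 * C) U)
    (hsp : U.card = (2 * C + 1) * s → ((S ∩ prs U U).card : ℝ) ≤ κ * U.card) :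
    ∃ X ⊆ U, (∀ v, ((nb (S ∩ prs2 X X) univ v).card : ℝ) ≤ ℓ) ∧
      ¬ (SimpleGraph.fromEdgeSet ((S ∩ prs2 X X : Finset _) : Set (Sym2 (Fin n)))).Colorable C := by
  obtain ⟨hU1, hU2, hU3, hU4⟩ := hU
  obtain ⟨X, hX⟩ : ∃ X : Finset (Fin n), X = U.filter (fun v => ((nb S U v).card : ℝ) ≤ ℓ) :=
    ⟨_, rfl⟩
  have hXU : X ⊆ U := by rw [hX]; exact filter_subset _ _
  have hUc : U.card = (2 * C + 1) * s := by
    have e : U = (range (2 * C + 1)).biUnion (fun j => U ∩ f j) := by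
      ext v
      rw [mem_biUnion]
      constructor
      · intro hv
        have h1 := hU1 hv
        rw [mem_biUnion] at h1
        obtain ⟨j, hj, hvj⟩ := h1
        exact ⟨j, hj, mem_inter.mpr ⟨hv, hvj⟩⟩
      · rintro ⟨j, _, hvj⟩
        exact (mem_inter.mp hvj).1
    have hd : ∀ x ∈ range (2 * C + 1), ∀ y ∈ range (2 * C + 1), x ≠ y →
        Disjoint (U ∩ f x) (U ∩ f y) := by
      intro x hx y hy hxy
      exact (hf (by simpa using hx) (by simpa using hy) hxy).mono inter_subset_right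
        inter_subset_right
    rw [e, card_biUnion hd, sum_congr rfl (fun j hj => hU3 j hj), sum_const, card_range,
      smul_eq_mul]
  have hY : ((U \ X).card : ℝ) ≤ s / 2 := by
    have h1 : ℓ * ((U \ X).card : ℝ) ≤ ∑ v ∈ U \ X, ((nb S U v).card : ℝ) := by
      rw [mul_comm, ← nsmul_eq_mul]
      apply card_nsmul_le_sum
      intro v hv
      rw [mem_sdiff, hX, mem_filter] at hv
      by_contra hcon
      push Not at hcon
      exact hv.2 ⟨hv.1, hcon.le⟩
    have h2 : ∑ v ∈ U \ X, ((nb S U v).card : ℝ) ≤ ∑ v ∈ U, ((nb S U v).card : ℝ) :=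
      sum_le_sum_of_subset_of_nonneg sdiff_subset (fun _ _ _ => Nat.cast_nonneg _)
    have h3 : ∑ v ∈ U, ((nb S U v).card : ℝ) ≤ 2 * ((S ∩ prs U U).card : ℝ) := by
      have := sum_nb_le hS U U
      exact_mod_cast this
    have h4 := hsp hUc
    rw [hUc] at h4
    push_cast at h4
    have h5 : ℓ * ((U \ X).card : ℝ) ≤ 2 * (κ * ((2 * C + 1) * s)) := by linarith
    have hs0 : (0 : ℝ) ≤ s := Nat.cast_nonneg _
    have h6 : 2 * ((κ : ℝ) * ((2 * C + 1) * s)) ≤ ℓ * (s / 2) := by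
      have := mul_le_mul_of_nonneg_right hκ hs0
      nlinarith
    exact le_of_mul_le_mul_left (h5.trans h6) hℓ
  have hYn : (U \ X).card ≤ C * t := by
    have h1 : ((s : ℕ) : ℝ) = 2 * C * t := by rw [hs]; push_cast; ring
    rw [h1] at hY
    have h2 : ((U \ X).card : ℝ) ≤ ((C * t : ℕ) : ℝ) := by push_cast; linarith
    exact_mod_cast h2
  refine ⟨X, hXU, ?_, ?_⟩
  · intro v
    by_cases hv : v ∈ X
    · have h1 : nb (S ∩ prs2 X X) univ v ⊆ nb S U v := by
        intro u hu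
        simp only [nb, mem_filter, mem_univ, true_and, mem_inter] at hu ⊢
        exact ⟨hXU (mem_prs2 hu.2).2.1, hu.1⟩
      have h2 : ((nb S U v).card : ℝ) ≤ ℓ := by
        rw [hX, mem_filter] at hv
        exact hv.2
      exact le_trans (by exact_mod_cast card_le_card h1) h2
    · have h1 : nb (S ∩ prs2 X X) univ v = ∅ := by
        rw [eq_empty_iff_forall_notMem]
        intro u hu
        simp only [nb, mem_filter, mem_univ, true_and, mem_inter] at hu
        exact hv (mem_prs2 hu.2).1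
      rw [h1]
      simp only [card_empty, Nat.cast_zero]
      exact hℓ.le
  · rintro ⟨c⟩
    have : NeZero C := ⟨by omega⟩
    have hpig : ∀ j : Fin (C + 1), ∃ y : Fin C, t ≤ ((X ∩ f j).filter (fun v => c v = y)).card := by
      intro j
      obtain ⟨y, _, hy⟩ := exists_le_card_fiber_of_mul_le_card_of_maps_to
        (s := X ∩ f j) (t := (univ : Finset (Fin C))) (f := fun v => c v) (n := t)
        (fun _ _ => mem_univ _) ⟨0, mem_univ _⟩ (by
          rw [card_univ, Fintype.card_fin]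
          have h1 : U ∩ f j ⊆ (X ∩ f j) ∪ (U \ X) := by
            intro v hv
            rw [mem_inter] at hv
            rw [mem_union, mem_inter, mem_sdiff]
            by_cases h : v ∈ X
            · exact Or.inl ⟨h, hv.2⟩
            · exact Or.inr ⟨hv.1, h⟩
          have h2 := (card_le_card h1).trans (card_union_le _ _)
          rw [hU3 j (mem_range.mpr (by have := j.2; omega)), hs] at h2
          have h3 : 2 * C * t = C * t + C * t := by ring
          omega)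
      exact ⟨y, hy⟩
    choose y hy using hpig
    have hni : ¬ Function.Injective y := by
      intro h
      have := Fintype.card_le_of_injective y h
      simp at this
    rw [Function.Injective] at hni
    push Not at hni
    obtain ⟨a, b, hab, hne⟩ := hni
    have main : ∀ a b : Fin (C + 1), a < b → y a = y b → False := by
      intro a b hlt hab
      obtain ⟨S0, hS0, hS0c⟩ := exists_subset_card_eq (hy a)
      obtain ⟨T0, hT0, hT0c⟩ := exists_subset_card_eq (hy b)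
      have hsub : ∀ j : Fin (C + 1), (X ∩ f j).filter (fun v => c v = y j) ⊆ U ∩ f j := by
        intro j
        refine (filter_subset _ _).trans ?_
        exact inter_subset_inter_right hXU
      obtain ⟨v, hv, x, hx, hvx⟩ := hU4 b (mem_range.mpr (by have := b.2; omega)) a
        (mem_range.mpr hlt) S0 (hS0.trans (hsub a)) hS0c T0 (hT0.trans (hsub b)) hT0c
      have hv1 := mem_filter.mp (hT0 hv)
      have hx1 := mem_filter.mp (hS0 hx)
      have hv2 := mem_inter.mp hv1.1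
      have hx2 := mem_inter.mp hx1.1
      have hvne : v ≠ x := by
        intro h
        subst h
        have h3 : Disjoint (f a) (f b) := hf (by simp; omega)
          (by simp; omega) (by
            intro h4
            exact absurd (Fin.ext h4) hlt.ne)
        exact disjoint_left.mp h3 hx2.2 hv2.2
      have hadj : (SimpleGraph.fromEdgeSet ((S ∩ prs2 X X : Finset _) :
          Set (Sym2 (Fin n)))).Adj v x := by
        rw [SimpleGraph.fromEdgeSet_adj]
        refine ⟨?_, hvne⟩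
        rw [mem_coe, mem_inter]
        refine ⟨hvx, ?_⟩
        simp only [prs2, mem_image, mem_filter, mem_product]
        exact ⟨(v, x), ⟨⟨hv2.1, hx2.1⟩, hvne⟩, rfl⟩
      apply c.valid hadj
      rw [hv1.2, hx1.2, hab]
    rcases lt_or_gt_of_ne hne with h | h
    · exact main a b h hab
    · exact main b a h hab.symm

end Pool.Agent.H973.CT.PlantL

namespace Pool.Agent.H973.CT

open Finset Classical Pool.Agent.W166.Gnp PlantL

theorem plant : S_PLANT := by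
  intro h C hh hC
  obtain ⟨a, M, hM, hlev⟩ := levels (2 * C) (by omega)
  refine ⟨a * (2 * h + 5) + a + 12, ?_⟩
  intro κ hκ
  have hC' : (1 : ℝ) ≤ C := by exact_mod_cast hC
  have hκ' : (1 : ℝ) ≤ κ := by exact_mod_cast hκ
  refine ⟨M + 4 * κ * (2 * C + 1) + 128 * ((2 * C) * (2 * C + 1)) + 128, ?_, ?_⟩
  · have h1 : 0 ≤ 4 * (κ : ℝ) * (2 * C + 1) := by positivity
    have h2 : 0 ≤ 128 * ((2 * (C : ℝ)) * (2 * C + 1)) := by positivity
    linarith
  intro n p ℓ V₀ hp hp1 hℓ _ hnκ hbig hsm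
  have g1 : 0 ≤ 4 * (κ : ℝ) * (2 * C + 1) := by positivity
  have g2 : 0 ≤ 128 * ((2 * (C : ℝ)) * (2 * C + 1)) := by positivity
  have hℓM : M ≤ ℓ := by linarith
  have hℓκ : 4 * κ * (2 * C + 1) ≤ ℓ := by linarith
  have hℓC : 128 * ((2 * C) * (2 * C + 1)) ≤ ℓ := by linarith
  have hℓ128 : 128 ≤ ℓ := by linarith
  have hℓ0 : 0 < ℓ := by linarith
  have hℓ1 : 1 ≤ ℓ := by linarith
  have hpow : ∀ k : ℕ, k ≤ a * (2 * h + 5) + a + 12 → p * ℓ ^ k ≤ 1 := by
    intro k hk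
    refine le_trans ?_ hsm
    exact mul_le_mul_of_nonneg_left (pow_le_pow_right₀ hℓ1 hk) hp.le
  obtain ⟨s, t, Λ, hs, ht, hΛ, hsp1, hsp2, hmain⟩ := hlev ℓ p hℓM hp (hpow 10 (by omega))
  have hs0 : (0 : ℝ) < s := by
    by_contra hcon
    have h1 : (s : ℝ) ≤ 0 := not_lt.mp hcon
    have h2 : (s : ℝ) * p ≤ 0 := mul_nonpos_of_nonpos_of_nonneg h1 hp.le
    have h3 : 0 < 1 / ℓ ^ 9 / 2 := by positivity
    linarith
  have hs1 : 1 ≤ s := by exact_mod_cast hs0
  have hspone : (s : ℝ) * p ≤ 1 := by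
    refine hsp1.trans ?_
    rw [div_le_one (by positivity)]
    exact one_le_pow₀ hℓ1
  have hinv : 1 / (s : ℝ) ≤ 2 * (ℓ ^ 9 * p) := by
    rw [div_le_iff₀ hs0]
    rw [div_div, div_le_iff₀ (by positivity)] at hsp2
    linarith
  -- the set W
  have hWc : Λ * s ≤ V₀.card := by
    have h1 : ((Λ * s : ℕ) : ℝ) ≤ (V₀.card : ℝ) := by
      push_cast
      have h2 : (Λ : ℝ) * s * p ≤ V₀.card * p := by
        calc (Λ : ℝ) * s * p = Λ * (s * p) := by ring
          _ ≤ ℓ ^ a * 1 := mul_le_mul hΛ hspone (by positivity) (by positivity)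
          _ = ℓ ^ a := mul_one _
          _ ≤ ℓ ^ (a * (2 * h + 5) + a + 12) := pow_le_pow_right₀ hℓ1 (by omega)
          _ ≤ p * V₀.card := hbig
          _ = V₀.card * p := mul_comm _ _
      exact le_of_mul_le_mul_right h2 hp
    exact_mod_cast h1
  obtain ⟨W, hWV, hWcard⟩ := exists_subset_card_eq hWc
  have hn1 : 1 ≤ n := by
    have h1 : V₀.card ≤ n := by
      have := card_le_univ V₀
      rwa [Fintype.card_fin] at this
    by_contra hcon
    have h2 : n = 0 := by omega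
    have h3 : V₀.card = 0 := by omega
    rw [h3] at hbig
    simp only [Nat.cast_zero, mul_zero] at hbig
    have : 0 < ℓ ^ (a * (2 * h + 5) + a + 12) := by positivity
    linarith
  obtain ⟨f, hf1, hf2, hf3⟩ := hmain (Fin n) W (prs2 V₀ V₀) hWcard (by
    intro v hv w hw hvw
    simp only [prs2, mem_image, mem_filter, mem_product]
    exact ⟨(v, w), ⟨⟨hWV hv, hWV hw⟩, hvw⟩, rfl⟩)
  have hu1 : 1 ≤ (2 * C + 1) * s := Nat.mul_pos (by omega) hs1
  have hup : (((2 * C + 1) * s : ℕ) : ℝ) * p * ℓ ^ 8 ≤ 1 := by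
    push_cast
    have h1 : (2 * (C : ℝ) + 1) ≤ ℓ := by nlinarith
    calc (2 * (C : ℝ) + 1) * s * p * ℓ ^ 8 = (2 * (C : ℝ) + 1) * (s * p) * ℓ ^ 8 := by ring
      _ ≤ ℓ * (1 / ℓ ^ 9) * ℓ ^ 8 := by gcongr
      _ = 1 := by field_simp
  have hE : prs2 V₀ V₀ ⊆ allE n := prs_sub V₀ V₀
  -- the three bad events
  have hor : Pr (prs2 V₀ V₀) p (fun S => ¬ ∃ X ⊆ V₀, ∃ H ⊆ S, H ⊆ prs2 X X ∧
      (X.card : ℝ) * p * ℓ ^ 8 ≤ 1 ∧
      (∀ v, ((nb H univ v).card : ℝ) ≤ ℓ) ∧ NoCyc (2 * h + 5) H ∧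
      ¬ (SimpleGraph.fromEdgeSet (H : Set (Sym2 (Fin n)))).Colorable C) ≤
      Pr (prs2 V₀ V₀) p (fun S => (¬ ∀ Rem : Finset (Fin n), Rem.card ≤ s →
        ∃ U, Inv S f Rem s t (2 * C) U) ∨ ((s : ℝ) < ((Rm h W S).card : ℝ) ∨
        ∃ U : Finset (Fin n), U ⊆ V₀ ∧ U.card = (2 * C + 1) * s ∧
          (κ : ℝ) * (((2 * C + 1) * s : ℕ) : ℝ) ≤ ((S ∩ prs U U).card : ℝ))) := by
    apply Pr_mono hp.le hp1
    intro S hS hbad
    by_contra hno
    push Not at hno
    obtain ⟨n1, n2, n3⟩ := hno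
    have n2' : (Rm h W S).card ≤ s := by exact_mod_cast n2
    obtain ⟨U, hU⟩ := n1 (Rm h W S) n2'
    have hUW : U ⊆ W := hU.1.trans (biUnion_subset.mpr (fun j hj => hf1 j hj))
    obtain ⟨X, hX1, hX2, hX3⟩ := clean C κ s t hC hs hℓκ hℓ0 (hS.trans hE) hf2 hU (by
      intro hUc
      have := n3 U (hUW.trans hWV) hUc
      rw [hUc]
      exact this.le)
    apply hbad
    refine ⟨X, hX1.trans (hUW.trans hWV), S ∩ prs2 X X, inter_subset_left, inter_subset_right, ?_,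
      hX2, ?_, hX3⟩
    · have h1 := (card_le_card hX1).trans (inv_card S f (Rm h W S) s t (2 * C) U hU)
      have h2 : (X.card : ℝ) ≤ (((2 * C + 1) * s : ℕ) : ℝ) := by exact_mod_cast h1
      refine le_trans ?_ hup
      gcongr
    · exact nocyc h W U X S _ hX1 hUW hU.2.1 inter_subset_left inter_subset_right
  refine hor.trans ((Pr_or_le hp.le hp1 _ _).trans ?_)
  have hor2 := Pr_or_le (E := prs2 V₀ V₀) hp.le hp1 (fun S => (s : ℝ) < ((Rm h W S).card : ℝ))
    (fun S => ∃ U : Finset (Fin n), U ⊆ V₀ ∧ U.card = (2 * C + 1) * s ∧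
          (κ : ℝ) * (((2 * C + 1) * s : ℕ) : ℝ) ≤ ((S ∩ prs U U).card : ℝ))
  have b1 : ((2 * C : ℕ) : ℝ) * ((2 * C : ℕ) + 1) / s ≤ 1 / 64 := by
    push_cast
    calc 2 * (C : ℝ) * (2 * C + 1) / s = (2 * C * (2 * C + 1)) * (1 / s) := by ring
      _ ≤ (2 * C * (2 * C + 1)) * (2 * (ℓ ^ 9 * p)) := by gcongr
      _ ≤ (ℓ / 128) * (2 * (ℓ ^ 9 * p)) := by
          apply mul_le_mul_of_nonneg_right _ (by positivity)
          linarith
      _ = (p * ℓ ^ 10) / 64 := by ring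
      _ ≤ 1 / 64 := by
          have := hpow 10 (by omega)
          linarith
  have b2 : Pr (prs2 V₀ V₀) p (fun S => (s : ℝ) < ((Rm h W S).card : ℝ)) ≤ 1 / 64 := by
    refine (Rm_bound h W hp.le hp1 hs0).trans ?_
    have h1 : (W.card : ℝ) * p ≤ ℓ ^ a := by
      rw [hWcard]
      push_cast
      calc (Λ : ℝ) * s * p = Λ * (s * p) := by ring
        _ ≤ ℓ ^ a * 1 := mul_le_mul hΛ hspone (by positivity) (by positivity)
        _ = ℓ ^ a := mul_one _
    calc (W.card * p) ^ (2 * h + 2 + 3) / s = (W.card * p) ^ (2 * h + 2 + 3) * (1 / s) := by ring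
      _ ≤ (ℓ ^ a) ^ (2 * h + 2 + 3) * (2 * (ℓ ^ 9 * p)) := by gcongr
      _ = 2 * (p * ℓ ^ (a * (2 * h + 5) + 9)) := by
          rw [← pow_mul, pow_add]
          have e1 : a * (2 * h + 2 + 3) = a * (2 * h + 5) := by ring
          rw [e1]
          ring
      _ ≤ (ℓ / 64) * (p * ℓ ^ (a * (2 * h + 5) + 9)) := by
          apply mul_le_mul_of_nonneg_right _ (by positivity)
          linarith
      _ = (p * ℓ ^ (a * (2 * h + 5) + 10)) / 64 := by
          rw [show a * (2 * h + 5) + 10 = (a * (2 * h + 5) + 9) + 1 by ring, pow_succ]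
          ring
      _ ≤ 1 / 64 := by
          have := hpow (a * (2 * h + 5) + 10) (by omega)
          linarith
  have b3 := sparse V₀ κ ((2 * C + 1) * s) hp hp1 (by linarith : (3 : ℝ) ≤ ℓ) hκ hu1 hup hnκ hn1
  have b4 : Real.exp (-6) ≤ 1 / 32 := by
    rw [Real.exp_neg, ← one_div]
    apply one_div_le_one_div_of_le (by norm_num)
    have h1 : (2 : ℝ) ≤ Real.exp 1 := by
      have := Real.exp_one_gt_d9
      linarith
    calc (32 : ℝ) ≤ 2 ^ 6 := by norm_num
      _ ≤ (Real.exp 1) ^ 6 := pow_le_pow_left₀ (by norm_num) h1 6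
      _ = Real.exp 6 := by rw [← Real.exp_nat_mul]; norm_num
  have b5 := hf3
  linarith

end Pool.Agent.H973.CT
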