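import Pool.Agent.H973.CT.Stm

set_option autoImplicit false

/-! Leaf PRIV of project MP_1bacea_co (helper973), proved by helper658: the union bound for the
non-private neighbours of a small set `T`. -/

namespace Pool.Agent.H973.CT

open Finset Classical Pool.Agent.W166.Gnp

variable {n : ℕ}

namespace PrivL

/-- number of sets with at most `m` elements -/
theorem card_small (n m : ℕ) :
    ((univ : Finset (Finset (Fin n))).filter (fun T => T.card ≤ m)).card ≤ (n + 1) ^ m := by
  have h1 : (univ : Finset (Finset (Fin n))).filter (fun T => T.card ≤ m) ⊆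
      (range (m + 1)).biUnion (fun j => powersetCard j (univ : Finset (Fin n))) := by
    intro T hT
    rw [mem_filter] at hT
    rw [mem_biUnion]
    exact ⟨T.card, mem_range.mpr (Nat.lt_succ_of_le hT.2), mem_powersetCard.mpr ⟨subset_univ _, rfl⟩⟩
  calc ((univ : Finset (Finset (Fin n))).filter (fun T => T.card ≤ m)).card
      ≤ ((range (m + 1)).biUnion (fun j => powersetCard j (univ : Finset (Fin n)))).card :=
        card_le_card h1
    _ ≤ ∑ j ∈ range (m + 1), (powersetCard j (univ : Finset (Fin n))).card := card_biUnion_le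
    _ = ∑ j ∈ range (m + 1), n.choose j := by
        apply sum_congr rfl
        intro j _
        rw [card_powersetCard, card_univ, Fintype.card_fin]
    _ ≤ ∑ j ∈ range (m + 1), n ^ j * 1 ^ (m - j) * m.choose j := by
        apply sum_le_sum
        intro j hj
        rw [mem_range] at hj
        have h2 : 1 ≤ m.choose j := Nat.choose_pos (by omega)
        have h3 : n.choose j ≤ n ^ j := Nat.choose_le_pow n j
        calc n.choose j ≤ n ^ j * 1 := by rw [mul_one]; exact h3
          _ ≤ n ^ j * 1 ^ (m - j) * m.choose j := by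
            rw [one_pow, mul_one]
            exact Nat.le_mul_of_pos_right _ h2
    _ = (n + 1) ^ m := (add_pow n 1 m).symm

theorem choose_le (N K : ℕ) (hK : 0 < K) :
    (N.choose K : ℝ) ≤ (Real.exp 1 * N / K) ^ K := by
  have hK' : (0 : ℝ) < K := by exact_mod_cast hK
  have h1 : (N.choose K : ℝ) ≤ (N : ℝ) ^ K / (K.factorial : ℝ) := Nat.choose_le_pow_div K N
  have h2 : (K : ℝ) ^ K / (K.factorial : ℝ) ≤ Real.exp K :=
    Real.pow_div_factorial_le_exp (K : ℝ) hK'.le K
  have h3 : (N : ℝ) ^ K / (K.factorial : ℝ) =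
      ((N : ℝ) / K) ^ K * ((K : ℝ) ^ K / (K.factorial : ℝ)) := by
    have : (K.factorial : ℝ) ≠ 0 := by exact_mod_cast K.factorial_ne_zero
    rw [div_pow]
    field_simp
  rw [h3] at h1
  refine h1.trans ?_
  calc ((N : ℝ) / K) ^ K * ((K : ℝ) ^ K / (K.factorial : ℝ))
      ≤ ((N : ℝ) / K) ^ K * Real.exp K :=
        mul_le_mul_of_nonneg_left h2 (by positivity)
    _ = ((N : ℝ) / K) ^ K * Real.exp 1 ^ K := by
        rw [← Real.exp_nat_mul, mul_one]
    _ = (Real.exp 1 * N / K) ^ K := by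
        rw [← mul_pow]; congr 1; ring

/-- edges between `T` and `Y` -/
noncomputable def De (T Y : Finset (Fin n)) : Finset (Sym2 (Fin n)) :=
  ((T ×ˢ Y).image (fun q => s(q.1, q.2))) ∩ allE n

theorem De_sub (T Y : Finset (Fin n)) : De T Y ⊆ allE n := inter_subset_right

theorem De_card (T Y : Finset (Fin n)) : (De T Y).card ≤ T.card * Y.card := by
  calc (De T Y).card ≤ ((T ×ˢ Y).image (fun q => s(q.1, q.2))).card :=
        card_le_card inter_subset_left
    _ ≤ (T ×ˢ Y).card := card_image_le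
    _ = T.card * Y.card := card_product _ _

theorem mem_nonpriv {S : Finset (Sym2 (Fin n))} {T : Finset (Fin n)} {q : Fin n × Fin n} :
    q ∈ nonpriv S T ↔ q.1 ∈ T ∧ q.2 ∉ T ∧ s(q.1, q.2) ∈ S ∧
      ∃ x' ∈ T, x' ≠ q.1 ∧ s(x', q.2) ∈ S := by
  simp [nonpriv]

/-- the non-private pairs with second member in `Y` give distinct edges of `De T Y` -/
theorem part_le (S : Finset (Sym2 (Fin n))) (hS : S ⊆ allE n) (T Y : Finset (Fin n)) :
    ((nonpriv S T).filter (fun q => q.2 ∈ Y)).card ≤ (S ∩ De T Y).card := by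
  apply card_le_card_of_injOn (fun q => s(q.1, q.2))
  · intro q hq
    have hq' := mem_filter.mp (Finset.mem_coe.mp hq)
    obtain ⟨h1, h2, h3, _⟩ := mem_nonpriv.mp hq'.1
    apply Finset.mem_coe.mpr
    rw [mem_inter, De, mem_inter, mem_image]
    exact ⟨h3, ⟨q, mem_product.mpr ⟨h1, hq'.2⟩, rfl⟩, hS h3⟩
  · intro q hq r hr hqr
    have hq' := mem_filter.mp (Finset.mem_coe.mp hq)
    have hr' := mem_filter.mp (Finset.mem_coe.mp hr)
    obtain ⟨h1, h2, _, _⟩ := mem_nonpriv.mp hq'.1
    obtain ⟨k1, k2, _, _⟩ := mem_nonpriv.mp hr'.1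
    have hqr' : s(q.1, q.2) = s(r.1, r.2) := hqr
    rw [Sym2.eq_iff] at hqr'
    rcases hqr' with ⟨h, h'⟩ | ⟨h, h'⟩
    · exact Prod.ext h h'
    · exact absurd (h ▸ h1) k2

/-- a set `Y` of exactly `J` vertices receiving many edges from `T` -/
theorem exists_Y (S : Finset (Sym2 (Fin n))) (hS : S ⊆ allE n) (T : Finset (Fin n)) (J : ℕ)
    (hJ : J ≤ n) : ∃ Y : Finset (Fin n), Y.card = J ∧
      ((nonpriv S T).card ≤ (S ∩ De T Y).card ∨ 2 * J ≤ (S ∩ De T Y).card) := by
  set Y0 : Finset (Fin n) := (nonpriv S T).image Prod.snd with hY0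
  by_cases hc : Y0.card ≤ J
  · obtain ⟨Y, hY1, _, hY3⟩ := exists_subsuperset_card_eq (subset_univ Y0) hc
      (by rw [card_univ, Fintype.card_fin]; exact hJ)
    refine ⟨Y, hY3, Or.inl ?_⟩
    refine le_trans (le_of_eq ?_) (part_le S hS T Y)
    congr 1
    symm
    rw [filter_eq_self]
    intro q hq
    exact hY1 (mem_image_of_mem _ hq)
  · push Not at hc
    obtain ⟨Y, hY1, hY2⟩ := exists_subset_card_eq hc.le
    refine ⟨Y, hY2, Or.inr ?_⟩
    refine le_trans ?_ (part_le S hS T Y)
    have hmaps : ∀ q ∈ (nonpriv S T).filter (fun q => q.2 ∈ Y), q.2 ∈ Y := by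
      intro q hq
      exact (mem_filter.mp hq).2
    rw [card_eq_sum_card_fiberwise (f := Prod.snd) (t := Y) hmaps]
    calc 2 * J = ∑ y ∈ Y, 2 := by rw [sum_const, hY2, smul_eq_mul, mul_comm]
      _ ≤ _ := by
        apply sum_le_sum
        intro y hy
        obtain ⟨q, hq, hqy⟩ := mem_image.mp (hY1 hy)
        obtain ⟨h1, h2, h3, x', h4, h5, h6⟩ := mem_nonpriv.mp hq
        show 1 < _
        rw [one_lt_card]
        refine ⟨q, ?_, (x', q.2), ?_, ?_⟩
        · rw [mem_filter, mem_filter]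
          exact ⟨⟨hq, by rw [hqy]; exact hy⟩, hqy⟩
        · rw [mem_filter, mem_filter]
          refine ⟨⟨mem_nonpriv.mpr ⟨h4, h2, h6, q.1, h1, h5.symm, h3⟩, ?_⟩, hqy⟩
          show q.2 ∈ Y
          rw [hqy]; exact hy
        · intro h
          exact h5 (congrArg Prod.fst h).symm

/-- the tail bound for one pair `(T, Y)` -/
theorem tail_one (T Y : Finset (Fin n)) {p : ℝ} (h0 : 0 ≤ p) (h1 : p ≤ 1) (K : ℕ) (hK : 0 < K)
    (x : ℝ) (hx : (T.card : ℝ) * Y.card * p ≤ x) :
    Pr (allE n) p (fun S => K ≤ (S ∩ De T Y).card) ≤ (Real.exp 1 * x / K) ^ K := by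
  have hK' : (0 : ℝ) < K := by exact_mod_cast hK
  refine (card_up (De_sub T Y) h0 h1 K).trans ?_
  have h2 := choose_le (De T Y).card K hK
  have h3 : ((De T Y).card : ℝ) ≤ T.card * Y.card := by exact_mod_cast De_card T Y
  calc ((De T Y).card.choose K : ℝ) * p ^ K
      ≤ (Real.exp 1 * (De T Y).card / K) ^ K * p ^ K :=
        mul_le_mul_of_nonneg_right h2 (pow_nonneg h0 _)
    _ = (Real.exp 1 * ((De T Y).card * p) / K) ^ K := by
        rw [← mul_pow]; congr 1; ring
    _ ≤ (Real.exp 1 * x / K) ^ K := by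
        apply pow_le_pow_left₀
        · positivity
        · apply div_le_div_of_nonneg_right _ hK'.le
          apply mul_le_mul_of_nonneg_left _ (Real.exp_pos 1).le
          exact (mul_le_mul_of_nonneg_right h3 h0).trans hx

/-- the union bound -/
theorem union_bound {p : ℝ} (h0 : 0 ≤ p) (h1 : p ≤ 1) (m J K : ℕ) (hK : 0 < K)
    (hJ : J ≤ n) (hJK : K ≤ 2 * J) (x : ℝ) (hx : (m : ℝ) * J * p ≤ x) :
    Pr (allE n) p (fun S => ∃ T : Finset (Fin n), T.card ≤ m ∧ K ≤ (nonpriv S T).card) ≤
      ((n : ℝ) + 1) ^ m * ((n.choose J : ℝ) * (Real.exp 1 * x / K) ^ K) := by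
  have hK' : (0 : ℝ) < K := by exact_mod_cast hK
  have hx0 : 0 ≤ x := le_trans (by positivity) hx
  calc Pr (allE n) p (fun S => ∃ T : Finset (Fin n), T.card ≤ m ∧ K ≤ (nonpriv S T).card)
      ≤ Pr (allE n) p (fun S => ∃ T ∈ (univ : Finset (Finset (Fin n))).filter (fun T => T.card ≤ m),
          ∃ Y ∈ powersetCard J (univ : Finset (Fin n)), K ≤ (S ∩ De T Y).card) := by
        apply Pr_mono h0 h1
        rintro S hS ⟨T, hT1, hT2⟩
        obtain ⟨Y, hY1, hY2⟩ := exists_Y S hS T J hJ
        refine ⟨T, mem_filter.mpr ⟨mem_univ _, hT1⟩, Y,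
          mem_powersetCard.mpr ⟨subset_univ _, hY1⟩, ?_⟩
        rcases hY2 with h | h
        · exact hT2.trans h
        · exact hJK.trans h
    _ ≤ ∑ T ∈ (univ : Finset (Finset (Fin n))).filter (fun T => T.card ≤ m),
          Pr (allE n) p (fun S => ∃ Y ∈ powersetCard J (univ : Finset (Fin n)),
            K ≤ (S ∩ De T Y).card) := Pr_exists_le h0 h1 _ _
    _ ≤ ∑ T ∈ (univ : Finset (Finset (Fin n))).filter (fun T => T.card ≤ m),
          (n.choose J : ℝ) * (Real.exp 1 * x / K) ^ K := by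
        apply sum_le_sum
        intro T hT
        have hT' : (T.card : ℝ) ≤ m := by exact_mod_cast (mem_filter.mp hT).2
        refine (Pr_exists_le h0 h1 _ _).trans ?_
        calc ∑ Y ∈ powersetCard J (univ : Finset (Fin n)),
              Pr (allE n) p (fun S => K ≤ (S ∩ De T Y).card)
            ≤ ∑ Y ∈ powersetCard J (univ : Finset (Fin n)), (Real.exp 1 * x / K) ^ K := by
              apply sum_le_sum
              intro Y hY
              apply tail_one T Y h0 h1 K hK
              rw [(mem_powersetCard.mp hY).2]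
              refine le_trans ?_ hx
              gcongr
          _ = (n.choose J : ℝ) * (Real.exp 1 * x / K) ^ K := by
              rw [sum_const, card_powersetCard, card_univ, Fintype.card_fin, nsmul_eq_mul]
    _ ≤ ((n : ℝ) + 1) ^ m * ((n.choose J : ℝ) * (Real.exp 1 * x / K) ^ K) := by
        rw [sum_const, nsmul_eq_mul]
        apply mul_le_mul_of_nonneg_right _ (by positivity)
        exact_mod_cast card_small n m

/-- the numerical estimate -/
theorem numbers (β : ℝ) (hβ : 0 < β) : ∃ L0 : ℝ, 1 ≤ L0 ∧ ∀ (n m J K : ℕ) (p L : ℝ), 0 < p →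
    p ≤ 1 → L0 ≤ L → L ^ 4 ≤ n → L0 * Real.log (n + 1) ≤ p * n →
    m = ⌊2 * n / (p * n * L)⌋₊ → J = ⌈β * n / L / 2⌉₊ → K = ⌈β * n / L⌉₊ →
    0 < K ∧ J ≤ n ∧ K ≤ 2 * J ∧ (m : ℝ) * J * p ≤ 2 * K / L ∧
    ((n : ℝ) + 1) ^ m * ((n.choose J : ℝ) * (Real.exp 1 * (2 * K / L) / K) ^ K) ≤
      Real.exp (-(β * n / (4 * L))) := by
  have he : 0 < Real.exp 1 := Real.exp_pos 1
  set L0 : ℝ := 1 + 2 / β + β + 2 * Real.exp 1 / β ^ 2 + 2 * Real.exp 1 +
    Real.exp (9 / 2 + Real.log (2 * Real.exp 1 / β) + 2 * Real.log (2 * Real.exp 1)) with hL0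
  refine ⟨L0, ?_, ?_⟩
  · rw [hL0]
    have : 0 ≤ 2 / β + β + 2 * Real.exp 1 / β ^ 2 + 2 * Real.exp 1 +
      Real.exp (9 / 2 + Real.log (2 * Real.exp 1 / β) + 2 * Real.log (2 * Real.exp 1)) := by
      positivity
    linarith
  · intro n m J K p L hp hp1 hL hn hlog hm hJ hK
    have a1 : 0 ≤ 2 / β := by positivity
    have a2 : 0 ≤ 2 * Real.exp 1 / β ^ 2 := by positivity
    have a3 : 0 < Real.exp (9 / 2 + Real.log (2 * Real.exp 1 / β) +
      2 * Real.log (2 * Real.exp 1)) := Real.exp_pos _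
    have hL1 : 1 ≤ L := by rw [hL0] at hL; linarith
    have hLpos : 0 < L := by linarith
    have hn1 : (1 : ℝ) ≤ n := le_trans (one_le_pow₀ hL1) hn
    have hnpos : (0 : ℝ) < n := by linarith
    set b : ℝ := β * n / L with hb
    have hbpos : 0 < b := by positivity
    have hKpos : 0 < K := by rw [hK]; exact Nat.ceil_pos.mpr hbpos
    have hKpos' : (0 : ℝ) < K := by exact_mod_cast hKpos
    have hKb : b ≤ K := by rw [hK]; exact Nat.le_ceil b
    have hJb : b / 2 ≤ J := by rw [hJ]; exact Nat.le_ceil _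
    have hJb2 : (J : ℝ) < b / 2 + 1 := by rw [hJ]; exact Nat.ceil_lt_add_one (by positivity)
    have hJpos' : (0 : ℝ) < J := by linarith
    have hJpos : 0 < J := by exact_mod_cast hJpos'
    have hβL : β ≤ L := by rw [hL0] at hL; linarith
    have hbn : b ≤ n := by
      rw [hb, div_le_iff₀ hLpos]
      nlinarith
    have hJn : J ≤ n := by
      rw [hJ]
      apply Nat.ceil_le.mpr
      linarith
    have hK2J : K ≤ 2 * J := by
      rw [hK]
      apply Nat.ceil_le.mpr
      push_cast
      linarith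
    have hJK : J ≤ K := by
      rw [hJ, hK]
      apply Nat.ceil_mono
      linarith
    have hJK' : (J : ℝ) ≤ K := by exact_mod_cast hJK
    have hmp : (m : ℝ) ≤ 2 / (p * L) := by
      rw [hm]
      refine (Nat.floor_le (by positivity)).trans (le_of_eq ?_)
      field_simp
    have hx : (m : ℝ) * J * p ≤ 2 * K / L := by
      calc (m : ℝ) * J * p ≤ 2 / (p * L) * K * p := by gcongr
        _ = 2 * K / L := by field_simp
    refine ⟨hKpos, hJn, hK2J, hx, ?_⟩
    -- the three factors
    have hlogn : 0 ≤ Real.log ((n : ℝ) + 1) := Real.log_nonneg (by linarith)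
    have hL0pos : 0 < L0 := by
      rw [hL0]; positivity
    have f1 : ((n : ℝ) + 1) ^ m ≤ Real.exp b := by
      have : ((n : ℝ) + 1) ^ m = Real.exp (m * Real.log ((n : ℝ) + 1)) := by
        rw [Real.exp_nat_mul, Real.exp_log (by linarith)]
      rw [this]
      apply Real.exp_le_exp.mpr
      have h2 : Real.log ((n : ℝ) + 1) ≤ p * n / L0 := by
        rw [le_div_iff₀ hL0pos]; linarith
      calc (m : ℝ) * Real.log ((n : ℝ) + 1) ≤ 2 / (p * L) * (p * n / L0) := by
            apply mul_le_mul hmp h2 hlogn (by positivity)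
        _ = (2 / (β * L0)) * b := by
            rw [hb]; field_simp
        _ ≤ 1 * b := by
            apply mul_le_mul_of_nonneg_right _ hbpos.le
            rw [div_le_one (by positivity)]
            have : 2 / β ≤ L0 := by rw [hL0]; linarith
            rw [div_le_iff₀ hβ] at this
            linarith
        _ = b := one_mul b
    set l1 : ℝ := Real.log (2 * Real.exp 1 * L / β) with hl1
    have harg : 1 ≤ 2 * Real.exp 1 * L / β := by
      rw [le_div_iff₀ hβ]
      have : 1 ≤ Real.exp 1 := by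
        have := Real.add_one_le_exp (1 : ℝ); linarith
      nlinarith
    have hl1pos : 0 ≤ l1 := Real.log_nonneg harg
    have hl1b : l1 ≤ b := by
      have h1 : l1 ≤ 2 * Real.exp 1 * L / β := by
        have := Real.log_le_sub_one_of_pos (show 0 < 2 * Real.exp 1 * L / β by linarith)
        rw [hl1]; linarith
      have h2 : 2 * Real.exp 1 / β ^ 2 ≤ L := by rw [hL0] at hL; linarith
      have h3 : L ≤ L ^ 2 := by nlinarith
      have h4 : 2 * Real.exp 1 / β ^ 2 ≤ L ^ 2 := h2.trans h3
      rw [div_le_iff₀ (by positivity)] at h4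
      calc l1 ≤ 2 * Real.exp 1 * L / β := h1
        _ ≤ β * L ^ 4 / L := by
          rw [div_le_div_iff₀ hβ hLpos]
          have : 2 * Real.exp 1 * L ^ 2 ≤ (L ^ 2 * β ^ 2) * L ^ 2 :=
            mul_le_mul_of_nonneg_right h4 (by positivity)
          nlinarith
        _ ≤ b := by
          rw [hb]
          apply div_le_div_of_nonneg_right _ hLpos.le
          apply mul_le_mul_of_nonneg_left hn hβ.le
    have f2 : (n.choose J : ℝ) ≤ Real.exp ((b / 2 + 1) * l1) := by
      refine (choose_le n J hJpos).trans ?_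
      have h1 : Real.exp 1 * n / J ≤ 2 * Real.exp 1 * L / β := by
        rw [div_le_div_iff₀ hJpos' hβ]
        have h2 : β * n / L / 2 ≤ J := hJb
        rw [div_le_iff₀ (by norm_num), div_le_iff₀ hLpos] at h2
        nlinarith
      calc (Real.exp 1 * n / J) ^ J ≤ (2 * Real.exp 1 * L / β) ^ J :=
            pow_le_pow_left₀ (by positivity) h1 J
        _ = Real.exp (J * l1) := by
            rw [hl1, Real.exp_nat_mul, Real.exp_log (by linarith)]
        _ ≤ Real.exp ((b / 2 + 1) * l1) := by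
            apply Real.exp_le_exp.mpr
            apply mul_le_mul_of_nonneg_right hJb2.le hl1pos
    set l2 : ℝ := Real.log (2 * Real.exp 1 / L) with hl2
    have h2eL : 2 * Real.exp 1 / L ≤ 1 := by
      rw [div_le_one hLpos]
      rw [hL0] at hL; linarith
    have hl2neg : l2 ≤ 0 := Real.log_nonpos (by positivity) h2eL
    have f3 : (Real.exp 1 * (2 * K / L) / K) ^ K ≤ Real.exp (b * l2) := by
      have h1 : Real.exp 1 * (2 * K / L) / K = 2 * Real.exp 1 / L := by
        field_simp
      rw [h1]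
      calc (2 * Real.exp 1 / L) ^ K = Real.exp (K * l2) := by
            rw [hl2, Real.exp_nat_mul, Real.exp_log (by positivity)]
        _ ≤ Real.exp (b * l2) := by
            apply Real.exp_le_exp.mpr
            exact mul_le_mul_of_nonpos_right hKb hl2neg
    have f4 : ((n : ℝ) + 1) ^ m * ((n.choose J : ℝ) * (Real.exp 1 * (2 * K / L) / K) ^ K) ≤
        Real.exp b * (Real.exp ((b / 2 + 1) * l1) * Real.exp (b * l2)) := by
      gcongr
    refine f4.trans ?_
    rw [← Real.exp_add, ← Real.exp_add]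
    apply Real.exp_le_exp.mpr
    have e1 : l1 = Real.log (2 * Real.exp 1 / β) + Real.log L := by
      rw [hl1, ← Real.log_mul (by positivity) (by positivity)]
      congr 1
      field_simp
    have e2 : l2 = Real.log (2 * Real.exp 1) - Real.log L := by
      rw [hl2, Real.log_div (by positivity) (by positivity)]
    have e3 : 9 / 2 + Real.log (2 * Real.exp 1 / β) + 2 * Real.log (2 * Real.exp 1) ≤
        Real.log L := by
      rw [Real.le_log_iff_exp_le hLpos]
      rw [hL0] at hL; linarith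
    have e4 : β * n / (4 * L) = b / 4 := by
      rw [hb]; field_simp
    rw [e4]
    have e5 : (b / 2 + 1) * l1 = b / 2 * l1 + l1 := by ring
    rw [e5]
    have e6 : b + (b / 2 * l1 + l1 + b * l2) ≤ b * (2 + l1 / 2 + l2) := by
      nlinarith
    refine e6.trans ?_
    have e7 : 2 + l1 / 2 + l2 ≤ -(1 / 4) := by
      rw [e1, e2]; linarith
    calc b * (2 + l1 / 2 + l2) ≤ b * (-(1 / 4)) := mul_le_mul_of_nonneg_left e7 hbpos.le
      _ = -(b / 4) := by ring

end PrivL

theorem priv : S_PRIV := by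
  intro β hβ
  obtain ⟨L0, hL0, H⟩ := PrivL.numbers β hβ
  refine ⟨L0, hL0, ?_⟩
  intro n p L hp hp1 hL hn hlog
  obtain ⟨hK, hJ, hKJ, hx, hfin⟩ := H n _ _ _ p L hp hp1 hL hn hlog rfl rfl rfl
  refine le_trans ?_ hfin
  refine le_trans ?_ (PrivL.union_bound hp.le hp1 _ _ _ hK hJ hKJ _ hx)
  apply Pr_mono hp.le hp1
  rintro S _ ⟨T, hT1, hT2⟩
  refine ⟨T, Nat.le_floor hT1, Nat.ceil_le.mpr hT2⟩

end Pool.Agent.H973.CT
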