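import Pool.Agent.H973.CT.Stm3

set_option autoImplicit false

/-! One side of the random splitting. -/

namespace Pool.Agent.H973.CT

open Finset Classical Pool.Agent.W166.Gnp

variable {n : ℕ}

namespace SideAL

lemma nb_card_mono {S S' : Finset (Sym2 (Fin n))} (h : S ⊆ S') (A A' : Finset (Fin n))
    (hA : A ⊆ A') (v : Fin n) : (nb S A v).card ≤ (nb S' A' v).card := by
  refine card_le_card ?_
  intro u hu
  simp only [nb, mem_filter] at hu ⊢
  exact ⟨hA hu.1, h hu.2⟩

lemma double_count (E : Finset (Sym2 (Fin n))) (A : Finset (Fin n)) :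
    ∑ v : Fin n, (nb E A v).card = ∑ z ∈ A, (nb E univ z).card := by
  simp only [nb, card_filter]
  rw [sum_comm]
  refine sum_congr rfl fun u _ => sum_congr rfl fun v _ => ?_
  rw [Sym2.eq_swap]

lemma card_lb (E : Finset (Sym2 (Fin n))) (A : Finset (Fin n)) (a b : ℝ)
    (h1 : ∀ v, a ≤ ((nb E A v).card : ℝ)) (h2 : ∀ v, ((nb E univ v).card : ℝ) ≤ b) :
    n * a ≤ A.card * b := by
  have h3 : ∑ v : Fin n, ((nb E A v).card : ℝ) = ∑ z ∈ A, ((nb E univ z).card : ℝ) := by
    exact_mod_cast double_count E A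
  have h4 : (n : ℝ) * a ≤ ∑ v : Fin n, ((nb E A v).card : ℝ) := by
    have := Finset.card_nsmul_le_sum (univ : Finset (Fin n)) (fun v => ((nb E A v).card : ℝ)) a
      (fun v _ => h1 v)
    rw [card_univ, Fintype.card_fin, nsmul_eq_mul] at this
    exact this
  have h5 : ∑ z ∈ A, ((nb E univ z).card : ℝ) ≤ A.card * b := by
    have := Finset.sum_le_card_nsmul A (fun v => ((nb E univ v).card : ℝ)) b (fun v _ => h2 v)
    rw [nsmul_eq_mul] at this
    exact this
  linarith

/-- the number of edges between `Z` and `W` -/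
lemma card_B (E : Finset (Sym2 (Fin n))) (Z W : Finset (Fin n)) (b : ℝ)
    (h2 : ∀ v, ((nb E univ v).card : ℝ) ≤ b) : ((E ∩ prs Z W).card : ℝ) ≤ W.card * b := by
  have h1 : E ∩ prs Z W ⊆ W.biUnion (fun w => (nb E univ w).image (fun u => s(w, u))) := by
    intro e he
    rw [mem_inter] at he
    obtain ⟨he1, he2⟩ := he
    simp only [prs, mem_image, mem_filter, mem_product] at he2
    obtain ⟨q, ⟨⟨_, hq2⟩, _⟩, rfl⟩ := he2
    rw [mem_biUnion]
    refine ⟨q.2, hq2, ?_⟩
    rw [mem_image]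
    refine ⟨q.1, ?_, Sym2.eq_swap⟩
    simp only [nb, mem_filter, mem_univ, true_and]
    rw [Sym2.eq_swap]
    exact he1
  have h3 : (E ∩ prs Z W).card ≤ ∑ w ∈ W, (nb E univ w).card := by
    refine (card_le_card h1).trans (card_biUnion_le.trans ?_)
    exact sum_le_sum fun w _ => card_image_le
  have h4 : ((E ∩ prs Z W).card : ℝ) ≤ ∑ w ∈ W, ((nb E univ w).card : ℝ) := by exact_mod_cast h3
  refine h4.trans ?_
  have := Finset.sum_le_card_nsmul W (fun v => ((nb E univ v).card : ℝ)) b (fun v _ => h2 v)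
  rw [nsmul_eq_mul] at this
  exact this

lemma mem_B {E : Finset (Sym2 (Fin n))} {Z W : Finset (Fin n)} (hZW : Disjoint Z W) {z w : Fin n}
    (hz : z ∈ Z) (hw : w ∈ W) : s(z, w) ∈ E ∩ prs Z W ↔ s(z, w) ∈ E := by
  rw [mem_inter]
  refine ⟨fun h => h.1, fun h => ⟨h, mem_prs hz hw ?_⟩⟩
  intro h3
  exact (Finset.disjoint_left.mp hZW) hz (h3 ▸ hw)

lemma ends_B {E : Finset (Sym2 (Fin n))} {Z W : Finset (Fin n)} {u v : Fin n}
    (h : s(u, v) ∈ E ∩ prs Z W) : u ∈ Z ∨ u ∈ W := by
  rw [mem_inter] at h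
  have h2 := h.2
  simp only [prs, mem_image, mem_filter, mem_product] at h2
  obtain ⟨q, ⟨⟨hq1, hq2⟩, _⟩, hq⟩ := h2
  rw [Sym2.eq_iff] at hq
  rcases hq with ⟨h3, _⟩ | ⟨_, h4⟩
  · left; rw [← h3]; exact hq1
  · right; rw [← h4]; exact hq2

/-- second moments -/
lemma second (S E : Finset (Sym2 (Fin n))) (hES : E ⊆ S) (Z W A : Finset (Fin n))
    (a b t : ℝ) (hdeg : ∀ v, ((nb S univ v).card : ℝ) ≤ b)
    (hup : ((univ.filter (fun w => a ≤ ((nb S A w).card : ℝ))).card : ℝ) ≤ t) :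
    ∑ w ∈ W, (dg (E ∩ prs Z W) A w : ℝ) ^ 2 ≤ a ^ 2 * W.card + b ^ 2 * t := by
  have hdg : ∀ w, (dg (E ∩ prs Z W) A w : ℝ) ≤ ((nb S A w).card : ℝ) := by
    intro w
    have : dg (E ∩ prs Z W) A w ≤ (nb S A w).card := by
      refine card_le_card ?_
      intro z hz
      simp only [nb, mem_filter, mem_inter] at hz ⊢
      refine ⟨hz.1, ?_⟩
      rw [Sym2.eq_swap]
      exact hES hz.2.1
    exact_mod_cast this
  have hnb : ∀ w, ((nb S A w).card : ℝ) ≤ b := by
    intro w
    refine le_trans ?_ (hdeg w)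
    exact_mod_cast nb_card_mono (Subset.refl S) A univ (subset_univ A) w
  have h1 : ∀ w ∈ W, (dg (E ∩ prs Z W) A w : ℝ) ^ 2 ≤
      a ^ 2 + (if a ≤ ((nb S A w).card : ℝ) then b ^ 2 else 0) := by
    intro w _
    have h0 : (0 : ℝ) ≤ (dg (E ∩ prs Z W) A w : ℝ) := Nat.cast_nonneg _
    split_ifs with hw
    · have h2 : (dg (E ∩ prs Z W) A w : ℝ) ^ 2 ≤ b ^ 2 :=
        pow_le_pow_left₀ h0 ((hdg w).trans (hnb w)) 2
      have := sq_nonneg a
      linarith
    · push Not at hw
      have h2 : (dg (E ∩ prs Z W) A w : ℝ) ^ 2 ≤ a ^ 2 :=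
        pow_le_pow_left₀ h0 ((hdg w).trans hw.le) 2
      linarith
  refine (sum_le_sum h1).trans ?_
  rw [sum_add_distrib, sum_const, nsmul_eq_mul]
  have h3 : ∑ w ∈ W, (if a ≤ ((nb S A w).card : ℝ) then b ^ 2 else 0) ≤ b ^ 2 * t := by
    rw [← sum_filter, sum_const, nsmul_eq_mul, mul_comm]
    refine mul_le_mul_of_nonneg_left ?_ (sq_nonneg b)
    refine le_trans ?_ hup
    have : (W.filter (fun w => a ≤ ((nb S A w).card : ℝ))).card ≤
        (univ.filter (fun w => a ≤ ((nb S A w).card : ℝ))).card :=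
      card_le_card (filter_subset_filter _ (subset_univ W))
    exact_mod_cast this
  linarith [mul_comm (a ^ 2) (W.card : ℝ)]

/-- the neighbours of `y` in `Z` are outside the clusters or inside one of them -/
lemma nb_split (E : Finset (Sym2 (Fin n))) (Z : Finset (Fin n)) (P : Finset (Finset (Fin n)))
    (y : Fin n) : (nb E Z y).card ≤ (nb E (Z \ P.biUnion id) y).card + ∑ A ∈ P, (nb E A y).card := by
  have h1 : nb E Z y ⊆ nb E (Z \ P.biUnion id) y ∪ P.biUnion (fun A => nb E A y) := by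
    intro u hu
    simp only [nb, mem_filter, mem_union, mem_sdiff, mem_biUnion, id] at hu ⊢
    by_cases h : ∃ a ∈ P, u ∈ a
    · right
      obtain ⟨a, ha, hua⟩ := h
      exact ⟨a, ha, hua, hu.2⟩
    · left
      exact ⟨⟨hu.1, h⟩, hu.2⟩
  refine (card_le_card h1).trans ((card_union_le _ _).trans ?_)
  exact Nat.add_le_add_left card_biUnion_le _

end SideAL

open SideAL in
theorem sidea (hC : S_CLUSTER) (hE : S_EXCA) (hM : S_MATA) : S_SIDEA := by
  intro h d hh hd hd1
  have hbet : 0 < bet d := by unfold bet; positivity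
  have hbet2 : bet d ≤ 1 / 2 := by
    unfold bet
    have : d ^ 2 ≤ 1 := pow_le_one₀ hd.le hd1
    linarith
  obtain ⟨T₀, γ', hγ', hγ'1, hcl⟩ := hC (d / 16) 512 (bet d) (bet d) (by positivity) (by norm_num)
    hbet hbet2 hbet
  set γ : ℝ := γ' * d / 96 with hγdef
  have hγ : 0 < γ := by positivity
  have hγ1 : γ ≤ 1 := by
    rw [hγdef]
    have : γ' * d ≤ 1 := mul_le_one₀ hγ'1 hd.le hd1
    linarith
  refine ⟨max T₀ 1, γ, le_max_right _ _, hγ, hγ1, ?_⟩
  intro CP CD hCP hCD
  have hcq : 0 < cq d γ := by unfold cq; positivity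
  set a : ℝ := bet d * γ * (cq d γ) ^ h with hadef
  have ha : 0 < a := by positivity
  have hΛ1 : (0 : ℝ) ≤ 2 * CD / a := by positivity
  have hΛ2 : (0 : ℝ) ≤ 48 / (γ ^ 3 * d) := by positivity
  refine ⟨1 + 2 * CD / a + 48 / (γ ^ 3 * d), by linarith, ?_⟩
  intro κ n p L C₁ S E Y Z W hN hG hES hcyc hYZ hYW hZW hY hZ hW hWc
  set Λ : ℝ := 1 + 2 * CD / a + 48 / (γ ^ 3 * d) with hΛdef
  have hΛ0 : 1 ≤ Λ := by rw [hΛdef]; linarith
  have hLΛ := hN.hΛ
  have hL1 : 1 ≤ L := by linarith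
  have hL0 : 0 < L := by linarith
  have hp := hN.hp
  have hn : (1 : ℝ) ≤ n := by exact_mod_cast hN.hn
  have hn0 : (0 : ℝ) < n := by linarith
  set m : ℝ := p * n with hmdef
  have hm0 : 0 < m := by positivity
  -- numerics
  have hLm : L ^ (4 * h + 6) ≤ m := hN.hm
  have hnum1 : 2 * CD * L ^ (2 * h + 1) ≤ a * m := by
    have h1 : 2 * CD / a ≤ L := by linarith
    rw [div_le_iff₀ ha] at h1
    calc 2 * CD * L ^ (2 * h + 1) ≤ L * a * L ^ (2 * h + 1) :=
          mul_le_mul_of_nonneg_right h1 (by positivity)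
      _ = a * L ^ (2 * h + 2) := by ring
      _ ≤ a * L ^ (4 * h + 6) :=
          mul_le_mul_of_nonneg_left (pow_le_pow_right₀ hL1 (by omega)) ha.le
      _ ≤ a * m := mul_le_mul_of_nonneg_left hLm ha.le
  have hnum2 : 48 * L ^ 2 ≤ γ ^ 3 * d * m := by
    have h1 : 48 / (γ ^ 3 * d) ≤ L := by linarith
    rw [div_le_iff₀ (by positivity)] at h1
    calc 48 * L ^ 2 ≤ L * (γ ^ 3 * d) * L ^ 2 := mul_le_mul_of_nonneg_right h1 (by positivity)
      _ = γ ^ 3 * d * L ^ 3 := by ring
      _ ≤ γ ^ 3 * d * L ^ (4 * h + 6) :=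
          mul_le_mul_of_nonneg_left (pow_le_pow_right₀ hL1 (by omega)) (by positivity)
      _ ≤ γ ^ 3 * d * m := mul_le_mul_of_nonneg_left hLm (by positivity)
  -- `M`
  set M : ℝ := (⌈L ^ 2⌉₊ : ℝ) with hMdef
  have hM1 : L ^ 2 ≤ M := Nat.le_ceil _
  have hL2 : 1 ≤ L ^ 2 := one_le_pow₀ hL1
  have hM2 : M ≤ 2 * L ^ 2 := by
    have := (Nat.ceil_lt_add_one (show (0 : ℝ) ≤ L ^ 2 by positivity)).le
    linarith
  have hM0 : 0 < M := by linarith
  -- degrees
  have hdegE : ∀ v, ((nb E univ v).card : ℝ) ≤ 8 * m := by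
    intro v
    refine le_trans ?_ (hG.deg v)
    exact_mod_cast nb_card_mono hES univ univ (Subset.refl _) v
  -- sizes
  have hZc : d * n / 96 ≤ (Z.card : ℝ) := by
    have h1 := card_lb E Z (d * m / 12) (8 * m) hZ hdegE
    have h2 : (d * n / 96) * (8 * m) ≤ (Z.card : ℝ) * (8 * m) := by
      refine le_trans (le_of_eq ?_) h1
      ring
    exact le_of_mul_le_mul_right h2 (by positivity)
  have hWc2 : d * n / (192 * L ^ 2) ≤ (W.card : ℝ) := by
    have h1 := card_lb E W (d * m / (12 * M)) (8 * m) hW hdegE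
    have h2 : (d * n / (96 * M)) * (8 * m) ≤ (W.card : ℝ) * (8 * m) := by
      refine le_trans (le_of_eq ?_) h1
      field_simp
      ring
    have h3 := le_of_mul_le_mul_right h2 (by positivity)
    refine le_trans ?_ h3
    apply div_le_div_of_nonneg_left (by positivity) (by positivity)
    linarith
  have hZne : Z.Nonempty := by
    rw [← card_pos]
    have : (0 : ℝ) < Z.card := lt_of_lt_of_le (by positivity) hZc
    exact_mod_cast this
  have hWne : W.Nonempty := by
    rw [← card_pos]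
    have : (0 : ℝ) < W.card := lt_of_lt_of_le (by positivity) hWc2
    exact_mod_cast this
  have hZn : (Z.card : ℝ) ≤ n := by
    have := card_le_univ Z
    rw [Fintype.card_fin] at this
    exact_mod_cast this
  set B : Finset (Sym2 (Fin n)) := E ∩ prs Z W with hBdef
  have hBc : (B.card : ℝ) ≤ 11 * m * n / L ^ 2 := by
    refine (card_B E Z W (8 * m) hdegE).trans ?_
    have h1 : (W.card : ℝ) ≤ 4 * n / (3 * L ^ 2) := by
      refine hWc.trans ?_
      apply div_le_div_of_nonneg_left (by positivity) (by positivity)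
      linarith
    calc (W.card : ℝ) * (8 * m) ≤ (4 * n / (3 * L ^ 2)) * (8 * m) :=
          mul_le_mul_of_nonneg_right h1 (by positivity)
      _ = (32 / 3) * (m * n / L ^ 2) := by field_simp; ring
      _ ≤ 11 * (m * n / L ^ 2) := by
          apply mul_le_mul_of_nonneg_right (by norm_num)
          positivity
      _ = 11 * m * n / L ^ 2 := by ring
  -- cluster lemma
  obtain ⟨P, hPc, hP1, hP2, hP3⟩ := hcl n B Z W p hp hZne hWne
    (by
      intro z hz
      have h1 : (W.filter (fun w => s(z, w) ∈ B)) = nb E W z := by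
        ext w
        simp only [nb, mem_filter]
        constructor
        · rintro ⟨hw, h3⟩
          exact ⟨hw, (mem_B hZW hz hw).mp h3⟩
        · rintro ⟨hw, h3⟩
          exact ⟨hw, (mem_B hZW hz hw).mpr h3⟩
      rw [h1]
      refine le_trans ?_ (hW z)
      calc d / 16 * p * W.card ≤ d / 16 * p * (4 * n / (3 * M)) :=
            mul_le_mul_of_nonneg_left hWc (by positivity)
        _ = d * m / (12 * M) := by rw [hmdef]; field_simp; ring)
    (by
      intro A hA hAc
      have hAn : γ * n ≤ (A.card : ℝ) := by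
        refine le_trans ?_ hAc
        calc γ * n = γ' * (d * n / 96) := by rw [hγdef]; ring
          _ ≤ γ' * Z.card := mul_le_mul_of_nonneg_left hZc hγ'.le
      have h1 := second S E hES Z W A (16 * p * A.card) (8 * m) (1 / (γ * p)) hG.deg
        (hG.upper A hAn)
      refine h1.trans ?_
      have h2 : (8 * m) ^ 2 * (1 / (γ * p)) ≤ 256 * p ^ 2 * A.card ^ 2 * W.card := by
        have h3 : 256 * p ^ 2 * (γ * n) ^ 2 * (d * n / (192 * L ^ 2)) ≤
            256 * p ^ 2 * A.card ^ 2 * W.card := by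
          apply mul_le_mul _ hWc2 (by positivity) (by positivity)
          apply mul_le_mul_of_nonneg_left _ (by positivity)
          exact pow_le_pow_left₀ (by positivity) hAn 2
        refine le_trans ?_ h3
        have h4 : 256 * p ^ 2 * (γ * n) ^ 2 * (d * n / (192 * L ^ 2)) =
            (4 / 3) * m ^ 2 / (γ * p * L ^ 2) * (γ ^ 3 * d * m) := by
          rw [hmdef]
          field_simp
          ring
        rw [h4]
        have h5 : (8 * m) ^ 2 * (1 / (γ * p)) = (4 / 3) * m ^ 2 / (γ * p * L ^ 2) * (48 * L ^ 2) := by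
          field_simp
          ring
        rw [h5]
        exact mul_le_mul_of_nonneg_left hnum2 (by positivity)
      have h3 : (16 * p * (A.card : ℝ)) ^ 2 * W.card = 256 * p ^ 2 * A.card ^ 2 * W.card := by ring
      rw [h3]
      linarith)
  -- the exceptional vertices
  set Z₀ : Finset (Fin n) := Z \ P.biUnion id with hZ₀
  have hZ₀c : (Z₀.card : ℝ) ≤ bet d * n := hP3.trans (mul_le_mul_of_nonneg_left hZn hbet.le)
  set X : Finset (Fin n) := univ \ (Y ∪ Z ∪ W) with hX
  have hXY : Disjoint X Y := by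
    rw [disjoint_left]
    intro x hx hy
    rw [hX, mem_sdiff] at hx
    exact hx.2 (mem_union_left _ (mem_union_left _ hy))
  set Exc : Finset (Fin n) := X.filter (fun x => (d / 12) ^ 2 * (p * n) ^ 2 / 2 ≤
    ∑ y ∈ nb E Y x, ((nb E Z₀ y).card : ℝ)) with hExc
  have hExcc : Exc.card ≤ s0 p L :=
    hE h κ n d γ CP CD C₁ p L Λ S E X Y Z₀ hh hd hd1 hγ hγ1 hΛ0 hN hG hES hXY hZ₀c
  -- the sum of the sizes of the clusters
  have hPsum : ∑ A ∈ P, (A.card : ℝ) ≤ n := by
    have h1 : (P.biUnion id).card = ∑ A ∈ P, A.card := by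
      rw [card_biUnion]
      · rfl
      · intro A hA A' hA' hne
        exact hP2 A hA A' hA' hne
    have h2 : (P.biUnion id).card ≤ n := by
      have := card_le_univ (P.biUnion id)
      rwa [Fintype.card_fin] at this
    have h3 : ((∑ A ∈ P, A.card : ℕ) : ℝ) ≤ n := by
      rw [← h1]
      exact_mod_cast h2
    exact_mod_cast h3
  -- the predicate `x` likes `A`
  set Q : Fin n → Finset (Fin n) → Prop := fun x A => A ∈ P ∧
    (d / 12) ^ 2 / 2 * (p * n) ^ 2 * A.card / n ≤ ∑ y ∈ nb E Y x, ((nb E A y).card : ℝ) with hQ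
  have hex : ∀ x ∈ X \ Exc, ∃ A, Q x A := by
    intro x hx
    rw [mem_sdiff] at hx
    by_contra hcon
    push Not at hcon
    have h1 : ∑ y ∈ nb E Y x, ((nb E Z₀ y).card : ℝ) < (d / 12) ^ 2 * (p * n) ^ 2 / 2 := by
      by_contra h2
      push Not at h2
      exact hx.2 (by rw [hExc, mem_filter]; exact ⟨hx.1, h2⟩)
    have h2 : (d / 12) ^ 2 * (p * n) ^ 2 ≤ ∑ y ∈ nb E Y x, ((nb E Z y).card : ℝ) := by
      have h3 := Finset.card_nsmul_le_sum (nb E Y x) (fun v => ((nb E Z v).card : ℝ))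
        (d * m / 12) (fun v _ => hZ v)
      rw [nsmul_eq_mul] at h3
      refine le_trans ?_ h3
      calc (d / 12) ^ 2 * (p * n) ^ 2 = (d * m / 12) * (d * m / 12) := by rw [hmdef]; ring
        _ ≤ ((nb E Y x).card : ℝ) * (d * m / 12) :=
            mul_le_mul_of_nonneg_right (hY x) (by positivity)
    have h3 : ∑ y ∈ nb E Y x, ((nb E Z y).card : ℝ) ≤
        ∑ y ∈ nb E Y x, ((nb E Z₀ y).card : ℝ) +
          ∑ A ∈ P, ∑ y ∈ nb E Y x, ((nb E A y).card : ℝ) := by
      rw [sum_comm, ← sum_add_distrib]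
      refine sum_le_sum fun y _ => ?_
      exact_mod_cast nb_split E Z P y
    have h4 : ∑ A ∈ P, ∑ y ∈ nb E Y x, ((nb E A y).card : ℝ) ≤
        ∑ A ∈ P, (d / 12) ^ 2 / 2 * (p * n) ^ 2 * A.card / n := by
      refine sum_le_sum fun A hA => ?_
      have := hcon A
      simp only [hQ, not_and, not_le] at this
      exact (this hA).le
    have h5 : ∑ A ∈ P, (d / 12) ^ 2 / 2 * (p * n) ^ 2 * A.card / n ≤
        (d / 12) ^ 2 / 2 * (p * n) ^ 2 := by
      have h6 : ∑ A ∈ P, (d / 12) ^ 2 / 2 * (p * n) ^ 2 * (A.card : ℝ) / n =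
          (d / 12) ^ 2 / 2 * (p * n) ^ 2 / n * ∑ A ∈ P, (A.card : ℝ) := by
        rw [mul_sum]
        refine sum_congr rfl fun A _ => ?_
        ring
      rw [h6]
      calc (d / 12) ^ 2 / 2 * (p * n) ^ 2 / n * ∑ A ∈ P, (A.card : ℝ) ≤
          (d / 12) ^ 2 / 2 * (p * n) ^ 2 / n * n :=
            mul_le_mul_of_nonneg_left hPsum (by positivity)
        _ = (d / 12) ^ 2 / 2 * (p * n) ^ 2 := by field_simp
    linarith
  -- choose
  choose! F hF using hex
  set idx : Finset (Fin n) → ℕ := fun A => if hA : A ∈ P then (P.equivFin ⟨A, hA⟩ : ℕ) else 0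
    with hidx
  have hidx1 : ∀ A ∈ P, idx A < P.card := by
    intro A hA
    simp only [hidx, dif_pos hA]
    exact (P.equivFin ⟨A, hA⟩).2
  have hidx2 : ∀ A ∈ P, ∀ A' ∈ P, idx A = idx A' → A = A' := by
    intro A hA A' hA' h1
    simp only [hidx, dif_pos hA, dif_pos hA'] at h1
    have h2 := P.equivFin.injective (Fin.ext h1)
    exact congrArg Subtype.val h2
  have hidx3 : ∀ A, idx A < max T₀ 1 := by
    intro A
    by_cases hA : A ∈ P
    · exact lt_of_lt_of_le (hidx1 A hA) (hPc.trans (le_max_left _ _))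
    · simp only [hidx, dif_neg hA]
      exact lt_of_lt_of_le Nat.zero_lt_one (le_max_right _ _)
  -- the sets `U`
  have hU : ∀ A ∈ P, ∃ U : Finset (Fin n), U.card ≤ 2 * s0 p L ∧
      ∀ u ∈ ((X \ Exc).filter (fun x => F x = A)) \ U,
        ∀ v ∈ ((X \ Exc).filter (fun x => F x = A)) \ U, u ≠ v → s(u, v) ∉ E := by
    intro A hA
    obtain ⟨hA1, hA2, hA3⟩ := hP1 A hA
    have hno := hM h κ n d γ CP CD C₁ p L Λ S E B ((X \ Exc).filter (fun x => F x = A)) Y W A hh hd
      hd1 hγ hγ1 hCP hCD hΛ0 hN hnum1 hG hES inter_subset_left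
      (by
        rw [disjoint_left] at hXY ⊢
        intro x hx
        exact hXY (mem_sdiff.mp (mem_filter.mp hx).1).1)
      (by
        intro u v huv
        have h1 := ends_B huv
        constructor
        · intro hu
          have h2 := (mem_sdiff.mp (mem_filter.mp hu).1).1
          rw [hX, mem_sdiff] at h2
          apply h2.2
          rcases h1 with h1 | h1
          · exact mem_union_left _ (mem_union_right _ h1)
          · exact mem_union_right _ h1
        · intro hu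
          rcases h1 with h1 | h1
          · exact (disjoint_left.mp hYZ) hu h1
          · exact (disjoint_left.mp hYW) hu h1)
      hcyc
      (by
        refine le_trans ?_ hA2
        calc γ * n = γ' * (d * n / 96) := by rw [hγdef]; ring
          _ ≤ γ' * Z.card := mul_le_mul_of_nonneg_left hZc hγ'.le)
      hBc hWc2 hA3
      (by
        intro x hx
        rw [mem_filter] at hx
        have h1 := (hF x hx.1).2
        rw [hx.2] at h1
        exact h1)
    rcases matching_or E ((X \ Exc).filter (fun x => F x = A)) (s0 p L) with h1 | h1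
    · exact absurd h1 hno
    · obtain ⟨U, _, hU2, hU3⟩ := h1
      exact ⟨U, hU2, hU3⟩
  choose! U hU1 hU2 using hU
  refine ⟨fun x => idx (F x), Exc ∪ P.biUnion U, fun v => hidx3 _, ?_, ?_⟩
  · have h1 : (Exc ∪ P.biUnion U).card ≤ s0 p L + P.card * (2 * s0 p L) := by
      refine (card_union_le _ _).trans (Nat.add_le_add hExcc ?_)
      refine card_biUnion_le.trans ?_
      have := Finset.sum_le_card_nsmul P (fun A => (U A).card) (2 * s0 p L) hU1
      simpa using this
    have h2 : s0 p L + P.card * (2 * s0 p L) ≤ (2 * max T₀ 1 + 1) * s0 p L := by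
      have h3 : P.card ≤ max T₀ 1 := hPc.trans (le_max_left _ _)
      calc s0 p L + P.card * (2 * s0 p L) ≤ s0 p L + max T₀ 1 * (2 * s0 p L) := by
            exact Nat.add_le_add_left (Nat.mul_le_mul_right _ h3) _
        _ = (2 * max T₀ 1 + 1) * s0 p L := by ring
    have h3 := h1.trans h2
    have h4 : (((Exc ∪ P.biUnion U).card : ℕ) : ℝ) ≤ (((2 * max T₀ 1 + 1) * s0 p L : ℕ) : ℝ) := by
      exact_mod_cast h3
    rw [Nat.cast_mul, Nat.cast_add, Nat.cast_mul] at h4
    simpa using h4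
  · intro u v hu hv huv heq
    have key : ∀ x, x ∉ Y ∪ Z ∪ W ∪ (Exc ∪ P.biUnion U) → x ∈ X \ Exc ∧ x ∉ P.biUnion U := by
      intro x hx
      have hx1 : x ∉ Y ∪ Z ∪ W := fun h1 => hx (mem_union_left _ h1)
      have hx2 : x ∉ Exc := fun h1 => hx (mem_union_right _ (mem_union_left _ h1))
      have hx3 : x ∉ P.biUnion U := fun h1 => hx (mem_union_right _ (mem_union_right _ h1))
      refine ⟨?_, hx3⟩
      rw [mem_sdiff, hX, mem_sdiff]
      exact ⟨⟨mem_univ _, hx1⟩, hx2⟩
    obtain ⟨hu1, hu2⟩ := key u hu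
    obtain ⟨hv1, hv2⟩ := key v hv
    have hFu := (hF u hu1).1
    have hFv := (hF v hv1).1
    have hFF : F u = F v := hidx2 _ hFu _ hFv heq
    have hne : u ≠ v := mem_allE.mp (hG.sub (hES huv))
    refine hU2 (F u) hFu u ?_ v ?_ hne huv
    · rw [mem_sdiff, mem_filter]
      refine ⟨⟨hu1, rfl⟩, fun h1 => hu2 (mem_biUnion.mpr ⟨F u, hFu, h1⟩)⟩
    · rw [mem_sdiff, mem_filter]
      refine ⟨⟨hv1, hFF.symm⟩, fun h1 => hv2 (mem_biUnion.mpr ⟨F u, hFu, h1⟩)⟩

end Pool.Agent.H973.CT
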