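import Pool.Agent.H973.CT.Stm

set_option autoImplicit false
set_option linter.unusedSectionVars false

/-! Leaf SPLIT (by helper650): random splitting of vertex neighbourhoods. -/

namespace Pool.Agent.H973.CT

open Finset Classical Pool.Agent.W166.Gnp

namespace SplitL

variable {n M : ℕ}

section gen

variable {α : Type} [Fintype α] [DecidableEq α]

/-- the generating function of the number of hits -/
theorem sum_prod (hα : 0 < Fintype.card α) (C : Finset α) (Nv : Finset (Fin n)) :
    ∑ F : Fin n → α, ∏ u, (if u ∈ Nv ∧ F u ∈ C then (1 / 2 : ℝ) else 1) =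
      (Fintype.card α : ℝ) ^ n * (1 - (C.card : ℝ) / Fintype.card α / 2) ^ Nv.card := by
  have h := (Finset.prod_univ_sum (fun _ : Fin n => (univ : Finset α))
    (fun u a => if u ∈ Nv ∧ a ∈ C then (1 / 2 : ℝ) else 1)).symm
  rw [Fintype.piFinset_univ] at h
  rw [h]
  have hm : (0 : ℝ) < Fintype.card α := by exact_mod_cast hα
  have h1 : ∀ u : Fin n, ∑ a : α, (if u ∈ Nv ∧ a ∈ C then (1 / 2 : ℝ) else 1) =
      (Fintype.card α : ℝ) * (if u ∈ Nv then (1 - (C.card : ℝ) / Fintype.card α / 2) else 1) := by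
    intro u
    by_cases hu : u ∈ Nv
    · simp only [hu, true_and, if_true]
      have h2 : ∀ a : α, (if a ∈ C then (1 / 2 : ℝ) else 1) = 1 - (if a ∈ C then (1 / 2 : ℝ) else 0) := by
        intro a
        split_ifs <;> norm_num
      simp only [h2]
      rw [Finset.sum_sub_distrib, Finset.sum_ite_mem]
      simp
      field_simp
    · simp [hu]
  simp only [h1]
  rw [Finset.prod_mul_distrib, Finset.prod_ite_mem]
  simp

theorem prod_eq (C : Finset α) (Nv : Finset (Fin n)) (F : Fin n → α) :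
    ∏ u, (if u ∈ Nv ∧ F u ∈ C then (1 / 2 : ℝ) else 1) =
      (1 / 2 : ℝ) ^ (Nv ∩ univ.filter (fun u => F u ∈ C)).card := by
  have h : ∀ u : Fin n, (if u ∈ Nv ∧ F u ∈ C then (1 / 2 : ℝ) else 1) =
      if u ∈ Nv ∩ univ.filter (fun u => F u ∈ C) then (1 / 2 : ℝ) else 1 := by
    intro u
    simp
  simp only [h]
  rw [Finset.prod_ite_mem]
  simp

/-- the mean size of a colour class -/
theorem sum_card (hα : 0 < Fintype.card α) (C : Finset α) :
    ∑ F : Fin n → α, ((univ.filter (fun u => F u ∈ C)).card : ℝ) =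
      (Fintype.card α : ℝ) ^ n * (n * ((C.card : ℝ) / Fintype.card α)) := by
  have hm : (0 : ℝ) < Fintype.card α := by exact_mod_cast hα
  have h1 : ∀ F : Fin n → α, ((univ.filter (fun u => F u ∈ C)).card : ℝ) =
      ∑ u : Fin n, (if F u ∈ C then (1 : ℝ) else 0) := by
    intro F
    rw [Finset.card_filter]
    push_cast
    rfl
  simp only [h1]
  rw [Finset.sum_comm]
  have h2 : ∀ u : Fin n, ∑ F : Fin n → α, (if F u ∈ C then (1 : ℝ) else 0) =
      (Fintype.card α : ℝ) ^ n * ((C.card : ℝ) / Fintype.card α) := by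
    intro u
    have h := (Finset.prod_univ_sum (fun _ : Fin n => (univ : Finset α))
      (fun u' a => if u' = u then (if a ∈ C then (1 : ℝ) else 0) else 1)).symm
    rw [Fintype.piFinset_univ] at h
    have h3 : ∀ F : Fin n → α, ∏ i, (if i = u then (if F i ∈ C then (1 : ℝ) else 0) else 1) =
        (if F u ∈ C then (1 : ℝ) else 0) := by
      intro F
      rw [Finset.prod_ite_eq']
      simp
    simp only [h3] at h
    rw [h]
    have h4 : ∀ i : Fin n, ∑ a : α, (if i = u then (if a ∈ C then (1 : ℝ) else 0) else 1) =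
        (Fintype.card α : ℝ) * (if i = u then ((C.card : ℝ) / Fintype.card α) else 1) := by
      intro i
      by_cases hi : i = u
      · simp only [hi, if_true]
        rw [Finset.sum_ite_mem]
        simp
        field_simp
      · simp [hi]
    simp only [h4]
    rw [Finset.prod_mul_distrib, Finset.prod_ite_eq']
    simp
  simp only [h2]
  simp
  ring

end gen

/-- the colour sets -/
noncomputable def cs (M : ℕ) [NeZero M] (j : Fin 6) : Finset (Fin 6 × Fin M) :=
  univ.filter (fun a => a.1 = j ∧ ((j = 2 ∨ j = 5) → a.2 = 0))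

theorem card_small [NeZero M] (j : Fin 6) (hj : j = 2 ∨ j = 5) : (cs M j).card = 1 := by
  have : cs M j = {(j, 0)} := by
    ext ⟨a, b⟩
    simp [cs, hj]
  rw [this, Finset.card_singleton]

theorem card_big [NeZero M] (j : Fin 6) (hj : ¬ (j = 2 ∨ j = 5)) : (cs M j).card = M := by
  have : cs M j = ({j} : Finset (Fin 6)) ×ˢ (univ : Finset (Fin M)) := by
    ext ⟨a, b⟩
    simp [cs, hj]
    exact eq_comm
  rw [this, Finset.card_product]
  simp

/-- the estimate of one failure term -/
theorem est {q dd : ℝ} {m : ℕ} (hq : 0 ≤ q) (hq1 : q ≤ 1) (hdd : 0 ≤ dd) (hm : dd ≤ m) :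
    (2 : ℝ) ^ (dd * q / 2) * (1 - q / 2) ^ m ≤ Real.exp (-(dd * q / 8)) := by
  have h1 : (1 - q / 2) ^ m ≤ Real.exp (-(q / 2 * m)) := by
    have h2 : 1 - q / 2 ≤ Real.exp (-(q / 2)) := by
      have := Real.add_one_le_exp (-(q / 2))
      linarith
    calc (1 - q / 2) ^ m ≤ (Real.exp (-(q / 2))) ^ m :=
          pow_le_pow_left₀ (by linarith) h2 m
      _ = Real.exp (-(q / 2 * m)) := by
          rw [← Real.exp_nat_mul]
          congr 1
          ring
  have h3 : (2 : ℝ) ^ (dd * q / 2) = Real.exp (Real.log 2 * (dd * q / 2)) := by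
    rw [Real.rpow_def_of_pos (by norm_num)]
  rw [h3]
  calc Real.exp (Real.log 2 * (dd * q / 2)) * (1 - q / 2) ^ m
      ≤ Real.exp (Real.log 2 * (dd * q / 2)) * Real.exp (-(q / 2 * m)) :=
        mul_le_mul_of_nonneg_left h1 (Real.exp_pos _).le
    _ = Real.exp (Real.log 2 * (dd * q / 2) + -(q / 2 * m)) := by rw [Real.exp_add]
    _ ≤ Real.exp (-(dd * q / 8)) := by
        apply Real.exp_le_exp.2
        have h4 : Real.log 2 < 0.6931471808 := Real.log_two_lt_d9
        have h5 : 0 ≤ dd * q := mul_nonneg hdd hq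
        have h6 : q * dd ≤ q * m := mul_le_mul_of_nonneg_left hm hq
        nlinarith

end SplitL

open SplitL in
/-- **SPLIT.** -/
theorem split : S_SPLIT := by
  intro n M dd N hM hdd hN hexp
  rcases Nat.eq_zero_or_pos n with hn0 | hn0
  · subst hn0
    refine ⟨fun _ => ∅, ?_, ?_, ?_⟩
    · intro i j _
      simp
    · intro j _ v
      exact v.elim0
    · intro j _
      refine ⟨fun v => v.elim0, ?_⟩
      simp
  have : NeZero M := ⟨by omega⟩
  have hMr : (1 : ℝ) ≤ M := by exact_mod_cast hM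
  have hMp : (0 : ℝ) < M := by linarith
  have hnr : (0 : ℝ) < n := by exact_mod_cast hn0
  have hcard : Fintype.card (Fin 6 × Fin M) = 6 * M := by simp
  have hα : 0 < Fintype.card (Fin 6 × Fin M) := by rw [hcard]; omega
  have hcr : ((Fintype.card (Fin 6 × Fin M) : ℕ) : ℝ) = 6 * M := by rw [hcard]; push_cast; ring
  -- the proportions
  set q : Fin 6 → ℝ := fun j => ((cs M j).card : ℝ) / (6 * M) with hq
  have hq_small : ∀ j, (j = 2 ∨ j = 5) → q j = 1 / (6 * M) := by
    intro j hj
    simp only [hq, card_small j hj]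
    simp
  have hq_big : ∀ j, ¬ (j = 2 ∨ j = 5) → q j = 1 / 6 := by
    intro j hj
    simp only [hq, card_big j hj]
    field_simp
  have hq_ge : ∀ j, 1 / (6 * M) ≤ q j := by
    intro j
    by_cases hj : j = 2 ∨ j = 5
    · rw [hq_small j hj]
    · rw [hq_big j hj]
      apply one_div_le_one_div_of_le (by norm_num)
      linarith
  have hq_le : ∀ j, q j ≤ 1 := by
    intro j
    by_cases hj : j = 2 ∨ j = 5
    · rw [hq_small j hj, div_le_one (by positivity)]
      linarith
    · rw [hq_big j hj]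
      norm_num
  have hq0 : ∀ j, 0 ≤ q j := fun j => le_trans (by positivity) (hq_ge j)
  -- the class of colour `j`
  set A : (Fin n → Fin 6 × Fin M) → Fin 6 → Finset (Fin n) :=
    fun F j => univ.filter (fun u => F u ∈ cs M j) with hA
  set cost : (Fin n → Fin 6 × Fin M) → ℝ := fun F =>
    (∑ v : Fin n, ∑ j : Fin 6, (2 : ℝ) ^ (dd * q j / 2) * (1 / 2 : ℝ) ^ (N v ∩ A F j).card) +
      (((A F 2).card : ℝ) + ((A F 5).card : ℝ)) / (4 * n / (3 * M)) with hcost
  have hsum : ∑ F, cost F < ∑ F : Fin n → Fin 6 × Fin M, (1 : ℝ) := by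
    have h1 : ∑ F, cost F = (∑ v : Fin n, ∑ j : Fin 6, (2 : ℝ) ^ (dd * q j / 2) *
        ((6 * M : ℝ) ^ n * (1 - q j / 2) ^ (N v).card)) +
        ((6 * M : ℝ) ^ n * (n * (1 / (6 * M))) + (6 * M : ℝ) ^ n * (n * (1 / (6 * M)))) /
          (4 * n / (3 * M)) := by
      simp only [hcost]
      rw [Finset.sum_add_distrib, Finset.sum_comm, ← Finset.sum_div, Finset.sum_add_distrib]
      congr 1
      · refine Finset.sum_congr rfl fun v _ => ?_
        rw [Finset.sum_comm]
        refine Finset.sum_congr rfl fun j _ => ?_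
        rw [← Finset.mul_sum]
        congr 1
        have := sum_prod hα (cs M j) (N v)
        rw [hcr] at this
        rw [← this]
        refine Finset.sum_congr rfl fun F _ => ?_
        rw [prod_eq]
      · have h2 := sum_card (n := n) hα (cs M 2)
        have h5 := sum_card (n := n) hα (cs M 5)
        rw [hcr, card_small 2 (Or.inl rfl)] at h2
        rw [hcr, card_small 5 (Or.inr rfl)] at h5
        simp only [hA]
        rw [h2, h5]
        push_cast
        ring
    have h2 : ∑ F : Fin n → Fin 6 × Fin M, (1 : ℝ) = (6 * M : ℝ) ^ n := by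
      rw [Finset.sum_const, Finset.card_univ, Fintype.card_fun, nsmul_eq_mul, mul_one]
      push_cast
      rw [hcr, Fintype.card_fin]
    rw [h1, h2]
    have hP : (0 : ℝ) < (6 * M : ℝ) ^ n := by positivity
    have h3 : (∑ v : Fin n, ∑ j : Fin 6, (2 : ℝ) ^ (dd * q j / 2) *
        ((6 * M : ℝ) ^ n * (1 - q j / 2) ^ (N v).card)) ≤ (6 * M : ℝ) ^ n * (1 / 2) := by
      calc (∑ v : Fin n, ∑ j : Fin 6, (2 : ℝ) ^ (dd * q j / 2) *
            ((6 * M : ℝ) ^ n * (1 - q j / 2) ^ (N v).card))
          ≤ ∑ v : Fin n, ∑ j : Fin 6, (6 * M : ℝ) ^ n * Real.exp (-(dd / (48 * M))) := by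
            refine Finset.sum_le_sum fun v _ => Finset.sum_le_sum fun j _ => ?_
            have h4 := est (hq0 j) (hq_le j) hdd (hN v)
            have h5 : Real.exp (-(dd * q j / 8)) ≤ Real.exp (-(dd / (48 * M))) := by
              apply Real.exp_le_exp.2
              have h6 : dd * (1 / (6 * M)) ≤ dd * q j :=
                mul_le_mul_of_nonneg_left (hq_ge j) hdd
              have h7 : dd / (48 * M) = dd * (1 / (6 * M)) / 8 := by
                field_simp
                ring
              rw [h7]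
              linarith
            calc (2 : ℝ) ^ (dd * q j / 2) * ((6 * M : ℝ) ^ n * (1 - q j / 2) ^ (N v).card)
                = (6 * M : ℝ) ^ n * ((2 : ℝ) ^ (dd * q j / 2) * (1 - q j / 2) ^ (N v).card) := by
                  ring
              _ ≤ _ := mul_le_mul_of_nonneg_left (h4.trans h5) hP.le
        _ = (6 * M : ℝ) ^ n * (1 / 2) * (12 * n * Real.exp (-(dd / (48 * M)))) := by
            simp
            ring
        _ ≤ (6 * M : ℝ) ^ n * (1 / 2) * 1 :=
            mul_le_mul_of_nonneg_left hexp (by positivity)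
        _ = (6 * M : ℝ) ^ n * (1 / 2) := by ring
    have h4 : ((6 * M : ℝ) ^ n * (n * (1 / (6 * M))) + (6 * M : ℝ) ^ n * (n * (1 / (6 * M)))) /
          (4 * n / (3 * M)) = (6 * M : ℝ) ^ n * (1 / 4) := by
      field_simp
      ring
    rw [h4]
    nlinarith
  obtain ⟨F, -, hF⟩ := Finset.exists_lt_of_sum_lt hsum
  have hpos : ∀ v j, 0 ≤ (2 : ℝ) ^ (dd * q j / 2) * (1 / 2 : ℝ) ^ (N v ∩ A F j).card := by
    intro v j
    positivity
  have hfirst : 0 ≤ ∑ v : Fin n, ∑ j : Fin 6,
      (2 : ℝ) ^ (dd * q j / 2) * (1 / 2 : ℝ) ^ (N v ∩ A F j).card :=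
    Finset.sum_nonneg fun v _ => Finset.sum_nonneg fun j _ => hpos v j
  have hsecond : 0 ≤ (((A F 2).card : ℝ) + ((A F 5).card : ℝ)) / (4 * n / (3 * M)) := by
    positivity
  have hterm : ∀ v j, (2 : ℝ) ^ (dd * q j / 2) * (1 / 2 : ℝ) ^ (N v ∩ A F j).card < 1 := by
    intro v j
    have h1 : (2 : ℝ) ^ (dd * q j / 2) * (1 / 2 : ℝ) ^ (N v ∩ A F j).card ≤
        ∑ v : Fin n, ∑ j : Fin 6,
          (2 : ℝ) ^ (dd * q j / 2) * (1 / 2 : ℝ) ^ (N v ∩ A F j).card :=
      (Finset.single_le_sum (f := fun j => (2 : ℝ) ^ (dd * q j / 2) *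
        (1 / 2 : ℝ) ^ (N v ∩ A F j).card) (fun j _ => hpos v j) (Finset.mem_univ j)).trans
        (Finset.single_le_sum (f := fun v => ∑ j : Fin 6, (2 : ℝ) ^ (dd * q j / 2) *
        (1 / 2 : ℝ) ^ (N v ∩ A F j).card)
          (fun v _ => Finset.sum_nonneg fun j _ => hpos v j) (Finset.mem_univ v))
    simp only [hcost] at hF
    linarith
  have hdeg : ∀ v j, dd * q j / 2 ≤ ((N v ∩ A F j).card : ℝ) := by
    intro v j
    have h1 := hterm v j
    have h2 : (1 / 2 : ℝ) ^ (N v ∩ A F j).card = (2 : ℝ) ^ (-((N v ∩ A F j).card : ℝ)) := by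
      rw [Real.rpow_neg (by norm_num), Real.rpow_natCast, one_div, inv_pow]
    rw [h2, ← Real.rpow_add (by norm_num)] at h1
    by_contra hc
    push Not at hc
    have h3 : (1 : ℝ) ≤ (2 : ℝ) ^ (dd * q j / 2 + -((N v ∩ A F j).card : ℝ)) :=
      Real.one_le_rpow (by norm_num) (by linarith)
    linarith
  have hsize : ∀ j, (j = 2 ∨ j = 5) → ((A F j).card : ℝ) ≤ 4 * n / (3 * M) := by
    intro j hj
    have h0 : (0 : ℝ) < 4 * n / (3 * M) := by positivity
    have h1 : (((A F 2).card : ℝ) + ((A F 5).card : ℝ)) / (4 * n / (3 * M)) < 1 := by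
      simp only [hcost] at hF
      linarith
    rw [div_lt_one h0] at h1
    have h2 : (0 : ℝ) ≤ ((A F 2).card : ℝ) := by positivity
    have h5 : (0 : ℝ) ≤ ((A F 5).card : ℝ) := by positivity
    rcases hj with rfl | rfl <;> linarith
  refine ⟨A F, ?_, ?_, ?_⟩
  · intro i j hij
    rw [Finset.disjoint_left]
    intro u hi hj
    simp only [hA, cs, Finset.mem_filter, Finset.mem_univ, true_and] at hi hj
    exact hij (hi.1.symm.trans hj.1)
  · intro j hj v
    have hj' : ¬ (j = 2 ∨ j = 5) := by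
      simp only [Finset.mem_insert, Finset.mem_singleton] at hj
      rcases hj with rfl | rfl | rfl | rfl <;> decide
    have h1 := hdeg v j
    rw [hq_big j hj'] at h1
    linarith
  · intro j hj
    have hj' : j = 2 ∨ j = 5 := by
      simpa only [Finset.mem_insert, Finset.mem_singleton] using hj
    refine ⟨fun v => ?_, hsize j hj'⟩
    have h1 := hdeg v j
    rw [hq_small j hj'] at h1
    have h2 : dd * (1 / (6 * M)) / 2 = dd / (12 * M) := by
      field_simp
      ring
    rw [h2] at h1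
    exact h1

end Pool.Agent.H973.CT
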