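import Pool.Agent.H973.CT.Stm

set_option autoImplicit false

/-! Statements for the lower bound part (functions `p = n^{-θ + o(1)}`).

Setting: `P` is one side of a bipartition, `R = univ \ P` the other one, `X ⊆ R` a small set
(`|X| ≤ 1/(p ℓ^8)`) carrying a fixed graph `H ⊆ prs2 X X` with maximum degree `≤ ℓ`, large chromatic
number and no cycle of length `2h+5`. `S` is a random set of `P`-`R` edges. The cycle to be avoided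
has length `2h+5` (`h ≥ 1`), and `(p n)^(2h+2) ≤ ℓ n`. -/

namespace Pool.Agent.H973.CT

open Finset Classical Pool.Agent.W166.Gnp

variable {n : ℕ}

/-- the pairs `{x, y}`, `x ∈ A`, `y ∈ B`, `x ≠ y` -/
noncomputable def prs2 (A B : Finset (Fin n)) : Finset (Sym2 (Fin n)) :=
  ((A ×ˢ B).filter (fun q => q.1 ≠ q.2)).image (fun q => s(q.1, q.2))

/-- the edges of `S` not containing `v` -/
noncomputable def dl (v : Fin n) (S : Finset (Sym2 (Fin n))) : Finset (Sym2 (Fin n)) :=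
  S.filter (fun e => v ∉ e)

/-- ends of the walks of length `r` starting at `a` -/
noncomputable def wr (S : Finset (Sym2 (Fin n))) : ℕ → Fin n → Finset (Fin n)
  | 0, a => {a}
  | r + 1, a => (wr S r a).biUnion (nb S univ)

/-- ends of the walks of length `r` starting at `a` with exactly `j` steps in `H`, the others in
`S` -/
noncomputable def hw (S H : Finset (Sym2 (Fin n))) : ℕ → ℕ → Fin n → Finset (Fin n)
  | 0, 0, a => {a}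
  | 0, _ + 1, _ => ∅
  | r + 1, 0, a => (hw S H r 0 a).biUnion (nb S univ)
  | r + 1, j + 1, a => (hw S H r (j + 1) a).biUnion (nb S univ) ∪ (hw S H r j a).biUnion (nb H univ)

/-- `S` contains no cycle of length `l` (as an injective map of `Fin l`) -/
def NoCyc (l : ℕ) (S : Finset (Sym2 (Fin n))) : Prop :=
  ¬ ∃ f : Fin l → Fin n, Function.Injective f ∧
    ∀ i j : Fin l, (j.val = i.val + 1 ∨ (i.val + 1 = l ∧ j.val = 0)) → s(f i, f j) ∈ S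

/-- a cycle of length `2h+5` with exactly one edge `s(ψ 0, ψ 1)` in `H` and the others in `S`;
`x₂ = ψ 0`, `x₁ = ψ 1`, `p₁ = ψ 2`, `r = ψ 3`, `p' = ψ 4` -/
def MainCyc (h : ℕ) (S H : Finset (Sym2 (Fin n))) (ψ : Fin (2 * h + 5) → Fin n) : Prop :=
  Function.Injective ψ ∧ s(ψ 0, ψ 1) ∈ H ∧
    ∀ i j : Fin (2 * h + 5), 1 ≤ i.val → (j.val = i.val + 1 ∨ (i.val = 2 * h + 4 ∧ j.val = 0)) →
      s(ψ i, ψ j) ∈ S

/-- for the vertex `p'`: the pairs `(r, r'')` such that there are `p₁ ≠ p'`, `x₁ ≠ r`, `x₂` in `X`,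
`p₂ ≠ p'`, `r₂ ≠ x₂` with `r p₁, p₁ x₁ ∈ S`, `x₁ x₂ ∈ H`, `x₂ p₂, p₂ r₂ ∈ S` and `r''` is reached from
`r₂` by an `S`-walk of length `2h - 2` avoiding `p'` -/
def Frel (h : ℕ) (P X : Finset (Fin n)) (S H : Finset (Sym2 (Fin n))) (p' r r'' : Fin n) : Prop :=
  ∃ p₁ ∈ P, ∃ x₁ ∈ X, ∃ x₂ ∈ X, ∃ p₂ ∈ P, ∃ r₂ : Fin n, p₁ ≠ p' ∧ x₁ ≠ r ∧ p₂ ≠ p' ∧ r₂ ≠ x₂ ∧
    s(r, p₁) ∈ S ∧ s(p₁, x₁) ∈ S ∧ s(x₁, x₂) ∈ H ∧ s(x₂, p₂) ∈ S ∧ s(p₂, r₂) ∈ S ∧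
    r'' ∈ wr (dl p' S) (2 * h - 2) r₂

/-- **S_PLANT** (a planted set of large chromatic number, locally sparse). `V₀` is any set with
`ℓ^A ≤ p |V₀|`; `A` depends only on `h` and `C`, not on `κ`. Proof with the library
`Pool.Graph.R_seed8.W166.Gnp` (`Param.lean`: `choose_bounds`; `Main.lean`: `level_bound`,
`level_main` is the same construction with constant instead of `1/ℓ`-power parameters; `Level.lean`,
`Build.lean`: `Inv`, `inv_all`, `inv_card`, proof of `inv_not_colorable`). Put `C' = 2 C`,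
`t = ⌊c0/(C' p)⌋`, `s = C' t` with `c0 = ℓ^(-9)/..` (so `s p ≤ c0`), `K = K(C')` as in `level_main`,
`Γ = c0^K/K!`, `Q i = ⌈4 B0/(Γ/4)^i⌉`, `|W| = cum Q (C'+1) * s ≤ s ℓ^a` with `a = a(C)`; use
`level_bound` with `C'`. `Rem` = the vertices of `W` on cycles of length `2h+5` of `S` inside `W`; the
expected number of these cycles is `≤ (|W| p)^(2h+5) ≤ ℓ^(a(2h+5))`, much smaller than `s ≥ ℓ^(A-10)`
(Markov, `copies_expect`). `inv_all` gives `U` disjoint from `Rem`, `|U| ≤ (C'+1)s`, with all the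
density properties between `t`-subsets of different classes. Local sparsity: with probability close
to `1` all `U ⊆ V₀` with `|U| ≤ (C'+1)s` span at most `κ|U|` edges of `S` (first moment:
`n^u (e u p/κ)^(κ u) ≤ (n ℓ^(-8κ))^u`, `n^2 ≤ ℓ^κ`). Delete from `U` the vertices of degree `> ℓ` inside
`U` (at most `2κ|U|/ℓ ≤ s/4`): this is `X`, and `H = S ∩ prs2 X X`. Every class `X ∩ W j` still has
`≥ s/2 = C t` elements, so the pigeonhole proof of `inv_not_colorable` works. -/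
def S_PLANT : Prop := ∀ (h C : ℕ), 1 ≤ h → 1 ≤ C → ∃ A : ℕ, ∀ κ : ℕ, 1 ≤ κ → ∃ Λ₀ : ℝ,
  1 ≤ Λ₀ ∧ ∀ (n : ℕ) (p ℓ : ℝ) (V₀ : Finset (Fin n)), 0 < p → p ≤ 1 → Λ₀ ≤ ℓ →
  Λ₀ * Real.log n ≤ ℓ → (n : ℝ) ^ 2 ≤ ℓ ^ κ → ℓ ^ A ≤ p * V₀.card → p * ℓ ^ A ≤ 1 →
  Pr (prs2 V₀ V₀) p (fun S => ¬ ∃ X ⊆ V₀, ∃ H ⊆ S, H ⊆ prs2 X X ∧ (X.card : ℝ) * p * ℓ ^ 8 ≤ 1 ∧
    (∀ v, ((nb H univ v).card : ℝ) ≤ ℓ) ∧ NoCyc (2 * h + 5) H ∧
    ¬ (SimpleGraph.fromEdgeSet (H : Set (Sym2 (Fin n)))).Colorable C) ≤ 1 / 8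

/-- few neighbours inside the set of vertices with another neighbour in `X` -/
def B4 (n : ℕ) (p ℓ : ℝ) (P X : Finset (Fin n)) (S : Finset (Sym2 (Fin n))) : Prop :=
  ∀ r ∉ P, ((nb S (P.filter (fun q => ∃ x ∈ X, x ≠ r ∧ s(q, x) ∈ S)) r).card : ℝ) ≤ p * n / ℓ ^ 7

/-- few walks of length `2h+2` between two vertices -/
def B5 (h : ℕ) (n : ℕ) (ℓ : ℝ) (P X : Finset (Fin n)) (S : Finset (Sym2 (Fin n))) : Prop :=
  ∀ r ∉ P, ∀ x ∈ X, x ≠ r → ((nb S (wr (dl r S) (2 * h + 1) x) r).card : ℝ) ≤ ℓ ^ 2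

/-- few neighbours of `x` at the end of walks with at least two `H`-steps -/
def B6 (h : ℕ) (n : ℕ) (ℓ : ℝ) (X : Finset (Fin n)) (H S : Finset (Sym2 (Fin n))) : Prop :=
  ∀ x ∈ X, ∀ z ∈ X, z ≠ x → ∀ j : ℕ, 2 ≤ j → j ≤ 2 * h + 3 →
    ((nb S (hw (dl x S) (dl x H) (2 * h + 3) j z) x).card : ℝ) ≤ ℓ ^ (2 * h + 6)

/-- few neighbours of `p'` that can be completed to a `MainCyc` -/
def B7 (h : ℕ) (n : ℕ) (p ℓ : ℝ) (P X : Finset (Fin n)) (H S : Finset (Sym2 (Fin n))) : Prop :=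
  ∀ p' ∈ P, (((nb S univ p').filter (fun r => ∃ r'' ∈ nb S univ p', r'' ≠ r ∧
    Frel h P X S H p' r r'')).card : ℝ) ≤ p * n / ℓ ^ 2

/-- the good event for the bipartite edges -/
structure GoodB (h κ : ℕ) (n : ℕ) (p ℓ ε : ℝ) (P X : Finset (Fin n)) (H S : Finset (Sym2 (Fin n))) :
    Prop where
  sub : S ⊆ prs2 P (univ \ P)
  deg : ∀ v, ((nb S univ v).card : ℝ) ≤ 8 * (p * n)
  lowP : ∀ v ∈ P, (1 - ε) * (p * (univ \ P).card) ≤ ((nb S univ v).card : ℝ)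
  lowR : ∀ v ∉ P, (1 - ε) * (p * P.card) ≤ ((nb S univ v).card : ℝ)
  few : ∀ v ∈ P, (nb S X v).card ≤ κ
  b4 : B4 n p ℓ P X S
  b5 : B5 h n ℓ P X S
  b6 : B6 h n ℓ X H S
  b7 : B7 h n p ℓ P X H S

/-- **S_DET2** (deterministic). Let `Del₁` be the edges `s(ψ 3, ψ 4)` of all `MainCyc h S H ψ` and
`Del₂` the edges `s(x,q) ∈ S`, `x ∈ X`, `q ∈ P`, such that for some `z` with `s(x,z) ∈ H` and some
`2 ≤ j ≤ 2h+3`, `q ∈ hw (dl x S) (dl x H) (2h+3) j z`. Put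
`G = fromEdgeSet ((S \ (Del₁ ∪ Del₂)) ∪ H)`.
NO CYCLE of length `2h+5` in `G`: vertices outside `X ∪ P` have only `S`-edges; every edge of a cycle
`f` has exactly one end in `P` (an `S`-edge) or is an `H`-edge; the number of `S`-edges is twice the
number of vertices in `P`, so the number of `H`-edges is odd. If it is `1`, rotating/reading the cycle
from that edge gives a `MainCyc` whose edge `s(ψ 3, ψ 4)` is in `Del₁`. If it is `≥ 3` and the cycle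
meets `P`, there is a vertex `x` of the cycle such that the edge before is an `H`-edge `z x` and the
edge after is an `S`-edge `x q`; the rest of the cycle is a walk of length `2h+3` from `z` to `q`
(backwards) avoiding `x` with at least two `H`-steps, so `s(x,q) ∈ Del₂`. If the cycle does not meet
`P` it is inside `H`.
DEGREES. `v ∈ P`: the deleted edges at `v` are `Del₁` edges (the other end `r` belongs to the set in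
`b7`: take `r'' = ψ 5` (if `h ≥ 1`), `p₁ = ψ 2`, `x₁ = ψ 1`, `x₂ = ψ 0`, `p₂ = ψ (2h+4)`,
`r₂ = ψ (2h+3)`; if `h = 1` then `r₂ = ψ 5 = r''`) or go to `X` (at most `κ`). `v ∉ P`: `Del₁` edges
`s(v,p')`: at most `(pn/ℓ^7) κ ℓ ℓ^2` (`p₁` in the set of `b4`, `x₁` among `≤ κ`, `x₂` among `≤ ℓ`,
`p'` in the set of `b5`); `Del₂` edges at `v ∈ X`: at most `ℓ (2h+2) ℓ^(2h+6)`. -/
def S_DET2 : Prop := ∀ (h κ n : ℕ) (p ℓ ε : ℝ) (P X : Finset (Fin n)) (H S : Finset (Sym2 (Fin n))),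
  1 ≤ h → 0 < p → 1 ≤ ℓ → Disjoint P X → H ⊆ prs2 X X → (∀ v, ((nb H univ v).card : ℝ) ≤ ℓ) →
  NoCyc (2 * h + 5) H → GoodB h κ n p ℓ ε P X H S →
  ∃ G : SimpleGraph (Fin n), G ≤ SimpleGraph.fromEdgeSet ((S ∪ H : Finset _) : Set (Sym2 (Fin n))) ∧
    SimpleGraph.fromEdgeSet (H : Set (Sym2 (Fin n))) ≤ G ∧
    ¬ (SimpleGraph.cycleGraph (2 * h + 5)).IsContained G ∧
    (∀ v ∈ P, (1 - ε) * (p * (univ \ P).card) - p * n / ℓ ^ 2 - κ ≤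
      ((G.neighborSet v).ncard : ℝ)) ∧
    ∀ v ∉ P, (1 - ε) * (p * P.card) - κ * (p * n) / ℓ ^ 4 - (2 * h + 2) * ℓ ^ (2 * h + 7) ≤
      ((G.neighborSet v).ncard : ℝ)

/-- **S_IND** (revealing the edges at `v` last). `Φ` gives, from the edges of `S` outside `R'`, a
set of edges inside `R'`. Use `Pr_fub` / `Ex_union` of the library and `tail`
(`Pr(x ≤ |S ∩ D|) ≤ (e |D| p/x)^⌈x⌉`). -/
def S_IND : Prop := ∀ (α : Type) [DecidableEq α] (E R' : Finset α) (p x t : ℝ) (Φ : Finset α → Finset α),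
  R' ⊆ E → 0 ≤ p → p ≤ 1 → 0 ≤ t → (∀ T, Φ T ⊆ R') →
  Pr E p (fun S => Real.exp (1 + t) * (Φ (S \ R')).card * p ≤ x ∧
    x ≤ ((S ∩ Φ (S \ R')).card : ℝ)) ≤ Real.exp (-(t * x))

/-- **S_B7** (for one vertex `p'`; abstract form). `N` is the random set of neighbours of `p'`
(`p`-random subset of `R`); `F` is a relation that is determined by the other edges `S \ R'`. If every
`F`-in- and out-degree is `≤ Δ`, `e Δ p ≤ 1/ℓ^4`... then with probability at least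
`1 - 2 n (1/ℓ)^κ - exp(-x)` the number of `r ∈ N` with an `F`-partner in `N` is `≤ 2 x' (1 + κ)`,
`x' = ⌈x⌉`. Proof: (i) for fixed `r`, `Pr(κ < |N ∩ F(r)|) ≤ (e Δ p/κ)^κ ≤ ℓ^(-κ)`, same for
`F⁻¹(r)`; (ii) a maximal family of disjoint pairs `(r,r'') ∈ F ∩ N²` has fewer than `x'` members
except with probability `≤ (|F| p²)^x'/x'! ≤ (e |F| p²/x')^x' ≤ exp(-x)`, `|F| ≤ |R| Δ`; every `r ∈ N`
with a partner in `N` is a member of one of these pairs or has a partner `r''` (`(r,r'') ∈ F`) in one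
of these pairs, so belongs to one of the `≤ 2x'` sets `N ∩ F⁻¹(u)`. -/
def S_B7 : Prop := ∀ (n κ : ℕ) (p Δ ℓ x : ℝ) (R : Finset (Fin n)) (F : Fin n → Fin n → Prop),
  0 < p → p ≤ 1 → 1 ≤ κ → 1 ≤ ℓ → 0 < Δ → 0 < x →
  (∀ r ∈ R, ((R.filter (fun r'' => F r r'')).card : ℝ) ≤ Δ) →
  (∀ r'' ∈ R, ((R.filter (fun r => F r r'')).card : ℝ) ≤ Δ) →
  Real.exp 1 * Δ * p * ℓ ≤ 1 → Real.exp 2 * (R.card * Δ) * p ^ 2 ≤ x →
  Pr R p (fun N => 2 * (x + 1) * (1 + κ) <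
    ((N.filter (fun r => ∃ r'' ∈ N, r'' ≠ r ∧ F r r'')).card : ℝ)) ≤
    2 * R.card * (1 / ℓ) ^ κ + Real.exp (-x)

/-- numeric conditions (lower bound part); `m = p n` -/
structure NumB (h κ n : ℕ) (p ℓ Λ : ℝ) : Prop where
  hp : 0 < p
  hp1 : p ≤ 1
  hκ : 1 ≤ κ
  hn : 1 ≤ n
  hΛ : Λ ≤ ℓ
  hlog : Λ * Real.log n ≤ ℓ
  hkap : (n : ℝ) ^ 4 ≤ ℓ ^ κ
  hm : ℓ ^ (2 * h + 30) ≤ p * n
  hm2 : (p * n) ^ (2 * h + 2) ≤ ℓ * n

/-- conditions on the sets `P`, `X` and the planted graph `H` -/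
structure SetB (n : ℕ) (p ℓ : ℝ) (P X : Finset (Fin n)) (H : Finset (Sym2 (Fin n))) : Prop where
  big1 : (n : ℝ) ≤ 3 * P.card
  big2 : (n : ℝ) ≤ 3 * (univ \ P).card
  xp : X ⊆ univ \ P
  xc : (X.card : ℝ) * p * ℓ ^ 8 ≤ 1
  hx : H ⊆ prs2 X X
  hd : ∀ v, ((nb H univ v).card : ℝ) ≤ ℓ

/-- **S_GLOW** (degrees). Upper: for `v` the events use `card_up`-type bounds (`tail8`/`deg_bound`
in `Tail2.lean` do it: `Pr(8pn ≤ deg) ≤ exp(-8pn)`); lower: `card_lower` of the library (Chernoff),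
`p |P| ≥ pn/3 ≥ ℓ/3 ≥ Λ log n/3`. -/
def S_GLOW : Prop := ∀ (h κ : ℕ) (ε : ℝ), 1 ≤ h → 1 ≤ κ → 0 < ε → ∃ Λ : ℝ, 1 ≤ Λ ∧
  ∀ (n : ℕ) (p ℓ : ℝ), NumB h κ n p ℓ Λ → ∀ P : Finset (Fin n), (n : ℝ) ≤ 3 * P.card →
  (n : ℝ) ≤ 3 * (univ \ P).card →
  Pr (prs2 P (univ \ P)) p (fun S => ¬ ((∀ v, ((nb S univ v).card : ℝ) ≤ 8 * (p * n)) ∧
    (∀ v ∈ P, (1 - ε) * (p * (univ \ P).card) ≤ ((nb S univ v).card : ℝ)) ∧
    ∀ v ∉ P, (1 - ε) * (p * P.card) ≤ ((nb S univ v).card : ℝ))) ≤ 1 / 64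

/-- **S_GFEW**. `Pr(κ < |nb S X v|) ≤ (|X| p)^(κ+1) ≤ ℓ^(-8κ) ≤ n^(-32)`, `n ≥ 2` or trivial (if
`n = 1` then `X = ∅` or `P = ∅`). -/
def S_GFEW : Prop := ∀ (h κ : ℕ), 1 ≤ h → 1 ≤ κ → ∃ Λ : ℝ, 1 ≤ Λ ∧
  ∀ (n : ℕ) (p ℓ : ℝ), NumB h κ n p ℓ Λ → ∀ (P X : Finset (Fin n)) (H : Finset (Sym2 (Fin n))),
  SetB n p ℓ P X H →
  Pr (prs2 P (univ \ P)) p (fun S => ¬ ∀ v ∈ P, (nb S X v).card ≤ κ) ≤ 1 / 64

/-- **S_GB4** (with `S_IND`, `R'` = the edges at `r`). The set `Q = {q ∈ P | q has a neighbour x ≠ r in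
X}` is determined by the edges not at `r`; if all degrees are `≤ 8pn` then
`|Q| ≤ |X| 8 p n ≤ 8 n/ℓ^8`. So `e² |Q| p ≤ x = pn/ℓ^7` for `ℓ ≥ 8e²`; `S_IND` with `t = 1`:
probability `≤ exp(-pn/ℓ^7) ≤ exp(-ℓ)`; union over `r`. -/
def S_GB4 : Prop := ∀ (h κ : ℕ), 1 ≤ h → 1 ≤ κ → ∃ Λ : ℝ, 1 ≤ Λ ∧
  ∀ (n : ℕ) (p ℓ : ℝ), NumB h κ n p ℓ Λ → ∀ (P X : Finset (Fin n)) (H : Finset (Sym2 (Fin n))),
  SetB n p ℓ P X H →
  Pr (prs2 P (univ \ P)) p (fun S => (∀ v, ((nb S univ v).card : ℝ) ≤ 8 * (p * n)) ∧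
    ¬ B4 n p ℓ P X S) ≤ 1 / 64

/-- **S_GB5** (with `S_IND`, `R'` = the edges at `r`). `|wr (dl r S) (2h+1) x| ≤ (8pn)^(2h+1)` if all
degrees are `≤ 8pn`, so `e² |wr| p ≤ e² 8^(2h+1) (pn)^(2h+2)/n ≤ e² 8^(2h+1) ℓ ≤ ℓ^2`. -/
def S_GB5 : Prop := ∀ (h κ : ℕ), 1 ≤ h → 1 ≤ κ → ∃ Λ : ℝ, 1 ≤ Λ ∧
  ∀ (n : ℕ) (p ℓ : ℝ), NumB h κ n p ℓ Λ → ∀ (P X : Finset (Fin n)) (H : Finset (Sym2 (Fin n))),
  SetB n p ℓ P X H →
  Pr (prs2 P (univ \ P)) p (fun S => (∀ v, ((nb S univ v).card : ℝ) ≤ 8 * (p * n)) ∧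
    ¬ B5 h n ℓ P X S) ≤ 1 / 64

/-- **S_GB6** (with `S_IND`, `R'` = the edges at `x`). If all degrees are `≤ 8pn` (and `≤ ℓ` in `H`),
`|hw (dl x S) (dl x H) r j z| ≤ 2^r (8pn)^(r-j) ℓ^j` for `j ≤ r`, so for `r = 2h+3`, `2 ≤ j ≤ r`
(`ℓ ≤ 8pn`) it is `≤ 2^(2h+3) (8pn)^(2h+1) ℓ^(2h+3)`. -/
def S_GB6 : Prop := ∀ (h κ : ℕ), 1 ≤ h → 1 ≤ κ → ∃ Λ : ℝ, 1 ≤ Λ ∧
  ∀ (n : ℕ) (p ℓ : ℝ), NumB h κ n p ℓ Λ → ∀ (P X : Finset (Fin n)) (H : Finset (Sym2 (Fin n))),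
  SetB n p ℓ P X H →
  Pr (prs2 P (univ \ P)) p (fun S => (∀ v, ((nb S univ v).card : ℝ) ≤ 8 * (p * n)) ∧
    ¬ B6 h n ℓ X H S) ≤ 1 / 64

/-- **S_GB7** (with `S_B7`, `Pr_fub`/`Ex_union`). Fix `p' ∈ P`, reveal first the edges not at `p'`
(`T`), then `N = nb S univ p'`, a `p`-random subset of `R = univ \ P`. `Frel h P X S H p'` depends only
on `T`. If degrees are `≤ 8pn`, `few` and `B4` hold for `S` then they hold for `T` (monotone) and every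
in- and out-degree of `Frel` inside `R` is at most `Δ = κ 8^(2h) (pn)^(2h+1)/ℓ^6`: given `r`, choose
`p₁` (`B4` at `r`: `≤ pn/ℓ^7`), `x₁` (`≤ κ`), `x₂` (`≤ ℓ`), `p₂` (`≤ 8pn`), `r₂` (`≤ 8pn`), `r''`
(`≤ (8pn)^(2h-2)`); given `r''`, choose `r₂` (`≤ (8pn)^(2h-2)`), `p₂` (`B4` at `r₂`: `≤ pn/ℓ^7`), `x₂`
(`≤ κ`), `x₁` (`≤ ℓ`), `p₁` (`≤ 8pn`), `r` (`≤ 8pn`). (If `T` does not have these bounds, replace
`Frel` by the empty relation.) Then `e Δ p ℓ ≤ e κ 8^(2h) ℓ^(-4) ≤ 1`; `x = pn/(8κ ℓ^2)` (say) satisfies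
`e² n Δ p² ≤ x`; `2 (x+1)(1+κ) ≤ pn/ℓ^2`; failure probability `≤ n (2 n ℓ^(-κ) + exp(-x))`. -/
def S_GB7 : Prop := ∀ (h κ : ℕ), 1 ≤ h → 1 ≤ κ → ∃ Λ : ℝ, 1 ≤ Λ ∧
  ∀ (n : ℕ) (p ℓ : ℝ), NumB h κ n p ℓ Λ → ∀ (P X : Finset (Fin n)) (H : Finset (Sym2 (Fin n))),
  SetB n p ℓ P X H →
  Pr (prs2 P (univ \ P)) p (fun S => ((∀ v, ((nb S univ v).card : ℝ) ≤ 8 * (p * n)) ∧
    (∀ v ∈ P, (nb S X v).card ≤ κ) ∧ B4 n p ℓ P X S) ∧ ¬ B7 h n p ℓ P X H S) ≤ 1 / 64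

/-- **S_LOWB** (lower bound construction for one `n`). Proof from `S_PLANT`, `S_DET2`, `S_GLOW`,
`S_GFEW`, `S_GB4`, `S_GB5`, `S_GB6`, `S_GB7`. `GOODB`: the union bound gives
`Pr(¬ GoodB) ≤ 7/64 ≤ 1/8` under `NumB`, `SetB`. PARAMETERS: `A` from `S_PLANT` for `(h,C)`;
`μ = 1/((4h+4)(A+2h+31))`; `λ = μ`, `ℓ = n^μ`, `κ = ⌈4/μ⌉`; `Λ` = maximum of the constants of the
leaves; for large `n` everything holds (`pn ≥ n^(1/(2h+2))`, `pn ≤ n^((1+μ)/(2h+2))`, `log n ≪ n^μ`).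
Take `P` with `⌊n/2⌋` elements. `allE n = prs2 (univ \ P) (univ \ P) ∪ (prs2 P (univ \ P)) ∪ prs2 P P`
disjointly; `Pr_fub` of the library (`ProbA.lean`): first `V₀ = univ \ P` with `S_PLANT`, then for each
outcome `X, H` the bipartite edges (`GoodB` with `ε' = ε`), `Pr_marg` for the rest. `S_DET2` gives
`G ≤ fromEdgeSet (S ∪ H)`, its degrees are `≥ (1/2 - ε) p n` for large `n` if the `ε` of `GoodB` is
`ε/2`; `G` is not `C`-colourable since it contains `fromEdgeSet H`. -/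
def S_LOWB : Prop := ∀ (h C : ℕ) (ε : ℝ), 1 ≤ h → 1 ≤ C → 0 < ε → ∃ μ : ℝ, 0 < μ ∧ ∃ N : ℕ,
  ∀ (n : ℕ) (p : ℝ), N ≤ n → 0 < p → p ≤ 1 → (n : ℝ) ≤ (p * n) ^ (2 * h + 2) →
  (p * n) ^ (2 * h + 2) ≤ (n : ℝ) ^ (1 + μ) →
  Pr (allE n) p (fun S => ¬ ∃ G : SimpleGraph (Fin n),
    G ≤ SimpleGraph.fromEdgeSet (S : Set (Sym2 (Fin n))) ∧
    ¬ (SimpleGraph.cycleGraph (2 * h + 5)).IsContained G ∧
    (∀ v, (1 / 2 - ε) * (p * n) ≤ ((G.neighborSet v).ncard : ℝ)) ∧ ¬ G.Colorable C) ≤ 1 / 4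

end Pool.Agent.H973.CT
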