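import Pool.Agent.H973.CT.Stm3

set_option autoImplicit false

/-! `S_UPA`: the upper bound for one `n`. -/

namespace Pool.Agent.H973.CT

open Finset Classical Pool.Agent.W166.Gnp

namespace UpAL

theorem numA_mono {h κ n : ℕ} {p L Λ Λ' : ℝ} (hN : NumA h κ n p L Λ) (hl : Λ' ≤ Λ) :
    NumA h κ n p L Λ' := by
  refine ⟨hN.hp, hN.hp1, hN.hκ, hN.hn, hl.trans hN.hΛ, ?_, hN.hkap, hN.hm, hN.hm2, hN.hm3, hN.hL4⟩
  refine le_trans ?_ hN.hlog
  apply mul_le_mul_of_nonneg_right hl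
  apply Real.log_nonneg
  have : (0 : ℝ) ≤ n := Nat.cast_nonneg _
  linarith

theorem rpow_pow' {x : ℝ} (hx : 0 ≤ x) (a : ℝ) (k : ℕ) : (x ^ a) ^ k = x ^ (a * k) := by
  rw [← Real.rpow_natCast, ← Real.rpow_mul hx]

/-- the numeric conditions hold for large `n` -/
theorem numA (h κ : ℕ) (lam η Λ : ℝ) (hh : 1 ≤ h) (hlam : 0 < lam) (hη : 0 < η)
    (h1 : lam * (4 * h + 6) ≤ (2 * h + 2) * η) (h2 : lam * (4 * h + 6) ≤ 1 / (4 * h + 4))
    (hκ : 1 ≤ κ) (hκ2 : 2 ≤ lam * κ) (hΛ : 1 ≤ Λ) :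
    ∃ N : ℕ, ∀ (n : ℕ) (p : ℝ), N ≤ n → 0 < p → p ≤ 1 →
      (n : ℝ) ^ (1 / (2 * (h : ℝ) + 2) + η) ≤ p * n → p * n ≤ (n : ℝ) ^ (1 / 2 : ℝ) →
      NumA h κ n p ((n : ℝ) ^ lam) Λ := by
  have hhr : (1 : ℝ) ≤ h := by exact_mod_cast hh
  have e1 : ∀ᶠ x : ℝ in Filter.atTop, Λ ≤ x ^ lam :=
    (tendsto_rpow_atTop hlam).eventually_ge_atTop Λ
  have e2 : ∀ᶠ x : ℝ in Filter.atTop, ‖Real.log x‖ ≤ (1 / (2 * Λ)) * ‖x ^ lam‖ :=
    (isLittleO_log_rpow_atTop hlam).bound (by positivity)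
  have e3 : ∀ᶠ n : ℕ in Filter.atTop, Λ ≤ (n : ℝ) ^ lam ∧
      ‖Real.log n‖ ≤ (1 / (2 * Λ)) * ‖(n : ℝ) ^ lam‖ :=
    tendsto_natCast_atTop_atTop.eventually (e1.and e2)
  obtain ⟨N, hN⟩ := Filter.eventually_atTop.mp e3
  refine ⟨N + 16, ?_⟩
  intro n p hn hp hp1 hlow hup
  obtain ⟨g1, g2⟩ := hN n (by omega)
  have hn16 : (16 : ℝ) ≤ n := by
    have : 16 ≤ n := by omega
    exact_mod_cast this
  have hn1 : (1 : ℝ) ≤ n := by linarith
  have hn0 : (0 : ℝ) ≤ n := by linarith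
  have hnp : (0 : ℝ) < n := by linarith
  have hlam1 : lam ≤ 1 / 80 := by
    have a1 : (10 : ℝ) ≤ 4 * h + 6 := by linarith
    have a2 : (1 : ℝ) / (4 * h + 4) ≤ 1 / 8 :=
      one_div_le_one_div_of_le (by norm_num) (by linarith)
    have a3 : lam * 10 ≤ lam * (4 * h + 6) := mul_le_mul_of_nonneg_left a1 hlam.le
    linarith
  have hlog0 : 0 ≤ Real.log n := Real.log_nonneg hn1
  have hLpos : 0 < (n : ℝ) ^ lam := Real.rpow_pos_of_pos hnp _
  refine ⟨hp, hp1, hκ, by omega, g1, ?_, ?_, ?_, ?_, ?_, ?_⟩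
  · -- hlog
    rw [Real.norm_of_nonneg hlog0, Real.norm_of_nonneg hLpos.le] at g2
    have b1 : Real.log (n + 1) ≤ 2 * Real.log n := by
      have b2 : Real.log ((n : ℝ) + 1) ≤ Real.log ((n : ℝ) ^ 2) := by
        apply Real.log_le_log (by linarith)
        nlinarith
      rw [Real.log_pow] at b2
      push_cast at b2
      exact b2
    have b3 : Λ * Real.log (n + 1) ≤ Λ * (2 * Real.log n) :=
      mul_le_mul_of_nonneg_left b1 (by linarith)
    have b4 : Λ * (2 * Real.log n) ≤ Λ * (2 * (1 / (2 * Λ) * (n : ℝ) ^ lam)) := by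
      apply mul_le_mul_of_nonneg_left _ (by linarith)
      linarith
    have b5 : Λ * (2 * (1 / (2 * Λ) * (n : ℝ) ^ lam)) = (n : ℝ) ^ lam := by
      field_simp
    linarith
  · -- hkap
    rw [rpow_pow' hn0, ← Real.rpow_natCast]
    apply Real.rpow_le_rpow_of_exponent_le hn1
    push_cast
    exact hκ2
  · -- hm
    rw [rpow_pow' hn0]
    refine le_trans ?_ hlow
    apply Real.rpow_le_rpow_of_exponent_le hn1
    push_cast
    have c1 : (1 : ℝ) / (4 * h + 4) ≤ 1 / (2 * h + 2) :=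
      one_div_le_one_div_of_le (by linarith) (by linarith)
    linarith
  · -- hm2
    rw [rpow_pow' hn0]
    have c2 : ((n : ℝ) ^ (1 / (2 * (h : ℝ) + 2) + η)) ^ (2 * h + 2) ≤ (p * n) ^ (2 * h + 2) :=
      pow_le_pow_left₀ (Real.rpow_nonneg hn0 _) hlow _
    refine le_trans ?_ c2
    rw [rpow_pow' hn0]
    have c3 : (n : ℝ) ^ (lam * ((4 * h + 6 : ℕ) : ℝ)) * n =
        (n : ℝ) ^ (lam * ((4 * h + 6 : ℕ) : ℝ) + 1) := by
      rw [Real.rpow_add hnp, Real.rpow_one]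
    rw [c3]
    apply Real.rpow_le_rpow_of_exponent_le hn1
    push_cast
    have c4 : (1 / (2 * (h : ℝ) + 2) + η) * (2 * h + 2) = 1 + (2 * h + 2) * η := by
      field_simp
      try ring
    rw [c4]
    linarith
  · -- hm3
    have c5 : (2 : ℝ) ≤ (n : ℝ) ^ (1 / 4 : ℝ) := by
      have : (2 : ℝ) = (16 : ℝ) ^ (1 / 4 : ℝ) := by
        rw [show (16 : ℝ) = 2 ^ (4 : ℕ) by norm_num, ← Real.rpow_natCast,
          ← Real.rpow_mul (by norm_num)]
        norm_num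
      rw [this]
      exact Real.rpow_le_rpow (by norm_num) hn16 (by norm_num)
    have c6 : (n : ℝ) ^ lam ≤ (n : ℝ) ^ (1 / 4 : ℝ) :=
      Real.rpow_le_rpow_of_exponent_le hn1 (by linarith)
    calc 2 * (n : ℝ) ^ lam * (p * n)
        ≤ (n : ℝ) ^ (1 / 4 : ℝ) * (n : ℝ) ^ (1 / 4 : ℝ) * (n : ℝ) ^ (1 / 2 : ℝ) := by
          apply mul_le_mul _ hup (by positivity) (by positivity)
          exact mul_le_mul c5 c6 hLpos.le (by positivity)
      _ = n := by
          rw [← Real.rpow_add hnp, ← Real.rpow_add hnp]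
          norm_num
  · -- hL4
    rw [rpow_pow' hn0]
    conv_rhs => rw [← Real.rpow_one (n : ℝ)]
    apply Real.rpow_le_rpow_of_exponent_le hn1
    push_cast
    linarith

end UpAL

open UpAL in
/-- `S_UPA` -/
theorem upa (hS : S_SPLIT) (hG : S_GOODA) (hD : S_SIDEA) : S_UPA := by
  intro h d₀ η hh hd₀ hη
  have hhr : (1 : ℝ) ≤ h := by exact_mod_cast hh
  obtain ⟨d, hd, hd1, hdd⟩ : ∃ d : ℝ, 0 < d ∧ d ≤ 1 ∧ d ≤ d₀ :=
    ⟨min d₀ 1, lt_min hd₀ one_pos, min_le_right _ _, min_le_left _ _⟩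
  obtain ⟨T, γ, hT, hγ, hγ1, hD⟩ := hD h d hh hd hd1
  set C₁ : ℝ := 2 * (2 * (T : ℝ) + 1) with hC₁
  have hC₁0 : 0 < C₁ := by positivity
  obtain ⟨lam, hlam, hl1, hl2⟩ : ∃ lam : ℝ, 0 < lam ∧ lam * (4 * h + 6) ≤ (2 * h + 2) * η ∧
      lam * (4 * h + 6) ≤ 1 / (4 * h + 4) := by
    refine ⟨min ((2 * h + 2) * η) (1 / (4 * h + 4)) / (4 * h + 6), by positivity, ?_, ?_⟩
    · rw [div_mul_cancel₀ _ (by positivity)]
      exact min_le_left _ _
    · rw [div_mul_cancel₀ _ (by positivity)]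
      exact min_le_right _ _
  obtain ⟨κ, hκ, hκC, hκl⟩ : ∃ κ : ℕ, 1 ≤ κ ∧ Real.exp 1 * C₁ ≤ κ ∧ 2 ≤ lam * κ := by
    refine ⟨⌈Real.exp 1 * C₁⌉₊ + ⌈2 / lam⌉₊ + 1, by omega, ?_, ?_⟩
    · push_cast
      have := Nat.le_ceil (Real.exp 1 * C₁)
      have h2 : (0 : ℝ) ≤ ⌈2 / lam⌉₊ := Nat.cast_nonneg _
      linarith
    · push_cast
      have h1 := Nat.le_ceil (2 / lam)
      have h2 : (0 : ℝ) ≤ ⌈Real.exp 1 * C₁⌉₊ := Nat.cast_nonneg _
      have h3 : 2 / lam ≤ (⌈Real.exp 1 * C₁⌉₊ : ℝ) + (⌈2 / lam⌉₊ : ℝ) + 1 := by linarith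
      rw [div_le_iff₀ hlam] at h3
      linarith
  obtain ⟨CP, CD, Λ₁, hCP, hCD, hΛ₁, hG⟩ := hG h κ d γ C₁ hh hκ hd hd1 hγ hγ1 hC₁0 hκC
  obtain ⟨Λ₂, hΛ₂, hD⟩ := hD CP CD hCP hCD
  obtain ⟨Λ, q0, q1, q2, q3⟩ : ∃ Λ : ℝ, 1 ≤ Λ ∧ Λ₁ ≤ Λ ∧ Λ₂ ≤ Λ ∧ 384 / d ≤ Λ :=
    ⟨max Λ₁ (max Λ₂ (384 / d)), hΛ₁.trans (le_max_left _ _), le_max_left _ _,
      (le_max_left _ _).trans (le_max_right _ _), (le_max_right _ _).trans (le_max_right _ _)⟩
  obtain ⟨N, hNum⟩ := numA h κ lam η Λ hh hlam hη hl1 hl2 hκ hκl q0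
  refine ⟨2 * T + 2 * κ, lam, N, by omega, hlam, ?_⟩
  intro n p hn hp hp1 hlow hup
  have hA := hNum n p hn hp hp1 hlow hup
  set L : ℝ := (n : ℝ) ^ lam with hLdef
  refine le_trans (Pr_mono hp.le hp1 ?_) (hG n p L (numA_mono hA q1))
  intro S _ hbad hgood
  apply hbad
  intro G hGS hcyc hdeg
  -- the edges
  set E : Finset (Sym2 (Fin n)) := univ.filter (fun e => e ∈ G.edgeSet) with hE
  have hmemE : ∀ u v, s(u, v) ∈ E ↔ G.Adj u v := by
    intro u v
    rw [hE, mem_filter, SimpleGraph.mem_edgeSet]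
    exact ⟨fun h => h.2, fun h => ⟨mem_univ _, h⟩⟩
  have hES : E ⊆ S := by
    intro e he
    induction e using Sym2.ind with
    | _ u v =>
      have h1 := hGS ((hmemE u v).mp he)
      rw [SimpleGraph.fromEdgeSet_adj] at h1
      exact_mod_cast h1.1
  have hEG : SimpleGraph.fromEdgeSet (E : Set (Sym2 (Fin n))) = G := by
    have : (E : Set (Sym2 (Fin n))) = G.edgeSet := by
      ext e
      rw [mem_coe, hE, mem_filter]
      exact ⟨fun h => h.2, fun h => ⟨mem_univ _, h⟩⟩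
    rw [this, SimpleGraph.fromEdgeSet_edgeSet]
  have hn1 : (1 : ℝ) ≤ n := by exact_mod_cast hA.hn
  have hm0 : 0 < p * n := mul_pos hp (by linarith)
  have hdegE : ∀ v, d * (p * n) ≤ ((nb E univ v).card : ℝ) := by
    intro v
    have e1 : (G.neighborSet v).ncard = (nb E univ v).card := by
      rw [← Set.ncard_coe_finset]
      congr 1
      ext u
      rw [SimpleGraph.mem_neighborSet, mem_coe]
      unfold nb
      rw [mem_filter, hmemE]
      exact ⟨fun h => ⟨mem_univ _, h⟩, fun h => h.2⟩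
    rw [← e1]
    refine le_trans ?_ (hdeg v)
    rw [← mul_assoc]
    have : d * (p * n) ≤ d₀ * (p * n) := mul_le_mul_of_nonneg_right hdd hm0.le
    linarith
  -- the splitting
  have hL1 : 1 ≤ L := q0.trans hA.hΛ
  have hL0 : 0 < L := by linarith
  set M : ℕ := ⌈L ^ 2⌉₊ with hM
  have hM1 : 1 ≤ M := Nat.one_le_ceil_iff.mpr (by positivity)
  have hM2 : (M : ℝ) ≤ 2 * L ^ 2 := by
    have h1 := (Nat.ceil_lt_add_one (show (0 : ℝ) ≤ L ^ 2 by positivity)).le
    have h2 : (1 : ℝ) ≤ L ^ 2 := one_le_pow₀ hL1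
    rw [hM]
    linarith
  have hMr : (1 : ℝ) ≤ M := by exact_mod_cast hM1
  have hexp : 12 * (n : ℝ) * Real.exp (-(d * (p * n) / (48 * M))) ≤ 1 := by
    have h1 : L ^ 10 ≤ p * n := by
      refine le_trans ?_ hA.hm
      exact pow_le_pow_right₀ hL1 (by omega)
    have h2 : 4 * L ≤ d * (p * n) / (48 * M) := by
      rw [le_div_iff₀ (by positivity)]
      have h3 : 4 * L * (48 * M) ≤ 4 * L * (48 * (2 * L ^ 2)) := by
        apply mul_le_mul_of_nonneg_left _ (by positivity)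
        linarith
      have h4 : 384 ≤ d * L := by
        have := q3.trans hA.hΛ
        rw [div_le_iff₀ hd] at this
        linarith
      have h5 : d * L ^ 10 ≤ d * (p * n) := mul_le_mul_of_nonneg_left h1 hd.le
      have h6 : 384 * L ^ 3 ≤ (d * L) * L ^ 9 := by
        have h7 : L ^ 3 ≤ L ^ 9 := pow_le_pow_right₀ hL1 (by norm_num)
        exact mul_le_mul h4 h7 (by positivity) (by positivity)
      have h8 : (d * L) * L ^ 9 = d * L ^ 10 := by ring
      have h9 : 4 * L * (48 * (2 * L ^ 2)) = 384 * L ^ 3 := by ring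
      linarith
    have h10 : Real.log n + 12 ≤ 4 * L := by
      have h11 := hA.hlog
      have h12 : Real.log n ≤ Real.log (n + 1) :=
        Real.log_le_log (by linarith) (by linarith)
      have h13 : 1 * Real.log (n + 1) ≤ Λ * Real.log (n + 1) :=
        mul_le_mul_of_nonneg_right q0 (Real.log_nonneg (by linarith))
      have h14 : (384 : ℝ) ≤ L := by
        refine le_trans ?_ (q3.trans hA.hΛ)
        rw [le_div_iff₀ hd]
        linarith
      linarith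
    have h15 : Real.exp (-(d * (p * n) / (48 * M))) ≤ Real.exp (-(Real.log n + 12)) :=
      Real.exp_le_exp.mpr (by linarith)
    have h16 : Real.exp (-(Real.log n + 12)) = (n : ℝ)⁻¹ * Real.exp (-12) := by
      rw [neg_add, Real.exp_add, Real.exp_neg (Real.log n), Real.exp_log (by linarith)]
    have h17 : Real.exp (-12) ≤ 1 / 12 := by
      rw [Real.exp_neg, ← one_div]
      apply one_div_le_one_div_of_le (by norm_num)
      have := Real.add_one_le_exp (12 : ℝ)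
      linarith
    rw [h16] at h15
    calc 12 * (n : ℝ) * Real.exp (-(d * (p * n) / (48 * M)))
        ≤ 12 * (n : ℝ) * ((n : ℝ)⁻¹ * Real.exp (-12)) :=
          mul_le_mul_of_nonneg_left h15 (by positivity)
      _ = 12 * Real.exp (-12) := by
          have : (n : ℝ) ≠ 0 := by linarith
          field_simp
      _ ≤ 1 := by linarith
  obtain ⟨A, hAd, hA1, hA2⟩ := hS n M (d * (p * n)) (fun v => nb E univ v) hM1 (by positivity)
    hdegE hexp
  have hnbA : ∀ (j : Fin 6) (v : Fin n), nb E univ v ∩ A j = nb E (A j) v := by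
    intro j v
    ext u
    simp only [nb, mem_inter, mem_filter, mem_univ, true_and]
    exact ⟨fun h => ⟨h.2, h.1⟩, fun h => ⟨h.2, h.1⟩⟩
  have hcyc' : ¬ (SimpleGraph.cycleGraph (2 * h + 5)).IsContained
      (SimpleGraph.fromEdgeSet (E : Set (Sym2 (Fin n)))) := by
    rw [hEG]; exact hcyc
  have hside : ∀ a b c : Fin 6, a ∈ ({0, 1, 3, 4} : Finset (Fin 6)) →
      b ∈ ({0, 1, 3, 4} : Finset (Fin 6)) → c ∈ ({2, 5} : Finset (Fin 6)) → a ≠ b → a ≠ c → b ≠ c →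
      ∃ (f : Fin n → ℕ) (U : Finset (Fin n)), (∀ v, f v < T) ∧
        (U.card : ℝ) ≤ (2 * T + 1) * s0 p L ∧
        ∀ u v, u ∉ A a ∪ A b ∪ A c ∪ U → v ∉ A a ∪ A b ∪ A c ∪ U → s(u, v) ∈ E → f u ≠ f v := by
    intro a b c ha hb hc hab hac hbc
    refine hD κ n p L C₁ S E (A a) (A b) (A c) (numA_mono hA q2) hgood hES hcyc'
      (hAd a b hab) (hAd a c hac) (hAd b c hbc) ?_ ?_ ?_ (hA2 c hc).2
    · intro v
      rw [← hnbA]
      exact hA1 a ha v
    · intro v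
      rw [← hnbA]
      exact hA1 b hb v
    · intro v
      rw [← hnbA]
      exact (hA2 c hc).1 v
  obtain ⟨f₁, U₁, hf₁, hU₁, hc₁⟩ := hside 0 1 2 (by decide) (by decide) (by decide) (by decide)
    (by decide) (by decide)
  obtain ⟨f₂, U₂, hf₂, hU₂, hc₂⟩ := hside 3 4 5 (by decide) (by decide) (by decide) (by decide)
    (by decide) (by decide)
  -- the exceptional vertices
  have hs0 : ((s0 p L : ℕ) : ℝ) ≤ 1 / (p * L) := Nat.floor_le (by positivity)
  have hUc : ∀ U' ⊆ U₁ ∪ U₂, (U'.card : ℝ) ≤ C₁ / (p * L) := by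
    intro U' hU'
    have h1 : (U'.card : ℝ) ≤ (U₁.card : ℝ) + (U₂.card : ℝ) := by
      exact_mod_cast (card_le_card hU').trans (card_union_le _ _)
    have h2 : C₁ * (s0 p L : ℝ) ≤ C₁ * (1 / (p * L)) := mul_le_mul_of_nonneg_left hs0 hC₁0.le
    have h3 : C₁ * (1 / (p * L)) = C₁ / (p * L) := by ring
    have h4 : C₁ * (s0 p L : ℝ) = (2 * T + 1) * s0 p L + (2 * T + 1) * s0 p L := by
      rw [hC₁]; ring
    linarith
  obtain ⟨f₃, hf₃, hc₃⟩ := degen_color S (2 * κ) (by omega) _ (U₁ ∪ U₂) rfl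
    (fun U' hU' hne => hgood.sparse U' hne (hUc U' hU'))
  -- the colouring
  set F : Fin n → ℕ := fun v => if v ∈ U₁ ∪ U₂ then 2 * T + f₃ v else
    if v ∉ A 0 ∪ A 1 ∪ A 2 then f₁ v else T + f₂ v with hF
  have hFlt : ∀ v, F v < 2 * T + 2 * κ := by
    intro v
    have a1 := hf₁ v
    have a2 := hf₂ v
    have a3 := hf₃ v
    rw [hF]
    dsimp only
    split_ifs <;> omega
  have hdis : ∀ v, v ∈ A 0 ∪ A 1 ∪ A 2 → v ∉ A 3 ∪ A 4 ∪ A 5 := by
    intro v hv hv'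
    simp only [mem_union] at hv hv'
    have key : ∀ i j : Fin 6, i ≠ j → v ∈ A i → v ∈ A j → False :=
      fun i j hij h1 h2 => (disjoint_left.mp (hAd i j hij)) h1 h2
    rcases hv with (hv | hv) | hv <;> rcases hv' with (hv' | hv') | hv' <;>
      exact key _ _ (by decide) hv hv'
  refine ⟨SimpleGraph.Coloring.mk (fun v => (⟨F v, hFlt v⟩ : Fin (2 * T + 2 * κ))) ?_⟩
  intro u v huv heq
  have heq' : F u = F v := congrArg Fin.val heq
  have hne : u ≠ v := huv.ne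
  have huvE : s(u, v) ∈ E := (hmemE u v).mpr huv
  have huvS : s(u, v) ∈ S := hES huvE
  have a1 := hf₁ u
  have a2 := hf₂ u
  have a1' := hf₁ v
  have a2' := hf₂ v
  rw [hF] at heq'
  dsimp only at heq'
  by_cases hu : u ∈ U₁ ∪ U₂
  · by_cases hv : v ∈ U₁ ∪ U₂
    · rw [if_pos hu, if_pos hv] at heq'
      exact hc₃ u hu v hv hne huvS (by omega)
    · rw [if_pos hu, if_neg hv] at heq'
      split_ifs at heq' <;> omega
  · by_cases hv : v ∈ U₁ ∪ U₂
    · rw [if_neg hu, if_pos hv] at heq'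
      split_ifs at heq' <;> omega
    · rw [if_neg hu, if_neg hv] at heq'
      have hu1 : u ∉ U₁ := fun h => hu (mem_union_left _ h)
      have hu2 : u ∉ U₂ := fun h => hu (mem_union_right _ h)
      have hv1 : v ∉ U₁ := fun h => hv (mem_union_left _ h)
      have hv2 : v ∉ U₂ := fun h => hv (mem_union_right _ h)
      by_cases hu' : u ∉ A 0 ∪ A 1 ∪ A 2
      · by_cases hv' : v ∉ A 0 ∪ A 1 ∪ A 2
        · rw [if_pos hu', if_pos hv'] at heq'
          refine hc₁ u v ?_ ?_ huvE heq'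
          · rw [mem_union]
            exact fun h => h.elim hu' hu1
          · rw [mem_union]
            exact fun h => h.elim hv' hv1
        · rw [if_pos hu', if_neg hv'] at heq'
          omega
      · by_cases hv' : v ∉ A 0 ∪ A 1 ∪ A 2
        · rw [if_neg hu', if_pos hv'] at heq'
          omega
        · rw [if_neg hu', if_neg hv'] at heq'
          rw [not_not] at hu' hv'
          refine hc₂ u v ?_ ?_ huvE (by omega)
          · rw [mem_union]
            exact fun h => h.elim (hdis u hu') hu2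
          · rw [mem_union]
            exact fun h => h.elim (hdis v hv') hv2

end Pool.Agent.H973.CT
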