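import Pool.Agent.H973.CT.Stm

set_option autoImplicit false

/-! Proof of `S_WALK`: many walks between dense subsets of a cluster. -/

namespace Pool.Agent.H973.CT

open Finset Classical

variable {n : ℕ}

namespace WalkL

/-- number of walks of length `m` from `z` to a vertex of `A` -/
noncomputable def wk (B : Finset (Sym2 (Fin n))) (A : Finset (Fin n)) (m : ℕ) (z : Fin n) : ℕ :=
  ((univ : Finset (Fin (m + 1) → Fin n)).filter
    (fun φ => chain B φ ∧ φ 0 = z ∧ φ (Fin.last m) ∈ A)).card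

theorem chain_cons {m : ℕ} {B : Finset (Sym2 (Fin n))} {z : Fin n} {φ : Fin (m + 1) → Fin n}
    (h : chain B φ) (hz : s(z, φ 0) ∈ B) :
    chain (r := m + 1) B (Fin.cons (α := fun _ => Fin n) z φ) := by
  intro i
  refine Fin.cases ?_ (fun j => ?_) i
  · have : (Fin.castSucc (0 : Fin (m + 1))) = (0 : Fin (m + 2)) := rfl
    rw [this, Fin.cons_zero, Fin.cons_succ]
    exact hz
  · rw [← Fin.succ_castSucc, Fin.cons_succ, Fin.cons_succ]
    exact h j

theorem wk_succ (B : Finset (Sym2 (Fin n))) (A : Finset (Fin n)) (m : ℕ) (z : Fin n) :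
    ∑ w ∈ univ.filter (fun w => s(z, w) ∈ B), wk B A m w ≤ wk B A (m + 1) z := by
  unfold wk
  rw [← Finset.card_sigma]
  refine Finset.card_le_card_of_injOn
    (fun q => (Fin.cons (α := fun _ => Fin n) z q.2 : Fin (m + 1 + 1) → Fin n)) ?_ ?_
  · rintro ⟨w, φ⟩ hq
    simp only [Finset.coe_sigma, Set.mem_sigma_iff, Finset.mem_coe, Finset.mem_filter,
      Finset.mem_univ, true_and] at hq
    obtain ⟨hw, hc, h0, hl⟩ := hq
    simp only [Finset.mem_coe, Finset.mem_filter, Finset.mem_univ, true_and]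
    refine ⟨chain_cons hc (by rw [h0]; exact hw), rfl, ?_⟩
    have : (Fin.last (m + 1)) = (Fin.last m).succ := rfl
    rw [this, Fin.cons_succ]
    exact hl
  · rintro ⟨w, φ⟩ hq ⟨w', φ'⟩ hq' heq
    simp only [Finset.coe_sigma, Set.mem_sigma_iff, Finset.mem_coe, Finset.mem_filter,
      Finset.mem_univ, true_and] at hq hq'
    have h2 : φ = φ' := by
      have := congrArg Fin.tail heq
      simpa using this
    subst h2
    have : w = w' := by rw [← hq.2.2.1, ← hq'.2.2.1]
    subst this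
    rfl

theorem wk_two (B : Finset (Sym2 (Fin n))) (A G W : Finset (Fin n)) (m : ℕ) (z : Fin n) (c : ℝ)
    (_hc : 0 ≤ c) (hG : ∀ g ∈ G, c ≤ (wk B A m g : ℝ)) :
    c * ∑ w ∈ W.filter (fun w => s(z, w) ∈ B), (dg B G w : ℝ) ≤ (wk B A (m + 2) z : ℝ) := by
  have h1 : ∀ w : Fin n, c * (dg B G w : ℝ) ≤ (wk B A (m + 1) w : ℝ) := by
    intro w
    calc c * (dg B G w : ℝ) = ∑ g ∈ G.filter (fun g => s(g, w) ∈ B), c := by
          rw [Finset.sum_const, nsmul_eq_mul, mul_comm]; rfl
      _ ≤ ∑ g ∈ G.filter (fun g => s(g, w) ∈ B), (wk B A m g : ℝ) :=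
          Finset.sum_le_sum (fun g hg => hG g (Finset.mem_filter.1 hg).1)
      _ ≤ ∑ g ∈ univ.filter (fun g => s(w, g) ∈ B), (wk B A m g : ℝ) := by
          refine Finset.sum_le_sum_of_subset_of_nonneg ?_ (fun _ _ _ => Nat.cast_nonneg _)
          intro g hg
          simp only [Finset.mem_filter, Finset.mem_univ, true_and] at hg ⊢
          rw [Sym2.eq_swap]; exact hg.2
      _ ≤ (wk B A (m + 1) w : ℝ) := by exact_mod_cast wk_succ B A m w
  calc c * ∑ w ∈ W.filter (fun w => s(z, w) ∈ B), (dg B G w : ℝ)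
        = ∑ w ∈ W.filter (fun w => s(z, w) ∈ B), c * (dg B G w : ℝ) := by rw [Finset.mul_sum]
    _ ≤ ∑ w ∈ W.filter (fun w => s(z, w) ∈ B), (wk B A (m + 1) w : ℝ) :=
        Finset.sum_le_sum (fun w _ => h1 w)
    _ ≤ ∑ w ∈ univ.filter (fun w => s(z, w) ∈ B), (wk B A (m + 1) w : ℝ) := by
        refine Finset.sum_le_sum_of_subset_of_nonneg ?_ (fun _ _ _ => Nat.cast_nonneg _)
        intro g hg
        simp only [Finset.mem_filter, Finset.mem_univ, true_and] at hg ⊢
        exact hg.2
    _ ≤ (wk B A (m + 2) z : ℝ) := by exact_mod_cast wk_succ B A (m + 1) z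

/-- double counting -/
theorem dcount (B : Finset (Sym2 (Fin n))) (D G W : Finset (Fin n)) :
    ∑ w ∈ W, (dg B D w : ℝ) * dg B G w =
      ∑ z ∈ D, ∑ w ∈ W.filter (fun w => s(z, w) ∈ B), (dg B G w : ℝ) := by
  have h1 : ∀ w ∈ W, (dg B D w : ℝ) * dg B G w =
      ∑ z ∈ D, if s(z, w) ∈ B then (dg B G w : ℝ) else 0 := by
    intro w _
    rw [← Finset.sum_filter, Finset.sum_const, nsmul_eq_mul]
    rfl
  rw [Finset.sum_congr rfl h1, Finset.sum_comm]
  refine Finset.sum_congr rfl (fun z _ => ?_)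
  rw [Finset.sum_filter]

end WalkL

open WalkL in
theorem walk : S_WALK := by
  intro h n B Zc W β q hh hβ hβ2 hq hc A A' hA hA' hcA hcA'
  rcases Zc.eq_empty_or_nonempty with h0 | hne
  · subst h0
    simp only [Finset.card_empty, Nat.cast_zero, mul_zero, zero_mul]
    exact Nat.cast_nonneg _
  have hZ : (0 : ℝ) < Zc.card := by exact_mod_cast hne.card_pos
  have hpos : 0 < β * Zc.card := mul_pos hβ hZ
  -- the one step statement
  have step : ∀ G : Finset (Fin n), G ⊆ Zc → β * Zc.card ≤ G.card →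
      ((Zc.filter (fun z => ∑ w ∈ W.filter (fun w => s(z, w) ∈ B), (dg B G w : ℝ) < q)).card : ℝ)
        < β * Zc.card := by
    intro G hG hGc
    by_contra hcon
    push Not at hcon
    set D := Zc.filter (fun z => ∑ w ∈ W.filter (fun w => s(z, w) ∈ B), (dg B G w : ℝ) < q) with hD
    have h1 := hc D G (Finset.filter_subset _ _) hG hcon hGc
    rw [dcount] at h1
    have hDne : D.Nonempty := by
      rw [← Finset.card_pos]
      have : (0 : ℝ) < D.card := lt_of_lt_of_le hpos hcon
      exact_mod_cast this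
    have h2 : ∑ z ∈ D, ∑ w ∈ W.filter (fun w => s(z, w) ∈ B), (dg B G w : ℝ) < ∑ _z ∈ D, q :=
      Finset.sum_lt_sum_of_nonempty hDne (fun z hz => (Finset.mem_filter.1 hz).2)
    rw [Finset.sum_const, nsmul_eq_mul, mul_comm] at h2
    linarith
  -- induction
  have key : ∀ r : ℕ, ∃ G : Finset (Fin n), G ⊆ Zc ∧ β * Zc.card ≤ G.card ∧
      (∀ z ∈ G, q ^ r ≤ (wk B A' (2 * r) z : ℝ)) ∧
      (1 ≤ r → ((Zc \ G).card : ℝ) < β * Zc.card) := by
    intro r
    induction r with
    | zero =>
      refine ⟨A', hA', by nlinarith, ?_, fun h => absurd h (by norm_num)⟩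
      intro z hz
      have : 1 ≤ wk B A' (2 * 0) z := by
        unfold wk
        rw [Nat.one_le_iff_ne_zero, ← Nat.pos_iff_ne_zero, Finset.card_pos]
        refine ⟨fun _ => z, ?_⟩
        simp only [Finset.mem_filter, Finset.mem_univ, true_and]
        exact ⟨fun i => Fin.elim0 i, hz⟩
      simpa using (show (1 : ℝ) ≤ (wk B A' (2 * 0) z : ℝ) by exact_mod_cast this)
    | succ r ih =>
      obtain ⟨G, hG, hGc, hGw, -⟩ := ih
      have hs := step G hG hGc
      refine ⟨Zc.filter (fun z => q ≤ ∑ w ∈ W.filter (fun w => s(z, w) ∈ B), (dg B G w : ℝ)),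
        Finset.filter_subset _ _, ?_, ?_, ?_⟩
      · have hadd : ((Zc.filter (fun z => ∑ w ∈ W.filter (fun w => s(z, w) ∈ B),
            (dg B G w : ℝ) < q)).card : ℝ) +
            ((Zc.filter (fun z => q ≤ ∑ w ∈ W.filter (fun w => s(z, w) ∈ B),
              (dg B G w : ℝ))).card : ℝ) = Zc.card := by
          have := Finset.card_filter_add_card_filter_not (s := Zc)
            (fun z => ∑ w ∈ W.filter (fun w => s(z, w) ∈ B), (dg B G w : ℝ) < q)
          simp only [not_lt] at this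
          exact_mod_cast this
        nlinarith
      · intro z hz
        have hz2 := (Finset.mem_filter.1 hz).2
        have h1 := wk_two B A' G W (2 * r) z (q ^ r) (by positivity) hGw
        have h2 : q ^ (r + 1) ≤ q ^ r * ∑ w ∈ W.filter (fun w => s(z, w) ∈ B), (dg B G w : ℝ) := by
          rw [pow_succ]
          exact mul_le_mul_of_nonneg_left hz2 (by positivity)
        exact le_trans h2 h1
      · intro _
        refine lt_of_le_of_lt ?_ hs
        have : Zc \ (Zc.filter (fun z => q ≤ ∑ w ∈ W.filter (fun w => s(z, w) ∈ B),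
            (dg B G w : ℝ))) ⊆ Zc.filter (fun z => ∑ w ∈ W.filter (fun w => s(z, w) ∈ B),
            (dg B G w : ℝ) < q) := by
          intro z hz
          rw [Finset.mem_sdiff] at hz
          rw [Finset.mem_filter]
          refine ⟨hz.1, ?_⟩
          by_contra hcon
          push Not at hcon
          exact hz.2 (Finset.mem_filter.2 ⟨hz.1, hcon⟩)
        exact_mod_cast Finset.card_le_card this
  obtain ⟨G, hG, -, hGw, hGs⟩ := key h
  have hGs := hGs hh
  -- count
  have hfib : ((univ : Finset (Fin (2 * h + 1) → Fin n)).filter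
      (fun φ => chain B φ ∧ φ 0 ∈ A ∧ φ (Fin.last (2 * h)) ∈ A')).card =
      ∑ z ∈ A, wk B A' (2 * h) z := by
    rw [Finset.card_eq_sum_card_fiberwise (f := fun φ => φ 0) (t := A)]
    · refine Finset.sum_congr rfl (fun z hz => ?_)
      unfold wk
      rw [Finset.filter_filter]
      congr 1
      ext φ
      simp only [Finset.mem_filter, Finset.mem_univ, true_and]
      constructor
      · rintro ⟨⟨a, b, c⟩, d⟩
        exact ⟨a, d, c⟩
      · rintro ⟨a, b, c⟩
        exact ⟨⟨a, by rw [b]; exact hz, c⟩, b⟩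
    · intro φ hφ
      simp only [Finset.mem_coe, Finset.mem_filter, Finset.mem_univ, true_and] at hφ
      exact hφ.2.1
  rw [hfib]
  push_cast
  have h3 : β * Zc.card ≤ ((A ∩ G).card : ℝ) := by
    have h4 : (A.card : ℝ) ≤ ((A ∩ G).card : ℝ) + ((Zc \ G).card : ℝ) := by
      have h5 : A ⊆ (A ∩ G) ∪ (Zc \ G) := by
        intro z hz
        rw [Finset.mem_union, Finset.mem_inter, Finset.mem_sdiff]
        by_cases hzG : z ∈ G
        · exact Or.inl ⟨hz, hzG⟩
        · exact Or.inr ⟨hA hz, hzG⟩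
      have h6 := (Finset.card_le_card h5).trans (Finset.card_union_le _ _)
      exact_mod_cast h6
    linarith
  calc β * Zc.card * q ^ h ≤ ((A ∩ G).card : ℝ) * q ^ h :=
        mul_le_mul_of_nonneg_right h3 (by positivity)
    _ = ∑ _z ∈ A ∩ G, q ^ h := by rw [Finset.sum_const, nsmul_eq_mul]
    _ ≤ ∑ z ∈ A ∩ G, (wk B A' (2 * h) z : ℝ) :=
        Finset.sum_le_sum (fun z hz => hGw z (Finset.mem_inter.1 hz).2)
    _ ≤ ∑ z ∈ A, (wk B A' (2 * h) z : ℝ) :=
        Finset.sum_le_sum_of_subset_of_nonneg Finset.inter_subset_left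
          (fun _ _ _ => Nat.cast_nonneg _)

end Pool.Agent.H973.CT
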